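import Pool.Agent.FrNar.Defs
import Pool.Agent.FrEight.ClsB

/-! Frozen narrowness in terms of root data; a pigeonhole principle. -/

set_option autoImplicit false

namespace Pool.Agent.UltPos

open Pool.Agent.PT Pool.Agent.AllR Pool.Agent.DD7719.M Pool.Agent.DD7719 Finset Pool.Agent.FrUP

/-- PROOF: `isExpansion_rp`, `frozen_rp` and `frozen_unique` (`FrozenUP/Expand.lean`): the sequence frozen at
`x` of any expansion of `v` is `fun n => (fs l c ex x n).re`; `Set.range l = I.rootSet` (`hrange` in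
`Inst.ncard_le_eight`). -/
theorem Inst.frozenNarrow_fs (I : Inst) (aR uR : ℕ → ℝ)
    (ha : ∀ t (h : t < I.k), aR t = (I.a ⟨t, h⟩ : ℝ)) (hu : ∀ t (h : t < I.k), uR t = (I.u ⟨t, h⟩ : ℝ))
    (v : ℕ → ℚ) (hv : I.IsSeq v) {l c : ℕ → ℂ} {ex : ℕ → ℕ} (hrd : RootData I.k aR uR l c ex) :
    I.FrozenNarrow ↔ ∃ τ : ℚ, ∀ x : ℚ, τ ≤ x → IsNarrow (fun n => (fs (fun i : Fin I.k => l i)
      (fun i => c i) (fun i => ex i) (x : ℝ) n).re) (Set.range fun i : Fin I.k => l i) := by
  classical
  have hrange : Set.range (fun i : Fin I.k => l i) = I.rootSet := by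
    ext z
    constructor
    · rintro ⟨i, rfl⟩
      exact I.root_mem aR uR ha hrd i
    · intro hz
      obtain ⟨i, hi⟩ := I.root_surj aR uR ha hrd z hz
      exact ⟨i, hi⟩
  have hexp := isExpansion_rp (fun i : Fin I.k => l i) (fun i => c i) (fun i => ex i)
    (fun i => hrd.1 i i.2) v (I.all' aR uR ha hu v hv hrd)
  rw [hrange]
  constructor
  · intro h
    obtain ⟨S, p, hS, τ, hτ⟩ := h v hv
    refine ⟨τ, fun x hx => ?_⟩
    have h1 := hτ x hx
    have h2 : frozen S p (x : ℝ) = fun n => (fs (fun i : Fin I.k => l i)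
        (fun i => c i) (fun i => ex i) (x : ℝ) n).re := by
      funext n
      rw [← frozen_rp, frozen, frozen, frozen_unique hS hexp]
    rwa [h2] at h1
  · rintro ⟨τ, hτ⟩ w hw
    have hwv : w = v := I.exists_unique_seq.unique hw hv
    subst hwv
    refine ⟨_, _, hexp, τ, fun x hx => ?_⟩
    have h1 := hτ x hx
    have h2 := funext (frozen_rp (fun i : Fin I.k => l i) (fun i => c i) (fun i => ex i) (x : ℝ))
    rw [h2]
    exact h1

/-- **Pigeonhole.** PROOF: otherwise every `a` has a bound `X a`; take the largest. -/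
theorem exists_freq {α : Type} [Finite α] (P : α → ℝ → Prop)
    (h : ∀ X : ℝ, ∃ x : ℝ, X < x ∧ ∃ a, P a x) : ∃ a, ∀ X : ℝ, ∃ x : ℝ, X < x ∧ P a x := by
  classical
  have := Fintype.ofFinite α
  by_contra hcon
  push Not at hcon
  choose X hX using hcon
  obtain ⟨x, hx, a, ha⟩ := h (∑ a, |X a|)
  refine hX a x (lt_of_le_of_lt ?_ hx) ha
  exact (le_abs_self _).trans
    (Finset.single_le_sum (f := fun a => |X a|) (fun b _ => abs_nonneg _) (Finset.mem_univ a))

end Pool.Agent.UltPos
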