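import Pool.Agent.FrNar.Torus
import Pool.Agent.FrEight.ClsB

/-! The level of a class of the frozen sequences. -/

set_option autoImplicit false

namespace Pool.Agent.FrNar

open Finset Polynomial Complex Filter Topology
open Pool.Agent.DD7719 Pool.Agent.DD7719.M Pool.Agent.DD7719.M.GS Pool.Agent.FrUP

variable {k : ℕ}

/-- the level of a class: the largest absolute value with a nonzero coefficient polynomial -/
structure IsLvl (l c : Fin k → ℂ) (ex : Fin k → ℕ) (n0 j : ℕ) (i0 : Fin k) : Prop where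
  ne : l i0 ≠ 0
  top : gP l c ex n0 j (l i0 ^ n0) ≠ 0
  van : ∀ i, ‖l i0‖ < ‖l i‖ → gP l c ex n0 j (l i ^ n0) = 0

/-- PROOF: if all `gP .. (l i ^ n0)` with `l i ≠ 0` vanish then all frozen sequences vanish on the class
(`fs_zero_of_gP`, as in `Inst.exists_clsX` of `FrEight/Cls.lean`), against `hτ` at `x = τ`, `n = j + n0 * N`.
Otherwise take `i0` with the largest `‖l i‖` among the `i` with `l i ≠ 0` and `gP ≠ 0`
(`Finset.exists_max_image`); `‖l i0‖ < ‖l i‖` implies `l i ≠ 0`. -/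
theorem exists_lvl (l c : Fin k → ℂ) (ex : Fin k → ℕ) (n0 j : ℕ) (hn0 : 0 < n0)
    (hexj : ∀ i, ex i ≤ j) (τ : ℚ)
    (hτ : ∀ x : ℚ, τ ≤ x → ∃ N : ℕ, ∀ n : ℕ, N ≤ n → 0 < (fs l c ex (x : ℝ) n).re) :
    ∃ i0, IsLvl l c ex n0 j i0 := by
  classical
  by_cases hne : ∃ i, l i ≠ 0 ∧ gP l c ex n0 j (l i ^ n0) ≠ 0
  · obtain ⟨i1, h1⟩ := hne
    obtain ⟨i0, hi0, hmax⟩ := Finset.exists_max_image
      (Finset.univ.filter fun i => l i ≠ 0 ∧ gP l c ex n0 j (l i ^ n0) ≠ 0) (fun i => ‖l i‖)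
      ⟨i1, Finset.mem_filter.mpr ⟨Finset.mem_univ _, h1⟩⟩
    obtain ⟨-, h2, h3⟩ := Finset.mem_filter.mp hi0
    refine ⟨i0, h2, h3, fun i hi => ?_⟩
    by_contra h4
    have h5 : l i ≠ 0 := by
      intro h0
      rw [h0, norm_zero] at hi
      exact absurd hi (not_lt.mpr (norm_nonneg _))
    have h6 := hmax i (Finset.mem_filter.mpr ⟨Finset.mem_univ _, h5, h4⟩)
    exact absurd hi (not_lt.mpr h6)
  · exfalso
    push Not at hne
    obtain ⟨N, hN⟩ := hτ τ le_rfl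
    have h3 := hN (j + n0 * N) (by
      have : N ≤ n0 * N := Nat.le_mul_of_pos_left N hn0
      omega)
    rw [fs_zero_of_gP l c ex n0 j hn0 hexj hne] at h3
    simp at h3

end Pool.Agent.FrNar
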