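import Pool.Agent.FrNar.Lvl
import Pool.Agent.FrEight.ClsB

/-! The level of a class of the frozen sequences. -/

set_option autoImplicit false

namespace Pool.Agent.FrNar

open Finset Polynomial Complex Filter Topology
open Pool.Agent.DD7719 Pool.Agent.DD7719.M Pool.Agent.DD7719.M.GS Pool.Agent.FrUP

variable {k : ℕ}

/-- The level function of the frozen sequence at `x` does not vanish identically if the top coefficient
polynomial does not vanish at `x`.

PROOF: as the end of the proof of `class_data1` (`FrNar/Torus.lean`) for the data `(l, fc l c ex x, 0)` and the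
sequence `fun n => (fs l c ex x n).re` (`goodD_frz .. hg x`): `level_asym` (its vanishing hypothesis by
`van_frz`), `level_data` (third part) and `levelSum_not_tendsto`, whose hypothesis `grp l (fc l c ex x) 0 n0 j
(l i0 ^ n0) 0 ≠ 0` is `gP_eval` (the value of `gP .. (l i0 ^ n0)` at `x` is `∑ i with l i ^ n0 = l i0 ^ n0, c i *
bc (ex i) x * l i ^ (j - ex i)`, and `fc_mul_pow`). This gives `m` with `(levelSum ..).re ≠ 0`, and
`levelSum_eq` with `levF_frz` turns it into `LevX .. (orb y m)`. -/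
theorem lev_ne (l c : Fin k → ℂ) (ex : Fin k → ℕ) (R M : ℕ) (ε δ : ℝ) (v : ℕ → ℝ)
    (hg : GoodD k l c ex R M ε δ v) (n0 j : ℕ) (hn0 : 0 < n0) (hj : k ≤ j)
    (A : Fin k → Fin k → ℤ) (s : ℕ) (y : Fin k → ℝ) (hrep : Rep l n0 A s y) (i0 : Fin k)
    (hi0 : IsLvl l c ex n0 j i0) (x : ℝ)
    (hx : (gP l c ex n0 j (l i0 ^ n0)).eval (x : ℂ) ≠ 0) :
    ∃ z : Fin k → ℂ, (∀ t, ‖z t‖ = 1) ∧ (LevX l c ex A s j ‖l i0‖ x z).re ≠ 0 := by
  classical
  have hexj : ∀ i, ex i ≤ j := fun i => (hg.hex i).le.trans hj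
  have hi : l i0 ≠ 0 := hi0.ne
  have hρ : 0 < ‖l i0‖ := norm_pos_iff.mpr hi
  have hg' : GoodD k l (fc l c ex x) (fun _ => 0) R M ε δ (fun n => (fs l c ex x n).re) :=
    goodD_frz l c ex R M ε δ v hg x
  have hvan := van_frz l c ex n0 j hn0 hexj ‖l i0‖ hρ.le hi0.van x
  have hlev := level_asym l (fc l c ex x) (fun _ : Fin k => 0) n0 j hn0 (fun _ => Nat.zero_le _)
    ‖l i0‖ 0 hρ hvan
  have hasym : Tendsto (fun M : ℕ => (((fs l c ex x (j + n0 * M)).re : ℝ) : ℂ) /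
        ((‖l i0‖ ^ (n0 * M) * (M : ℝ) ^ 0 : ℝ) : ℂ) -
      ((((j + n0 * M).choose 0 : ℝ) / (M : ℝ) ^ 0 : ℝ) : ℂ) *
        levelSum l (fc l c ex x) (fun _ => 0) n0 j ‖l i0‖ 0 M) atTop (𝓝 0) := by
    refine hlev.congr fun M => ?_
    rw [hg'.hv]
  obtain ⟨-, -, h3, -⟩ := level_data l (fc l c ex x) (fun _ : Fin k => 0) n0 j hn0
    (fun n => (fs l c ex x n).re) ‖l i0‖ 0 hρ hasym
  have hG : grp l (fc l c ex x) (fun _ : Fin k => 0) n0 j (l i0 ^ n0)
      ((fun _ : Fin k => 0) i0) ≠ 0 := by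
    intro h0
    apply hx
    rw [gP_eval]
    rw [grp] at h0
    rw [← h0]
    have hf : (Finset.univ.filter fun i => l i ^ n0 = l i0 ^ n0) =
        Finset.univ.filter fun i => l i ^ n0 = l i0 ^ n0 ∧
          (fun _ : Fin k => 0) i = (fun _ : Fin k => 0) i0 := by
      ext i
      simp
    rw [← hf]
    refine Finset.sum_congr rfl fun i hi' => ?_
    have h4 : l i ^ n0 = l i0 ^ n0 := (Finset.mem_filter.mp hi').2
    have h5 : l i ≠ 0 := by
      intro h6
      rw [h6, zero_pow hn0.ne'] at h4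
      exact hi (pow_eq_zero_iff hn0.ne' |>.mp h4.symm)
    rw [bcP_eval_real, Nat.sub_zero, fc_mul_pow l c ex x j i (hexj i) h5]
  have hnt := levelSum_not_tendsto l (fc l c ex x) (fun _ : Fin k => 0) n0 j hn0 i0 hi hG 1 0
    (fun i _ h => by simpa using h)
  have hM : ∃ M, (levelSum l (fc l c ex x) (fun _ => 0) n0 j ‖l i0‖ 0 M).re ≠ 0 := by
    by_contra hcon
    push Not at hcon
    apply hnt
    simpa using h3 hcon
  obtain ⟨m, hm⟩ := hM
  have hval := levelSum_eq l (fc l c ex x) (fun _ : Fin k => 0) n0 j 0 ‖l i0‖ s A y hrep.1 hrep.2 m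
  rw [hval, levF_frz l c ex A s j hexj ‖l i0‖ hρ x] at hm
  exact ⟨orb y m, norm_orb y m, hm⟩

end Pool.Agent.FrNar
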