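import Pool.Agent.O9.Case
import Pool.Agent.UltPos.Narrow
import Pool.Agent.FrEight.Frz

/-! Classes of an ultimately positive narrow sequence. -/

set_option autoImplicit false

namespace Pool.Agent.FrNar

open Complex Filter Topology
open Pool.Agent.DD7719 Pool.Agent.DD7719.M Pool.Agent.DD7719.M.GS

variable {k : ℕ}

/-- **A class of a narrow sequence**, with the modulus `N` of the narrowness, which need not be `n0`.

PROOF: as `case_of_narrow` (`O9/Case.lean`), with `N` in place of the first `n0` everywhere (`nar_cls` and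
`contact_of_zero` have the general modulus `N`; `contactSet` and `contact` agree by definition): take `ρJ`, `B`
and the alternative of `hnar` for the class `j % N`. -/
theorem case_narN (l c : Fin k → ℂ) (ex : Fin k → ℕ) (R M Nb : ℕ) (ε δ : ℝ) (v : ℕ → ℝ)
    (hg : GoodD k l c ex R M ε δ v) (hup : ∃ N0, ∀ n, N0 ≤ n → 0 < v n)
    (n0 j : ℕ) (A H : Fin k → Fin k → ℤ) (D : ℤ) (s : ℕ) (w : Fin k → Fin k → ℝ)
    (τ : Fin k → ℝ) (ρ : ℝ) (hρ : 0 < ρ) (hbase : BaseF k l c ex M Nb ε δ n0 j A H D s w τ ρ 0)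
    (z' : Fin k → ℂ) (hz' : ∀ t, ‖z' t‖ = 1)
    (hne : (LevF l c ex A s j 0 ρ z').re ≠ 0)
    (hF : ∀ z : Fin k → ℂ, (∀ t, ‖z t‖ = 1) → 0 ≤ (LevF l c ex A s j 0 ρ z).re)
    (hnar : UltPos.IsNarrow v (Set.range l)) :
    (∀ z : Fin k → ℂ, (∀ t, ‖z t‖ = 1) → 0 < (LevF l c ex A s j 0 ρ z).re) ∨
      ∃ i i', ‖l i‖ = ‖l i'‖ ∧ (∀ n : ℕ, 0 < n → l i ^ n ≠ l i' ^ n) ∧
        ((fun z : Fin k → ℂ => Wt A s z i / Wt A s z i') ''
        {z | (∀ t, ‖z t‖ = 1) ∧ (LevF l c ex A s j 0 ρ z).re = 0}).Finite := by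
  classical
  obtain ⟨N0, hN0⟩ := hup
  obtain ⟨N, hN, hcl⟩ := hnar
  obtain ⟨ρJ, hρJ, ⟨B, hB⟩, hnar⟩ := hcl (j % N) (Nat.mod_lt _ hN)
  have hn0 : 0 < n0 := hbase.1
  have hge : ∀ᶠ m : ℕ in atTop, 0 ≤ v (N * m + j % N) / ρJ ^ m := by
    filter_upwards [eventually_ge_atTop N0] with m hm
    refine div_nonneg (hN0 _ ?_).le (by positivity)
    exact (hm.trans (Nat.le_mul_of_pos_left m hN)).trans (Nat.le_add_right _ _)
  have hle : ∀ m : ℕ, v (N * m + j % N) / ρJ ^ m ≤ B := by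
    intro m
    rw [div_le_iff₀ (by positivity)]
    exact (le_abs_self _).trans (hB m)
  have hbelow : IsBoundedUnder (· ≥ ·) atTop (fun m : ℕ => v (N * m + j % N) / ρJ ^ m) :=
    ⟨0, eventually_map.mpr hge⟩
  have habove : IsCoboundedUnder (· ≥ ·) atTop (fun m : ℕ => v (N * m + j % N) / ρJ ^ m) :=
    IsBoundedUnder.isCoboundedUnder_ge ⟨B, eventually_map.mpr (Eventually.of_forall hle)⟩
  have hev : liminf (fun m : ℕ => v (N * m + j % N) / ρJ ^ m) atTop ≠ 0 →
      0 < liminf (fun m : ℕ => v (N * m + j % N) / ρJ ^ m) atTop ∧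
      ∀ᶠ m : ℕ in atTop, liminf (fun m : ℕ => v (N * m + j % N) / ρJ ^ m) atTop / 2 <
        v (N * m + j % N) / ρJ ^ m := by
    intro hl
    have hl0 : 0 ≤ liminf (fun m : ℕ => v (N * m + j % N) / ρJ ^ m) atTop :=
      le_liminf_of_le habove hge
    have hl1 : 0 < liminf (fun m : ℕ => v (N * m + j % N) / ρJ ^ m) atTop :=
      lt_of_le_of_ne hl0 hl.symm
    exact ⟨hl1, eventually_lt_of_lt_liminf (half_lt_self hl1) hbelow⟩
  have hnot : ∀ a0 b0 : ℕ, 0 < b0 → ¬ Tendsto (fun n : ℕ => v (N * (a0 + b0 * n) + j % N) /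
      ρJ ^ (a0 + b0 * n)) atTop (𝓝 0) := by
    intro a0 b0 hb0 hten
    rcases hnar with hl | ⟨a, _, b, _, hab, hnt, hfin⟩
    · obtain ⟨hl1, hev⟩ := hev hl
      have hsub : Tendsto (fun n : ℕ => a0 + b0 * n) atTop atTop :=
        tendsto_atTop_mono (fun n => (Nat.le_mul_of_pos_left n hb0).trans (Nat.le_add_left _ _))
          tendsto_id
      have h1 := hsub.eventually hev
      have h2 := hten.eventually_lt_const (half_pos hl1)
      obtain ⟨n, h3, h4⟩ := (h1.and h2).exists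
      exact lt_asymm h3 h4
    · have hb0' : b ≠ 0 := by
        rintro rfl
        rw [norm_zero, norm_eq_zero] at hab
        exact hnt 1 one_pos (by rw [hab])
      refine contact_infinite v N (j % N) hN ρJ (a / b) (unit_of_ratio _ _ hab hb0') ?_ a0 b0
        hb0 hten hfin
      intro n hn h1
      rw [div_pow, div_eq_one_iff_eq (pow_ne_zero _ hb0')] at h1
      exact hnt n hn h1
  obtain ⟨-, happ⟩ := nar_cls l c ex R M Nb ε δ v hg n0 j A H D s w τ ρ 0 hbase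
    hρ z' hz' hne N hN ρJ B hρJ hB (hnot (j / N) n0 hn0)
  rcases hnar with hl | ⟨a, ⟨i, rfl⟩, b, ⟨i', rfl⟩, hab, hnt, hfin⟩
  · left
    intro z hz
    refine lt_of_le_of_ne (hF z hz) fun h0 => ?_
    obtain ⟨hl1, hev⟩ := hev hl
    obtain ⟨N1, hN1⟩ := eventually_atTop.1 hev
    obtain ⟨m, hm, h1, -⟩ := happ z hz
      (liminf (fun m : ℕ => v (N * m + j % N) / ρJ ^ m) atTop / 2) (half_pos hl1) N1
    rw [← h0, zero_div, sub_zero] at h1
    exact absurd ((le_abs_self _).trans h1) (not_le.2 (hN1 m hm))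
  · right
    have hb0' : l i' ≠ 0 := by
      intro h
      rw [h, norm_zero, norm_eq_zero] at hab
      exact hnt 1 one_pos (by rw [hab, h])
    have hC : (l i / l i') ^ j ≠ 0 := by
      refine pow_ne_zero _ fun h => ?_
      have h1 := unit_of_ratio _ _ hab hb0'
      rw [h, norm_zero] at h1
      exact zero_ne_one h1
    refine ⟨i, i', hab, hnt, (hfin.image fun w => ((l i / l i') ^ j)⁻¹ * w).subset ?_⟩
    rintro _ ⟨z, ⟨hz, h0⟩, rfl⟩
    exact ⟨_, contact_of_zero l c ex v N j ρJ A s 0 ρ i i' hab hb0' happ z hz h0,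
      inv_mul_cancel_left₀ hC _⟩

end Pool.Agent.FrNar
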