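import Pool.Agent.FrNar.TorI

/-! Base data at the levels of an instance. -/

set_option autoImplicit false

namespace Pool.Agent.UltPos

open Pool.Agent.PT Pool.Agent.AllR Pool.Agent.DD7719.M Pool.Agent.DD7719 Finset Pool.Agent.FrUP

/-- the base data at a level above which the coefficient polynomials vanish, for the sequence and for the
frozen sequences

PROOF: `base` with `ρ`, `k - 1`: the vanishing condition by `sum_eq_zero_of_gP` and `above_iff` (as in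
`base_unfrz`, `FrEight/Frz2.lean`); the second part is `(base_frz ..).1` (`FrEight/Frz1.lean`). -/
theorem TorOK.base2 {k L : ℕ} {l : Fin k → ℂ} {n0 : ℕ} {A H : Fin k → Fin k → ℤ} {D : ℤ} {s : ℕ}
    {w : Fin k → Fin k → ℝ} {τ y : Fin k → ℝ} (h : TorOK k L l n0 A H D s w τ y) (hk : 0 < k)
    (c : Fin k → ℂ) (ex : Fin k → ℕ) (hex : ∀ i, ex i < k)
    (hdc : ∀ i, ∀ e, e < ex i → ∃ i', l i' = l i ∧ ex i' = e) (j : ℕ) (hj : k ≤ j)
    (hj' : j < k + n0) (ρ : ℝ) (hρ : 0 ≤ ρ) (hgP : ∀ i, ρ < ‖l i‖ → gP l c ex n0 j (l i ^ n0) = 0) :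
    BaseF k l c ex (2 ^ pmh L) (2 ^ (1 + 2 * L * L + (pdl L + 3) * L))
      (2 / ((2 ^ pq L : ℕ) : ℝ)) (1 / 2 ^ pdl L) n0 j A H D s w τ ρ (k - 1) ∧
    ∀ x : ℝ, BaseF k l (fc l c ex x) (fun _ => 0) (2 ^ pmh L)
      (2 ^ (1 + 2 * L * L + (pdl L + 3) * L)) (2 / ((2 ^ pq L : ℕ) : ℝ)) (1 / 2 ^ pdl L) n0 j
      A H D s w τ ρ 0 := by
  classical
  have hexj : ∀ i, ex i ≤ j := fun i => (hex i).le.trans hj
  have hb : BaseF k l c ex (2 ^ pmh L) (2 ^ (1 + 2 * L * L + (pdl L + 3) * L))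
      (2 / ((2 ^ pq L : ℕ) : ℝ)) (1 / 2 ^ pdl L) n0 j A H D s w τ ρ (k - 1) := by
    refine h.base c ex j ρ (k - 1) hj hj' hρ (by omega) ?_
    intro m _
    have e1 := sum_eq_zero_of_gP l c ex n0 j hexj (fun i => ρ < ‖l i‖) (by
      intro i i' h1 h2
      rwa [← GS.norm_eq_of_pow_eq h.pos h1]) hgP m
    refine Eq.trans (Finset.sum_congr rfl fun i _ => ?_) e1
    have e2 : Above ρ (k - 1) (l i) (ex i) ↔ ρ < ‖l i‖ := above_iff (by omega) (hex i)
    simp only [e2]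
  exact ⟨hb, fun x => (base_frz l c ex hex hdc _ _ _ _ n0 j A H D s w τ ρ (k - 1) (by omega)
    hb x).1⟩

end Pool.Agent.UltPos
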