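import Pool.Agent.FrEight.Frz
import Pool.Agent.DD7719.NNar

/-! The lower bound and the liminf of a class with positive values on the torus. -/

set_option autoImplicit false

namespace Pool.Agent.FrUP

open Complex Filter Topology
open Pool.Agent.DD7719.M Pool.Agent.DD7719

/-- the lower bound of a class with positive values on the torus (as in `cls_liminf`) -/
theorem cls_low {k : ℕ} (l c : Fin k → ℂ) (ex : Fin k → ℕ) (n0 j : ℕ) (hn0 : 0 < n0)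
    (hexj : ∀ i, ex i ≤ j) (v : ℕ → ℝ)
    (hv : ∀ n, ∑ i, c i * (n.choose (ex i) : ℂ) * l i ^ (n - ex i) = (v n : ℂ))
    (ρ : ℝ) (hρ : 0 < ρ) (hvan : open scoped Classical in ∀ m, ∑ i, (if Above ρ 0 (l i) (ex i)
        then c i * ((j + n0 * m).choose (ex i) : ℂ) * l i ^ (j + n0 * m - ex i) else 0) = 0)
    (A : Fin k → Fin k → ℤ) (s : ℕ) (x : Fin k → ℝ) (hrep : Rep l n0 A s x)
    (hpos : ∀ z : Fin k → ℂ, (∀ t, ‖z t‖ = 1) → 0 < (LevF l c ex A s j 0 ρ z).re)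
    (J q : ℕ) (hJ : j = J + n0 * q) :
    ∃ b : ℝ, 0 < b ∧ ∀ᶠ m : ℕ in atTop, b ≤ v (n0 * m + J) / (ρ ^ n0) ^ m := by
  classical
  obtain ⟨μ, hμ, hμb⟩ := exists_torus_bound l c ex A s j 0 ρ hpos
  have hlev := GS.level_asym l c ex n0 j hn0 hexj ρ 0 hρ hvan
  have hasym : Tendsto (fun M : ℕ => ((v (j + n0 * M) : ℝ) : ℂ) /
        ((ρ ^ (n0 * M) * (M : ℝ) ^ 0 : ℝ) : ℂ) -
      ((((j + n0 * M).choose 0 : ℝ) / (M : ℝ) ^ 0 : ℝ) : ℂ) *
        GS.levelSum l c ex n0 j ρ 0 M)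
      atTop (𝓝 0) := by
    refine hlev.congr fun M => ?_
    rw [hv]
  obtain ⟨-, -, -, h4⟩ := GS.level_data l c ex n0 j hn0 v ρ 0 hρ hasym
  obtain ⟨b, hb, hb'⟩ := h4 μ hμ (fun M => by
    rw [levelSum_eq l c ex n0 j 0 ρ s A x hrep.1 hrep.2 M]
    exact hμb _ (norm_orb x M))
  have hρn : 0 < ρ ^ n0 := by positivity
  refine ⟨b / (ρ ^ n0) ^ q, by positivity, ?_⟩
  have hsub : Tendsto (fun m : ℕ => m - q) atTop atTop := tendsto_sub_atTop_nat q
  filter_upwards [hsub.eventually hb', eventually_ge_atTop q] with m h2 hm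
  obtain ⟨r, rfl⟩ := Nat.exists_eq_add_of_le hm
  rw [Nat.add_sub_cancel_left, pow_zero, mul_one] at h2
  have e1 : j + n0 * r = n0 * (q + r) + J := by
    rw [hJ]
    ring
  rw [e1] at h2
  rw [div_le_div_iff₀ (by positivity) (by positivity), pow_add]
  have h3 := mul_le_mul_of_nonneg_right h2 (show 0 ≤ (ρ ^ n0) ^ q by positivity)
  linarith

/-- the liminf of a class with positive values on the torus is positive -/
theorem cls_liminf_pos {k : ℕ} (l c : Fin k → ℂ) (ex : Fin k → ℕ) (n0 j : ℕ) (hn0 : 0 < n0)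
    (hexj : ∀ i, ex i ≤ j) (v : ℕ → ℝ)
    (hv : ∀ n, ∑ i, c i * (n.choose (ex i) : ℂ) * l i ^ (n - ex i) = (v n : ℂ))
    (ρ : ℝ) (hρ : 0 < ρ) (hvan : open scoped Classical in ∀ m, ∑ i, (if Above ρ 0 (l i) (ex i)
        then c i * ((j + n0 * m).choose (ex i) : ℂ) * l i ^ (j + n0 * m - ex i) else 0) = 0)
    (A : Fin k → Fin k → ℤ) (s : ℕ) (x : Fin k → ℝ) (hrep : Rep l n0 A s x)
    (hpos : ∀ z : Fin k → ℂ, (∀ t, ‖z t‖ = 1) → 0 < (LevF l c ex A s j 0 ρ z).re)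
    (J q : ℕ) (hJ : j = J + n0 * q) :
    0 < liminf (fun m : ℕ => v (n0 * m + J) / (ρ ^ n0) ^ m) atTop := by
  obtain ⟨b, hb, hev⟩ := cls_low l c ex n0 j hn0 hexj v hv ρ hρ hvan A s x hrep hpos J q hJ
  obtain ⟨B, hB⟩ := cls_bound l c ex n0 j hn0 hexj v hv ρ hρ hvan J q hJ
  refine lt_of_lt_of_le hb (le_liminf_of_le ?_ hev)
  refine IsBoundedUnder.isCoboundedUnder_ge ⟨B, ?_⟩
  rw [eventually_map]
  refine Eventually.of_forall fun m => ?_
  show v (n0 * m + J) / (ρ ^ n0) ^ m ≤ B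
  rw [div_le_iff₀ (by positivity)]
  exact (le_abs_self _).trans (hB m)

end Pool.Agent.FrUP
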