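import Pool.Agent.FrNar.UCmp1
import Pool.Agent.FrNar.ULim

/-! Completeness, third part: consequences of the class data. -/

set_option autoImplicit false

namespace Pool.Agent.FrUP

open Complex Filter Topology
open Pool.Agent.DD7719.M Pool.Agent.DD7719.M.GS Pool.Agent.DD7719

variable {k : ℕ}

/-- The sequences frozen at rational `x ≥ X` are ultimately positive. -/
theorem up_of_clsU (l c : Fin k → ℂ) (ex : Fin k → ℕ) (hk : 0 < k) (hex : ∀ i, ex i < k)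
    (M Nb : ℕ) (ε δ X : ℝ) (e n0 : ℕ) (hn0 : 0 < n0)
    (hac : ∀ i, IsIntegral ℚ (c i)) (hal : ∀ i, IsIntegral ℚ (l i))
    (htor : ∀ i i', l i ≠ 0 → l i' ≠ 0 → ∀ n : ℕ, 0 < n → (l i / l i') ^ (n0 * n) = 1 →
      (l i / l i') ^ n0 = 1)
    (v : ℕ → ℝ)
    (hv : ∀ n, ∑ i, c i * (n.choose (ex i) : ℂ) * l i ^ (n - ex i) = (v n : ℂ))
    (hcls : ∀ j, k ≤ j → j < k + n0 → ClsU k l c ex M Nb ε δ X e n0 j) (x : ℚ)
    (hx : X ≤ (x : ℝ)) : ∃ N : ℕ, ∀ n : ℕ, N ≤ n → 0 < (fs l c ex (x : ℝ) n).re := by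
  classical
  refine up_at l c ex hk x n0 hn0 (fun i => fc_integral l c ex hac hal x i) hal htor
    (fun n => (fs l c ex x n).re) (fun n => fs_real l c ex hk hex v hv x n) fun j hj hj' => ?_
  obtain ⟨A, H, D, s, w, τ, y, i0, hrep, -, hi0, hgP, hnz, hnn, -⟩ := hcls j hj hj'
  have hexj : ∀ i, ex i ≤ j := fun i => ((hex i).le.trans hj)
  have hρ0 : 0 < ‖l i0‖ := norm_pos_iff.mpr hi0
  obtain ⟨m, hm⟩ := hnz (x : ℝ) hx
  refine ⟨A, s, y, hrep, fun hvan => ?_, fun ρ hρ hvan z hz => ?_⟩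
  · have h1 := orb_zero_of_van l c ex n0 j hn0 hexj A s y hrep ‖l i0‖ hρ0 (x : ℝ)
      (fun i => l i ≠ 0) (by
        intro i i' h h'
        rw [← norm_ne_zero_iff] at h' ⊢
        rwa [← norm_eq_of_pow_eq hn0 h]) (fun i h => h)
      (fun i h => norm_pos_iff.mp (by rw [h]; exact hρ0)) hvan m
    rw [h1] at hm
    exact hm rfl
  · rcases le_or_gt ‖l i0‖ ρ with h | h
    · have h1 := hnn ρ hρ (fun i hi => hgP i (h.trans_lt hi)) (x : ℝ) hx z hz
      refine h1.trans_eq ?_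
      congr 1
      unfold LevX
      refine Finset.sum_congr rfl fun i _ => ?_
      split_ifs with h2
      · rw [fc_mul_pow l c ex x j i (hexj i) (norm_pos_iff.mp (by rw [h2]; exact hρ))]
      · rfl
    · exfalso
      have h1 := orb_zero_of_van l c ex n0 j hn0 hexj A s y hrep ‖l i0‖ hρ0 (x : ℝ)
        (fun i => ρ < ‖l i‖) (by
          intro i i' h h'
          rwa [← norm_eq_of_pow_eq hn0 h]) (fun i h => norm_pos_iff.mp (hρ.trans h))
        (fun i h' => by rw [h']; exact h) hvan m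
      rw [h1] at hm
      exact hm rfl

/-- The classes are as in `SepW`. -/
theorem sepW_of_clsU (l c : Fin k → ℂ) (ex : Fin k → ℕ) (hk : 0 < k) (hex : ∀ i, ex i < k)
    (M Nb : ℕ) (ε δ X : ℝ) (e n0 : ℕ) (hn0 : 0 < n0)
    (hnt : ∀ i i', ‖l i‖ = ‖l i'‖ → l i ^ n0 ≠ l i' ^ n0 →
      ∀ n : ℕ, 0 < n → l i ^ n ≠ l i' ^ n)
    (v : ℕ → ℝ)
    (hv : ∀ n, ∑ i, c i * (n.choose (ex i) : ℂ) * l i ^ (n - ex i) = (v n : ℂ))
    (hcls : ∀ j, k ≤ j → j < k + n0 → ClsU k l c ex M Nb ε δ X e n0 j) :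
    SepW (fun x n => (fs l c ex x n).re) (Set.range l) X e := by
  classical
  have hfv : ∀ (x : ℝ) (n : ℕ), ∑ i, fc l c ex x i * (n.choose ((fun _ : Fin k => 0) i) : ℂ) *
      l i ^ (n - (fun _ : Fin k => 0) i) = (((fs l c ex x n).re : ℝ) : ℂ) := by
    intro x n
    rw [← fs_real l c ex hk hex v hv x n, fs]
    refine Finset.sum_congr rfl fun i _ => ?_
    rw [Nat.choose_zero_right, Nat.sub_zero, Nat.cast_one, mul_one]
  refine ⟨n0, hn0, fun J hJ => ?_⟩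
  obtain ⟨q, hq1, hq2⟩ := exists_cls_rep k n0 J hn0 hJ
  obtain ⟨A, H, D, s, w, τ, y, i0, hrep, -, hi0, hgP, hnz, hnn, hcase⟩ :=
    hcls (J + n0 * q) hq1 hq2
  have hρ : 0 < ‖l i0‖ := norm_pos_iff.mpr hi0
  have hexj : ∀ i, ex i ≤ J + n0 * q := fun i => ((hex i).le.trans hq1)
  have hlf : ∀ (x : ℝ) (z : Fin k → ℂ), LevF l (fc l c ex x) (fun _ => 0) A s (J + n0 * q) 0
      ‖l i0‖ z = LevX l c ex A s (J + n0 * q) ‖l i0‖ x z := fun x z =>
    levF_frz l c ex A s _ hexj _ hρ x z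
  have hvan := fun x : ℝ => van_frz l c ex n0 (J + n0 * q) hn0 hexj ‖l i0‖ hρ.le hgP x
  refine ⟨‖l i0‖ ^ n0, by positivity, fun x _ => cls_bound l (fc l c ex x) (fun _ => 0) n0
    (J + n0 * q) hn0 (fun _ => Nat.zero_le _) (fun n => (fs l c ex x n).re) (hfv x) ‖l i0‖ hρ
    (hvan x) J q rfl, ?_⟩
  rcases hcase with hpos | ⟨i, i', hii, hne, hsep⟩
  · left
    intro x hx
    exact cls_liminf_pos l (fc l c ex x) (fun _ => 0) n0 (J + n0 * q) hn0
      (fun _ => Nat.zero_le _) (fun n => (fs l c ex x n).re) (hfv x) ‖l i0‖ hρ (hvan x) A s y hrep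
      (fun z hz => by rw [hlf]; exact hpos x hx z hz) J q rfl
  · right
    have hi' : l i' ≠ 0 := by
      intro h0
      rw [h0, norm_zero, norm_eq_zero] at hii
      apply hne
      rw [hii, h0]
    have hγ := unit_of_ratio _ _ hii hi'
    refine ⟨l i, ⟨i, rfl⟩, l i', ⟨i', rfl⟩, hii, hnt i i' hii hne, ?_⟩
    intro x hx ζ hζ ζ' hζ' hζζ
    have hsub := contact_subset l (fc l c ex x) (fun _ => 0) n0 (J + n0 * q) hn0
      (fun _ => Nat.zero_le _) (fun n => (fs l c ex x n).re) (hfv x) ‖l i0‖ hρ (hvan x) A s y hrep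
      i i' hii hi' J q rfl
    obtain ⟨z1, ⟨hz1, h01⟩, rfl⟩ := hsub hζ
    obtain ⟨z2, ⟨hz2, h02⟩, rfl⟩ := hsub hζ'
    rw [hlf] at h01 h02
    have h1 := hsep x hx z1 z2 hz1 hz2 h01.le h02.le (by
      intro h
      apply hζζ
      simp only
      rw [h])
    simp only
    rw [← mul_sub, norm_mul, norm_pow, hγ, one_pow, one_mul]
    exact h1

/-- The class data of the sequence frozen at `x ≥ X`. -/
theorem clsX_of_clsU (l c : Fin k → ℂ) (ex : Fin k → ℕ) (hex : ∀ i, ex i < k)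
    (hdc : ∀ i, ∀ e, e < ex i → ∃ i', l i' = l i ∧ ex i' = e) (hk : 0 < k)
    (M Nb : ℕ) (ε δ X : ℝ) (hX : 0 < X) (e n0 j : ℕ)
    (h : ClsU k l c ex M Nb ε δ X e n0 j) (x : ℝ) (hx : X ≤ x) :
    ClsX k l c ex M Nb ε δ n0 j x := by
  obtain ⟨A, H, D, s, w, τ, y, i0, hrep, hbase, hi0, hgP, hnz, hnn, hcase⟩ := h
  have hρ : 0 < ‖l i0‖ := norm_pos_iff.mpr hi0
  have hkj : k ≤ j := hbase.2.2.1
  have hexj : ∀ i, ex i ≤ j := fun i => ((hex i).le.trans hkj)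
  have hx0 : 0 < x := hX.trans_le hx
  have hlf : ∀ z : Fin k → ℂ, LevF l (fc l c ex x) (fun _ => 0) A s j 0 ‖l i0‖ z =
      LevX l c ex A s j ‖l i0‖ x z := fun z => levF_frz l c ex A s _ hexj _ hρ x z
  have hnn0 := hnn ‖l i0‖ hρ hgP x hx
  obtain ⟨m, hm⟩ := hnz x hx
  refine ⟨A, H, D, s, w, τ, y, i0, hrep, (base_frz l c ex hex hdc M Nb ε δ n0 j A H D s w τ
    ‖l i0‖ (k - 1) (by omega) hbase x).1, hi0, hgP, ⟨orb y m, norm_orb y m, ?_⟩, ?_, ?_⟩
  · rw [hlf]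
    exact hm
  · intro z hz
    rw [hlf]
    exact hnn0 z hz
  · rcases hcase with hpos | ⟨i, i', hii, hne, hsep⟩
    · left
      intro z hz
      rw [hlf]
      exact hpos x hx z hz
    · right
      have hi' : l i' ≠ 0 := by
        intro h0
        rw [h0, norm_zero, norm_eq_zero] at hii
        apply hne
        rw [hii, h0]
      have hγ := unit_of_ratio _ _ hii hi'
      refine ⟨i, i', hii, hne, finite_of_sep _ ?_ (1 / (2 * x ^ e)) (by positivity) ?_⟩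
      · rintro _ ⟨z1, ⟨hz1, -⟩, rfl⟩
        rw [mem_sphere_zero_iff_norm, norm_mul, norm_pow, hγ, one_pow, one_mul, norm_div,
          norm_Wt A s z1 hz1, norm_Wt A s z1 hz1, div_one]
      · rintro _ ⟨z1, ⟨hz1, h01⟩, rfl⟩ _ ⟨z2, ⟨hz2, h02⟩, rfl⟩ hne12
        rw [hlf] at h01 h02
        have h3 := hsep x hx z1 z2 hz1 hz2 h01.le h02.le (by
          intro h4
          apply hne12
          simp only
          rw [h4])
        simp only
        rw [← mul_sub, norm_mul, norm_pow, hγ, one_pow, one_mul, div_lt_iff₀ (by positivity)]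
        linarith

end Pool.Agent.FrUP
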