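import Pool.Agent.FrNar.UDef

/-! Conversions between the `ℕ`-indexed and the `Fin`-indexed certificate. -/

set_option autoImplicit false

namespace Pool.Agent.FrUP

open Finset
open Pool.Agent.DD7719.M Pool.Agent.DD7719.M.GS Pool.Agent.PT Pool.Agent.AllR

theorem certFF_toF {k : ℕ} {l c : ℕ → ℂ} {ex : ℕ → ℕ} (hex : ∀ i, i < k → ex i < k) {bm bn : ℕ}
    {ε δ X : ℝ} {m : ℕ} {α : ℕ → ℝ} (h : CertQN k l c ex bm bn ε δ (QFF k X m α)) :
    CertFF k (fun i => l i) (fun i => c i) (fun i => ex i) (2 ^ bm) (2 ^ bn) ε δ X (2 ^ m) := by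
  obtain ⟨n0, j, A, H, D, s, w, τ, z, z', Z1, Z2, ρ, d, hbase, hz, hz', hQ⟩ := h
  unfold QFF at hQ
  simp only [LX_eq l c ex hex] at hQ
  refine ⟨n0, j, fun i t => A i t, fun i t => H i t, D, s, fun i t => w i t, fun i => τ i, ρ, d,
    fun t => z t, fun t => z' t, hbase.toF, fun t => hz t t.2, fun t => hz' t t.2, hQ.1, ?_⟩
  rcases hQ.2 with h | ⟨⟨hX0, hX1⟩, h1, h2 | ⟨h2, h3⟩⟩
  · exact Or.inl h
  · exact Or.inr ⟨α 0, α 1, hX0, hX1, h1, Or.inl h2⟩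
  · refine Or.inr ⟨α 0, α 1, hX0, hX1, h1, Or.inr ⟨h2, fun i i' hii hne => ?_⟩⟩
    rcases h3 i i.2 i' i'.2 with h4 | h4 | ⟨g0, g1, g2, g3, g4, g5, g6⟩
    · exact absurd hii h4
    · exact absurd h4 hne
    · simp only [wtN_eq] at g5 g6
      exact ⟨α (Nat.pair i i' + 2), fun t => Z1 (Nat.pair i i') t, fun t => Z2 (Nat.pair i i') t,
        g0, fun t => g1 t t.2, fun t => g2 t t.2, g3, g4, g5, g6⟩

theorem CertFF.toN {k : ℕ} {l c : ℕ → ℂ} {ex : ℕ → ℕ} (hex : ∀ i, i < k → ex i < k)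
    {M Nb bm bn : ℕ} {ε δ X : ℝ} {m : ℕ}
    (h : CertFF k (fun i => l i) (fun i => c i) (fun i => ex i) M Nb ε δ X (2 ^ m))
    (hM : M < 2 ^ bm) (hN : Nb < 2 ^ bn) :
    ∃ α : ℕ → ℝ, CertQN k l c ex bm bn ε δ (QFF k X m α) := by
  classical
  obtain ⟨n0, j, A, H, D, s, w, τ, ρ, d, z, z', hbase, hz, hz', hd, hQ⟩ := h
  rcases hQ with hρ | ⟨x, x', hx, hx', hne', hQ⟩
  · refine ⟨fun _ => 0, n0, j, ext2 0 A, ext2 0 H, D, s, ext2 0 w, ext1 0 τ, ext1 1 z, ext1 1 z',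
      fun _ _ => 1, fun _ _ => 1, ρ, d, hbase.toN hM hN, ?_, ?_, hd, Or.inl hρ⟩
    · rw [forall_fin]
      intro t
      rw [ext1_fin]
      exact hz t
    · rw [forall_fin]
      intro t
      rw [ext1_fin]
      exact hz' t
  -- choose the families
  set F : ℝ → (Fin k → ℂ) → ℝ := fun x z => (LevX (fun i : Fin k => l i) (fun i => c i)
    (fun i => ex i) A s j ρ x z).re with hF
  set Ok : Fin k → Fin k → ℝ → (Fin k → ℂ) → (Fin k → ℂ) → Prop := fun i i' x2 z1 z2 =>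
    X ≤ x2 ∧ (∀ t, ‖z1 t‖ = 1) ∧ (∀ t, ‖z2 t‖ = 1) ∧ F x2 z1 ≤ 0 ∧ F x2 z2 ≤ 0 ∧
      Wt A s z1 i / Wt A s z1 i' ≠ Wt A s z2 i / Wt A s z2 i' ∧
      x2 ^ (2 ^ m) * ‖Wt A s z1 i / Wt A s z1 i' - Wt A s z2 i / Wt A s z2 i'‖ < 1 with hOk
  have hch : ∀ i i' : Fin k, ∃ (x2 : ℝ) (y1 y2 : Fin k → ℂ),
      (∃ (x2 : ℝ) (z1 z2 : Fin k → ℂ), Ok i i' x2 z1 z2) → Ok i i' x2 y1 y2 := by
    intro i i'
    by_cases hex : ∃ (x2 : ℝ) (z1 z2 : Fin k → ℂ), Ok i i' x2 z1 z2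
    · obtain ⟨x2, z1, z2, h⟩ := hex
      exact ⟨x2, z1, z2, fun _ => h⟩
    · exact ⟨0, fun _ => 1, fun _ => 1, fun h => absurd h hex⟩
  choose x2 Y1 Y2 hY using hch
  let Z1 : ℕ → ℕ → ℂ := fun p => if h : (Nat.unpair p).1 < k ∧ (Nat.unpair p).2 < k then
    ext1 1 (Y1 ⟨_, h.1⟩ ⟨_, h.2⟩) else fun _ => 1
  let Z2 : ℕ → ℕ → ℂ := fun p => if h : (Nat.unpair p).1 < k ∧ (Nat.unpair p).2 < k then
    ext1 1 (Y2 ⟨_, h.1⟩ ⟨_, h.2⟩) else fun _ => 1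
  let xx : ℕ → ℝ := fun p => if h : (Nat.unpair p).1 < k ∧ (Nat.unpair p).2 < k then
    x2 ⟨_, h.1⟩ ⟨_, h.2⟩ else 0
  have hZ1 : ∀ i i' t : Fin k, Z1 (Nat.pair i i') t = Y1 i i' t := by
    intro i i' t
    simp only [Z1, Nat.unpair_pair, i.2, i'.2, and_self, dif_pos]
    exact ext1_fin _ _ _
  have hZ2 : ∀ i i' t : Fin k, Z2 (Nat.pair i i') t = Y2 i i' t := by
    intro i i' t
    simp only [Z2, Nat.unpair_pair, i.2, i'.2, and_self, dif_pos]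
    exact ext1_fin _ _ _
  have hxx : ∀ i i' : Fin k, xx (Nat.pair i i') = x2 i i' := by
    intro i i'
    simp only [xx, Nat.unpair_pair, i.2, i'.2, and_self, dif_pos]
  let α : ℕ → ℝ := fun v => match v with
    | 0 => x
    | 1 => x'
    | (p + 2) => xx p
  have hα0 : α 0 = x := rfl
  have hα1 : α 1 = x' := rfl
  have hα2 : ∀ i i' : Fin k, α (Nat.pair i i' + 2) = x2 i i' := fun i i' => hxx i i'
  refine ⟨α, n0, j, ext2 0 A, ext2 0 H, D, s, ext2 0 w, ext1 0 τ, ext1 1 z, ext1 1 z', Z1, Z2,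
    ρ, d, hbase.toN hM hN, ?_, ?_, hd, Or.inr ⟨⟨hx, hx'⟩, ?_, ?_⟩⟩
  · rw [forall_fin]
    intro t
    rw [ext1_fin]
    exact hz t
  · rw [forall_fin]
    intro t
    rw [ext1_fin]
    exact hz' t
  · rw [hα1, LX_ext l c ex hex A s j ρ x' z' (ext1 1 z') (ext1_fin 1 z')]
    exact hne'
  · rw [hα0, LX_ext l c ex hex A s j ρ x z (ext1 1 z) (ext1_fin 1 z)]
    rcases hQ with h | ⟨h2, h3⟩
    · exact Or.inl h
    · refine Or.inr ⟨h2, ?_⟩
      rw [forall_fin]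
      intro i
      rw [forall_fin]
      intro i'
      by_cases hii : ‖l i‖ = ‖l i'‖
      · by_cases hne : l i ^ n0 = l i' ^ n0
        · exact Or.inr (Or.inl hne)
        · right
          right
          obtain ⟨g0, g1, g2, g3, g4, g5, g6⟩ := hY i i' (h3 i i' hii hne)
          rw [hα2, LX_ext l c ex hex A s j ρ (x2 i i') (Y1 i i') (Z1 (Nat.pair i i')) (hZ1 i i'),
            LX_ext l c ex hex A s j ρ (x2 i i') (Y2 i i') (Z2 (Nat.pair i i')) (hZ2 i i'),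
            wtN_ext A s (Y1 i i') (Z1 (Nat.pair i i')) (hZ1 i i') i,
            wtN_ext A s (Y1 i i') (Z1 (Nat.pair i i')) (hZ1 i i') i',
            wtN_ext A s (Y2 i i') (Z2 (Nat.pair i i')) (hZ2 i i') i,
            wtN_ext A s (Y2 i i') (Z2 (Nat.pair i i')) (hZ2 i i') i']
          refine ⟨g0, ?_, ?_, g3, g4, g5, g6⟩
          · rw [forall_fin]
            intro t
            rw [hZ1]
            exact g1 t
          · rw [forall_fin]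
            intro t
            rw [hZ2]
            exact g2 t
      · exact Or.inl hii

end Pool.Agent.FrUP
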