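import Pool.Agent.FrNar.USnd2
import Pool.Agent.FrNar.UConv
import Pool.Agent.FrozenUP.Lang
import Pool.Agent.DD7719.NAssemble

/-! `FrozenFrom` in terms of root data; soundness for instances; `FrozenFrom` implies frozen
positivity and frozen narrowness. -/

set_option autoImplicit false

namespace Pool.Agent.UltPos

open Pool.Agent.PT Pool.Agent.AllR Pool.Agent.DD7719.M Pool.Agent.DD7719 Finset Pool.Agent.FrUP
open Filter Topology

/-- `FrozenFrom` in terms of root data -/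
theorem Inst.frozenFrom_iff (I : Inst) (v : ℕ → ℚ) (hv : I.IsSeq v) {k : ℕ}
    (l c : Fin k → ℂ) (ex : Fin k → ℕ) (hex : ∀ i, ex i < k)
    (hall : ∀ n, ∑ i, c i * (n.choose (ex i) : ℂ) * l i ^ (n - ex i) = (((v n : ℚ) : ℝ) : ℂ))
    (X e : ℕ) :
    I.FrozenFrom X e ↔ (∀ x : ℚ, (X : ℚ) ≤ x → ∃ N : ℕ, ∀ n : ℕ, N ≤ n →
      0 < (fs l c ex (x : ℝ) n).re) ∧
      SepW (fun x n => (fs l c ex x n).re) I.rootSet (X : ℝ) e := by
  classical
  have hexp := isExpansion_rp l c ex hex v hall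
  constructor
  · intro h
    obtain ⟨S, p, hS, hup, hsep⟩ := h v hv
    have hfz : frozen S p = fun x n => (fs l c ex x n).re := by
      funext x n
      rw [← frozen_rp, frozen, frozen, frozen_unique hS hexp]
    rw [hfz] at hup hsep
    exact ⟨hup, hsep⟩
  · rintro ⟨hup, hsep⟩ w hw
    have hwv : w = v := I.exists_unique_seq.unique hw hv
    subst hwv
    refine ⟨_, _, hexp, ?_⟩
    have hfz : frozen (open scoped Classical in (univ.filter fun i => l i ≠ 0).image l)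
        (rp l c ex) = fun x n => (fs l c ex x n).re := by
      funext x n
      rw [frozen_rp]
    rw [hfz]
    exact ⟨hup, hsep⟩

section
variable (I : Inst) (L : ℕ) (hkL : I.k ≤ L)
    (hb : ∀ i, (I.aNum i).natAbs ≤ 2 ^ L ∧ I.aDen i ≤ 2 ^ L) (aR uR : ℕ → ℝ)
    (ha : ∀ t (h : t < I.k), aR t = (I.a ⟨t, h⟩ : ℝ)) (hu : ∀ t (h : t < I.k), uR t = (I.u ⟨t, h⟩ : ℝ))
    (v : ℕ → ℚ) (hv : I.IsSeq v)

include ha in
lemma Inst.range_eq {l c : ℕ → ℂ} {ex : ℕ → ℕ} (hrd : RootData I.k aR uR l c ex) :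
    Set.range (fun i : Fin I.k => l i) = I.rootSet := by
  ext z
  constructor
  · rintro ⟨i, rfl⟩
    exact I.root_mem aR uR ha hrd i
  · intro hz
    obtain ⟨i, hi⟩ := I.root_surj aR uR ha hrd z hz
    exact ⟨i, hi⟩

include hkL hb ha hu hv in
/-- **Soundness for instances.** -/
theorem Inst.no_cff (X m : ℕ) (hX : 0 < X) (h : I.FrozenFrom X (2 ^ m)) (α : ℕ → ℝ) :
    ¬ I.CFF L aR uR (X : ℝ) m α := by
  rintro ⟨l, c, ex, hrd, hcert⟩
  have hg := I.goodD L hkL hb aR uR ha hu v hv hrd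
  obtain ⟨hup, hsep⟩ := (I.frozenFrom_iff v hv (fun i : Fin I.k => l i) (fun i => c i)
    (fun i => ex i) (fun i => hrd.1 i i.2) hg.hv X (2 ^ m)).1 h
  rw [← I.range_eq aR uR ha hrd] at hsep
  refine certFF_sound (k := I.k) (fun i => l i) (fun i => c i) (fun i => ex i) (2 ^ pr L)
    (2 ^ pbm L) (2 ^ pbn L) _ _ _ hg (X : ℝ) (by exact_mod_cast hX) (2 ^ m) (fun x hx => hup x ?_)
    hsep (certFF_toF (fun i hi => hrd.1 i hi) hcert)
  exact_mod_cast hx

end

/-- `FrozenFrom` implies frozen positivity -/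
theorem Inst.FrozenFrom.frozenPositive {I : Inst} {X e : ℕ} (h : I.FrozenFrom X e) :
    I.FrozenPositive := by
  intro v hv
  obtain ⟨S, p, hS, hup, -⟩ := h v hv
  exact ⟨S, p, hS, (X : ℚ), hup⟩

/-- `FrozenFrom` implies frozen narrowness -/
theorem Inst.FrozenFrom.frozenNarrow {I : Inst} {X e : ℕ} (hX : 0 < X) (h : I.FrozenFrom X e) :
    I.FrozenNarrow := by
  intro v hv
  obtain ⟨S, p, hS, -, N, hN, hT⟩ := h v hv
  refine ⟨S, p, hS, (X : ℚ), fun x hx => ⟨N, hN, fun J hJ => ?_⟩⟩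
  have hx' : (X : ℝ) ≤ (x : ℝ) := by exact_mod_cast hx
  have hx0 : (0 : ℝ) < (x : ℝ) := lt_of_lt_of_le (by exact_mod_cast hX) hx'
  obtain ⟨ρ, hρ, hB, hcase⟩ := hT J hJ
  refine ⟨ρ, hρ, hB x hx', ?_⟩
  rcases hcase with hl | ⟨a, ha, b, hb, hab, hnt, hs⟩
  · exact Or.inl (hl x hx').ne'
  · have hb0' : b ≠ 0 := by
      rintro rfl
      rw [norm_zero, norm_eq_zero] at hab
      exact hnt 1 one_pos (by rw [hab])
    exact Or.inr ⟨a, ha, b, hb, hab, hnt, contact_finite_of_sep _ N J ρ (a / b)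
      (unit_of_ratio _ _ hab hb0') ((x : ℝ) ^ e) (pow_pos hx0 _) (hs x hx')⟩

end Pool.Agent.UltPos
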