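import Pool.Agent.FrNar.UCmp2
import Pool.Agent.FrNar.UCmp3
import Pool.Agent.FrNar.USnd

/-! Completeness for instances. -/

set_option autoImplicit false

namespace Pool.Agent.UltPos

open Pool.Agent.PT Pool.Agent.AllR Pool.Agent.DD7719.M Pool.Agent.DD7719 Finset Pool.Agent.FrUP
open Pool.Agent.DD7719.M.GS

section
variable (I : Inst) (L : ℕ) (hkL : I.k ≤ L)
    (hb : ∀ i, (I.aNum i).natAbs ≤ 2 ^ L ∧ I.aDen i ≤ 2 ^ L) (aR uR : ℕ → ℝ)
    (ha : ∀ t (h : t < I.k), aR t = (I.a ⟨t, h⟩ : ℝ)) (hu : ∀ t (h : t < I.k), uR t = (I.u ⟨t, h⟩ : ℝ))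
    (v : ℕ → ℚ) (hv : I.IsSeq v)

include hkL hb ha hu hv in
/-- **Class data of an instance without certificates.** -/
theorem Inst.exists_clsUU {l c : ℕ → ℂ} {ex : ℕ → ℕ} (hrd : RootData I.k aR uR l c ex) (X : ℝ)
    (m : ℕ) (hno : ∀ α, ¬ I.CFF L aR uR X m α) :
    ∃ n0 : ℕ, 0 < n0 ∧ n0 ≤ 2 ^ (1 + 2 * L * L + (pdl L + 3) * L) ∧
      (∀ i i' : Fin I.k, l i ≠ 0 → l i' ≠ 0 → ∀ n : ℕ, 0 < n → (l i / l i') ^ (n0 * n) = 1 →
        (l i / l i') ^ n0 = 1) ∧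
      (∀ i i' : Fin I.k, ‖l i‖ = ‖l i'‖ → l i ^ n0 ≠ l i' ^ n0 →
        ∀ n : ℕ, 0 < n → l i ^ n ≠ l i' ^ n) ∧
      ∀ j, I.k ≤ j → j < I.k + n0 → ClsU I.k (fun i => l i) (fun i => c i) (fun i => ex i)
        (2 ^ pmh L) (2 ^ (1 + 2 * L * L + (pdl L + 3) * L)) (2 / ((2 ^ pq L : ℕ) : ℝ))
        (1 / 2 ^ pdl L) X (2 ^ m) n0 j := by
  obtain ⟨e, he0, hele, htor⟩ := torsion_of_roots I.k I.num I.den I.den_pos' (fun i => l i)
    (I.root_eq' aR uR ha hrd)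
  obtain ⟨n0, hn0, hn0Nb, hen0, hnt, hcls⟩ := class_dataU (k := I.k) (fun i => l i) (fun i => c i)
      (fun i => ex i) (2 ^ pr L)
      (2 ^ pq L) (2 ^ pmh L) (2 ^ (pdl L + 3)) e (2 ^ (1 + 2 * L * L + (pdl L + 3) * L)) I.kpos
      (fun i => hrd.1 i i.2) Nat.one_le_two_pow
      (le_trans (by
        have : 2 * I.k * 2 ^ pr L ≤ 8 * I.k * 2 ^ pr L := by
          gcongr
          norm_num
        exact this) (pQ_le hkL)) (pMH_le hkL) (1 / 2 ^ pdl L) (by positivity) (pd2 hkL) (pd4 hkL)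
      (pd3 hkL) (by positivity) (pd5 L) he0 (pNb_le hkL hele) (I.relBound' L hkL hb aR uR ha hrd)
      (fun i i' h1 h2 h3 => htor i i' h1 h2 h3)
      (fun n => ((v n : ℚ) : ℝ)) (I.all' aR uR ha hu v hv hrd) X (2 ^ m) (fun hF => by
        obtain ⟨α, hα⟩ := hF.toN (fun i hi => hrd.1 i hi) (two_pow_lt_pbm L) (two_pow_lt_pbn L)
        exact hno α ⟨l, c, ex, hrd, hα⟩)
  refine ⟨n0, hn0, hn0Nb, ?_, hnt, hcls⟩
  intro i i' hi hi' n hn h
  have h4 := htor i i' hi hi' ⟨n0 * n, by positivity, h⟩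
  obtain ⟨r, hr⟩ := hen0
  rw [hr, pow_mul, h4, one_pow]

include hkL hb ha hu hv in
/-- **Completeness for instances.** -/
theorem Inst.frozenFrom_of_no (X m : ℕ) (hno : ∀ α, ¬ I.CFF L aR uR (X : ℝ) m α) :
    I.FrozenFrom X (2 ^ m) := by
  obtain ⟨l, c, ex, hrd, hl, hc⟩ : ∃ (l c : ℕ → ℂ) (ex : ℕ → ℕ), RootData I.k aR uR l c ex ∧
      (∀ i, IsIntegral ℚ (l i)) ∧ ∀ i, IsIntegral ℚ (c i) := by
    obtain ⟨l, c, ex, hrd0, hl, hc⟩ := exists_rootData I.k I.aQ I.uQ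
    exact ⟨l, c, ex, rootData_congr (by
      intro t ht
      rw [ha t ht]
      simp only [Inst.aQ, ht, dif_pos]) (by
      intro t ht
      rw [hu t ht]
      simp only [Inst.uQ, ht, dif_pos]) hrd0, hl, hc⟩
  obtain ⟨n0, hn0, -, htor, hnt, hcls⟩ := I.exists_clsUU L hkL hb aR uR ha hu v hv hrd (X : ℝ) m hno
  have hall := I.all' aR uR ha hu v hv hrd
  refine (I.frozenFrom_iff v hv (fun i : Fin I.k => l i) (fun i => c i) (fun i => ex i)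
    (fun i => hrd.1 i i.2) hall X (2 ^ m)).2 ⟨fun x hx => ?_, ?_⟩
  · exact up_of_clsU (k := I.k) (fun i => l i) (fun i => c i) (fun i => ex i) I.kpos
      (fun i => hrd.1 i i.2) _ _ _ _ (X : ℝ) (2 ^ m) n0 hn0 (fun i => hc i) (fun i => hl i) htor _
      hall hcls x (by exact_mod_cast hx)
  · rw [← I.range_eq aR uR ha hrd]
    exact sepW_of_clsU (k := I.k) (fun i => l i) (fun i => c i) (fun i => ex i) I.kpos
      (fun i => hrd.1 i i.2) _ _ _ _ (X : ℝ) (2 ^ m) n0 hn0 hnt _ hall hcls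

/-- without certificates the level functions are nonnegative -/
theorem Inst.nnx_of_no (X : ℝ) (m : ℕ) (hno : ∀ α, ¬ I.CFF L aR uR X m α) (x : ℝ) (hx : X ≤ x) :
    I.NNX L aR uR x := by
  intro l c ex hrd n0 j A H D s w τ ρ d hd hρ hbase z hz
  by_contra hcon
  push Not at hcon
  have h1 : LX I.k s l c (ext1 1 z) ex A j ρ x < 0 := by
    rw [LX_eq l c ex (fun i hi => hrd.1 i hi)]
    have h2 : (fun t : Fin I.k => ext1 1 z t) = z := funext fun t => ext1_fin 1 z t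
    rw [h2]
    exact hcon
  refine hno (fun _ => x) ⟨l, c, ex, hrd, n0, j, A, H, D, s, w, τ, ext1 1 z, ext1 1 z,
    fun _ _ => 1, fun _ _ => 1, ρ, d, hbase, ?_, ?_, hd, Or.inr ⟨⟨hx, hx⟩, h1.ne, Or.inl h1⟩⟩
  · rw [forall_fin]
    intro t
    rw [ext1_fin]
    exact hz t
  · rw [forall_fin]
    intro t
    rw [ext1_fin]
    exact hz t

end

end Pool.Agent.UltPos
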