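import Pool.Agent.FrNar.UQ
import Pool.Agent.FrNar.UCls
import Pool.Agent.FrNar.UPos
import Pool.Agent.FrEight.Par5
import Pool.Agent.DD7719.NLang
import Pool.Agent.MX.Lang2
import Pool.Agent.MX.Iff
import Pool.Agent.MX.Final

/-! Theorem U: positivity and `FrozenFrom` with explicit constants is in `∀ℝ`. -/

set_option autoImplicit false

namespace Pool.Agent.UltPos

open Pool.Agent.PT Pool.Agent.AllR Pool.Agent.DD7719.M Pool.Agent.DD7719 Finset Pool.Agent.FrUP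

/-- `(L ^ c + c) ≤ (2 + L) ^ (c + 1)` -/
private lemma uLang_arith (L c : ℕ) : L ^ c + c ≤ (2 + L) ^ (c + 1) := by
  have h1 : L ^ c ≤ (2 + L) ^ c := Nat.pow_le_pow_left (by omega) c
  have h2 : c ≤ (2 + L) ^ c :=
    (Nat.lt_two_pow_self.le).trans (Nat.pow_le_pow_left (by omega) c)
  calc L ^ c + c ≤ (2 + L) ^ c + (2 + L) ^ c := Nat.add_le_add h1 h2
    _ = (2 + L) ^ c * 2 := by ring
    _ ≤ (2 + L) ^ c * (2 + L) := Nat.mul_le_mul_left _ (by omega)
    _ = (2 + L) ^ (c + 1) := by rw [pow_succ]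

/-- **Theorem U, general form.** -/
theorem inForallR_fromE (cc : ℕ) (Ex : List ISym → Prop) (hEx : RE (fun x _ _ => Ex x)) :
    InForallR {w : List ISym | ∃ I : Inst, w = I.enc ∧ I.Positive ∧
      I.FrozenFrom (2 ^ (w.length ^ cc + cc)) (2 ^ (w.length ^ cc + cc)) ∧ ¬ Ex w} := by
  obtain ⟨C, hC⟩ := Pool.Agent.BakerGap.gap
  obtain ⟨kk, sg, nb, db, hkk, hsg, hnb, hdb, hI⟩ := exists_parser
  have h2 : RF (Γ := ISym) (fun _ _ _ => (2 : ℝ)) :=
    (RF.nat (UF.const 2)).congr fun _ _ _ => by norm_num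
  have hε : RF (Γ := ISym) (fun x _ _ => (2 : ℝ) / ((2 ^ pq x.length : ℕ) : ℝ)) :=
    (h2.div (h2.pow (uf_pq UF.len))).congr fun x e α => by push_cast; rfl
  have hδ : RF (Γ := ISym) (fun x _ _ => (1 : ℝ) / 2 ^ pdl x.length) :=
    RF.one.div (h2.pow (uf_pdl UF.len))
  have hfa : ∀ (I : Inst) (t : ℕ) (ht : t < I.k), fieldR sg nb db 0 I.enc t = (I.a ⟨t, ht⟩ : ℝ) := by
    intro I t ht
    obtain ⟨e1, e2, e3, e4, e5, e6, e7⟩ := hI I
    rw [Inst.a, fieldR]
    push_cast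
    have h3 := congrArg (fun z : ℤ => (z : ℝ)) (e3 ⟨t, ht⟩)
    have h4 := congrArg (fun z : ℤ => (z : ℝ)) (e4 ⟨t, ht⟩)
    simp only at h3 h4
    push_cast at h3 h4
    rw [h3, h4]
  have hfu : ∀ (I : Inst) (t : ℕ) (ht : t < I.k), fieldR sg nb db 1 I.enc t = (I.u ⟨t, ht⟩ : ℝ) := by
    intro I t ht
    obtain ⟨e1, e2, e3, e4, e5, e6, e7⟩ := hI I
    rw [Inst.u, fieldR]
    push_cast
    have h3 := congrArg (fun z : ℤ => (z : ℝ)) (e5 ⟨t, ht⟩)
    have h4 := congrArg (fun z : ℤ => (z : ℝ)) (e6 ⟨t, ht⟩)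
    simp only at h3 h4
    push_cast at h3 h4
    rw [h3, h4]
  have hmm : UF (Γ := ISym) (fun x _ => x.length ^ cc + cc) := (UF.len.pow cc).add (UF.const cc)
  have hXX : RF (Γ := ISym) (fun x _ _ => ((2 ^ (x.length ^ cc + cc) : ℕ) : ℝ)) :=
    (h2.pow hmm).congr fun x e α => by push_cast; rfl
  -- certificates against `FrozenFrom`
  have hFF := re_certQ (fun x α => QFF (kk x) ((2 ^ (x.length ^ cc + cc) : ℕ) : ℝ)
      (x.length ^ cc + cc) α) kk
    (fun x => pbm x.length) (fun x => pbn x.length)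
    (fieldR sg nb db 0) (fieldR sg nb db 1) _ _ hkk (uf_pbm UF.len) (uf_pbn UF.len)
    (rf_fieldR 0 hsg hnb hdb) (rf_fieldR 1 hsg hnb hdb) hε hδ
    (fun x α => qFF_congr (kk x) _ _ α)
    (re_QFF kk (fun x => pbm x.length) (fun x => pbn x.length) (fun x => x.length ^ cc + cc)
      (fun x => ((2 ^ (x.length ^ cc + cc) : ℕ) : ℝ)) hkk (uf_pbm UF.len)
      (uf_pbn UF.len) hmm hXX)
  -- the values along the fibres
  have hRR := re_certQ (fun x α => QRX (kk x) α) kk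
    (fun x => pbm x.length) (fun x => pbn x.length)
    (fieldR sg nb db 0) (fieldR sg nb db 1) _ _ hkk (uf_pbm UF.len) (uf_pbn UF.len)
    (rf_fieldR 0 hsg hnb hdb) (rf_fieldR 1 hsg hnb hdb) hε hδ (fun x α => qRX_congr (kk x) α)
    (re_QRX kk (fun x => pbm x.length) (fun x => pbn x.length) hkk (uf_pbm UF.len)
      (uf_pbn UF.len))
  obtain ⟨P, hP, hB⟩ := RElim.Par.exists_bound_param5
    (R := fun x t y p0 p1 p2 p3 p4 => ∃ (l c : ℕ → ℂ) (ex : ℕ → ℕ),
      RootData (kk x) (fieldR sg nb db 0 x)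
      (fieldR sg nb db 1 x) l c ex ∧ CertQN (kk x) l c ex (pbm x.length) (pbn x.length)
        (2 / ((2 ^ pq x.length : ℕ) : ℝ)) (1 / 2 ^ pdl x.length)
        (QRX (kk x) (v7 t y p0 p1 p2 p3 p4))) hRR
  -- small indices
  have hsmall := re_small kk (fun x => pthX C (cc + 1) x.length (P x)) (fieldR sg nb db 0)
    (fieldR sg nb db 1) hkk (uf_pthX C (cc + 1) UF.len hP)
    (rf_fieldR 0 hsg hnb hdb) (rf_fieldR 1 hsg hnb hdb)
  refine RE.inForallR (((RE.up up_valid.not).or hsmall).or (hFF.or hEx)) _ fun x => ?_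
  constructor
  · rintro ⟨I, rfl, hpos, hfr, h8⟩ ⟨α, (h4 | h4) | (h4 | h4)⟩
    · exact h4 ⟨I, rfl⟩
    · obtain ⟨l, c, ex, hrd, n, hn, hle⟩ := h4
      obtain ⟨v, hv, -⟩ := I.exists_unique_seq
      have hIk := (hI I).1
      rw [hIk] at hrd hle
      have h5 := I.all' _ _ (hfa I) (hfu I) v hv hrd n
      rw [← Finset.sum_range (fun i => c i * (n.choose (ex i) : ℂ) * l i ^ (n - ex i))] at h5
      rw [termN, h5, Complex.ofReal_re] at hle
      have h6 : 0 < ((v n : ℚ) : ℝ) := by exact_mod_cast hpos v hv n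
      linarith
    · obtain ⟨e1, e2, e3, e4, e5, e6, e7⟩ := hI I
      obtain ⟨v, hv, -⟩ := I.exists_unique_seq
      simp only [e1] at h4
      exact I.no_cff I.enc.length e2 (fun i => ⟨(e7 i).1.le, (e7 i).2.1.le⟩) _ _
        (hfa I) (hfu I) v hv _ _ (by positivity) hfr α h4
    · exact h8 h4
  · intro h
    have h1 : ∃ I : Inst, x = I.enc := by
      by_contra hcon
      exact h ⟨fun _ => 0, Or.inl (Or.inl hcon)⟩
    obtain ⟨I, rfl⟩ := h1
    obtain ⟨e1, e2, e3, e4, e5, e6, e7⟩ := hI I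
    obtain ⟨v, hv, hvu⟩ := I.exists_unique_seq
    have hbd : ∀ i, (I.aNum i).natAbs ≤ 2 ^ I.enc.length ∧ I.aDen i ≤ 2 ^ I.enc.length :=
      fun i => ⟨(e7 i).1.le, (e7 i).2.1.le⟩
    have hbu : ∀ i, (I.uNum i).natAbs ≤ 2 ^ I.enc.length ∧ I.uDen i ≤ 2 ^ I.enc.length :=
      fun i => ⟨(e7 i).2.2.1.le, (e7 i).2.2.2.le⟩
    have hno : ∀ α, ¬ I.CFF I.enc.length (fieldR sg nb db 0 I.enc) (fieldR sg nb db 1 I.enc)
        ((2 ^ (I.enc.length ^ cc + cc) : ℕ) : ℝ) (I.enc.length ^ cc + cc) α := by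
      intro α hα
      apply h
      refine ⟨α, Or.inr (Or.inl ?_)⟩
      simp only [e1]
      exact hα
    have hfr := I.frozenFrom_of_no I.enc.length e2 hbd _ _ (hfa I) (hfu I) v hv
      (2 ^ (I.enc.length ^ cc + cc)) (I.enc.length ^ cc + cc) hno
    refine ⟨I, rfl, ?_, hfr, fun hcon => h ⟨fun _ => 0, Or.inr (Or.inr hcon)⟩⟩
    have hthr : ∀ n : ℕ, 2 ^ pthX C (cc + 1) I.enc.length (P I.enc) ≤ n → 0 < v n := by
      intro n hn
      obtain ⟨-, -, -, -, -, -, -, hn4⟩ := arithX C (cc + 1) I.enc.length (P I.enc) n hn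
      have hX0 : (0 : ℝ) < ((2 ^ (I.enc.length ^ cc + cc) : ℕ) : ℝ) := by positivity
      have hXn : ((2 ^ (I.enc.length ^ cc + cc) : ℕ) : ℝ) ≤ (n : ℝ) := by
        have h5 : 2 ^ (I.enc.length ^ cc + cc) ≤ 2 ^ ((2 + I.enc.length) ^ (cc + 1)) :=
          Nat.pow_le_pow_right (by norm_num) (uLang_arith _ _)
        exact_mod_cast h5.trans hn4.le
      obtain ⟨l, c, ex, hrd, hsort⟩ := exists_sorted (I.exists_rootData' _ _ (hfa I) (hfu I))
      obtain ⟨n0, hn0, hn0Nb, -, hnt, hcls⟩ := I.exists_clsUU I.enc.length e2 hbd _ _ (hfa I)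
        (hfu I) v hv hrd _ _ hno
      refine I.pos_of_clsX I.enc.length e2 hbd hbu _ _ (hfa I) (hfu I) v hv C hC (cc + 1)
        (P I.enc) (by
          intro b P' hbP p0 p1 p2 p3 p4 h0 h1 h2 h3 h4
          have h5 := hB I.enc b P' hbP p0 p1 p2 p3 p4 h0 h1 h2 h3 h4
          simp only [e1] at h5
          exact h5) hrd hsort n hn (I.nnx_of_no I.enc.length _ _ _ _ hno (n : ℝ) hXn) n0 hn0
        hn0Nb hnt fun j hj hj' => ?_
      exact clsX_of_clsU (k := I.k) (fun i => l i) (fun i => c i) (fun i => ex i)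
        (fun i => hrd.1 i i.2) (fun i e he => hrd.closed i e he) I.kpos _ _ _ _ _ hX0 _ n0 j
        (hcls j hj hj') (n : ℝ) hXn
    intro w hw n
    rw [hvu w hw]
    by_contra hcon
    push Not at hcon
    rcases lt_or_ge n (2 ^ pthX C (cc + 1) I.enc.length (P I.enc)) with h5 | h5
    · apply h
      refine ⟨fun _ => 0, Or.inl (Or.inr ?_)⟩
      obtain ⟨l, c, ex, hrd⟩ := I.exists_rootData' _ _ (hfa I) (hfu I)
      refine ⟨l, c, ex, ?_, n, h5, ?_⟩
      · rw [e1]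
        exact hrd
      · have h6 := I.all' _ _ (hfa I) (hfu I) v hv hrd n
        rw [← Finset.sum_range (fun i => c i * (n.choose (ex i) : ℂ) * l i ^ (n - ex i))] at h6
        rw [e1, termN, h6, Complex.ofReal_re]
        exact_mod_cast hcon
    · exact absurd (hthr n h5) (not_lt.mpr hcon)

/-- **Theorem U.** For all `c` and `s`. -/
theorem inForallR_from_perCircle (c s : ℕ) :
    InForallR {w : List ISym | ∃ I : Inst, w = I.enc ∧ I.Positive ∧
      I.FrozenFrom (2 ^ (I.enc.length ^ c + c)) (2 ^ (I.enc.length ^ c + c)) ∧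
      I.AtMostPerCircle s} := by
  obtain ⟨kk, fR, hkk, hfR, hk, hf⟩ := exists_coefR
  have hiff : ∀ I : Inst, I.AtMostPerCircle s ↔ ¬ ManyRoots (s + 1) (kk I.enc) (fR I.enc) := by
    intro I
    rw [hk]
    exact I.perCircle_iff s _ (hf I)
  have h := inForallR_fromE c (fun x => ManyRoots (s + 1) (kk x) (fR x))
    (re_many (s + 1) kk fR hkk hfR)
  have hset : {w : List ISym | ∃ I : Inst, w = I.enc ∧ I.Positive ∧
      I.FrozenFrom (2 ^ (I.enc.length ^ c + c)) (2 ^ (I.enc.length ^ c + c)) ∧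
      I.AtMostPerCircle s} = {w : List ISym | ∃ I : Inst, w = I.enc ∧ I.Positive ∧
        I.FrozenFrom (2 ^ (w.length ^ c + c)) (2 ^ (w.length ^ c + c)) ∧
        ¬ ManyRoots (s + 1) (kk w) (fR w)} := by
    ext w
    constructor
    · rintro ⟨I, rfl, h1, h2, h3⟩
      exact ⟨I, rfl, h1, h2, (hiff I).mp h3⟩
    · rintro ⟨I, rfl, h1, h2, h3⟩
      exact ⟨I, rfl, h1, h2, (hiff I).mpr h3⟩
  rw [hset]
  exact h

/-- **Theorem U**, without a bound for the number of roots. -/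
theorem inForallR_from (c : ℕ) :
    InForallR {w : List ISym | ∃ I : Inst, w = I.enc ∧ I.Positive ∧
      I.FrozenFrom (2 ^ (I.enc.length ^ c + c)) (2 ^ (I.enc.length ^ c + c))} := by
  have h := inForallR_fromE c (fun _ => False) (RE.congr (RE.ne RF.zero RF.zero)
    fun _ _ _ => by simp)
  have hset : {w : List ISym | ∃ I : Inst, w = I.enc ∧ I.Positive ∧
      I.FrozenFrom (2 ^ (I.enc.length ^ c + c)) (2 ^ (I.enc.length ^ c + c))} =
      {w : List ISym | ∃ I : Inst, w = I.enc ∧ I.Positive ∧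
        I.FrozenFrom (2 ^ (w.length ^ c + c)) (2 ^ (w.length ^ c + c)) ∧ ¬ False} := by
    ext w
    constructor
    · rintro ⟨I, rfl, h1, h2⟩
      exact ⟨I, rfl, h1, h2, id⟩
    · rintro ⟨I, rfl, h1, h2, -⟩
      exact ⟨I, rfl, h1, h2⟩
  rw [hset]
  exact h

end Pool.Agent.UltPos
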