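import Pool.Agent.DD7719.NNar

/-! The liminf of a class with positive values on the torus. -/

set_option autoImplicit false

namespace Pool.Agent.FrNar

open Filter Topology Complex
open Pool.Agent.DD7719 Pool.Agent.DD7719.M Pool.Agent.DD7719.M.GS

variable {k : ℕ}

/-- PROOF: the proof of `cls_liminf` (`DD7719/NNar.lean`), which shows the positive lower bound
`b / (ρ ^ n0) ^ q`. -/
theorem cls_liminf_pos (l c : Fin k → ℂ) (ex : Fin k → ℕ) (n0 j : ℕ) (hn0 : 0 < n0)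
    (hexj : ∀ i, ex i ≤ j) (v : ℕ → ℝ)
    (hv : ∀ n, ∑ i, c i * (n.choose (ex i) : ℂ) * l i ^ (n - ex i) = (v n : ℂ))
    (ρ : ℝ) (hρ : 0 < ρ) (hvan : open scoped Classical in ∀ m, ∑ i, (if Above ρ 0 (l i) (ex i) then
          c i * ((j + n0 * m).choose (ex i) : ℂ) * l i ^ (j + n0 * m - ex i) else 0) = 0)
    (A : Fin k → Fin k → ℤ) (s : ℕ) (x : Fin k → ℝ) (hrep : Rep l n0 A s x)
    (hpos : ∀ z : Fin k → ℂ, (∀ t, ‖z t‖ = 1) → 0 < (LevF l c ex A s j 0 ρ z).re)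
    (J q : ℕ) (hJ : j = J + n0 * q) :
    0 < liminf (fun m : ℕ => v (n0 * m + J) / (ρ ^ n0) ^ m) atTop := by
  classical
  obtain ⟨μ, hμ, hμb⟩ := exists_torus_bound l c ex A s j 0 ρ hpos
  have hlev := level_asym l c ex n0 j hn0 hexj ρ 0 hρ hvan
  have hasym : Tendsto (fun M : ℕ => ((v (j + n0 * M) : ℝ) : ℂ) /
        ((ρ ^ (n0 * M) * (M : ℝ) ^ 0 : ℝ) : ℂ) -
      ((((j + n0 * M).choose 0 : ℝ) / (M : ℝ) ^ 0 : ℝ) : ℂ) *
        levelSum l c ex n0 j ρ 0 M)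
      atTop (𝓝 0) := by
    refine hlev.congr fun M => ?_
    rw [hv]
  obtain ⟨-, -, -, h4⟩ := level_data l c ex n0 j hn0 v ρ 0 hρ hasym
  obtain ⟨b, hb, hb'⟩ := h4 μ hμ (fun M => by
    rw [levelSum_eq l c ex n0 j 0 ρ s A x hrep.1 hrep.2 M]
    exact hμb _ (norm_orb x M))
  obtain ⟨B, hB⟩ := cls_bound l c ex n0 j hn0 hexj v hv ρ hρ hvan J q hJ
  have hρn : 0 < ρ ^ n0 := by positivity
  have hev : ∀ᶠ m : ℕ in atTop, b / (ρ ^ n0) ^ q ≤ v (n0 * m + J) / (ρ ^ n0) ^ m := by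
    have hsub : Tendsto (fun m : ℕ => m - q) atTop atTop := tendsto_sub_atTop_nat q
    filter_upwards [hsub.eventually hb', eventually_ge_atTop q] with m h2 hm
    obtain ⟨r, rfl⟩ := Nat.exists_eq_add_of_le hm
    rw [Nat.add_sub_cancel_left, pow_zero, mul_one] at h2
    have e1 : j + n0 * r = n0 * (q + r) + J := by
      rw [hJ]
      ring
    rw [e1] at h2
    rw [div_le_div_iff₀ (by positivity) (by positivity), pow_add]
    have h3 := mul_le_mul_of_nonneg_right h2 (show 0 ≤ (ρ ^ n0) ^ q by positivity)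
    linarith
  have h1 : b / (ρ ^ n0) ^ q ≤ liminf (fun m : ℕ => v (n0 * m + J) / (ρ ^ n0) ^ m) atTop := by
    refine le_liminf_of_le ?_ hev
    refine IsBoundedUnder.isCoboundedUnder_ge ⟨B, ?_⟩
    rw [eventually_map]
    refine Eventually.of_forall fun m => ?_
    show v (n0 * m + J) / (ρ ^ n0) ^ m ≤ B
    rw [div_le_iff₀ (by positivity)]
    exact (le_abs_self _).trans (hB m)
  have h2 : 0 < b / (ρ ^ n0) ^ q := by positivity
  linarith

end Pool.Agent.FrNar
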