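import Pool.Agent.FrNar.BdP

/-! Arithmetic of the exponents. -/

set_option autoImplicit false

namespace Pool.Agent.FrNar

open Pool.Agent.MX Pool.Agent.RElim Complex

/-- PROOF: all quantities are at most a power of `K = 2 + B + E + Dg + Hc` with an exponent depending on
`s` and `C1` only: `n * B + 3`, `(n + 1) * (B + 1)` etc. are at most `K ^ (2 * s + 8)` (as in `bd_poly`,
`FixRec/Bd.lean`), so `2 + Q ≤ K ^ a`, `m0 ≤ K ^ (a * C1)`, and so on. -/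
theorem num_dic (s C1 : ℕ) : ∃ C : ℕ, ∀ n B E Dg Hc : ℕ, n ≤ 2 * s →
    ∀ Q m0 Q2 : ℕ, Q = 4 * (n * B + E + 3) + (20 * (n + 1) * (B + 1) + 4 * Hc + 2 * E) + Dg + 1 →
      m0 = (2 + Q) ^ C1 →
      Q2 = 4 * (n * B + E + (m0 + 2) + 3) + (20 * (n + 1) * (B + 1) + 4 * Hc + 2 * E) + Dg + 1 →
      (2 + Q) ^ C1 ≤ (2 + B + E + Dg + Hc) ^ C ∧ (2 + Q2) ^ C1 ≤ (2 + B + E + Dg + Hc) ^ C ∧
        m0 + 3 ≤ (2 + B + E + Dg + Hc) ^ C := by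
  obtain ⟨a, ha⟩ : ∃ a, a = 4 * (2 * s) + 20 * (2 * s + 1) + 30 + 1 := ⟨_, rfl⟩
  obtain ⟨b, hb⟩ : ∃ b, b = 4 + a + a * C1 := ⟨_, rfl⟩
  refine ⟨b * C1 + b, ?_⟩
  intro n B E Dg Hc hn Q m0 Q2 hQ hm hQ2
  obtain ⟨K, hK⟩ : ∃ K, K = 2 + B + E + Dg + Hc := ⟨_, rfl⟩
  rw [← hK]
  have hK2 : 2 ≤ K := by omega
  have hK1 : 1 ≤ K := by omega
  have pw : ∀ c : ℕ, c ≤ K ^ c := fun c =>
    (Nat.lt_two_pow_self).le.trans (Nat.pow_le_pow_left hK2 c)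
  have mono : ∀ {x y : ℕ}, x ≤ y → K ^ x ≤ K ^ y := fun h => Nat.pow_le_pow_right hK1 h
  have e1 : n * B ≤ 2 * s * K := Nat.mul_le_mul hn (by omega)
  have e2 : (n + 1) * (B + 1) ≤ (2 * s + 1) * K := Nat.mul_le_mul (by omega) (by omega)
  have e3 : 2 + Q ≤ (4 * (2 * s) + 20 * (2 * s + 1) + 30) * K := by
    have e4 : 20 * (n + 1) * (B + 1) = 20 * ((n + 1) * (B + 1)) := by ring
    rw [hQ, e4]
    calc 2 + (4 * (n * B + E + 3) + (20 * ((n + 1) * (B + 1)) + 4 * Hc + 2 * E) + Dg + 1)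
        ≤ 4 * (2 * s * K) + 20 * ((2 * s + 1) * K) + 30 * K := by omega
      _ = _ := by ring
  have e5 : 2 + Q ≤ K ^ a := by
    rw [ha, pow_succ]
    exact e3.trans (Nat.mul_le_mul_right _ (pw _))
  have e6 : m0 ≤ K ^ (a * C1) := by
    rw [hm, pow_mul]
    exact Nat.pow_le_pow_left e5 C1
  have e7 : 2 + Q2 = (2 + Q) + 4 * m0 + 8 := by
    rw [hQ2, hQ]
    ring
  have h1a : K ^ a ≤ K ^ (a + a * C1) := mono (by omega)
  have h1b : K ^ (a * C1) ≤ K ^ (a + a * C1) := mono (by omega)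
  have h1c : 1 ≤ K ^ (a + a * C1) := Nat.one_le_pow _ _ hK1
  have h1d : 16 ≤ K ^ 4 := by
    calc 16 = 2 ^ 4 := by norm_num
      _ ≤ K ^ 4 := Nat.pow_le_pow_left hK2 4
  have e8 : 2 + Q2 ≤ K ^ b := by
    rw [e7, hb]
    calc (2 + Q) + 4 * m0 + 8 ≤ 16 * K ^ (a + a * C1) := by omega
      _ ≤ K ^ 4 * K ^ (a + a * C1) := Nat.mul_le_mul_right _ h1d
      _ = K ^ (4 + a + a * C1) := by rw [← pow_add, add_assoc]
  have e9 : m0 + 3 ≤ K ^ b := by omega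
  refine ⟨?_, ?_, e9.trans (mono (by omega))⟩
  · rw [← hm]
    exact (Nat.le_add_right _ _).trans (e9.trans (mono (by omega)))
  · calc (2 + Q2) ^ C1 ≤ (K ^ b) ^ C1 := Nat.pow_le_pow_left e8 C1
      _ = K ^ (b * C1) := by rw [pow_mul]
      _ ≤ _ := mono (by omega)

end Pool.Agent.FrNar
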