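import Mathlib

/-! Two copies of a coset. -/

set_option autoImplicit false

namespace Pool.Agent.FrNar

/-- the two halves of a vector -/
def fst' {P : ℕ} {α : Type} (z : Fin (P + P) → α) (i : Fin P) : α := z (Fin.castAdd P i)

def snd' {P : ℕ} {α : Type} (z : Fin (P + P) → α) (i : Fin P) : α := z (Fin.natAdd P i)

open scoped Classical in
/-- the relations of the two halves -/
def S2 {P : ℕ} (S : Set (Fin P → ℤ)) : Set (Fin (P + P) → ℤ) :=
  {g | (fst' g ∈ S ∧ snd' g = 0) ∨ (fst' g = 0 ∧ snd' g ∈ S)}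

open scoped Classical in
/-- the values of the relations of the two halves -/
noncomputable def ζ2 {P : ℕ} {α : Type} (ζ : (Fin P → ℤ) → α) (g : Fin (P + P) → ℤ) : α :=
  if snd' g = 0 then ζ (fst' g) else ζ (snd' g)

private theorem DicB_prod {P : ℕ} (z : Fin (P + P) → ℂ) (g : Fin (P + P) → ℤ) :
    ∏ i, z i ^ g i = (∏ i, fst' z i ^ fst' g i) * ∏ i, snd' z i ^ snd' g i := by
  rw [Fin.prod_univ_add]
  rfl

private theorem DicB_one {P : ℕ} (z : Fin P → ℂ) : ∏ i, z i ^ ((0 : Fin P → ℤ) i) = 1 := by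
  simp

/-- PROOF: `→`: for `g ∈ S` apply the hypothesis to `Fin.addCases g 0` and to `Fin.addCases 0 g`
(if `g = 0` in the second case, `ζ2 = ζ (fst' ..) = ζ 0 = ζ g`); `Fin.prod_univ_add`, `zpow_zero`.
`←`: the same computations; in the case `fst' g = 0`, `snd' g ∈ S`: if `snd' g = 0` then
`ζ2 ζ g = ζ 0 = ζ (snd' g)`. -/
theorem rel_S2 {P : ℕ} (S : Set (Fin P → ℤ)) (ζ : (Fin P → ℤ) → ℂ) (z : Fin (P + P) → ℂ) :
    (∀ g ∈ S2 S, ∏ i, z i ^ g i = ζ2 ζ g) ↔
      (∀ g ∈ S, ∏ i, fst' z i ^ g i = ζ g) ∧ (∀ g ∈ S, ∏ i, snd' z i ^ g i = ζ g) := by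
  classical
  constructor
  · intro h
    refine ⟨fun g hg => ?_, fun g hg => ?_⟩
    · have h1 : fst' (Fin.addCases g (0 : Fin P → ℤ)) = g := by
        funext i
        simp [fst']
      have h2 : snd' (Fin.addCases g (0 : Fin P → ℤ)) = 0 := by
        funext i
        show Fin.addCases (motive := fun _ => ℤ) g (0 : Fin P → ℤ) (Fin.natAdd P i) = 0
        rw [Fin.addCases_right]
        rfl
      have h3 := h (Fin.addCases g (0 : Fin P → ℤ)) (Or.inl ⟨by rw [h1]; exact hg, h2⟩)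
      rw [DicB_prod, h1, h2, DicB_one, mul_one] at h3
      rw [h3, ζ2, if_pos h2, h1]
    · have h1 : fst' (Fin.addCases (0 : Fin P → ℤ) g) = 0 := by
        funext i
        simp [fst']
      have h2 : snd' (Fin.addCases (0 : Fin P → ℤ) g) = g := by
        funext i
        show Fin.addCases (motive := fun _ => ℤ) (0 : Fin P → ℤ) g (Fin.natAdd P i) = g i
        rw [Fin.addCases_right]
      have h3 := h (Fin.addCases (0 : Fin P → ℤ) g) (Or.inr ⟨h1, by rw [h2]; exact hg⟩)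
      rw [DicB_prod, h1, h2, DicB_one, one_mul] at h3
      rw [h3, ζ2]
      split_ifs with h4
      · rw [h1, ← h4, h2]
      · rw [h2]
  · rintro ⟨h, h'⟩ g (⟨h1, h2⟩ | ⟨h1, h2⟩)
    · rw [DicB_prod, h2, DicB_one, mul_one, h _ h1, ζ2, if_pos h2]
    · rw [DicB_prod, h1, DicB_one, one_mul, h' _ h2, ζ2]
      split_ifs with h4
      · rw [h1, h4]
      · rfl

end Pool.Agent.FrNar
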