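import Pool.Agent.FrNar.Model
import Pool.Agent.FrNar.Dic

/-! Thresholds for the zeros of the level functions and for the separation of the ratios. -/

set_option autoImplicit false

namespace Pool.Agent.FrNar

open Finset Complex Polynomial
open Pool.Agent.DD7719 Pool.Agent.DD7719.M Pool.Agent.DD7719.M.GS Pool.Agent.MX Pool.Agent.FrUP

/-- **Separation.**

PROOF: `coset_model s` and `sep_coset (s + 2)` (`E = k`). With `κ = (nz (l i1) / nz (l i2)) ^ (j - k)`, of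
absolute value `1`: the set of the ratios `W z a / W z b` on the zeros in the coset is `κ *` the set of the
ratios of the `Wt`, so it is finite at the same parameters, and distances are preserved. The threshold as
in `zeroThr`; `x ^ ((2 + B + k + Dg + Hc) ^ C) ≤ x ^ ((2 + L) ^ E)` as `1 ≤ x`. -/
theorem sepThr (s : ℕ) : ∃ E : ℕ, ∀ (k L : ℕ) (_ : k ≤ L) (num numu : ℕ → ℤ)
    (den denu : ℕ → ℕ) (_ : ∀ t, t < k → 0 < den t) (_ : ∀ t, t < k → 0 < denu t)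
    (_ : ∀ t, t < k → (num t).natAbs ≤ 2 ^ L) (_ : ∀ t, t < k → den t ≤ 2 ^ L)
    (_ : ∀ t, t < k → (numu t).natAbs ≤ 2 ^ L) (_ : ∀ t, t < k → denu t ≤ 2 ^ L)
    (a u : ℕ → ℝ) (_ : ∀ t, t < k → a t = (num t : ℝ) / (den t : ℝ))
    (_ : ∀ t, t < k → u t = (numu t : ℝ) / (denu t : ℝ))
    (l c : ℕ → ℂ) (ex : ℕ → ℕ) (_ : RootData k a u l c ex)
    (R M Nb : ℕ) (ε δ : ℝ) (v : ℕ → ℝ)
    (_ : GoodD k (fun i => l i) (fun i => c i) (fun i => ex i) R M ε δ v)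
    (n0 j : ℕ) (_ : 0 < n0) (_ : k ≤ j) (ρ : ℝ) (_ : 0 < ρ)
    (_ : ({z | z ∈ Set.range (fun i : Fin k => l i) ∧ ‖z‖ = ρ}).ncard ≤ s)
    (A H : Fin k → Fin k → ℤ) (D : ℤ) (s' : ℕ) (w : Fin k → Fin k → ℝ)
    (τ : Fin k → ℝ) (y : Fin k → ℝ) (d : ℕ) (_ : Rep (fun i : Fin k => l i) n0 A s' y)
    (_ : BaseF k (fun i => l i) (fun i => c i) (fun i => ex i) M Nb ε δ n0 j A H D s' w τ ρ d)
    (i1 i2 : Fin k) (_ : l i1 ≠ 0) (_ : l i2 ≠ 0)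
    (_ : ∀ X : ℝ, ∃ x : ℝ, X < x ∧ ((fun z : Fin k → ℂ => Wt A s' z i1 / Wt A s' z i2) ''
      {z | (∀ t, ‖z t‖ = 1) ∧ (LevX (fun i : Fin k => l i) (fun i => c i) (fun i => ex i)
        A s' j ρ x z).re = 0}).Finite)
    (x : ℝ) (_ : 2 ^ ((2 + L) ^ E) < x) (z z' : Fin k → ℂ) (_ : ∀ t, ‖z t‖ = 1)
    (_ : (LevX (fun i : Fin k => l i) (fun i => c i) (fun i => ex i) A s' j ρ x z).re = 0)
    (_ : ∀ t, ‖z' t‖ = 1)
    (_ : (LevX (fun i : Fin k => l i) (fun i => c i) (fun i => ex i) A s' j ρ x z').re = 0)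
    (_ : Wt A s' z i1 / Wt A s' z i2 ≠ Wt A s' z' i1 / Wt A s' z' i2),
    1 ≤ x ^ ((2 + L) ^ E) *
      ‖Wt A s' z i1 / Wt A s' z i2 - Wt A s' z' i1 / Wt A s' z' i2‖ := by
  obtain ⟨E1, hE1⟩ := coset_model s
  obtain ⟨C, hC⟩ := sep_coset (s + 2)
  refine ⟨E1 * C, ?_⟩
  intro k L hkL num numu den denu h1 h2 h3 h4 h5 h6 a u h7 h8 l c ex hRD R M Nb ε δ v hG n0 j hn0
    hkj ρ hρ hcard A H D s' w τ y d hRep hBase i1 i2 hi1 hi2 hfin x hx z z' hz hz0 hz' hz0' hne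
  obtain ⟨F, hFD, P, B, Dg, Hc, D0, cc, S, ζ, a', b', W, hconj, hI, hP, hDg, hD0, hD0', hsize,
    hint, hbnd, hS, hζ, hW, hsurj⟩ := hE1 k L hkL num numu den denu h1 h2 h3 h4 h5 h6 a u h7 h8
      l c ex hRD R M Nb ε δ v hG n0 j hn0 hkj ρ hρ hcard A H D s' w τ y d hRep hBase i1 i2 hi1 hi2
  obtain ⟨κ, hκ⟩ : ∃ κ : ℂ, κ = (nz (l i1) / nz (l i2)) ^ (j - k) := ⟨_, rfl⟩
  have hκ1 : ‖κ‖ = 1 := by
    rw [hκ, norm_pow, norm_div, norm_nz, norm_nz, div_one, one_pow]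
  have hρp : ρ ^ (j - k) ≠ 0 := pow_ne_zero _ hρ.ne'
  have hzero : ∀ (x : ℝ) (z : Fin k → ℂ), (∀ t, ‖z t‖ = 1) →
      ((LevX (fun i : Fin k => l i) (fun i => c i) (fun i => ex i) A s' j ρ x z).re = 0 ↔
        fX k cc x (W z) = 0) := by
    intro x z hz
    rw [(hW z hz).2.2.1 x, mul_eq_zero]
    exact ⟨fun h => h.resolve_left hρp, Or.inr⟩
  have hfin' : ∀ X : ℝ, ∃ x : ℝ, X < x ∧ {u : ℂ | ∃ z : Fin P → ℂ, (∀ i, ‖z i‖ = 1) ∧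
      (∀ g ∈ S, ∏ i, z i ^ g i = (ζ g : ℂ)) ∧ fX k cc x z = 0 ∧ z a' / z b' = u}.Finite := by
    intro X
    obtain ⟨x1, hx1, hU⟩ := hfin X
    refine ⟨x1, hx1, (hU.image fun r => κ * r).subset ?_⟩
    rintro _ ⟨q, hq1, hq2, hq3, rfl⟩
    obtain ⟨p, hp1, rfl⟩ := hsurj q hq1 hq2
    refine ⟨_, ⟨p, ⟨hp1, (hzero x1 p hp1).2 hq3⟩, rfl⟩, ?_⟩
    show κ * (Wt A s' p i1 / Wt A s' p i2) = W p a' / W p b'
    rw [(hW p hp1).2.2.2, hκ]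
  have hpow : (2 + B + k + Dg + Hc) ^ C ≤ (2 + L) ^ (E1 * C) := by
    rw [pow_mul]
    exact Nat.pow_le_pow_left hsize C
  have hx' : (2 : ℝ) ^ ((2 + B + k + Dg + Hc) ^ C) < x :=
    lt_of_le_of_lt (pow_le_pow_right₀ (by norm_num) hpow) hx
  have hx1 : 1 ≤ x := by
    have h9 : (1 : ℝ) ≤ 2 ^ ((2 + L) ^ (E1 * C)) := one_le_pow₀ (by norm_num)
    linarith
  have hdist : ∀ r r' : ℂ, ‖κ * r - κ * r'‖ = ‖r - r'‖ := by
    intro r r'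
    rw [← mul_sub, norm_mul, hκ1, one_mul]
  have hκ0 : κ ≠ 0 := fun h => by
    rw [h, norm_zero] at hκ1
    exact zero_ne_one hκ1
  have key := hC F hconj hI P B k Dg Hc D0 hP hDg hD0 hD0' cc (fun i e _ => hint i e)
    (fun i e _ => hbnd i e) S hS ζ hζ a' b' hfin' x hx' (W z) (W z') (hW z hz).1 (hW z hz).2.1
    ((hzero x z hz).1 hz0) (hW z' hz').1 (hW z' hz').2.1 ((hzero x z' hz').1 hz0') (by
      rw [(hW z hz).2.2.2, (hW z' hz').2.2.2, ← hκ]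
      intro h
      exact hne (mul_left_cancel₀ hκ0 h))
  rw [(hW z hz).2.2.2, (hW z' hz').2.2.2, ← hκ, hdist] at key
  refine key.trans ?_
  exact mul_le_mul_of_nonneg_right (pow_le_pow_right₀ hx1 hpow) (norm_nonneg _)

end Pool.Agent.FrNar
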