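import Mathlib

/-! The size bound of the systems. -/

set_option autoImplicit false

namespace Pool.Agent.FrNar

/-- the size bound of the systems -/
def szB (n B E Hc : ℕ) : ℕ := 2 ^ (20 * (n + 1) * (B + 1) + 4 * Hc + 2 * E)

end Pool.Agent.FrNar
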