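import Pool.Agent.MX.ElimMin

/-! Polynomial exponents for the bounds in a bounded number of variables. -/

set_option autoImplicit false

namespace Pool.Agent.FrNar

open Pool.Agent.MX Pool.Agent.RElim

/-- PROOF: as `bd_poly` in `FixRec/Bd.lean`, with `BdD_le D n (2 ^ b) b le_rfl` and `total_le`
(`MX/ElimMin.lean`): `(D + 1) ^ n ≤ (Q + 1) ^ n0 ≤ (2 + Q) ^ n0`. -/
theorem bd_gen (n0 : ℕ) : ∃ C : ℕ, ∀ D n b Dg Q : ℕ, n ≤ n0 → D ≤ Q → b ≤ Q → Dg ≤ Q →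
    BdD D n (2 ^ b) ^ Dg ≤ 2 ^ ((2 + Q) ^ C) := by
  refine ⟨(n0 + 2) * 8, ?_⟩
  intro D n b Dg Q hn hD hb hDg
  set M := 2 + Q with hM
  set K := n0 + 2 with hK
  have hM2 : 2 ≤ M := by omega
  have hpow : ∀ i j : ℕ, i ≤ j → M ^ i ≤ M ^ j := fun i j h => Nat.pow_le_pow_right (by omega) h
  have hMK : M ≤ M ^ K := Nat.le_self_pow (by omega) M
  have hZ : 2 ≤ M ^ K := hM2.trans hMK
  have hn1 : n ≤ M ^ K := by
    calc n ≤ n0 := hn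
      _ ≤ 2 ^ n0 := Nat.lt_two_pow_self.le
      _ ≤ M ^ n0 := Nat.pow_le_pow_left hM2 _
      _ ≤ M ^ K := hpow _ _ (by omega)
  have hN1 : (D + 1) ^ n ≤ M ^ K := by
    calc (D + 1) ^ n ≤ M ^ n := Nat.pow_le_pow_left (by omega) _
      _ ≤ M ^ K := hpow _ _ (by omega)
  have key := total_le D n ((D + 1) ^ n) b 0 Dg (M ^ K) hZ ((by omega : D + 1 ≤ M).trans hMK) hn1
    hN1 ((by omega : b ≤ M).trans hMK) ((by omega : 0 + 1 ≤ M).trans hMK)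
    ((by omega : Dg ≤ M).trans hMK)
  calc BdD D n (2 ^ b) ^ Dg
      ≤ (2 ^ ((D + 1) ^ n * (D + 1) ^ n +
          ((D + b + 1) * (D * n + 1) + 1) * (D + 1) ^ n)) ^ Dg :=
        Nat.pow_le_pow_left (BdD_le D n (2 ^ b) b le_rfl) _
    _ = 2 ^ (((D + 1) ^ n * (D + 1) ^ n +
          ((D + b + 1) * (D * n + 1) + 1) * (D + 1) ^ n) * Dg) := by
        rw [← pow_mul]
    _ ≤ 2 ^ ((M ^ K) ^ 8) := Nat.pow_le_pow_right (by norm_num) (by omega)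
    _ = 2 ^ (M ^ (K * 8)) := by rw [← pow_mul]

end Pool.Agent.FrNar
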