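import Pool.Agent.FrNar.AltA
import Pool.Agent.FrEight.Cls
import Pool.Agent.DD7719.NNar

/-! Frozen positive instances with at most eight roots on each circle are frozen narrow. -/

set_option autoImplicit false

namespace Pool.Agent.UltPos

open Pool.Agent.PT Pool.Agent.AllR Pool.Agent.DD7719.M Pool.Agent.DD7719 Finset Pool.Agent.FrUP

/-- Frozen positive instances with at most eight roots on each circle are frozen narrow. -/
theorem Inst.FrozenPositive.frozenNarrow {I : Inst} (hfr : I.FrozenPositive)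
    (h8 : I.EightPerCircle) : I.FrozenNarrow := by
  classical
  obtain ⟨E, hE⟩ := exists_thr8
  obtain ⟨_, _, _, _, -, -, -, -, hpar⟩ := exists_parser
  obtain ⟨L, hL⟩ : ∃ L : ℕ, L = I.enc.length := ⟨_, rfl⟩
  have hkL : I.k ≤ L := by
    rw [hL]
    exact (hpar I).2.1
  have hb := (hpar I).2.2.2.2.2.2
  rw [← hL] at hb
  have hb1 : ∀ i, (I.aNum i).natAbs ≤ 2 ^ L ∧ I.aDen i ≤ 2 ^ L :=
    fun i => ⟨(hb i).1.le, (hb i).2.1.le⟩
  have hb2 : ∀ i, (I.uNum i).natAbs ≤ 2 ^ L ∧ I.uDen i ≤ 2 ^ L :=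
    fun i => ⟨(hb i).2.2.1.le, (hb i).2.2.2.le⟩
  have ha : ∀ t (h : t < I.k), ((fun t => ((I.aQ t : ℚ) : ℝ)) t) = (I.a ⟨t, h⟩ : ℝ) := by
    intro t h
    simp only [Inst.aQ, h, dif_pos]
  have hu : ∀ t (h : t < I.k), ((fun t => ((I.uQ t : ℚ) : ℝ)) t) = (I.u ⟨t, h⟩ : ℝ) := by
    intro t h
    simp only [Inst.uQ, h, dif_pos]
  obtain ⟨l, c, ex, hrd⟩ := I.exists_rootData' _ _ ha hu
  obtain ⟨v, hv, -⟩ := I.exists_unique_seq
  rw [I.frozenNarrow_fs _ _ ha hu v hv hrd]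
  refine ⟨((2 ^ ((2 + L) ^ E) + 1 : ℕ) : ℚ), fun x hx => ?_⟩
  have hx' : (2 : ℝ) ^ ((2 + L) ^ E) < (x : ℝ) := by
    have h1 : (((2 ^ ((2 + L) ^ E) + 1 : ℕ) : ℚ) : ℝ) ≤ (x : ℝ) := by exact_mod_cast hx
    push_cast at h1
    linarith
  obtain ⟨n0, hn0, -, htor, hcls⟩ :=
    I.exists_clsX L hkL hb1 hb2 _ _ ha hu v hv E hE hfr h8 hrd (x : ℝ) hx'
  have hg := I.goodD L hkL hb1 _ _ ha hu v hv hrd
  have hgf := goodD_frz _ _ _ _ _ _ _ _ hg (x : ℝ)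
  refine isNar_of_cls (k := I.k) (fun i : Fin I.k => l i)
    (fc (fun i : Fin I.k => l i) (fun i => c i) (fun i => ex i) (x : ℝ)) (fun _ => 0)
    (fun _ => I.kpos) (2 ^ pmh L) (2 ^ (1 + 2 * L * L + (pdl L + 3) * L))
    (2 / ((2 ^ pq L : ℕ) : ℝ)) (1 / 2 ^ pdl L) n0 hn0 _ hgf.hv htor fun j hj hj' => ?_
  obtain ⟨A, H, D, s, w, τ, y, i0, hrep, hbase, hi0, hgP, hne, hF, hcase⟩ := hcls j hj hj'
  exact ⟨A, H, D, s, w, τ, y, i0, hrep, hbase, hi0, hne, hF, hcase,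
    van_frz (fun i : Fin I.k => l i) (fun i => c i) (fun i => ex i) n0 j hn0
      (fun i => (hrd.1 i i.2).le.trans hj) ‖l i0‖ (norm_nonneg _) hgP (x : ℝ)⟩

end Pool.Agent.UltPos
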