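import Pool.Agent.FrozenUP.NonCrit
import Pool.Agent.FrEight.Frz
import Pool.Agent.DD7719.NNar
import Pool.Agent.MX.CertDefs

/-! The class data of the frozen sequences from the class data of the sequence. -/

set_option autoImplicit false

namespace Pool.Agent.FrUP

open Complex Filter Topology Finset Polynomial
open Pool.Agent.DD7719.M Pool.Agent.DD7719 Pool.Agent.DD7719.M.GS

variable {k : ℕ}

private lemma bcP_top (e : ℕ) : (bcP e).coeff e ≠ 0 := by
  have h1 : (descPochhammer ℂ e).coeff e = 1 := by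
    have h2 := monic_descPochhammer ℂ e
    unfold Monic leadingCoeff at h2
    rwa [descPochhammer_natDegree] at h2
  rw [bcP, coeff_C_mul, h1, mul_one]
  have : (e.factorial : ℂ) ≠ 0 := by exact_mod_cast e.factorial_ne_zero
  exact inv_ne_zero this

private lemma bcP_low {e m : ℕ} (h : e < m) : (bcP e).coeff m = 0 := by
  rw [bcP, coeff_C_mul, coeff_eq_zero_of_natDegree_lt (by rwa [descPochhammer_natDegree]),
    mul_zero]

/-- the groups of a vanishing coefficient polynomial vanish -/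
theorem grp_eq_zero (l c : Fin k → ℂ) (ex : Fin k → ℕ) (n0 j : ℕ) (X : ℂ)
    (h : gP l c ex n0 j X = 0) (e : ℕ) : grp l c ex n0 j X e = 0 := by
  classical
  have hsum : gP l c ex n0 j X = ∑ e ∈ univ.image ex, C (grp l c ex n0 j X e) * bcP e := by
    rw [gP, ← Finset.sum_fiberwise_of_maps_to (s := univ.filter fun i => l i ^ n0 = X)
      (t := univ.image ex) (g := ex) (fun i _ => Finset.mem_image_of_mem _ (Finset.mem_univ i))]
    refine Finset.sum_congr rfl fun e _ => ?_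
    rw [grp, map_sum, Finset.sum_mul, Finset.filter_filter]
    refine Finset.sum_congr rfl fun i hi => ?_
    rw [(Finset.mem_filter.mp hi).2.2]
  by_contra hne
  have hmem : ∀ e, grp l c ex n0 j X e ≠ 0 → e ∈ univ.image ex := by
    intro e he
    by_contra hcon
    apply he
    rw [grp, Finset.filter_eq_empty_iff.mpr, Finset.sum_empty]
    rintro i _ ⟨-, h1⟩
    exact hcon (Finset.mem_image.mpr ⟨i, Finset.mem_univ i, h1⟩)
  obtain ⟨e0, he0, hmax⟩ := Finset.exists_max_image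
    ((univ.image ex).filter fun e => grp l c ex n0 j X e ≠ 0) id
    ⟨e, Finset.mem_filter.mpr ⟨hmem e hne, hne⟩⟩
  obtain ⟨h1, h2⟩ := Finset.mem_filter.mp he0
  have h3 := congrArg (fun p : ℂ[X] => p.coeff e0) (hsum.symm.trans h)
  simp only [finsetSum_coeff, coeff_C_mul, coeff_zero] at h3
  rw [Finset.sum_eq_single e0] at h3
  · exact (mul_ne_zero h2 (bcP_top e0)) h3
  · intro e' he' hne'
    by_cases h4 : grp l c ex n0 j X e' = 0
    · rw [h4, zero_mul]
    · have h5 : e' ≤ e0 := hmax e' (Finset.mem_filter.mpr ⟨he', h4⟩)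
      rw [bcP_low (lt_of_le_of_ne h5 hne'), mul_zero]
  · exact fun h4 => absurd h1 h4

open scoped Classical in
/-- Vanishing above a level: the coefficient polynomials beyond the circle and the upper levels
vanish. -/
theorem van_above (l c : Fin k → ℂ) (ex : Fin k → ℕ) (n0 j : ℕ) (hn0 : 0 < n0)
    (hexj : ∀ i, ex i ≤ j) (ρ : ℝ) (hρ : 0 < ρ) (d : ℕ)
    (hvan : ∀ m, ∑ i, (if Above ρ d (l i) (ex i) then
      c i * ((j + n0 * m).choose (ex i) : ℂ) * l i ^ (j + n0 * m - ex i) else 0) = 0) :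
    (∀ i, ρ < ‖l i‖ → gP l c ex n0 j (l i ^ n0) = 0) ∧
    ∀ d', d ≤ d' → ∀ m, ∑ i, (if Above ρ d' (l i) (ex i) then
      c i * ((j + n0 * m).choose (ex i) : ℂ) * l i ^ (j + n0 * m - ex i) else 0) = 0 := by
  set c' : Fin k → ℂ := fun i => if Above ρ d (l i) (ex i) then c i else 0 with hc'
  have hne : ∀ i, Above ρ d (l i) (ex i) → l i ≠ 0 := by
    rintro i (h | ⟨h, -, -⟩) h0
    · rw [h0, norm_zero] at h
      exact absurd h (not_lt.mpr hρ.le)
    · rw [h0, norm_zero] at h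
      exact hρ.ne h
  have hP : ∀ i, l i ≠ 0 → gP l c' ex n0 j (l i ^ n0) = 0 := by
    intro i hi
    refine gP_eq_zero l c' ex n0 j hn0 hexj (fun i => l i ≠ 0) ?_ (fun i h => h) (fun m => ?_) i hi
    · intro i i' h h'
      rw [← norm_ne_zero_iff] at h' ⊢
      rwa [← norm_eq_of_pow_eq hn0 h]
    · refine Eq.trans (Finset.sum_congr rfl fun i _ => ?_) (hvan m)
      by_cases h1 : Above ρ d (l i) (ex i)
      · simp only [hc']
        rw [if_pos (hne i h1), if_pos h1, if_pos h1]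
      · simp only [hc']
        rw [if_neg h1, if_neg h1, zero_mul, zero_mul, ite_self]
  have hab : ∀ i i', l i ^ n0 = l i' ^ n0 → ex i = ex i' → Above ρ d (l i) (ex i) →
      Above ρ d (l i') (ex i') := by
    intro i i' h h' h1
    unfold Above at h1 ⊢
    rwa [← norm_eq_of_pow_eq hn0 h, ← h']
  refine ⟨fun i hi => ?_, fun d' hd' => ?_⟩
  · rw [← hP i (norm_pos_iff.mp (hρ.trans hi))]
    unfold gP
    refine Finset.sum_congr rfl fun i' hi' => ?_
    have h1 : l i' ^ n0 = l i ^ n0 := (Finset.mem_filter.mp hi').2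
    have h2 : Above ρ d (l i') (ex i') := Or.inl (by rwa [norm_eq_of_pow_eq hn0 h1])
    simp only [hc']
    rw [if_pos h2]
  · refine sum_vanish l c ex n0 j hexj (fun i => Above ρ d' (l i) (ex i)) ?_ ?_
    · intro i i' h h' h1
      unfold Above at h1 ⊢
      rwa [← norm_eq_of_pow_eq hn0 h, ← h']
    · intro i hi
      have hi' : Above ρ d (l i) (ex i) := by
        rcases hi with h | ⟨h1, h2, h3⟩
        · exact Or.inl h
        · exact Or.inr ⟨h1, h2, by omega⟩
      rw [← grp_eq_zero l c' ex n0 j (l i ^ n0) (hP i (hne i hi')) (ex i)]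
      unfold grp
      refine Finset.sum_congr rfl fun i' hi'' => ?_
      obtain ⟨h1, h2⟩ := (Finset.mem_filter.mp hi'').2
      have h3 : Above ρ d (l i') (ex i') := hab i i' h1.symm h2.symm hi'
      simp only [hc']
      rw [if_pos h3]

open scoped Classical in
/-- the upper level functions vanish on the torus -/
theorem lev_high (l c : Fin k → ℂ) (ex : Fin k → ℕ) (R M Nb : ℕ) (ε δ : ℝ) (v : ℕ → ℝ)
    (hg : GoodD k l c ex R M ε δ v) (n0 j : ℕ) (A H : Fin k → Fin k → ℤ) (D : ℤ) (s : ℕ)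
    (w : Fin k → Fin k → ℝ) (τ : Fin k → ℝ) (ρ : ℝ) (d : ℕ)
    (hbase : BaseF k l c ex M Nb ε δ n0 j A H D s w τ ρ d) (hρ : 0 < ρ)
    (hvan : ∀ m, ∑ i, (if Above ρ d (l i) (ex i) then
      c i * ((j + n0 * m).choose (ex i) : ℂ) * l i ^ (j + n0 * m - ex i) else 0) = 0)
    (d' : ℕ) (hdd : d < d') (hd' : d' < k) (z : Fin k → ℂ) (hz : ∀ t, ‖z t‖ = 1) :
    (LevF l c ex A s j d' ρ z).re = 0 := by
  have hn0 : 0 < n0 := hbase.1
  have hj : k ≤ j := hbase.2.2.1
  have hexj : ∀ i, ex i ≤ j := fun i => (hg.hex i).le.trans hj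
  have hvan' := (van_above l c ex n0 j hn0 hexj ρ hρ d hvan).2 d' hdd.le
  have hbase' := BaseF_change hbase ρ d' hρ.le hd' (fun m _ => hvan' m)
  obtain ⟨u, hu, ⟨U, hU⟩, -⟩ := nar_core l c ex R M Nb ε δ hg.hk hg.hex hg.hdc hg.hR hg.hM hg.hrb
    hg.hε hg.hδ v hg.hv n0 j A H D s w τ ρ d hbase hρ 1 one_pos
  obtain ⟨u', hu', -, happ⟩ := nar_core l c ex R M Nb ε δ hg.hk hg.hex hg.hdc hg.hR hg.hM hg.hrb
    hg.hε hg.hδ v hg.hv n0 j A H D s w τ ρ d' hbase' hρ 1 one_pos
  have hU0 : 0 ≤ U := (abs_nonneg _).trans (hU 0)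
  have hidx : ∀ n, n ≤ j + n0 * (1 * n) := fun n => by
    rw [one_mul]
    exact (Nat.le_mul_of_pos_left n hn0).trans (Nat.le_add_left _ _)
  -- comparison
  have hcmp : ∀ n : ℕ, 2 * d' < n → |u' n| ≤ U * (d' / (n - d')) := by
    intro n hn
    set a : ℕ := j + n0 * (1 * n) with ha
    have ha1 : n ≤ a := hidx n
    have hpow : 0 < ρ ^ (n0 * (1 * n)) := by positivity
    have h1 : ((a.choose d : ℕ) : ℝ) * u n = (a.choose d' : ℝ) * u' n := by
      have h2 := (hu n).symm.trans (hu' n)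
      rw [mul_assoc, mul_assoc] at h2
      exact mul_left_cancel₀ hpow.ne' h2
    have hpos : (0 : ℝ) < (a.choose d' : ℝ) := by
      exact_mod_cast Nat.choose_pos (by omega)
    have h3 := bc_ratio d' (a : ℝ) (by
      have : 2 * d' < a := by omega
      exact_mod_cast this) d hdd
    rw [bc_nat, bc_nat] at h3
    have hn' : (2 * (d' : ℝ)) < n := by exact_mod_cast hn
    have ha' : (n : ℝ) ≤ a := by exact_mod_cast ha1
    have hd0 : (0 : ℝ) ≤ d' := Nat.cast_nonneg d'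
    have h4 : (d' : ℝ) / (a - d') ≤ d' / (n - d') := by
      apply div_le_div_of_nonneg_left hd0 (by linarith) (by linarith)
    have h5 : u' n = (a.choose d : ℝ) / (a.choose d' : ℝ) * u n := by
      rw [div_mul_eq_mul_div, eq_div_iff hpos.ne', mul_comm, ← h1]
    rw [h5, abs_mul, abs_of_nonneg (by positivity), mul_comm]
    refine mul_le_mul (hU n) ?_ (by positivity) hU0
    rw [div_le_iff₀ hpos]
    exact h3.trans (mul_le_mul_of_nonneg_right h4 hpos.le)
  by_contra hne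
  have ha0 : 0 < |(LevF l c ex A s j d' ρ z).re| := abs_pos.mpr hne
  set a : ℝ := |(LevF l c ex A s j d' ρ z).re| with ha
  obtain ⟨N1, hN1⟩ := exists_nat_gt (2 * (d' : ℝ) + 4 * U * d' / a)
  obtain ⟨n, hn, h1, -⟩ := happ z hz (a / 2) (half_pos ha0) N1
  have hd0 : (0 : ℝ) ≤ d' := Nat.cast_nonneg d'
  have hnR : 2 * (d' : ℝ) + 4 * U * d' / a < n := hN1.trans_le (by exact_mod_cast hn)
  have hq : 0 ≤ 4 * U * d' / a := by positivity
  have hn2 : 2 * d' < n := by
    have : (2 * (d' : ℝ)) < n := by linarith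
    exact_mod_cast this
  have h2 := hcmp n hn2
  have h3 : U * (d' / ((n : ℝ) - d')) ≤ a / 4 := by
    have h4 : 0 < (n : ℝ) - d' := by
      have : (2 * (d' : ℝ)) < n := by linarith
      linarith
    rw [mul_div_assoc', div_le_iff₀ h4]
    have h5 : 4 * U * d' / a ≤ (n : ℝ) - d' := by linarith
    rw [div_le_iff₀ ha0] at h5
    linarith
  have h6 : a ≤ |u' n - (LevF l c ex A s j d' ρ z).re| + |u' n| := by
    have h7 := abs_sub_abs_le_abs_sub (LevF l c ex A s j d' ρ z).re (u' n)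
    rw [abs_sub_comm] at h7
    linarith
  linarith

open scoped Classical in
/-- the frozen data of a class, base conditions -/
theorem base_change_frz (l c : Fin k → ℂ) (ex : Fin k → ℕ) (hk : 0 < k) (hex : ∀ i, ex i < k)
    (M Nb : ℕ) (ε δ : ℝ) (n0 j : ℕ)
    (A H : Fin k → Fin k → ℤ) (D : ℤ) (s : ℕ) (w : Fin k → Fin k → ℝ) (τ : Fin k → ℝ) (ρ : ℝ)
    (d : ℕ) (h : BaseF k l c ex M Nb ε δ n0 j A H D s w τ ρ d)
    (hg : ∀ i, ρ < ‖l i‖ → gP l c ex n0 j (l i ^ n0) = 0) (x : ℝ) :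
    BaseF k l (fc l c ex x) (fun _ => 0) M Nb ε δ n0 j A H D s w τ ρ 0 := by
  obtain ⟨hn0, hn0N, hj, hjk, hs, hD, hDM, hHA, hA, hH, hδ', hw, hwε, hρ, hdk, hvan⟩ := h
  have hexj : ∀ i, ex i ≤ j := fun i => ((hex i).le.trans hj)
  exact ⟨hn0, hn0N, hj, hjk, hs, hD, hDM, hHA, hA, hH, hδ', hw, hwε, hρ, hk,
    fun m _ => van_frz l c ex n0 j hn0 hexj ρ hρ hg x m⟩

/-- The frozen class data of a class of level `(ρ, 0)`. -/
theorem clsD_frz (l c : Fin k → ℂ) (ex : Fin k → ℕ) (R M Nb : ℕ) (ε δ : ℝ) (v : ℕ → ℝ)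
    (hg : GoodD k l c ex R M ε δ v) (n0 j : ℕ) (h : ClsD k l c ex M Nb ε δ n0 j) (x : ℝ) :
    ClsD k l (fc l c ex x) (fun _ => 0) M Nb ε δ n0 j := by
  classical
  obtain ⟨A, H, D, s, w, τ, y, i0, hrep, hbase, hi0, ⟨z', hz', hne⟩, hF, hcase, hvan⟩ := h
  have hn0 : 0 < n0 := hbase.1
  have hj : k ≤ j := hbase.2.2.1
  have hexj : ∀ i, ex i ≤ j := fun i => (hg.hex i).le.trans hj
  have hρ : 0 < ‖l i0‖ := norm_pos_iff.mpr hi0
  have hgP := (van_above l c ex n0 j hn0 hexj ‖l i0‖ hρ 0 hvan).1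
  have hlev : ∀ z : Fin k → ℂ, (∀ t, ‖z t‖ = 1) →
      (LevF l (fc l c ex x) (fun _ => 0) A s j 0 ‖l i0‖ z).re =
      (LevF l c ex A s j 0 ‖l i0‖ z).re := by
    intro z hz
    rw [levF_frz l c ex A s j hexj ‖l i0‖ hρ x z, levX_eq l c ex hg.hex,
      Finset.sum_eq_single 0, bc_zero, one_mul]
    · intro d hd hd0
      rw [lev_high l c ex R M Nb ε δ v hg n0 j A H D s w τ ‖l i0‖ 0 hbase hρ hvan d
        (Nat.pos_of_ne_zero hd0) (Finset.mem_range.mp hd) z hz, mul_zero]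
    · exact fun h => absurd (Finset.mem_range.mpr hg.hk) h
  refine ⟨A, H, D, s, w, τ, y, i0, hrep,
    base_change_frz l c ex hg.hk hg.hex M Nb ε δ n0 j A H D s w τ _ 0 hbase hgP x, hi0,
    ⟨z', hz', by rwa [hlev z' hz']⟩, fun z hz => by rw [hlev z hz]; exact hF z hz, ?_,
    van_frz l c ex n0 j hn0 hexj _ hρ.le hgP x⟩
  rcases hcase with h1 | ⟨i, i', h1, h2, h3⟩
  · left
    intro z hz
    rw [hlev z hz]
    exact h1 z hz
  · right
    refine ⟨i, i', h1, h2, h3.subset (Set.image_mono ?_)⟩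
    rintro z ⟨hz, hz0⟩
    exact ⟨hz, by rw [← hlev z hz]; exact hz0⟩

/-- The frozen class data of a class of level `(ρ, d)`, `d ≥ 1`, with a positive margin, for large
`x`. -/
theorem clsM_frz (l c : Fin k → ℂ) (ex : Fin k → ℕ) (R M Nb : ℕ) (ε δ : ℝ) (v : ℕ → ℝ)
    (hg : GoodD k l c ex R M ε δ v) (n0 j : ℕ) (μ : ℝ) (hμ : 0 < μ)
    (h : ClsM k l c ex M Nb ε δ n0 j μ) :
    ∃ T : ℝ, ∀ x : ℝ, T ≤ x → ClsD k l (fc l c ex x) (fun _ => 0) M Nb ε δ n0 j := by
  classical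
  obtain ⟨A, H, D, s, w, τ, y, i0, hrep, hbase, hi0, hd0, -, hF, hvan⟩ := h
  have hn0 : 0 < n0 := hbase.1
  have hj : k ≤ j := hbase.2.2.1
  have hexj : ∀ i, ex i ≤ j := fun i => (hg.hex i).le.trans hj
  have hρ : 0 < ‖l i0‖ := norm_pos_iff.mpr hi0
  have hgP := (van_above l c ex n0 j hn0 hexj ‖l i0‖ hρ (ex i0) hvan).1
  obtain ⟨d1, hd1⟩ : ∃ d1, d1 = ex i0 := ⟨_, rfl⟩
  rw [← hd1] at hbase hF hvan hd0
  obtain ⟨μ', hμ', hμF⟩ : ∃ μ' : ℝ, 0 < μ' ∧ ∀ z : Fin k → ℂ, (∀ t, ‖z t‖ = 1) →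
      μ' ≤ (LevF l c ex A s j d1 ‖l i0‖ z).re := by
    refine ⟨μ * d1.factorial * ‖l i0‖ ^ j, ?_, hF⟩
    have : (0 : ℝ) < d1.factorial := by exact_mod_cast d1.factorial_pos
    positivity
  obtain ⟨C, hC0, hC⟩ : ∃ C : ℝ, 0 ≤ C ∧ ∀ d < d1, ∀ z : Fin k → ℂ, (∀ t, ‖z t‖ = 1) →
      |(LevF l c ex A s j d ‖l i0‖ z).re| ≤ C := by
    refine ⟨∑ d ∈ range d1, ∑ i, ‖c i * l i ^ (j - d)‖, Finset.sum_nonneg fun _ _ =>
      Finset.sum_nonneg fun _ _ => norm_nonneg _, fun d hd z hz => ?_⟩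
    refine (Complex.abs_re_le_norm _).trans ?_
    refine le_trans ?_ (Finset.single_le_sum (f := fun d => ∑ i, ‖c i * l i ^ (j - d)‖)
      (fun _ _ => Finset.sum_nonneg fun _ _ => norm_nonneg _) (Finset.mem_range.mpr hd))
    unfold LevF
    refine (norm_sum_le _ _).trans (Finset.sum_le_sum fun i _ => ?_)
    split_ifs
    · rw [norm_mul, show (∏ t : Fin k, (if (t : ℕ) < s then z t ^ A t i else 1)) =
        Wt A s z i from rfl, norm_Wt A s z hz i, mul_one]
    · rw [norm_zero]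
      exact norm_nonneg _
  refine ⟨2 * d1 + 1 + d1 * d1 * C / μ', fun x hx => ?_⟩
  have hd1R : (0 : ℝ) ≤ d1 := Nat.cast_nonneg d1
  have hq : 0 ≤ (d1 : ℝ) * d1 * C / μ' := by positivity
  have hx2 : 2 * (d1 : ℝ) < x := by linarith
  have hxd : 0 < x - d1 := by linarith
  have hd1k : d1 < k := by
    rw [hd1]
    exact hg.hex i0
  have hpos : ∀ z : Fin k → ℂ, (∀ t, ‖z t‖ = 1) →
      0 < (LevF l (fc l c ex x) (fun _ => 0) A s j 0 ‖l i0‖ z).re := by
    intro z hz
    have hexp : (LevX l c ex A s j ‖l i0‖ x z).re =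
        ∑ d ∈ range (d1 + 1), bc d x * (LevF l c ex A s j d ‖l i0‖ z).re := by
      rw [levX_eq l c ex hg.hex]
      symm
      apply Finset.sum_subset
      · intro d hd
        rw [Finset.mem_range] at hd ⊢
        omega
      · intro d hd hd'
        rw [Finset.mem_range] at hd hd'
        rw [lev_high l c ex R M Nb ε δ v hg n0 j A H D s w τ ‖l i0‖ d1 hbase hρ hvan d
          (by omega) hd z hz, mul_zero]
    rw [levF_frz l c ex A s j hexj ‖l i0‖ hρ x z, hexp, Finset.sum_range_succ]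
    have hb := bc_pos d1 x (by linarith)
    have h1 : -(d1 * ((d1 / (x - d1)) * bc d1 x) * C) ≤
        ∑ d ∈ range d1, bc d x * (LevF l c ex A s j d ‖l i0‖ z).re := by
      rw [neg_le, ← Finset.sum_neg_distrib]
      calc ∑ d ∈ range d1, -(bc d x * (LevF l c ex A s j d ‖l i0‖ z).re)
          ≤ ∑ _d ∈ range d1, ((d1 / (x - d1)) * bc d1 x) * C := by
            refine Finset.sum_le_sum fun d hd => ?_
            rw [Finset.mem_range] at hd
            have h2 := bc_ratio d1 x hx2 d hd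
            have h3 := bc_pos d x (by
              have : (d : ℝ) ≤ d1 := by exact_mod_cast hd.le
              linarith)
            have h4 := hC d hd z hz
            calc -(bc d x * (LevF l c ex A s j d ‖l i0‖ z).re)
                ≤ |bc d x * (LevF l c ex A s j d ‖l i0‖ z).re| := neg_le_abs _
              _ = bc d x * |(LevF l c ex A s j d ‖l i0‖ z).re| := by
                rw [abs_mul, abs_of_pos h3]
              _ ≤ _ := mul_le_mul h2 h4 (abs_nonneg _) (by positivity)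
        _ = d1 * ((d1 / (x - d1)) * bc d1 x) * C := by
            rw [Finset.sum_const, Finset.card_range, nsmul_eq_mul]
            ring
    have h5 : bc d1 x * μ' ≤ bc d1 x * (LevF l c ex A s j d1 ‖l i0‖ z).re :=
      mul_le_mul_of_nonneg_left (hμF z hz) hb.le
    have h6 : d1 * ((d1 / (x - d1)) * bc d1 x) * C < bc d1 x * μ' := by
      have h7 : (d1 : ℝ) * d1 * C / μ' < x - d1 := by linarith
      rw [div_lt_iff₀ hμ'] at h7
      have h8 : (d1 : ℝ) * ((d1 / (x - d1)) * bc d1 x) * C =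
          bc d1 x * (d1 * d1 * C / (x - d1)) := by
        field_simp
      rw [h8]
      refine mul_lt_mul_of_pos_left ?_ hb
      rw [div_lt_iff₀ hxd]
      linarith
    linarith
  exact ⟨A, H, D, s, w, τ, y, i0, hrep,
    base_change_frz l c ex hg.hk hg.hex M Nb ε δ n0 j A H D s w τ _ d1 hbase hgP x, hi0,
    ⟨fun _ => 1, fun _ => norm_one, (hpos _ fun _ => norm_one).ne'⟩,
    fun z hz => (hpos z hz).le, Or.inl hpos, van_frz l c ex n0 j hn0 hexj _ hρ.le hgP x⟩

end Pool.Agent.FrUP
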