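import Pool.Agent.FrNar.AltA
import Pool.Agent.FrNar.CorB
import Pool.Agent.FrozenUP.Final
import Pool.Agent.MX.Crit

/-! Positive regular instances are frozen positive and frozen narrow. -/

set_option autoImplicit false

namespace Pool.Agent.UltPos

open Pool.Agent.PT Pool.Agent.AllR Pool.Agent.DD7719.M Pool.Agent.DD7719 Finset Pool.Agent.FrUP

section
variable (I : Inst) (L : ℕ) (hkL : I.k ≤ L)
    (hb : ∀ i, (I.aNum i).natAbs ≤ 2 ^ L ∧ I.aDen i ≤ 2 ^ L) (aR uR : ℕ → ℝ)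
    (ha : ∀ t (h : t < I.k), aR t = (I.a ⟨t, h⟩ : ℝ)) (hu : ∀ t (h : t < I.k), uR t = (I.u ⟨t, h⟩ : ℝ))
    (v : ℕ → ℚ) (hv : I.IsSeq v)

include hkL hb ha hu hv in
/-- a regular positive sequence has no certificate for criticality (as in `MX/Crit.lean`) -/
private theorem Inst.no_certF' (hpos : ∀ n, 0 < v n) (μ : ℝ) (hμ : 0 < μ)
    (hreg : IsRegular μ (fun n => ((v n : ℚ) : ℝ)) I.rootSet)
    {l c : ℕ → ℂ} {ex : ℕ → ℕ} (hrd : RootData I.k aR uR l c ex)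
    (hc : CertF I.k (fun i => l i) (fun i => c i) (fun i => ex i) (2 ^ pbm L) (2 ^ pbn L)
      (2 / ((2 ^ pq L : ℕ) : ℝ)) (1 / 2 ^ pdl L)) : False := by
  classical
  have hg := I.goodD L hkL hb aR uR ha hu v hv hrd
  have hvpos : ∀ n, (0 : ℝ) < ((v n : ℚ) : ℝ) := fun n => by exact_mod_cast hpos n
  obtain ⟨n0, j, A, H, D, s, w, τ, z, z', ρ, d, h1, h2, h3, h4, h5, h6, h7, h8, h9, h10, h11, h12,
    h13, hz, hz', h16, h17, h18, hlast⟩ := hc
  have hbase : BaseF I.k (fun i => l i) (fun i => c i) (fun i => ex i) (2 ^ pbm L) (2 ^ pbn L)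
      (2 / ((2 ^ pq L : ℕ) : ℝ)) (1 / 2 ^ pdl L) n0 j A H D s w τ ρ d :=
    ⟨h1, h2, h3, h4, h5, h6, h7, h8, h9, h10, h11, h12, h13, h16, h17, h18⟩
  have hρ : 0 < ρ := base_rho_ne_zero _ _ _ _ _ _ _ _ _ hvpos hg _ _ _ _ _ _ _ _ _ _ hbase
  have hlast' : (LevF (fun i : Fin I.k => l i) (fun i => c i) (fun i => ex i) A s j d ρ z).re < 0 ∨
      (0 < d ∧ (LevF (fun i : Fin I.k => l i) (fun i => c i) (fun i => ex i) A s j d ρ z).re ≤ 0 ∧
        (LevF (fun i : Fin I.k => l i) (fun i => c i) (fun i => ex i) A s j d ρ z').re ≠ 0) :=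
    hlast.resolve_left hρ.ne'
  rcases hlast' with hneg | ⟨hd0, hle, hne⟩
  · obtain ⟨u, hu', -, happ⟩ := nar_core _ _ _ _ _ _ _ _ hg.hk hg.hex hg.hdc hg.hR hg.hM hg.hrb
      hg.hε hg.hδ _ hg.hv n0 j A H D s w τ ρ d hbase hρ 1 one_pos
    obtain ⟨n, -, h20, -⟩ := happ z hz
      (-((LevF (fun i : Fin I.k => l i) (fun i => c i) (fun i => ex i) A s j d ρ z).re) / 2)
      (by linarith) 0
    have h21 := (abs_le.mp h20).2
    have h22 := hu' n
    have h23 := hvpos (j + n0 * (1 * n))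
    rw [h22] at h23
    have h24 : (0 : ℝ) < ρ ^ (n0 * (1 * n)) * ((j + n0 * (1 * n)).choose d : ℝ) := by
      have : 0 < (j + n0 * (1 * n)).choose d := Nat.choose_pos (by omega)
      positivity
    have h25 : 0 < u n := (pos_iff_pos_of_mul_pos h23).mp h24
    linarith
  · obtain ⟨N, hN, hJ⟩ := hreg
    rcases hJ (j % N) (Nat.mod_lt _ hN) with hnar | hmar
    · obtain ⟨ρJ, hρJ, ⟨B, hB⟩, hnar⟩ := hnar
      obtain ⟨X, hX⟩ := nn_sound_cls (k := I.k) (fun n => ((v n : ℚ) : ℝ)) hvpos I.rootSet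
        (2 ^ pr L) (2 ^ pbm L) (2 ^ pbn L) (2 / ((2 ^ pq L : ℕ) : ℝ)) (1 / 2 ^ pdl L)
        N hN (j % N) ρJ hρJ B hB hnar
      have := hX (X + 1) _ _ _ hg (I.root_surj aR uR ha hrd) n0 j A H D s w τ ρ d z z' hbase hz hz'
        (Or.inr ⟨hne, Or.inl hd0⟩) rfl
      linarith
    · obtain ⟨-, h20⟩ := margin_sound _ _ _ _ _ _ _ _ _ hg n0 j A H D s w τ ρ d hbase hρ z' hz' hne
        N hN μ hμ hmar
      have h21 := h20 z hz
      have hfac : (0 : ℝ) < d.factorial := by exact_mod_cast d.factorial_pos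
      have : 0 < μ * d.factorial * ρ ^ j := by positivity
      linarith

end

/-- **Positive regular instances are frozen positive and frozen narrow.** -/
theorem Inst.regular_frozen {I : Inst} (hP : I.Positive) (hR : I.Regular) :
    ¬ I.Critical ∧ I.FrozenPositive ∧ I.FrozenNarrow := by
  classical
  obtain ⟨v, hv, -⟩ := I.exists_unique_seq
  obtain ⟨μ, hμ, v', hv', hreg⟩ := hR
  rw [I.exists_unique_seq.unique hv' hv] at hreg
  have hpos := hP v hv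
  obtain ⟨L, hkL, hb⟩ : ∃ L : ℕ, I.k ≤ L ∧
      ∀ i, (I.aNum i).natAbs ≤ 2 ^ L ∧ I.aDen i ≤ 2 ^ L := by
    refine ⟨I.k + ∑ i, ((I.aNum i).natAbs + I.aDen i), by omega, fun i => ?_⟩
    have h1 : (I.aNum i).natAbs + I.aDen i ≤ ∑ i, ((I.aNum i).natAbs + I.aDen i) :=
      Finset.single_le_sum (f := fun i => (I.aNum i).natAbs + I.aDen i)
        (fun _ _ => Nat.zero_le _) (Finset.mem_univ i)
    have h2 : I.k + ∑ i, ((I.aNum i).natAbs + I.aDen i) <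
        2 ^ (I.k + ∑ i, ((I.aNum i).natAbs + I.aDen i)) := Nat.lt_two_pow_self
    constructor <;> omega
  have ha : ∀ t (h : t < I.k), ((fun t => ((I.aQ t : ℚ) : ℝ)) t) = (I.a ⟨t, h⟩ : ℝ) := by
    intro t h
    simp only [Inst.aQ, h, dif_pos]
  have hu : ∀ t (h : t < I.k), ((fun t => ((I.uQ t : ℚ) : ℝ)) t) = (I.u ⟨t, h⟩ : ℝ) := by
    intro t h
    simp only [Inst.uQ, h, dif_pos]
  have hnc : ¬ I.CriticalM := by
    intro hcr
    obtain ⟨l, c, ex, hrd, hcert⟩ := (I.cert_iff L hkL hb _ _ ha hu).mp (fun h => h.2 hcr)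
    exact I.no_certF' L hkL hb _ _ ha hu v hv hpos μ hμ hreg hrd hcert.toF
  have hup : I.UltimatelyPositive := fun v' hv' => ⟨0, fun n _ => hP v' hv' n⟩
  refine ⟨fun h => hnc (Inst.critical_toM h), I.frozenPositive_of_not_critical hup hnc, ?_⟩
  obtain ⟨l, c, ex, hrd⟩ := I.exists_rootData' _ _ ha hu
  rw [I.frozenNarrow_fs _ _ ha hu v hv hrd]
  obtain ⟨X, hX⟩ := I.bounded_NN0 L hkL hb _ _ ha hu v hv hpos μ hμ hreg
  have hno2 := I.not_MG L hkL hb _ _ ha hu v hv hpos μ hμ hreg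
  obtain ⟨n0, hn0, -, htor, hcls⟩ := I.exists_cls2 L hkL hb _ _ ha hu v hv hrd (|X| + 1)
    (by positivity) (fun h => by
      have h1 := hX _ h
      have h2 := le_abs_self X
      linarith) μ hno2
  have hg := (I.goodD L hkL hb _ _ ha hu v hv hrd).mono (M' := 2 ^ pmh L) Nat.one_le_two_pow
    (Nat.pow_le_pow_right (by norm_num) (by unfold pbm; omega)) (by positivity)
  have hkey : ∀ j, I.k ≤ j → j < I.k + n0 → ∃ T : ℝ, ∀ x : ℝ, T ≤ x →
      ClsD I.k (fun i => l i) (fc (fun i : Fin I.k => l i) (fun i => c i) (fun i => ex i) x)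
        (fun _ => 0) (2 ^ pmh L) (2 ^ (1 + 2 * L * L + (pdl L + 3) * L))
        (2 / ((2 ^ pq L : ℕ) : ℝ)) (1 / 2 ^ pdl L) n0 j := by
    intro j hj hj'
    rcases hcls j hj hj' with h | h
    · exact ⟨0, fun x _ => clsD_frz _ _ _ _ _ _ _ _ _ hg n0 j h x⟩
    · exact clsM_frz _ _ _ _ _ _ _ _ _ hg n0 j μ hμ h
  choose! T hT using hkey
  obtain ⟨T', hT'⟩ : ∃ T' : ℝ, ∀ j ∈ range (I.k + n0), T j ≤ T' := by
    obtain ⟨T', hT'⟩ := ((range (I.k + n0)).image T).bddAbove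
    exact ⟨T', fun j hj => hT' (Finset.mem_coe.mpr (Finset.mem_image_of_mem _ hj))⟩
  obtain ⟨τ, hτ⟩ := exists_rat_gt T'
  refine ⟨τ, fun x hx => ?_⟩
  have hxr : T' ≤ (x : ℝ) := by
    have h1 : (τ : ℝ) ≤ (x : ℝ) := by exact_mod_cast hx
    linarith
  have hgf := goodD_frz _ _ _ _ _ _ _ _ hg (x : ℝ)
  exact isNar_of_cls (k := I.k) (fun i => l i)
    (fc (fun i : Fin I.k => l i) (fun i => c i) (fun i => ex i) (x : ℝ)) (fun _ => 0)
    (fun _ => I.kpos) _ _ _ _ n0 hn0 _ hgf.hv htor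
    (fun j hj hj' => hT j hj hj' _ ((hT' j (Finset.mem_range.mpr hj')).trans hxr))

end Pool.Agent.UltPos
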