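import Pool.Agent.FrEight.Cos
import Pool.Agent.DD7719.NComplete

/-! The torsion coset of several roots is the image of the certified torus. -/

set_option autoImplicit false

namespace Pool.Agent.FrNar

open Complex Filter Topology Pool.Agent.DD7719 Pool.Agent.DD7719.M Pool.Agent.MX
open Pool.Agent.DD7719.M.GS

variable {k P : ℕ}

/-- Points of the torus give points of the coset.

PROOF: the proof of `coset_mem` (`MX/Coset.lean`) with the base points `nz (l (r a)) ^ q` (which are not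
zero); only the torus conditions of `hbase` are used. -/
theorem coset_mem2 (l c : Fin k → ℂ) (ex : Fin k → ℕ) (R M Nb : ℕ) (ε δ : ℝ) (v : ℕ → ℝ)
    (hg : GoodD k l c ex R M ε δ v)
    (n0 j : ℕ) (A H : Fin k → Fin k → ℤ) (D : ℤ) (s : ℕ) (w : Fin k → Fin k → ℝ)
    (τ : Fin k → ℝ) (ρ : ℝ) (d : ℕ)
    (hbase : BaseF k l c ex M Nb ε δ n0 j A H D s w τ ρ d)
    (r : Fin P → Fin k) (z : Fin k → ℂ) (hz : ∀ t, ‖z t‖ = 1)
    (g : Fin P → ℤ) (hgT : Tors (fun a => l (r a)) g) (q : ℕ) :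
    ∏ a, (nz (l (r a)) ^ q * Wt A s z (r a)) ^ g a = ∏ a, (nz (l (r a)) ^ q) ^ g a := by
  classical
  obtain ⟨_, _, _, _, _, hD, _, hHA, hA, hH, hδ', hw, hwε, _, _, _⟩ := hbase
  have hWt0 : ∀ i, Wt A s z i ≠ 0 := fun i => by
    rw [← norm_pos_iff, norm_Wt A s z hz]
    exact one_pos
  have h1 := cert_torus_rel l R M n0 hg.hR hg.hM hg.hrb A H D s w τ ε δ hD hHA hA hH hδ' hw
    hwε hg.hε hg.hδ z hz (fun i => ∑ a with r a = i, g a) (by
      obtain ⟨n, hn, hn1⟩ := hgT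
      refine ⟨n, hn, ?_⟩
      rw [prod_push r g (fun i => nz (l i)) (fun i => nz_ne_zero2 _)]
      exact hn1)
  have h2 : ∏ a, Wt A s z (r a) ^ g a = 1 := by
    rw [← prod_push r g (fun i => Wt A s z i) hWt0]
    exact h1
  calc ∏ a, (nz (l (r a)) ^ q * Wt A s z (r a)) ^ g a
      = ∏ a, ((nz (l (r a)) ^ q) ^ g a * Wt A s z (r a) ^ g a) :=
        Finset.prod_congr rfl fun a _ => mul_zpow _ _ _
    _ = (∏ a, (nz (l (r a)) ^ q) ^ g a) * ∏ a, Wt A s z (r a) ^ g a := Finset.prod_mul_distrib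
    _ = ∏ a, (nz (l (r a)) ^ q) ^ g a := by rw [h2, mul_one]

/-- Every point of the coset comes from the torus.

PROOF: as in `coset_limit0` (`FrEight/CosA.lean`), `kronecker` gives for every `η > 0` an `m` with
`‖nz (l (r a)) ^ q * (nz (l (r a)) ^ n0) ^ m - x a‖ < η` for all `a`, and `(nz (l (r a)) ^ n0) ^ m =
Wt A s (orb y m) (r a)` (`hrep.Wt_orb`). Take `η = 1 / (i + 1)`; the points `orb y (m_i)` lie in the
compact torus (`isCompact_torus`, `norm_orb`), so a subsequence converges to a point `z` of the torus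
(`IsCompact.tendsto_subseq`), and by continuity (`continuousOn_Wt`) `x a = nz (l (r a)) ^ q * Wt A s z (r a)`
(compare the proof of `contact_subset` in `DD7719/NComplete.lean`). -/
theorem coset_im (l : Fin k → ℂ) (n0 : ℕ) (hn0 : 0 < n0) (A : Fin k → Fin k → ℤ) (s : ℕ)
    (y : Fin k → ℝ) (hrep : Rep l n0 A s y) (r : Fin P → Fin k) (q : ℕ) (x : Fin P → ℂ)
    (hx : ∀ a, ‖x a‖ = 1)
    (hrel : ∀ g : Fin P → ℤ, Tors (fun a => l (r a)) g →
      ∏ a, x a ^ g a = ∏ a, (nz (l (r a)) ^ q) ^ g a) :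
    ∃ z : Fin k → ℂ, (∀ t, ‖z t‖ = 1) ∧ ∀ a, x a = nz (l (r a)) ^ q * Wt A s z (r a) := by
  classical
  have hb : ∀ a, ‖nz (l (r a)) ^ q‖ = 1 := fun a => by
    rw [norm_pow, norm_nz, one_pow]
  have hb0 : ∀ a, nz (l (r a)) ^ q ≠ 0 := fun a => by
    rw [← norm_pos_iff, hb a]
    exact one_pos
  have hlim : ∀ η : ℝ, 0 < η → ∃ m : ℕ, ∀ a,
      ‖nz (l (r a)) ^ q * Wt A s (orb y m) (r a) - x a‖ < η := by
    intro η hη
    obtain ⟨n, _, hn⟩ := Pool.Agent.DD7719.kronecker (fun a => nz (l (r a)))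
      (fun a => x a * (nz (l (r a)) ^ q)⁻¹)
      (fun a => norm_nz _)
      (fun a => by rw [norm_mul, norm_inv, hb, hx, inv_one, mul_one])
      (fun g hg => by
        have h1 : ∏ a, (x a * (nz (l (r a)) ^ q)⁻¹) ^ g a =
            (∏ a, x a ^ g a) * (∏ a, (nz (l (r a)) ^ q) ^ g a)⁻¹ := by
          rw [← Finset.prod_inv_distrib, ← Finset.prod_mul_distrib]
          apply Finset.prod_congr rfl
          intro a _
          rw [mul_zpow, inv_zpow]
        rw [h1, hrel g hg]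
        refine mul_inv_cancel₀ ?_
        exact Finset.prod_ne_zero_iff.mpr fun a _ => zpow_ne_zero _ (hb0 a))
      n0 hn0 0 η hη
    refine ⟨n, fun a => ?_⟩
    have h1 : nz (l (r a)) ^ q * Wt A s (orb y n) (r a) - x a =
        nz (l (r a)) ^ q * (nz (l (r a)) ^ (n0 * n) - x a * (nz (l (r a)) ^ q)⁻¹) := by
      rw [hrep.Wt_orb n (r a), ← pow_mul, mul_sub, mul_left_comm, mul_inv_cancel₀ (hb0 a), mul_one]
    rw [h1, norm_mul, hb a, one_mul]
    exact hn a
  choose m hm using fun i : ℕ => hlim (1 / ((i : ℝ) + 1)) (by positivity)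
  obtain ⟨z, hz, ψ, hψ, hψz⟩ := (isCompact_torus (k := k)).tendsto_subseq
    (x := fun i => orb y (m i)) (fun i => norm_orb y _)
  have hzψ : Tendsto (fun i => orb y (m (ψ i))) atTop (𝓝[{z | ∀ t, ‖z t‖ = 1}] z) := by
    rw [tendsto_nhdsWithin_iff]
    exact ⟨hψz, Eventually.of_forall fun i => norm_orb y _⟩
  refine ⟨z, hz, fun a => ?_⟩
  have h3 := (continuousOn_Wt A s (r a) z hz).tendsto.comp hzψ
  have h4 := h3.const_mul (nz (l (r a)) ^ q)
  have h5 : Tendsto (fun i : ℕ => nz (l (r a)) ^ q * Wt A s (orb y (m i)) (r a)) atTop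
      (𝓝 (x a)) := by
    rw [tendsto_iff_norm_sub_tendsto_zero]
    refine squeeze_zero (fun i => norm_nonneg _) (fun i => (hm i a).le) ?_
    exact tendsto_one_div_add_atTop_nhds_zero_nat
  exact tendsto_nhds_unique (h5.comp hψ.tendsto_atTop) h4

end Pool.Agent.FrNar
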