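import Pool.Agent.FrozenUP.Expand
import Pool.Agent.UltPos.Narrow

/-!
# Positivity of frozen positive, frozen narrow recurrences: definitions

THEOREM U (library `FrNar`): for every `c` the codes (of length `L`) of the positive instances with
`FrozenFrom (2 ^ (L ^ c + c)) (2 ^ (L ^ c + c))` form a set in `∀ℝ`.
THEOREM E: for every `s` there is `c` such that the instances with `FrozenPositive`, `FrozenNarrow` and at
most `s` roots on each circle have this property; so for every `s` the positive, frozen positive, frozen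
narrow instances with at most `s` roots on each circle form a set in `∀ℝ`.
-/

set_option autoImplicit false

namespace Pool.Agent.UltPos

open Filter Topology

/-- For all large rational `x` the sequence frozen at `x` is narrow with respect to the
characteristic roots. -/
def Inst.FrozenNarrow (I : Inst) : Prop :=
  ∀ v : ℕ → ℚ, I.IsSeq v → ∃ (S : Finset ℂ) (p : ℂ → Polynomial ℂ), IsExpansion v S p ∧
    ∃ τ : ℚ, ∀ x : ℚ, τ ≤ x → IsNarrow (frozen S p x) I.rootSet

/-- The sequences frozen at `x` are ultimately positive for all rational `x ≥ X`; and for some `N` and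
along every residue class `J` modulo `N` they are `O(ρ^m)` for all real `x ≥ X`, with one `ρ > 0`, and
either their liminf relative to `ρ^m` is positive for all real `x ≥ X`, or for one ratio `a / b` of two
roots of equal modulus, not a root of unity, the contact values of `a / b` are `x^(-e)`-separated for
all real `x ≥ X`. -/
def Inst.FrozenFrom (I : Inst) (X e : ℕ) : Prop :=
  ∀ v : ℕ → ℚ, I.IsSeq v → ∃ (S : Finset ℂ) (p : ℂ → Polynomial ℂ), IsExpansion v S p ∧
    (∀ x : ℚ, (X : ℚ) ≤ x → ∃ N : ℕ, ∀ n : ℕ, N ≤ n → 0 < frozen S p x n) ∧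
    ∃ N : ℕ, 0 < N ∧ ∀ J : ℕ, J < N → ∃ ρ : ℝ, 0 < ρ ∧
      (∀ x : ℝ, (X : ℝ) ≤ x → ∃ B : ℝ, ∀ m : ℕ, |frozen S p x (N * m + J)| ≤ B * ρ ^ m) ∧
      ((∀ x : ℝ, (X : ℝ) ≤ x → 0 < liminf (fun m : ℕ => frozen S p x (N * m + J) / ρ ^ m) atTop) ∨
        ∃ a ∈ I.rootSet, ∃ b ∈ I.rootSet, ‖a‖ = ‖b‖ ∧ (∀ n : ℕ, 0 < n → a ^ n ≠ b ^ n) ∧
          ∀ x : ℝ, (X : ℝ) ≤ x → ∀ ζ ∈ contactSet (frozen S p x) N J ρ (a / b),
            ∀ ζ' ∈ contactSet (frozen S p x) N J ρ (a / b), ζ ≠ ζ' → 1 ≤ x ^ e * ‖ζ - ζ'‖)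

end Pool.Agent.UltPos
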