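import Pool.Agent.FrNar.ElE
import Pool.Agent.FrNar.DicA

/-! The existence of zeros of a linear form on a torsion coset. -/

set_option autoImplicit false

namespace Pool.Agent.FrNar

open Pool.Agent.MX Pool.Agent.RElim Complex

/-- **Zeros on a coset.** PROOF: `zero_gen` (for `Fin P`) and `bd_gen`, `num_dic` (`2 * P + 2` variables;
`4 * (P * B + E + 3) ≤ Q`). -/
theorem zero_coset (s : ℕ) : ∃ C : ℕ, ∀ (F : IntermediateField ℚ ℂ) [FiniteDimensional ℚ F]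
    (_ : ∀ z ∈ F, (starRingEnd ℂ) z ∈ F) (_ : I ∈ F) (P B E Dg Hc D0 : ℕ) (_ : P ≤ s)
    (_ : Module.finrank ℚ F ≤ Dg) (_ : 0 < D0) (_ : D0 ≤ 2 ^ Hc) (c : Fin P → ℕ → F)
    (_ : ∀ i, ∀ e ≤ E, IsIntegral ℤ ((D0 : ℂ) * (c i e : ℂ)))
    (_ : ∀ i, ∀ e ≤ E, ∀ φ : F →ₐ[ℚ] ℂ, ‖φ (c i e)‖ ≤ 2 ^ Hc) (S : Set (Fin P → ℤ))
    (_ : ∀ g ∈ S, ∀ i, |g i| ≤ B) (ζ : (Fin P → ℤ) → F)
    (_ : ∀ g ∈ S, ∃ m : ℕ, 0 < m ∧ ζ g ^ m = 1)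
    (_ : ∀ X : ℝ, ∃ x : ℝ, X < x ∧ ∀ z : Fin P → ℂ, (∀ i, ‖z i‖ = 1) →
      (∀ g ∈ S, ∏ i, z i ^ g i = (ζ g : ℂ)) → fX E c x z ≠ 0)
    (x : ℝ) (_ : 2 ^ ((2 + B + E + Dg + Hc) ^ C) < x) (z : Fin P → ℂ) (_ : ∀ i, ‖z i‖ = 1)
    (_ : ∀ g ∈ S, ∏ i, z i ^ g i = (ζ g : ℂ)),
    fX E c x z ≠ 0 := by
  obtain ⟨C1, hC1⟩ := bd_gen (2 * s + 2)
  obtain ⟨C, hC⟩ := num_dic s C1
  refine ⟨C, ?_⟩
  intro F _ hconj hI P B E Dg Hc D0 hP hDg hD0 hD0' c hcI hcb S hS ζ hζ hX x hx z hz hz2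
  obtain ⟨bb, hbb⟩ : ∃ bb : ℕ, bb = 20 * (P + 1) * (B + 1) + 4 * Hc + 2 * E := ⟨_, rfl⟩
  obtain ⟨Q, hQ⟩ : ∃ Q : ℕ, Q = 4 * (P * B + E + 3) + bb + Dg + 1 := ⟨_, rfl⟩
  obtain ⟨hq1, -, -⟩ := hC P B E Dg Hc (by omega) Q _ _ (by rw [hQ, hbb]) rfl rfl
  have hsz : szB P B E Hc = 2 ^ bb := by rw [szB, hbb]
  have h1 := hC1 (4 * (P * B + E + 3)) (2 * P + 2) bb Dg Q (by omega) (by omega) (by omega)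
    (by omega)
  rw [← hsz] at h1
  have h2 := h1.trans (Nat.pow_le_pow_right (by norm_num : 0 < 2) hq1)
  have h3 : ((BdD (4 * (P * B + E + 3)) (2 * P + 2) (szB P B E Hc) : ℕ) : ℝ) ^ Dg ≤
      2 ^ ((2 + B + E + Dg + Hc) ^ C) := by
    exact_mod_cast h2
  exact zero_gen F hconj hI P B E Dg Hc D0 hDg hD0 hD0' c hcI hcb S hS ζ hζ hX x
    (lt_of_le_of_lt h3 hx) z hz hz2

end Pool.Agent.FrNar
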