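import Pool.Agent.FrNar.SysA
import Pool.Agent.FrNar.Sz
import Pool.Agent.FixRec.ElimSup

/-! Separation at a value of the parameter, and the values of the parameter without separation. -/

set_option autoImplicit false

namespace Pool.Agent.FrNar

open Pool.Agent.MX Pool.Agent.RElim Complex

/-- The positive values of `δ` at common zeros are bounded from below by a polynomial in the parameter.

PROOF: as `exists_relY` (`FixLam/ElimY.lean`). `S` is finite; `exists_sysA` for `hfin.toFinset`;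
`param_boundD isNrm_NW (4 * (n * B + 3))` with the coordinate `none` gives `q`; the size by `BdD_mono`
(`FixRec/ElimSup.lean`). For `y` and `m` as in the statement use the bound with `e = evW F y` (`abs_evW_le`), `X =
1 / m`: at a zero `v` of `h`, `v none * δ z = 1` with `z = pt ..`, so if `0 < v none` then `0 < δ z`,
`m ≤ δ z` and `v none ≤ 1 / m`; if `v none ≤ 0` it is clear. For `z` with `0 < δ z` the zero `v none =
1 / δ z`, `v (some (inl i)) = (z i).re`, `v (some (inr i)) = (z i).im` (`pt .. = z` by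
`Complex.re_add_im`) gives `|evW F y q| / δ z ≤ BdD ..`. -/
theorem exists_relA (F : IntermediateField ℚ ℂ) [FiniteDimensional ℚ F]
    (hconj : ∀ z ∈ F, (starRingEnd ℂ) z ∈ F) (hI : I ∈ F) (n B E Hc D0 : ℕ) (hD0 : 0 < D0)
    (hD0' : D0 ≤ 2 ^ Hc) (c1 c2 : Fin n → ℕ → F)
    (hcI1 : ∀ i, ∀ e ≤ E, IsIntegral ℤ ((D0 : ℂ) * (c1 i e : ℂ)))
    (hcb1 : ∀ i, ∀ e ≤ E, ∀ φ : F →ₐ[ℚ] ℂ, ‖φ (c1 i e)‖ ≤ 2 ^ Hc)
    (hcI2 : ∀ i, ∀ e ≤ E, IsIntegral ℤ ((D0 : ℂ) * (c2 i e : ℂ)))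
    (hcb2 : ∀ i, ∀ e ≤ E, ∀ φ : F →ₐ[ℚ] ℂ, ‖φ (c2 i e)‖ ≤ 2 ^ Hc)
    (S : Set (Fin n → ℤ)) (hS : ∀ g ∈ S, ∀ i, |g i| ≤ B) (ζ : (Fin n → ℤ) → F)
    (hζ : ∀ g ∈ S, ∃ m : ℕ, 0 < m ∧ ζ g ^ m = 1)
    (Δ : MvPolynomial (Fin n ⊕ Fin n) (RA F)) (hΔ1 : Δ.totalDegree ≤ 4) (hΔ2 : mn (NR F) Δ ≤ 32)
    (δ : (Fin n → ℂ) → ℝ) (hδ : ∀ v, Δ.eval₂ (RA F).subtype v = δ (pt v)) :
    ∃ q : Polynomial (RA F), q ≠ 0 ∧
      NW F q ≤ BdD (4 * (n * B + 3)) (2 * n + 1) (szB n B E Hc) ∧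
      ∀ y : ℝ, |y| ≤ 1 → ∀ m : ℝ, 0 < m →
        (∀ z : Fin n → ℂ, (∀ i, ‖z i‖ = 1) → (∀ g ∈ S, ∏ i, z i ^ g i = (ζ g : ℂ)) →
          FixLam.fY E c1 y z = 0 → FixLam.fY E c2 y z = 0 → 0 < δ z → m ≤ δ z) →
        ∀ z : Fin n → ℂ, (∀ i, ‖z i‖ = 1) → (∀ g ∈ S, ∏ i, z i ^ g i = (ζ g : ℂ)) →
          FixLam.fY E c1 y z = 0 → FixLam.fY E c2 y z = 0 → 0 < δ z →
          |evW F y q| ≤ BdD (4 * (n * B + 3)) (2 * n + 1) (szB n B E Hc) * δ z := by
  classical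
  have hfin : S.Finite := by
    refine (Set.finite_Icc (fun _ : Fin n => -(B : ℤ)) (fun _ => (B : ℤ))).subset ?_
    intro g hg
    rw [Set.mem_Icc, Pi.le_def, Pi.le_def]
    exact ⟨fun i => (abs_le.mp (hS g hg i)).1, fun i => (abs_le.mp (hS g hg i)).2⟩
  obtain ⟨h, hdeg, hmn, hnn, hzero⟩ := exists_sysA F hconj hI n B E Hc D0 hD0 hD0' c1 c2 hcI1 hcb1
    hcI2 hcb2 hfin.toFinset (fun g hg => hS g (hfin.mem_toFinset.mp hg)) ζ
    (fun g hg => hζ g (hfin.mem_toFinset.mp hg)) Δ hΔ1 hΔ2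
  obtain ⟨q, hq0, hqN, hq⟩ := param_boundD (isNrm_NW (F := F)) (4 * (n * B + 3)) (by omega)
    ⟨2 * (n * B + 3), by ring⟩ h hdeg none
  have hcard : Fintype.card (Option (Fin n ⊕ Fin n)) = 2 * n + 1 := by
    rw [Fintype.card_option, Fintype.card_sum, Fintype.card_fin]
    ring
  rw [hcard] at hqN hq
  have hmono := FixRec.BdD_mono (4 * (n * B + 3)) (2 * n + 1) hmn
  set Bd := BdD (4 * (n * B + 3)) (2 * n + 1) (mn (NW F) h) with hBd
  refine ⟨q, hq0, hqN.trans hmono, ?_⟩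
  intro y hy m hm hmin z hz hz2 hz3 hz4 hz5
  have hq' := hq (evW F y) (abs_evW_le y hy) (hnn y) (1 / m) (by
    intro v hv
    obtain ⟨h1, h2, h3, h4, h5⟩ := (hzero y v).mp hv
    rw [hδ] at h5
    rcases le_or_gt (v none) 0 with hv0 | hv0
    · exact hv0.trans (by positivity)
    · have h6 : 0 < δ (pt fun s => v (some s)) := by
        by_contra hneg
        have := mul_nonpos_of_nonneg_of_nonpos hv0.le (not_lt.mp hneg)
        linarith
      have h7 := hmin _ h1 (fun g hg => h2 g (hfin.mem_toFinset.mpr hg)) h3 h4 h6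
      have h8 : v none = 1 / δ (pt fun s => v (some s)) := by
        rw [eq_div_iff h6.ne']
        exact h5
      rw [h8]
      exact one_div_le_one_div_of_le hm h7)
  let v : Option (Fin n ⊕ Fin n) → ℝ := fun o => match o with
    | none => 1 / δ z
    | some (Sum.inl i) => (z i).re
    | some (Sum.inr i) => (z i).im
  have hpt : (pt fun s => v (some s)) = z := by
    funext i
    exact Complex.re_add_im (z i)
  have hv0 : h.eval₂ (evW F y) v = 0 := by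
    rw [hzero y v, hδ, hpt]
    refine ⟨hz, fun g hg => hz2 g (hfin.mem_toFinset.mp hg), hz3, hz4, ?_⟩
    show 1 / δ z * δ z = 1
    exact one_div_mul_cancel hz5.ne'
  have h1 : |evW F y q| * (1 / δ z) ≤ Bd := hq' v hv0
  rw [mul_one_div, div_le_iff₀ hz5] at h1
  refine h1.trans (mul_le_mul_of_nonneg_right ?_ hz5.le)
  exact_mod_cast hmono

end Pool.Agent.FrNar
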