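import Pool.Agent.FrNar.SysX
import Pool.Agent.FrNar.Sz
import Pool.Agent.FixRec.ElimSup

/-! The values of the parameter without separation. -/

set_option autoImplicit false

namespace Pool.Agent.FrNar

open Pool.Agent.MX Pool.Agent.RElim Complex

/-- The last parameter with a common zero at which `x ^ M * δ` is in `(0, 1]`.

PROOF: as `elim_sup` (`FixRec/ElimSup.lean`), with `exists_sysB`: the coordinate `none` is bounded by `X` on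
the zeros of `h` (at a zero, `x ^ M * δ z * (1 + w ^ 2) = 1` gives `0 < x ^ M * δ z ≤ 1`). If `x`, `z` are as
excluded, take `w = √(1 / (x ^ M * δ z) - 1)`. `param_boundD (4 * (n * B + E + M + 3))` with the coordinate
`none`; `card = 2 * n + 2`; `one_le_mul_NR`; `BdD_mono`. -/
theorem sup_sysB (F : IntermediateField ℚ ℂ) [FiniteDimensional ℚ F]
    (hconj : ∀ z ∈ F, (starRingEnd ℂ) z ∈ F) (hI : I ∈ F) (n B E M Dg Hc D0 : ℕ)
    (hDg : Module.finrank ℚ F ≤ Dg) (hD0 : 0 < D0)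
    (hD0' : D0 ≤ 2 ^ Hc) (c1 c2 : Fin n → ℕ → F)
    (hcI1 : ∀ i, ∀ e ≤ E, IsIntegral ℤ ((D0 : ℂ) * (c1 i e : ℂ)))
    (hcb1 : ∀ i, ∀ e ≤ E, ∀ φ : F →ₐ[ℚ] ℂ, ‖φ (c1 i e)‖ ≤ 2 ^ Hc)
    (hcI2 : ∀ i, ∀ e ≤ E, IsIntegral ℤ ((D0 : ℂ) * (c2 i e : ℂ)))
    (hcb2 : ∀ i, ∀ e ≤ E, ∀ φ : F →ₐ[ℚ] ℂ, ‖φ (c2 i e)‖ ≤ 2 ^ Hc)
    (S : Set (Fin n → ℤ)) (hS : ∀ g ∈ S, ∀ i, |g i| ≤ B) (ζ : (Fin n → ℤ) → F)
    (hζ : ∀ g ∈ S, ∃ m : ℕ, 0 < m ∧ ζ g ^ m = 1)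
    (Δ : MvPolynomial (Fin n ⊕ Fin n) (RA F)) (hΔ1 : Δ.totalDegree ≤ 4) (hΔ2 : mn (NR F) Δ ≤ 32)
    (δ : (Fin n → ℂ) → ℝ) (hδ : ∀ v, Δ.eval₂ (RA F).subtype v = δ (pt v))
    (hX : ∃ X : ℝ, ∀ x : ℝ, X < x → ∀ z : Fin n → ℂ, (∀ i, ‖z i‖ = 1) →
      (∀ g ∈ S, ∏ i, z i ^ g i = (ζ g : ℂ)) → fX E c1 x z = 0 → fX E c2 x z = 0 →
      ¬ (0 < x ^ M * δ z ∧ x ^ M * δ z ≤ 1))
    (x : ℝ) (hx : (BdD (4 * (n * B + E + M + 3)) (2 * n + 2) (szB n B E Hc) : ℝ) ^ Dg < x)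
    (z : Fin n → ℂ) (hz : ∀ i, ‖z i‖ = 1) (hz2 : ∀ g ∈ S, ∏ i, z i ^ g i = (ζ g : ℂ))
    (h1 : fX E c1 x z = 0) (h2 : fX E c2 x z = 0) :
    ¬ (0 < x ^ M * δ z ∧ x ^ M * δ z ≤ 1) := by
  classical
  rintro ⟨hp1, hp2⟩
  have hfin : S.Finite := by
    refine (Set.finite_Icc (fun _ : Fin n => -(B : ℤ)) (fun _ => (B : ℤ))).subset ?_
    intro g hg
    rw [Set.mem_Icc, Pi.le_def, Pi.le_def]
    exact ⟨fun i => (abs_le.mp (hS g hg i)).1, fun i => (abs_le.mp (hS g hg i)).2⟩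
  obtain ⟨h, hdeg, hmn, hnn, hzero⟩ := exists_sysB F hconj hI n B E M Hc D0 hD0 hD0' c1 c2
    hcI1 hcb1 hcI2 hcb2 hfin.toFinset (fun g hg => hS g (hfin.mem_toFinset.mp hg)) ζ
    (fun g hg => hζ g (hfin.mem_toFinset.mp hg)) Δ hΔ1 hΔ2
  obtain ⟨X, hX⟩ := hX
  obtain ⟨q, hq0, hqN, hq⟩ := param_boundD (isNrm_NR (F := F)) (4 * (n * B + E + M + 3))
    (by omega) ⟨2 * (n * B + E + M + 3), by ring⟩ h hdeg none
  have hcard : Fintype.card (Option (Option (Fin n ⊕ Fin n))) = 2 * n + 2 := by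
    rw [Fintype.card_option, Fintype.card_option, Fintype.card_sum, Fintype.card_fin]
    ring
  rw [hcard] at hqN hq
  set Bd := BdD (4 * (n * B + E + M + 3)) (2 * n + 2) (mn (NR F) h) with hBd
  have hq' := hq (RA F).subtype (fun a => abs_le_NR a) hnn X (by
    intro v hv
    obtain ⟨k1, k2, k3, k4, k5⟩ := (hzero v).mp hv
    by_contra hlt
    refine hX (v none) (lt_of_not_ge hlt) (pt fun s => v (some (some s))) k1
      (fun g hg => k2 g (hfin.mem_toFinset.mpr hg)) k3 k4 ?_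
    rw [hδ] at k5
    have h6 : 0 < 1 + v (some none) ^ 2 := by positivity
    have h7 : v none ^ M * δ (pt fun s => v (some (some s))) = 1 / (1 + v (some none) ^ 2) := by
      rw [eq_div_iff h6.ne']
      exact k5
    rw [h7]
    refine ⟨by positivity, ?_⟩
    rw [div_le_one h6]
    have h8 := sq_nonneg (v (some none))
    linarith)
  let v : Option (Option (Fin n ⊕ Fin n)) → ℝ := fun o => match o with
    | none => x
    | some none => √(1 / (x ^ M * δ z) - 1)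
    | some (some (Sum.inl i)) => (z i).re
    | some (some (Sum.inr i)) => (z i).im
  have hpt : (pt fun s => v (some (some s))) = z := by
    funext i
    exact Complex.re_add_im (z i)
  have hv0 : h.eval₂ (RA F).subtype v = 0 := by
    rw [hzero v, hδ, hpt]
    refine ⟨hz, fun g hg => hz2 g (hfin.mem_toFinset.mp hg), h1, h2, ?_⟩
    show x ^ M * δ z * (1 + √(1 / (x ^ M * δ z) - 1) ^ 2) = 1
    have h8 : 0 ≤ 1 / (x ^ M * δ z) - 1 := by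
      rw [sub_nonneg, one_le_div hp1]
      exact hp2
    rw [Real.sq_sqrt h8, add_sub_cancel]
    exact mul_one_div_cancel hp1.ne'
  have k1 : |((RA F).subtype q : ℝ)| * x ≤ Bd := hq' v hv0
  have k2 := one_le_mul_NR q hq0 Dg hDg
  have hDg1 : 1 ≤ Dg := le_trans (Module.finrank_pos (R := ℚ) (M := F)) hDg
  have k3 : (NR F q : ℝ) ^ (Dg - 1) ≤ (Bd : ℝ) ^ (Dg - 1) :=
    pow_le_pow_left₀ (Nat.cast_nonneg _) (by exact_mod_cast hqN) _
  have k4 : 1 ≤ |((RA F).subtype q : ℝ)| * (Bd : ℝ) ^ (Dg - 1) :=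
    k2.trans (mul_le_mul_of_nonneg_left k3 (abs_nonneg _))
  have hx0 : 0 < x := lt_of_le_of_lt (by positivity) hx
  have k5 : x ≤ (Bd : ℝ) ^ Dg := by
    calc x = 1 * x := (one_mul _).symm
      _ ≤ |((RA F).subtype q : ℝ)| * (Bd : ℝ) ^ (Dg - 1) * x :=
          mul_le_mul_of_nonneg_right k4 hx0.le
      _ = (Bd : ℝ) ^ (Dg - 1) * (|((RA F).subtype q : ℝ)| * x) := by ring
      _ ≤ (Bd : ℝ) ^ (Dg - 1) * Bd := mul_le_mul_of_nonneg_left k1 (by positivity)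
      _ = (Bd : ℝ) ^ Dg := by
          rw [← pow_succ]
          congr 1
          omega
  have k6 : (Bd : ℝ) ≤ BdD (4 * (n * B + E + M + 3)) (2 * n + 2) (szB n B E Hc) := by
    exact_mod_cast Pool.Agent.FixRec.BdD_mono (4 * (n * B + E + M + 3)) (2 * n + 2) hmn
  have k7 : (Bd : ℝ) ^ Dg ≤
      (BdD (4 * (n * B + E + M + 3)) (2 * n + 2) (szB n B E Hc) : ℝ) ^ Dg :=
    pow_le_pow_left₀ (Nat.cast_nonneg _) k6 _
  linarith

end Pool.Agent.FrNar
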