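import Pool.Agent.QCT.OneVar
import Pool.Agent.QCT.Dp

/-! The projection of a real algebraic set to a line is eventually everything or nothing. -/

set_option autoImplicit false

namespace Pool.Agent.FrNar

open Filter

/-- The predicate of the projection. -/
def OMP {σ : Type} [Fintype σ] (h : MvPolynomial (Option σ) ℝ) (a : h.support → ℝ) (x : ℝ) :
    Prop :=
  ∃ v : σ → ℝ, ∑ d : h.support, a d * (x ^ (d.1 none) * ∏ s, v s ^ (d.1 (some s))) = 0

theorem om_dp {σ : Type} [Fintype σ] (h : MvPolynomial (Option σ) ℝ) :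
    QCT.DP fun p : (h.support → ℝ) × ℝ => OMP h p.1 p.2 := by
  unfold OMP
  refine QCT.Dp.ex (X := (h.support → ℝ) × ℝ) (Y := σ → ℝ)
    (P := fun p v => ∑ d : h.support, p.1 d * (p.2 ^ (d.1 none) * ∏ s, v s ^ (d.1 (some s))) = 0) ?_
  refine QCT.Dp.eq (QCT.Dp.dfn_pm (QCT.Dp.PM.real (∑ d : h.support,
      MvPolynomial.X (Sum.inl (Sum.inl d)) * (MvPolynomial.X (Sum.inl (Sum.inr ())) ^ (d.1 none) *
        ∏ s, MvPolynomial.X (Sum.inr s) ^ (d.1 (some s)))) fun x => ?_))
    (QCT.Dp.dfn_pm (QCT.Dp.PM.real 0 fun x => by simp))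
  rw [map_sum]
  refine Finset.sum_congr rfl fun d _ => ?_
  rw [map_mul, map_mul, map_pow, map_prod, MvPolynomial.aeval_X, MvPolynomial.aeval_X]
  congr 2
  refine Finset.prod_congr rfl fun s _ => ?_
  rw [map_pow, MvPolynomial.aeval_X]
  rfl

theorem om_iff {σ : Type} [Fintype σ] (h : MvPolynomial (Option σ) ℝ) (x : ℝ) :
    OMP h (fun d => h.coeff d.1) x ↔
      ∃ v : Option σ → ℝ, v none = x ∧ MvPolynomial.eval v h = 0 := by
  have key : ∀ v : Option σ → ℝ, MvPolynomial.eval v h =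
      ∑ d : h.support, h.coeff d.1 * (v none ^ (d.1 none) * ∏ s, v (some s) ^ (d.1 (some s))) := by
    intro v
    rw [MvPolynomial.eval_eq', ← Finset.sum_coe_sort h.support]
    refine Finset.sum_congr rfl fun d _ => ?_
    rw [Fintype.prod_option]
  constructor
  · rintro ⟨v, hv⟩
    refine ⟨fun o => o.elim x v, rfl, ?_⟩
    rw [key]
    exact hv
  · rintro ⟨v, rfl, hv⟩
    rw [key] at hv
    exact ⟨fun s => v (some s), hv⟩

theorem om_front {S T : Set ℝ} (hS : IsPreconnected S) (h1 : (S ∩ T).Nonempty)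
    (h2 : (S ∩ Tᶜ).Nonempty) : (S ∩ frontier T).Nonempty := by
  by_contra h
  have h3 : ∀ x ∈ S, x ∉ frontier T := fun x hx hx' => h ⟨x, hx, hx'⟩
  have h4 : ∀ x ∈ S, x ∈ T → x ∈ interior T := by
    intro x hx hxT
    by_contra h5
    exact h3 x hx ⟨subset_closure hxT, h5⟩
  have h5 : ∀ x ∈ S, x ∈ Tᶜ → x ∈ interior Tᶜ := by
    intro x hx hxT
    by_contra h6
    refine h3 x hx ?_
    rw [← frontier_compl]
    exact ⟨subset_closure hxT, h6⟩
  obtain ⟨a, haS, haT⟩ := h1
  obtain ⟨b, hbS, hbT⟩ := h2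
  obtain ⟨c, -, hc1, hc2⟩ := hS (interior T) (interior Tᶜ) isOpen_interior isOpen_interior
    (fun x hx => (em (x ∈ T)).imp (h4 x hx) (h5 x hx)) ⟨a, haS, h4 a haS haT⟩
    ⟨b, hbS, h5 b hbS hbT⟩
  exact interior_subset hc2 (interior_subset hc1)

/-- PROOF: o-minimality of the real field, `exists_frontier'` of `QCT/OneVar.lean`. The coefficients are
parameters: let `X = (h.support → ℝ)` and `P : X → ℝ → Prop`, `P a x = ∃ v : σ → ℝ, ∑ d : h.support,
a d * (x ^ (d none) * ∏ s, v s ^ (d (some s))) = 0`. It is definable: `DP.ex` for `Y = (σ → ℝ)`, `DP.eq`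
with `PM.real`/`DFn` combinators (`dfn_mul`, products and finite sums by induction, or directly `ds_eq`-like
`PM.real` with an integer polynomial in the coordinates of `(X × ℝ) × (σ → ℝ)`). So
`frontier {x | P a x}` is finite for `a d = coeff d h`. Take `x0` above all its points; `Set.Ioi x0` is
preconnected, so by `IsPreconnected.inter_frontier_nonempty` it lies in the set or in its complement. For
this `a`, `P a x ↔ ∃ v : Option σ → ℝ, v none = x ∧ eval v h = 0` (`MvPolynomial.eval_eq'`,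
`Fintype.prod_option`, `Option.elim`). -/
theorem om_proj {σ : Type} [Fintype σ] (h : MvPolynomial (Option σ) ℝ) :
    (∀ᶠ x : ℝ in atTop, ∃ v : Option σ → ℝ, v none = x ∧ MvPolynomial.eval v h = 0) ∨
    (∀ᶠ x : ℝ in atTop, ¬ ∃ v : Option σ → ℝ, v none = x ∧ MvPolynomial.eval v h = 0) := by
  obtain ⟨N, hN⟩ := QCT.OneVar.exists_frontier' (P := OMP h) (om_dp h)
  have hf := (hN fun d => h.coeff d.1).1
  obtain ⟨x0, hx0⟩ := hf.bddAbove
  have hS : {t : ℝ | OMP h (fun d => h.coeff d.1) t} =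
      {x | ∃ v : Option σ → ℝ, v none = x ∧ MvPolynomial.eval v h = 0} := by
    ext x
    exact om_iff h x
  rw [hS] at hx0
  by_cases h1 : (Set.Ioi x0 ∩ {x | ∃ v : Option σ → ℝ, v none = x ∧
      MvPolynomial.eval v h = 0}).Nonempty
  · by_cases h2 : (Set.Ioi x0 ∩ {x | ∃ v : Option σ → ℝ, v none = x ∧
      MvPolynomial.eval v h = 0}ᶜ).Nonempty
    · obtain ⟨y, hy, hy'⟩ := om_front isPreconnected_Ioi h1 h2
      exact absurd (hx0 hy') (not_le.2 hy)
    · left
      filter_upwards [eventually_gt_atTop x0] with x hx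
      by_contra h3
      exact h2 ⟨x, hx, h3⟩
  · right
    filter_upwards [eventually_gt_atTop x0] with x hx h3
    exact h1 ⟨x, hx, h3⟩

end Pool.Agent.FrNar
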