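import Pool.Agent.FrNar.ElB
import Pool.Agent.FrNar.OM

/-! The values of the parameter without separation, second form. -/

set_option autoImplicit false

namespace Pool.Agent.FrNar

open Pool.Agent.MX Pool.Agent.RElim Complex

/-- PROOF: `h` of `exists_sysB` (for `S` finite), mapped to `ℝ` by `(RA F).subtype`
(`MvPolynomial.eval_map`), with `σ = Option (Fin n ⊕ Fin n)` in `om_proj`: if for all large `x` it has a
zero with `v none = x`, then for all large `x` there is `z` as excluded (`x ^ M * δ z * (1 + w ^ 2) = 1`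
gives `0 < x ^ M * δ z ≤ 1`), against `hX`. So for all large `x` there is no such zero, hence no such `z`
(given `z`, take `w = √(1 / (x ^ M * δ z) - 1)`), and `sup_sysB` applies. -/
theorem freq_sysB (F : IntermediateField ℚ ℂ) [FiniteDimensional ℚ F]
    (hconj : ∀ z ∈ F, (starRingEnd ℂ) z ∈ F) (hI : I ∈ F) (n B E M Dg Hc D0 : ℕ)
    (hDg : Module.finrank ℚ F ≤ Dg) (hD0 : 0 < D0)
    (hD0' : D0 ≤ 2 ^ Hc) (c1 c2 : Fin n → ℕ → F)
    (hcI1 : ∀ i, ∀ e ≤ E, IsIntegral ℤ ((D0 : ℂ) * (c1 i e : ℂ)))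
    (hcb1 : ∀ i, ∀ e ≤ E, ∀ φ : F →ₐ[ℚ] ℂ, ‖φ (c1 i e)‖ ≤ 2 ^ Hc)
    (hcI2 : ∀ i, ∀ e ≤ E, IsIntegral ℤ ((D0 : ℂ) * (c2 i e : ℂ)))
    (hcb2 : ∀ i, ∀ e ≤ E, ∀ φ : F →ₐ[ℚ] ℂ, ‖φ (c2 i e)‖ ≤ 2 ^ Hc)
    (S : Set (Fin n → ℤ)) (hS : ∀ g ∈ S, ∀ i, |g i| ≤ B) (ζ : (Fin n → ℤ) → F)
    (hζ : ∀ g ∈ S, ∃ m : ℕ, 0 < m ∧ ζ g ^ m = 1)
    (Δ : MvPolynomial (Fin n ⊕ Fin n) (RA F)) (hΔ1 : Δ.totalDegree ≤ 4) (hΔ2 : mn (NR F) Δ ≤ 32)
    (δ : (Fin n → ℂ) → ℝ) (hδ : ∀ v, Δ.eval₂ (RA F).subtype v = δ (pt v))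
    (hX : ∀ X : ℝ, ∃ x : ℝ, X < x ∧ ∀ z : Fin n → ℂ, (∀ i, ‖z i‖ = 1) →
      (∀ g ∈ S, ∏ i, z i ^ g i = (ζ g : ℂ)) → fX E c1 x z = 0 → fX E c2 x z = 0 →
      ¬ (0 < x ^ M * δ z ∧ x ^ M * δ z ≤ 1))
    (x : ℝ) (hx : (BdD (4 * (n * B + E + M + 3)) (2 * n + 2) (szB n B E Hc) : ℝ) ^ Dg < x)
    (z : Fin n → ℂ) (hz : ∀ i, ‖z i‖ = 1) (hz2 : ∀ g ∈ S, ∏ i, z i ^ g i = (ζ g : ℂ))
    (h1 : fX E c1 x z = 0) (h2 : fX E c2 x z = 0) :
    ¬ (0 < x ^ M * δ z ∧ x ^ M * δ z ≤ 1) := by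
  classical
  have hfin : S.Finite := by
    refine (Set.finite_Icc (fun _ : Fin n => -(B : ℤ)) (fun _ => (B : ℤ))).subset ?_
    intro g hg
    rw [Set.mem_Icc, Pi.le_def, Pi.le_def]
    exact ⟨fun i => (abs_le.mp (hS g hg i)).1, fun i => (abs_le.mp (hS g hg i)).2⟩
  obtain ⟨h, hdeg, hmn, hnn, hzero⟩ := exists_sysB F hconj hI n B E M Hc D0 hD0 hD0' c1 c2
    hcI1 hcb1 hcI2 hcb2 hfin.toFinset (fun g hg => hS g (hfin.mem_toFinset.mp hg)) ζ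
    (fun g hg => hζ g (hfin.mem_toFinset.mp hg)) Δ hΔ1 hΔ2
  refine sup_sysB F hconj hI n B E M Dg Hc D0 hDg hD0 hD0' c1 c2 hcI1 hcb1 hcI2 hcb2 S hS ζ hζ
    Δ hΔ1 hΔ2 δ hδ ?_ x hx z hz hz2 h1 h2
  have hmap : ∀ v : Option (Option (Fin n ⊕ Fin n)) → ℝ,
      MvPolynomial.eval v (MvPolynomial.map (RA F).subtype h) = h.eval₂ (RA F).subtype v :=
    fun v => MvPolynomial.eval_map _ _ _
  rcases om_proj (MvPolynomial.map (RA F).subtype h) with hev | hev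
  · exfalso
    obtain ⟨X0, hX0⟩ := Filter.eventually_atTop.1 hev
    obtain ⟨y, hy, hyz⟩ := hX X0
    obtain ⟨v, hvy, hv0⟩ := hX0 y hy.le
    rw [hmap] at hv0
    obtain ⟨k1, k2, k3, k4, k5⟩ := (hzero v).mp hv0
    rw [hvy] at k3 k4 k5
    refine hyz (pt fun s => v (some (some s))) k1
      (fun g hg => k2 g (hfin.mem_toFinset.mpr hg)) k3 k4 ?_
    rw [hδ] at k5
    have h6 : 0 < 1 + v (some none) ^ 2 := by positivity
    have h7 : y ^ M * δ (pt fun s => v (some (some s))) = 1 / (1 + v (some none) ^ 2) := by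
      rw [eq_div_iff h6.ne']
      exact k5
    rw [h7]
    refine ⟨by positivity, ?_⟩
    rw [div_le_one h6]
    have h8 := sq_nonneg (v (some none))
    linarith
  · obtain ⟨X0, hX0⟩ := Filter.eventually_atTop.1 hev
    refine ⟨X0, fun y hy z' hz' hz2' h1' h2' hp => ?_⟩
    obtain ⟨hp1, hp2⟩ := hp
    refine hX0 y hy.le ?_
    let v : Option (Option (Fin n ⊕ Fin n)) → ℝ := fun o => match o with
      | none => y
      | some none => √(1 / (y ^ M * δ z') - 1)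
      | some (some (Sum.inl i)) => (z' i).re
      | some (some (Sum.inr i)) => (z' i).im
    have hpt : (pt fun s => v (some (some s))) = z' := by
      funext i
      exact Complex.re_add_im (z' i)
    refine ⟨v, rfl, ?_⟩
    rw [hmap, hzero v, hδ, hpt]
    refine ⟨hz', fun g hg => hz2' g (hfin.mem_toFinset.mp hg), h1', h2', ?_⟩
    show y ^ M * δ z' * (1 + √(1 / (y ^ M * δ z') - 1) ^ 2) = 1
    have h8 : 0 ≤ 1 / (y ^ M * δ z') - 1 := by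
      rw [sub_nonneg, one_le_div hp1]
      exact hp2
    rw [Real.sq_sqrt h8, add_sub_cancel]
    exact mul_one_div_cancel hp1.ne'

end Pool.Agent.FrNar
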