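import Pool.Agent.FrNar.Nw

/-! The weighted size bounds the degree; lower bounds near zero. -/

set_option autoImplicit false

namespace Pool.Agent.FrNar

open Pool.Agent.MX Pool.Agent.RElim Complex

variable {F : IntermediateField ℚ ℂ} [FiniteDimensional ℚ F]

private theorem toF_mul_NwB (a b : RA F) : toF (a * b) = toF a * toF b := by
  apply Subtype.ext
  simp [toF]

private theorem norm_two_pow_NwB (a : RA F) (d : ℕ) (φ : F →ₐ[ℚ] ℂ) :
    ‖φ (toF (a * 2 ^ d))‖ = ‖φ (toF a)‖ * 2 ^ d := by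
  have h2 : toF ((2 : RA F) ^ d) = (2 : F) ^ d := by
    apply Subtype.ext
    have e1 : ((RA F).subtype 2 : ℝ) = 2 := map_ofNat (RA F).subtype 2
    show ((((RA F).subtype (2 ^ d)) : ℝ) : ℂ) = F.val (2 ^ d)
    rw [map_pow, e1, map_pow, map_ofNat, Complex.ofReal_pow, Complex.ofReal_ofNat]
  rw [toF_mul_NwB, map_mul, norm_mul, h2, map_pow, norm_pow, map_ofNat]
  norm_num

/-- A nonzero element multiplied by `2 ^ d` has size at least `2 ^ d`.

PROOF: otherwise let `N = NR F (a * 2 ^ d) ≤ 2 ^ d - 1` (from the definition of `NR` in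
`MX/House.lean`: `‖φ (toF x)‖ ≤ NR F x` for every `φ`), so `‖φ (toF a)‖ ≤ θ = N / 2 ^ d < 1` for every
`φ : F →ₐ[ℚ] ℂ`. For `m ≥ 1` all `‖φ (toF (a ^ m))‖ ≤ θ ^ m ≤ 1`, so `NR F (a ^ m) ≤ 1` by `NR_le`,
and `one_le_mul_NR (a ^ m) (pow_ne_zero ..) Dg le_rfl` (`Dg = finrank`) gives
`1 ≤ |a ^ m| * NR F (a ^ m) ^ (Dg - 1) ≤ |a| ^ m ≤ θ ^ m < 1` for `m = 1` (use `m = 1` only:
`|a| ≤ θ < 1` because the inclusion `F → ℂ` is one of the `φ`, `F.val`). -/
theorem two_pow_le_NR (a : RA F) (ha : a ≠ 0) (d : ℕ) : 2 ^ d ≤ NR F (a * 2 ^ d) := by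
  by_contra hlt
  have hlt1 : NR F (a * 2 ^ d) < 2 ^ d := not_le.1 hlt
  have hlt2 : (NR F (a * 2 ^ d) : ℝ) < 2 ^ d := by exact_mod_cast hlt1
  have hpos : (0 : ℝ) < 2 ^ d := by positivity
  have hφ : ∀ φ : F →ₐ[ℚ] ℂ, ‖φ (toF a)‖ < 1 := by
    intro φ
    have h1 := le_NR (a * 2 ^ d) φ
    rw [norm_two_pow_NwB] at h1
    have h2 : ‖φ (toF a)‖ * 2 ^ d < 1 * 2 ^ d := by
      rw [one_mul]
      exact lt_of_le_of_lt h1 hlt2
    exact lt_of_mul_lt_mul_right h2 hpos.le
  have hN : NR F a ≤ 1 := NR_le a 1 fun φ => by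
    rw [Nat.cast_one]
    exact (hφ φ).le
  have hN1 : (NR F a : ℝ) ≤ 1 := by exact_mod_cast hN
  have habs : |((RA F).subtype a : ℝ)| < 1 := by
    have h1 : ‖F.val (toF a)‖ = |((RA F).subtype a : ℝ)| := Complex.norm_real _
    rw [← h1]
    exact hφ F.val
  have h3 := one_le_mul_NR a ha (Module.finrank ℚ F) le_rfl
  have h4 : (NR F a : ℝ) ^ (Module.finrank ℚ F - 1) ≤ 1 := pow_le_one₀ (Nat.cast_nonneg _) hN1
  have h5 : |((RA F).subtype a : ℝ)| * (NR F a : ℝ) ^ (Module.finrank ℚ F - 1)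
      ≤ |((RA F).subtype a : ℝ)| * 1 := mul_le_mul_of_nonneg_left h4 (abs_nonneg _)
  linarith

/-- PROOF: `NW_eq` with the support, single term `natDegree`, `two_pow_le_NR` for the leading
coefficient. -/
theorem two_pow_natDegree_le_NW (p : Polynomial (RA F)) (hp : p ≠ 0) :
    2 ^ p.natDegree ≤ NW F p := by
  rw [NW_eq p p.support (Finset.Subset.refl _)]
  have h1 : p.natDegree ∈ p.support := Polynomial.natDegree_mem_support_of_nonzero hp
  have h2 : NR F (p.coeff p.natDegree * 2 ^ p.natDegree)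
      ≤ ∑ i ∈ p.support, NR F (p.coeff i * 2 ^ i) :=
    Finset.single_le_sum (f := fun i => NR F (p.coeff i * 2 ^ i)) (fun i _ => Nat.zero_le _) h1
  refine le_trans ?_ h2
  exact two_pow_le_NR _ (by
    rw [Polynomial.coeff_natDegree]
    exact Polynomial.leadingCoeff_ne_zero.2 hp) _

/-- A nonzero polynomial of size less than `2 ^ (m + 1)` is at least `y ^ (m + 1)` for small `y > 0`.

PROOF: let `s = p.natTrailingDegree ≤ p.natDegree ≤ m` (`two_pow_natDegree_le_NW`), `a` the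
coefficient of index `s`, `a ≠ 0` in `ℝ`. Write `evW F y p = ∑ i ∈ support, a_i y ^ i`
(`Polynomial.eval₂_def`, `sum_def`); for `0 < y ≤ 1` the other terms have `i ≥ s + 1`, so
`|evW F y p| ≥ |a| y ^ s - T y ^ (s + 1)` with `T` the sum of the `|a_i|`. For
`y ≤ |a| / (2 (T + 1))` this is at least `|a| / 2 * y ^ s`, and for `y < |a| / 2` (and `y ≤ 1`) greater
than `y ^ (s + 1) ≥ y ^ (m + 1)`. -/
theorem exists_low (p : Polynomial (RA F)) (hp : p ≠ 0) (m : ℕ) (hm : NW F p < 2 ^ (m + 1)) :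
    ∃ y0 : ℝ, 0 < y0 ∧ ∀ y : ℝ, 0 < y → y < y0 → y ^ (m + 1) < |evW F y p| := by
  have hdeg : p.natDegree ≤ m := by
    have h1 := lt_of_le_of_lt (two_pow_natDegree_le_NW p hp) hm
    have h2 := (Nat.pow_lt_pow_iff_right (by norm_num : 1 < 2)).1 h1
    omega
  have hinj : Function.Injective (RA F).subtype := Subtype.val_injective
  have hq : p.map (RA F).subtype ≠ 0 := (Polynomial.map_ne_zero_iff hinj).2 hp
  obtain ⟨r, hr, hr0⟩ :=
    Polynomial.exists_eq_pow_rootMultiplicity_mul_and_not_dvd (p.map (RA F).subtype) hq 0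
  set s := (p.map (RA F).subtype).rootMultiplicity 0 with hs
  have hr00 : r.eval 0 ≠ 0 := by
    intro h
    exact hr0 (Polynomial.dvd_iff_isRoot.2 h)
  have hrne : r ≠ 0 := by
    rintro rfl
    exact hr00 (by simp)
  have hsm : s ≤ m := by
    have h1 : (p.map (RA F).subtype).natDegree = s + r.natDegree := by
      rw [hr, Polynomial.natDegree_mul (pow_ne_zero _ (Polynomial.X_sub_C_ne_zero 0)) hrne,
        Polynomial.natDegree_pow, Polynomial.natDegree_X_sub_C, mul_one]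
    have h2 := Polynomial.natDegree_map_le (f := (RA F).subtype) (p := p)
    omega
  have hev : ∀ y : ℝ, evW F y p = y ^ s * r.eval y := by
    intro y
    have h1 : evW F y p = (p.map (RA F).subtype).eval y := by
      rw [Polynomial.eval_map]
      rfl
    rw [h1, hr]
    simp
  have hc : Continuous fun y : ℝ => |r.eval y| := r.continuous.abs
  have hpos : 0 < |r.eval 0| := abs_pos.2 hr00
  have hlt : |r.eval 0| / 2 < |r.eval 0| := by linarith
  have hev2 : ∀ᶠ y in nhds (0 : ℝ), |r.eval 0| / 2 < |r.eval y| :=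
    (hc.tendsto 0).eventually (lt_mem_nhds hlt)
  obtain ⟨δ, hδ, hδ2⟩ := Metric.eventually_nhds_iff.1 hev2
  refine ⟨min δ (min 1 (|r.eval 0| / 2)), lt_min hδ (lt_min one_pos (by linarith)), ?_⟩
  intro y hy hy0
  have hy1 : y < δ := lt_of_lt_of_le hy0 (min_le_left _ _)
  have hy2 : y < 1 := lt_of_lt_of_le hy0 ((min_le_right _ _).trans (min_le_left _ _))
  have hy3 : y < |r.eval 0| / 2 := lt_of_lt_of_le hy0 ((min_le_right _ _).trans (min_le_right _ _))
  have h4 : |r.eval 0| / 2 < |r.eval y| := by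
    apply hδ2
    rw [Real.dist_eq, sub_zero, abs_of_pos hy]
    exact hy1
  rw [hev y, abs_mul, abs_of_pos (pow_pos hy s)]
  have h5 : y ^ (m + 1) ≤ y ^ (s + 1) := pow_le_pow_of_le_one hy.le hy2.le (by omega)
  have h6 : y ^ (s + 1) < y ^ s * |r.eval y| := by
    rw [pow_succ]
    exact mul_lt_mul_of_pos_left (hy3.trans h4) (pow_pos hy s)
  exact lt_of_le_of_lt h5 h6

end Pool.Agent.FrNar
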