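import Pool.Agent.FrNar.ElA
import Pool.Agent.FrNar.NwB
import Pool.Agent.FrNar.SysB

/-! Separation at large parameters. -/

set_option autoImplicit false

namespace Pool.Agent.FrNar

open Pool.Agent.MX Pool.Agent.RElim Complex

private theorem eld_key {F : IntermediateField ℚ ℂ} {n : ℕ} (E : ℕ) (c : Fin n → ℕ → F)
    (x y : ℝ) (hxy : y * x = 1) (z : Fin n → ℂ) :
    FixLam.fY E c y z = y ^ E * fX E c x z := by
  unfold FixLam.fY fX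
  rw [← Complex.re_ofReal_mul, Finset.mul_sum]
  congr 1
  refine Finset.sum_congr rfl fun i _ => ?_
  rw [← mul_assoc, Finset.mul_sum]
  congr 1
  refine Finset.sum_congr rfl fun e he => ?_
  have he' : e ≤ E := Nat.lt_succ_iff.1 (Finset.mem_range.1 he)
  have h1 : (y : ℂ) * (x : ℂ) = 1 := by
    rw [← Complex.ofReal_mul, hxy, Complex.ofReal_one]
  have h2 : (y : ℂ) ^ E = (y : ℂ) ^ (E - e) * (y : ℂ) ^ e := by
    rw [← pow_add, Nat.sub_add_cancel he']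
  rw [Complex.ofReal_pow, h2]
  calc (c i e : ℂ) * (y : ℂ) ^ (E - e)
      = (c i e : ℂ) * (y : ℂ) ^ (E - e) * ((y : ℂ) * (x : ℂ)) ^ e := by rw [h1, one_pow, mul_one]
    _ = (y : ℂ) ^ (E - e) * (y : ℂ) ^ e * ((c i e : ℂ) * (x : ℂ) ^ e) := by
        rw [mul_pow]; ring

/-- PROOF: `exists_relA` gives `q`, `exists_low` (with `m = m0`) a `y0`. Let `T = BdD ..` (as a real number,
`T + 1`) and `x0 = max (1 / y0) (max 1 (T + 1))`. For `x > x0` put `y = 1 / x`: `0 < y < y0`, `y ≤ 1`; `fY E c y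
z = y ^ E * fX E c x z` (termwise, `y ^ (E - e) = y ^ E * x ^ e`), so the zeros are the same; hence
`y ^ (m0 + 1) < |evW F y q| ≤ T * δ z`, and multiplying by `x ^ (m0 + 2)`: `x < T * (x ^ (m0 + 2) * δ z)`,
so `1 < x ^ (m0 + 2) * δ z` as `T < x`. -/
theorem low_A (F : IntermediateField ℚ ℂ) [FiniteDimensional ℚ F]
    (hconj : ∀ z ∈ F, (starRingEnd ℂ) z ∈ F) (hI : I ∈ F) (n B E Hc D0 : ℕ) (hD0 : 0 < D0)
    (hD0' : D0 ≤ 2 ^ Hc) (c1 c2 : Fin n → ℕ → F)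
    (hcI1 : ∀ i, ∀ e ≤ E, IsIntegral ℤ ((D0 : ℂ) * (c1 i e : ℂ)))
    (hcb1 : ∀ i, ∀ e ≤ E, ∀ φ : F →ₐ[ℚ] ℂ, ‖φ (c1 i e)‖ ≤ 2 ^ Hc)
    (hcI2 : ∀ i, ∀ e ≤ E, IsIntegral ℤ ((D0 : ℂ) * (c2 i e : ℂ)))
    (hcb2 : ∀ i, ∀ e ≤ E, ∀ φ : F →ₐ[ℚ] ℂ, ‖φ (c2 i e)‖ ≤ 2 ^ Hc)
    (S : Set (Fin n → ℤ)) (hS : ∀ g ∈ S, ∀ i, |g i| ≤ B) (ζ : (Fin n → ℤ) → F)
    (hζ : ∀ g ∈ S, ∃ m : ℕ, 0 < m ∧ ζ g ^ m = 1)
    (Δ : MvPolynomial (Fin n ⊕ Fin n) (RA F)) (hΔ1 : Δ.totalDegree ≤ 4) (hΔ2 : mn (NR F) Δ ≤ 32)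
    (δ : (Fin n → ℂ) → ℝ) (hδ : ∀ v, Δ.eval₂ (RA F).subtype v = δ (pt v))
    (m0 : ℕ) (hm0 : BdD (4 * (n * B + 3)) (2 * n + 1) (szB n B E Hc) < 2 ^ (m0 + 1)) :
    ∃ x0 : ℝ, ∀ x : ℝ, x0 < x → ∀ m : ℝ, 0 < m →
      (∀ z : Fin n → ℂ, (∀ i, ‖z i‖ = 1) → (∀ g ∈ S, ∏ i, z i ^ g i = (ζ g : ℂ)) →
        fX E c1 x z = 0 → fX E c2 x z = 0 → 0 < δ z → m ≤ δ z) →
      ∀ z : Fin n → ℂ, (∀ i, ‖z i‖ = 1) → (∀ g ∈ S, ∏ i, z i ^ g i = (ζ g : ℂ)) →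
        fX E c1 x z = 0 → fX E c2 x z = 0 → 0 < δ z → 1 < x ^ (m0 + 2) * δ z := by
  obtain ⟨q, hq0, hqN, hq⟩ := exists_relA F hconj hI n B E Hc D0 hD0 hD0' c1 c2 hcI1 hcb1
    hcI2 hcb2 S hS ζ hζ Δ hΔ1 hΔ2 δ hδ
  obtain ⟨y0, hy0, hlow⟩ := exists_low q hq0 m0 (lt_of_le_of_lt hqN hm0)
  set T : ℝ := ((BdD (4 * (n * B + 3)) (2 * n + 1) (szB n B E Hc) : ℕ) : ℝ) with hT
  have hT0 : 0 ≤ T := by
    rw [hT]
    exact Nat.cast_nonneg _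
  refine ⟨max (1 / y0) (max 1 (T + 1)), fun x hx m hm hmin z hz1 hz2 hf1 hf2 hδz => ?_⟩
  have hx1 : 1 / y0 < x := lt_of_le_of_lt (le_max_left _ _) hx
  have hx2 : 1 < x := lt_of_le_of_lt ((le_max_left _ _).trans (le_max_right _ _)) hx
  have hx3 : T + 1 < x := lt_of_le_of_lt ((le_max_right _ _).trans (le_max_right _ _)) hx
  have hxp : 0 < x := by linarith
  have hyp : 0 < 1 / x := by positivity
  have hyx : 1 / x * x = 1 := by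
    field_simp
  have hy1 : 1 / x < y0 := by
    rw [div_lt_iff₀ hxp]
    rw [div_lt_iff₀ hy0] at hx1
    linarith [mul_comm x y0]
  have hyle : |1 / x| ≤ 1 := by
    rw [abs_of_pos hyp, div_le_one hxp]
    exact hx2.le
  have hyE : (1 / x) ^ E ≠ 0 := (pow_pos hyp E).ne'
  have h1 := hlow (1 / x) hyp hy1
  have h2 := hq (1 / x) hyle m hm
    (fun w hw1 hw2 hg1 hg2 hw => by
      rw [eld_key E c1 x (1 / x) hyx w] at hg1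
      rw [eld_key E c2 x (1 / x) hyx w] at hg2
      exact hmin w hw1 hw2 ((mul_eq_zero.1 hg1).resolve_left hyE)
        ((mul_eq_zero.1 hg2).resolve_left hyE) hw) z hz1 hz2
    (by rw [eld_key E c1 x (1 / x) hyx z, hf1, mul_zero])
    (by rw [eld_key E c2 x (1 / x) hyx z, hf2, mul_zero]) hδz
  have h3 : (1 / x) ^ (m0 + 1) < T * δ z := lt_of_lt_of_le h1 h2
  have h4 : x ^ (m0 + 2) * (1 / x) ^ (m0 + 1) = x := by
    rw [pow_succ x (m0 + 1), mul_right_comm, ← mul_pow, mul_comm x (1 / x), hyx, one_pow, one_mul]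
  have h5 : x < T * (x ^ (m0 + 2) * δ z) := by
    have h6 := mul_lt_mul_of_pos_left h3 (pow_pos hxp (m0 + 2))
    rw [h4] at h6
    calc x < x ^ (m0 + 2) * (T * δ z) := h6
      _ = T * (x ^ (m0 + 2) * δ z) := by ring
  by_contra hcon
  have h7 : x ^ (m0 + 2) * δ z ≤ 1 := not_lt.1 hcon
  have h8 : T * (x ^ (m0 + 2) * δ z) ≤ T * 1 := mul_le_mul_of_nonneg_left h7 hT0
  linarith

end Pool.Agent.FrNar
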