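import Pool.Agent.FrNar.ElC
import Pool.Agent.FrNar.ElD

/-! Separation of the common zeros beyond an explicit parameter; existence of zeros. -/

set_option autoImplicit false

namespace Pool.Agent.FrNar

open Pool.Agent.MX Pool.Agent.RElim Complex

/-- **Separation.** PROOF: `freq_sysB` with `M = m0 + 2`: its hypothesis `hX` at `X`: take the `x >
max X x0` of `hfin`, `x0` of `low_A`; there `1 < x ^ M * δ z` whenever `0 < δ z`; and `0 < x ^ M * δ z` with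
`x > 0` (take `x0 ≥ 0` too) gives `0 < δ z`. In the conclusion `x > 0` because the bound is nonnegative. -/
theorem sep_gen (F : IntermediateField ℚ ℂ) [FiniteDimensional ℚ F]
    (hconj : ∀ z ∈ F, (starRingEnd ℂ) z ∈ F) (hI : I ∈ F) (n B E Dg Hc D0 : ℕ)
    (hDg : Module.finrank ℚ F ≤ Dg) (hD0 : 0 < D0)
    (hD0' : D0 ≤ 2 ^ Hc) (c1 c2 : Fin n → ℕ → F)
    (hcI1 : ∀ i, ∀ e ≤ E, IsIntegral ℤ ((D0 : ℂ) * (c1 i e : ℂ)))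
    (hcb1 : ∀ i, ∀ e ≤ E, ∀ φ : F →ₐ[ℚ] ℂ, ‖φ (c1 i e)‖ ≤ 2 ^ Hc)
    (hcI2 : ∀ i, ∀ e ≤ E, IsIntegral ℤ ((D0 : ℂ) * (c2 i e : ℂ)))
    (hcb2 : ∀ i, ∀ e ≤ E, ∀ φ : F →ₐ[ℚ] ℂ, ‖φ (c2 i e)‖ ≤ 2 ^ Hc)
    (S : Set (Fin n → ℤ)) (hS : ∀ g ∈ S, ∀ i, |g i| ≤ B) (ζ : (Fin n → ℤ) → F)
    (hζ : ∀ g ∈ S, ∃ m : ℕ, 0 < m ∧ ζ g ^ m = 1)
    (Δ : MvPolynomial (Fin n ⊕ Fin n) (RA F)) (hΔ1 : Δ.totalDegree ≤ 4) (hΔ2 : mn (NR F) Δ ≤ 32)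
    (δ : (Fin n → ℂ) → ℝ) (hδ : ∀ v, Δ.eval₂ (RA F).subtype v = δ (pt v))
    (m0 : ℕ) (hm0 : BdD (4 * (n * B + 3)) (2 * n + 1) (szB n B E Hc) < 2 ^ (m0 + 1))
    (hfin : ∀ X : ℝ, ∃ x : ℝ, X < x ∧ ∃ m : ℝ, 0 < m ∧
      ∀ z : Fin n → ℂ, (∀ i, ‖z i‖ = 1) → (∀ g ∈ S, ∏ i, z i ^ g i = (ζ g : ℂ)) →
        fX E c1 x z = 0 → fX E c2 x z = 0 → 0 < δ z → m ≤ δ z)
    (x : ℝ) (hx : (BdD (4 * (n * B + E + (m0 + 2) + 3)) (2 * n + 2) (szB n B E Hc) : ℝ) ^ Dg < x)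
    (z : Fin n → ℂ) (hz : ∀ i, ‖z i‖ = 1) (hz2 : ∀ g ∈ S, ∏ i, z i ^ g i = (ζ g : ℂ))
    (h1 : fX E c1 x z = 0) (h2 : fX E c2 x z = 0) (hpos : 0 < δ z) :
    1 < x ^ (m0 + 2) * δ z := by
  obtain ⟨x0, hx0⟩ := low_A F hconj hI n B E Hc D0 hD0 hD0' c1 c2 hcI1 hcb1 hcI2 hcb2 S hS ζ hζ
    Δ hΔ1 hΔ2 δ hδ m0 hm0
  have hxpos : 0 < x := lt_of_le_of_lt (by positivity) hx
  by_contra hcon
  refine freq_sysB F hconj hI n B E (m0 + 2) Dg Hc D0 hDg hD0 hD0' c1 c2 hcI1 hcb1 hcI2 hcb2 S hS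
    ζ hζ Δ hΔ1 hΔ2 δ hδ ?_ x hx z hz hz2 h1 h2
    ⟨mul_pos (pow_pos hxpos _) hpos, not_lt.1 hcon⟩
  intro X
  obtain ⟨y, hy, m, hm, hmz⟩ := hfin (max X (max x0 0))
  have hyX : X < y := lt_of_le_of_lt (le_max_left _ _) hy
  have hy1 : max x0 0 < y := lt_of_le_of_lt (le_max_right _ _) hy
  have hyx0 : x0 < y := lt_of_le_of_lt (le_max_left _ _) hy1
  have hy0 : 0 < y := lt_of_le_of_lt (le_max_right _ _) hy1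
  refine ⟨y, hyX, fun w hw hw2 hw3 hw4 hab => ?_⟩
  have hδw : 0 < δ w := pos_of_mul_pos_right hab.1 (pow_pos hy0 _).le
  have h5 := hx0 y hyx0 m hm hmz w hw hw2 hw3 hw4 hδw
  exact absurd hab.2 (not_le.2 h5)

/-- **Existence of zeros.** PROOF: `freq_sysB` with `c1 = c2 = c`, `M = 0`, `Δ = 1`, `δ = 1`. -/
theorem zero_gen (F : IntermediateField ℚ ℂ) [FiniteDimensional ℚ F]
    (hconj : ∀ z ∈ F, (starRingEnd ℂ) z ∈ F) (hI : I ∈ F) (n B E Dg Hc D0 : ℕ)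
    (hDg : Module.finrank ℚ F ≤ Dg) (hD0 : 0 < D0)
    (hD0' : D0 ≤ 2 ^ Hc) (c : Fin n → ℕ → F)
    (hcI : ∀ i, ∀ e ≤ E, IsIntegral ℤ ((D0 : ℂ) * (c i e : ℂ)))
    (hcb : ∀ i, ∀ e ≤ E, ∀ φ : F →ₐ[ℚ] ℂ, ‖φ (c i e)‖ ≤ 2 ^ Hc)
    (S : Set (Fin n → ℤ)) (hS : ∀ g ∈ S, ∀ i, |g i| ≤ B) (ζ : (Fin n → ℤ) → F)
    (hζ : ∀ g ∈ S, ∃ m : ℕ, 0 < m ∧ ζ g ^ m = 1)
    (hX : ∀ X : ℝ, ∃ x : ℝ, X < x ∧ ∀ z : Fin n → ℂ, (∀ i, ‖z i‖ = 1) →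
      (∀ g ∈ S, ∏ i, z i ^ g i = (ζ g : ℂ)) → fX E c x z ≠ 0)
    (x : ℝ) (hx : (BdD (4 * (n * B + E + 3)) (2 * n + 2) (szB n B E Hc) : ℝ) ^ Dg < x)
    (z : Fin n → ℂ) (hz : ∀ i, ‖z i‖ = 1) (hz2 : ∀ g ∈ S, ∏ i, z i ^ g i = (ζ g : ℂ)) :
    fX E c x z ≠ 0 := by
  intro h
  refine freq_sysB F hconj hI n B E 0 Dg Hc D0 hDg hD0 hD0' c c hcI hcb hcI hcb S hS ζ hζ
    1 ?_ ?_ (fun _ => 1) ?_ ?_ x hx z hz hz2 h h ⟨by norm_num, by norm_num⟩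
  · rw [MvPolynomial.totalDegree_one]
    exact Nat.zero_le _
  · have h1 : mn (NR F) (1 : MvPolynomial (Fin n ⊕ Fin n) (RA F)) ≤ NR F 1 :=
      mn_C (isNrm_NR (F := F)) 1
    exact (h1.trans (isNrm_NR (F := F)).one).trans (by norm_num)
  · intro v
    rw [MvPolynomial.eval₂_one]
  · intro X
    obtain ⟨y, hy, hyz⟩ := hX X
    exact ⟨y, hy, fun w hw hw2 hw3 _ _ => hyz w hw hw2 hw3⟩

end Pool.Agent.FrNar
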