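import Pool.Agent.FrNar.MainE
import Pool.Agent.FrNar.ULang

/-! Positivity of frozen positive, frozen narrow recurrences with at most `s` roots on each circle. -/

set_option autoImplicit false

namespace Pool.Agent.UltPos

open Pool.Agent.AllR

/-- **Positivity of frozen positive, frozen narrow recurrences**: theorems U and E. -/
theorem inForallR_frozen_narrow (s : ℕ) :
    InForallR {w : List ISym | ∃ I : Inst, w = I.enc ∧ I.Positive ∧ I.FrozenPositive ∧
      I.FrozenNarrow ∧ I.AtMostPerCircle s} := by
  obtain ⟨c, hc⟩ := exists_frozenFrom s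
  have h := inForallR_from_perCircle c s
  have hset : {w : List ISym | ∃ I : Inst, w = I.enc ∧ I.Positive ∧ I.FrozenPositive ∧
      I.FrozenNarrow ∧ I.AtMostPerCircle s} = {w : List ISym | ∃ I : Inst, w = I.enc ∧ I.Positive ∧
      I.FrozenFrom (2 ^ (I.enc.length ^ c + c)) (2 ^ (I.enc.length ^ c + c)) ∧
      I.AtMostPerCircle s} := by
    ext w
    constructor
    · rintro ⟨I, hw, hp, hf, hn, hs⟩
      exact ⟨I, hw, hp, hc I hf hn hs, hs⟩
    · rintro ⟨I, hw, hp, hf, hs⟩
      exact ⟨I, hw, hp, hf.frozenPositive, hf.frozenNarrow (by positivity), hs⟩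
  rw [hset]
  exact h

end Pool.Agent.UltPos
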