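import Pool.Agent.FrEight.FieldA

/-! The field generated by roots, their absolute values and `I`. -/

set_option autoImplicit false

namespace Pool.Agent.FrNar

open Finset Complex Polynomial
open Pool.Agent.DD7719 Pool.Agent.DD7719.M Pool.Agent.DD7719.M.GS Pool.Agent.MX

private lemma Fld2_ratP (P : Polynomial ℤ) (hP : P ≠ 0) (z : ℂ)
    (hz : Polynomial.aeval z P = 0) (n : ℕ) (hn : P.natDegree ≤ n) :
    ∃ Q : Polynomial ℚ, Q ≠ 0 ∧ Polynomial.aeval z Q = 0 ∧ Q.natDegree ≤ n := by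
  refine ⟨P.map (algebraMap ℤ ℚ), ?_, ?_, ?_⟩
  · rw [Ne, Polynomial.map_eq_zero_iff (algebraMap ℤ ℚ).injective_int]
    exact hP
  · rw [Polynomial.aeval_map_algebraMap]
    exact hz
  · exact Polynomial.natDegree_map_le.trans hn

private lemma Fld2_root (k : ℕ) (num : ℕ → ℤ) (den : ℕ → ℕ) (hden : ∀ t, t < k → 0 < den t)
    (z : ℂ) (hz : z ^ k = ∑ t ∈ range k, ((num t : ℂ) / (den t : ℂ)) * z ^ (k - 1 - t)) :
    ∃ P : Polynomial ℤ, P ≠ 0 ∧ Polynomial.aeval z P = 0 ∧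
      Polynomial.aeval ((starRingEnd ℂ) z) P = 0 ∧ P.natDegree ≤ k := by
  refine ⟨ipoly k num den, ipoly_ne_zero k num den hden, ipoly_aeval k num den hden z hz,
    ipoly_aeval k num den hden _ ?_, ipoly_natDegree k num den⟩
  have h := congrArg (starRingEnd ℂ) hz
  rw [map_pow, map_sum] at h
  rw [h]
  refine sum_congr rfl fun t _ => ?_
  rw [map_mul, map_pow, map_div₀, map_natCast, map_intCast]

private lemma Fld2_norm (k : ℕ) (z : ℂ) (P : Polynomial ℤ) (hP : P ≠ 0)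
    (h1 : Polynomial.aeval z P = 0) (h2 : Polynomial.aeval ((starRingEnd ℂ) z) P = 0)
    (hk : P.natDegree ≤ k) :
    ∃ Q : Polynomial ℤ, Q ≠ 0 ∧ Polynomial.aeval (((‖z‖ : ℝ)) : ℂ) Q = 0 ∧
      Q.natDegree ≤ 2 * k * k := by
  have hfin : ∃ H : ℕ, ∀ i, (P.coeff i).natAbs ≤ H :=
    ⟨Pool.Agent.RElim.pn Int.natAbs P, fun i => coeff_le_pn P i⟩
  obtain ⟨H, hH⟩ := hfin
  obtain ⟨g, hg0, hg1, hg2, _⟩ := exists_prod_poly P P hP hP z _ h1 h2 H hH hH
  refine ⟨Polynomial.expand ℤ 2 g, (Polynomial.expand_ne_zero (by norm_num)).mpr hg0, ?_, ?_⟩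
  · rw [Polynomial.expand_aeval]
    have h3 : ((‖z‖ : ℝ) : ℂ) ^ 2 = z * (starRingEnd ℂ) z := by
      rw [Complex.mul_conj']
    rw [h3]
    exact hg1
  · rw [Polynomial.natDegree_expand]
    have h3 : P.natDegree * P.natDegree ≤ k * k := Nat.mul_le_mul hk hk
    nlinarith

/-- PROOF: as `circle_field` in `FrEight/FieldA.lean` (copy its private lemmas `fa_ratP`, `fa_root`,
`fa_norm`), adjoining to `ℚ` the finset of the `l a`, their conjugates, the numbers `‖l a‖` (roots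
of polynomials of degree at most `2 k k` by `fa_norm`) and `I`: at most `3 P + 1` numbers of degree
at most `2 k k + 2` (`finrank_adjoin_le`), stable under conjugation (`conj_mem_adjoin`). For
`P = 0` too. -/
theorem roots_field (k P : ℕ) (num : ℕ → ℤ) (den : ℕ → ℕ) (hden : ∀ t, t < k → 0 < den t)
    (l : Fin P → ℂ)
    (hl : ∀ a, l a ^ k = ∑ t ∈ range k, ((num t : ℂ) / (den t : ℂ)) * l a ^ (k - 1 - t)) :
    ∃ F : IntermediateField ℚ ℂ, FiniteDimensional ℚ F ∧
      Module.finrank ℚ F ≤ (2 * k * k + 2) ^ (3 * P + 1) ∧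
      (∀ z ∈ F, (starRingEnd ℂ) z ∈ F) ∧ I ∈ F ∧ (∀ a, ((‖l a‖ : ℝ) : ℂ) ∈ F) ∧ ∀ a, l a ∈ F := by
  classical
  set S : Finset ℂ := ((univ.image l ∪ (univ.image fun a => (starRingEnd ℂ) (l a))) ∪
    (univ.image fun a => ((‖l a‖ : ℝ) : ℂ))) ∪ {I} with hS
  have hSc : S.card ≤ 3 * P + 1 := by
    have him : ∀ f : Fin P → ℂ, (univ.image f).card ≤ P := by
      intro f
      have := Finset.card_image_le (s := (univ : Finset (Fin P))) (f := f)
      rwa [Finset.card_univ, Fintype.card_fin] at this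
    have h1 := him l
    have h2 := him fun a => (starRingEnd ℂ) (l a)
    have h3 := him fun a => ((‖l a‖ : ℝ) : ℂ)
    have h4 := Finset.card_union_le ((univ.image l ∪
      (univ.image fun a => (starRingEnd ℂ) (l a))) ∪
      (univ.image fun a => ((‖l a‖ : ℝ) : ℂ))) ({I} : Finset ℂ)
    have h5 := Finset.card_union_le (univ.image l ∪
      (univ.image fun a => (starRingEnd ℂ) (l a))) (univ.image fun a => ((‖l a‖ : ℝ) : ℂ))
    have h6 := Finset.card_union_le (univ.image l) (univ.image fun a => (starRingEnd ℂ) (l a))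
    rw [Finset.card_singleton] at h4
    rw [hS]
    omega
  have hmem : ∀ z ∈ S, (∃ a, z = l a) ∨ (∃ a, z = (starRingEnd ℂ) (l a)) ∨
      (∃ a, z = ((‖l a‖ : ℝ) : ℂ)) ∨ z = I := by
    intro z hz
    rw [hS, mem_union, mem_union, mem_union, mem_image, mem_image, mem_image,
      mem_singleton] at hz
    rcases hz with ((⟨a, _, h⟩ | ⟨a, _, h⟩) | ⟨a, _, h⟩) | h
    · exact Or.inl ⟨a, h.symm⟩
    · exact Or.inr (Or.inl ⟨a, h.symm⟩)
    · exact Or.inr (Or.inr (Or.inl ⟨a, h.symm⟩))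
    · exact Or.inr (Or.inr (Or.inr h))
  have hl1 : ∀ a, l a ∈ S := fun a => by
    rw [hS, mem_union, mem_union, mem_union, mem_image]
    exact Or.inl (Or.inl (Or.inl ⟨a, mem_univ _, rfl⟩))
  have hl2 : ∀ a, (starRingEnd ℂ) (l a) ∈ S := fun a => by
    rw [hS, mem_union, mem_union, mem_union, mem_image, mem_image]
    exact Or.inl (Or.inl (Or.inr ⟨a, mem_univ _, rfl⟩))
  have hl3 : ∀ a, ((‖l a‖ : ℝ) : ℂ) ∈ S := fun a => by
    rw [hS, mem_union, mem_union, mem_union, mem_image, mem_image, mem_image]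
    exact Or.inl (Or.inr ⟨a, mem_univ _, rfl⟩)
  have hIS : I ∈ S := by
    rw [hS, mem_union, mem_singleton]
    exact Or.inr rfl
  have hdeg : ∀ z ∈ S, ∃ Q : Polynomial ℚ, Q ≠ 0 ∧ Polynomial.aeval z Q = 0 ∧
      Q.natDegree ≤ 2 * k * k + 2 := by
    intro z hz
    have hkk : k ≤ 2 * k * k + 2 := by
      rcases Nat.eq_zero_or_pos k with h | h
      · omega
      · nlinarith
    rcases hmem z hz with ⟨a, rfl⟩ | ⟨a, rfl⟩ | ⟨a, rfl⟩ | rfl
    · obtain ⟨Q, h1, h2, _, h4⟩ := Fld2_root k num den hden (l a) (hl a)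
      exact Fld2_ratP Q h1 _ h2 _ (h4.trans hkk)
    · obtain ⟨Q, h1, _, h3, h4⟩ := Fld2_root k num den hden (l a) (hl a)
      exact Fld2_ratP Q h1 _ h3 _ (h4.trans hkk)
    · obtain ⟨Q, h1, h2, h3, h4⟩ := Fld2_root k num den hden (l a) (hl a)
      obtain ⟨R, h5, h6, h7⟩ := Fld2_norm k (l a) Q h1 h2 h3 h4
      exact Fld2_ratP R h5 _ h6 _ (by omega)
    · refine ⟨Polynomial.X ^ 2 + 1, ?_, ?_, ?_⟩
      · intro h
        have := congrArg (Polynomial.eval 0) h
        simp at this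
      · simp
      · have : (Polynomial.X ^ 2 + 1 : Polynomial ℚ).natDegree ≤ 2 := by compute_degree
        omega
  obtain ⟨hfd, hfr⟩ := finrank_adjoin_le S (fun _ => 2 * k * k + 2) hdeg
  refine ⟨IntermediateField.adjoin ℚ (S : Set ℂ), hfd, ?_, ?_, ?_, ?_, ?_⟩
  · refine hfr.trans ?_
    rw [prod_const]
    exact Nat.pow_le_pow_right (by omega) hSc
  · refine conj_mem_adjoin _ ?_
    intro z hz
    rcases hmem z (by exact_mod_cast hz) with ⟨a, rfl⟩ | ⟨a, rfl⟩ | ⟨a, rfl⟩ | rfl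
    · exact IntermediateField.subset_adjoin _ _ (by exact_mod_cast hl2 a)
    · rw [Complex.conj_conj]
      exact IntermediateField.subset_adjoin _ _ (by exact_mod_cast hl1 a)
    · rw [Complex.conj_ofReal]
      exact IntermediateField.subset_adjoin _ _ (by exact_mod_cast hl3 a)
    · rw [Complex.conj_I]
      exact neg_mem (IntermediateField.subset_adjoin _ _ (by exact_mod_cast hIS))
  · exact IntermediateField.subset_adjoin _ _ (by exact_mod_cast hIS)
  · exact fun a => IntermediateField.subset_adjoin _ _ (by exact_mod_cast hl3 a)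
  · exact fun a => IntermediateField.subset_adjoin _ _ (by exact_mod_cast hl1 a)

end Pool.Agent.FrNar
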