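import Pool.Agent.FrNar.Nw

/-! Linear forms with polynomial coefficients as polynomials. -/

set_option autoImplicit false

namespace Pool.Agent.FrNar

open Pool.Agent.MX Pool.Agent.RElim Complex

/-- the coefficients of the linear form -/
private noncomputable def linA_r {F : IntermediateField ℚ ℂ} (E : ℕ) (z : ℕ → RA F) :
    Polynomial (RA F) :=
  ∑ e ∈ Finset.range (E + 1), Polynomial.monomial (E - e) (z e)

private theorem linA_ev {F : IntermediateField ℚ ℂ} (E : ℕ) (z : ℕ → RA F) (y : ℝ) :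
    evW F y (linA_r E z) = ∑ e ∈ Finset.range (E + 1), (z e : ℝ) * y ^ (E - e) := by
  rw [linA_r, map_sum]
  refine Finset.sum_congr rfl fun e _ => ?_
  simp [evW, Polynomial.eval₂_monomial]

private theorem linA_geom (E : ℕ) : ∑ e ∈ Finset.range (E + 1), 2 ^ (E - e) ≤ 2 ^ (E + 1) := by
  have h : ∑ e ∈ Finset.range (E + 1), 2 ^ (E - e) = ∑ e ∈ Finset.range (E + 1), 2 ^ e := by
    rw [← Finset.sum_range_reflect]
    refine Finset.sum_congr rfl fun e he => ?_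
    have := Finset.mem_range.1 he
    congr 1
    omega
  rw [h]
  have h2 : ∀ n : ℕ, ∑ e ∈ Finset.range n, 2 ^ e ≤ 2 ^ n := by
    intro n
    induction n with
    | zero => simp
    | succ n ih => rw [Finset.sum_range_succ, pow_succ]; omega
  exact h2 _

private theorem linA_nw {F : IntermediateField ℚ ℂ} [FiniteDimensional ℚ F] (E w : ℕ)
    (z : ℕ → RA F) (h : ∀ e, NR F (z e) ≤ w) : NW F (linA_r E z) ≤ w * 2 ^ (E + 1) := by
  refine ((isNrm_NW (F := F)).sum _ _).trans ?_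
  refine le_trans (Finset.sum_le_sum fun e _ => (NW_monomial (E - e) (z e)).trans
    (Nat.mul_le_mul_right _ (h e))) ?_
  rw [← Finset.mul_sum]
  exact Nat.mul_le_mul_left _ (linA_geom E)

open MvPolynomial in
private theorem linA_form {K : Type} [CommRing K] [Nontrivial K] {NK : K → ℕ} (hK : IsNrm NK)
    (n w : ℕ) (r s : Fin n → K) (hr : ∀ i, NK (r i) ≤ w) (hs : ∀ i, NK (s i) ≤ w) :
    ∃ h : MvPolynomial (Fin n ⊕ Fin n) K, h.totalDegree ≤ 1 ∧ mn NK h ≤ n * (2 * w) ∧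
      ∀ (e : K →+* ℝ) (v : Fin n ⊕ Fin n → ℝ), h.eval₂ e v =
        ∑ i, (e (r i) * v (Sum.inl i) - e (s i) * v (Sum.inr i)) := by
  classical
  have hN := hK.mn (σ := Fin n ⊕ Fin n)
  refine ⟨∑ i, (C (r i) * X (Sum.inl i) - C (s i) * X (Sum.inr i)), ?_, ?_, ?_⟩
  · refine totalDegree_finsetSum_le fun i _ => (totalDegree_sub _ _).trans (max_le ?_ ?_)
    · refine (totalDegree_mul _ _).trans ?_
      have := totalDegree_C (σ := Fin n ⊕ Fin n) (r i)
      have := totalDegree_X (R := K) (Sum.inl i : Fin n ⊕ Fin n)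
      omega
    · refine (totalDegree_mul _ _).trans ?_
      have := totalDegree_C (σ := Fin n ⊕ Fin n) (s i)
      have := totalDegree_X (R := K) (Sum.inr i : Fin n ⊕ Fin n)
      omega
  · refine (mn_sum hK _ _).trans ?_
    refine (Finset.sum_le_card_nsmul _ _ (2 * w) fun i _ => ?_).trans ?_
    · rw [sub_eq_add_neg]
      refine (hN.add _ _).trans ?_
      have e1 := (hN.mul (C (r i)) (X (Sum.inl i))).trans
        (Nat.mul_le_mul ((mn_C hK _).trans (hr i)) (mn_X hK _))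
      have e2 := ((hN.neg _).trans (hN.mul (C (s i)) (X (Sum.inr i)))).trans
        (Nat.mul_le_mul ((mn_C hK _).trans (hs i)) (mn_X hK _))
      omega
    · simp
  · intro e v
    simp only [eval₂_sum, eval₂_sub, eval₂_mul, eval₂_C, eval₂_X]

private theorem linA_aux (F : IntermediateField ℚ ℂ) [FiniteDimensional ℚ F]
    (hconj : ∀ z ∈ F, (starRingEnd ℂ) z ∈ F) (hI : I ∈ F) (n E Hc D0 : ℕ)
    (hD0' : D0 ≤ 2 ^ Hc) (c : Fin n → ℕ → F)
    (hcI : ∀ i e, IsIntegral ℤ ((D0 : ℂ) * (c i e : ℂ)))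
    (hcb : ∀ i e, ∀ φ : F →ₐ[ℚ] ℂ, ‖φ (c i e)‖ ≤ 2 ^ Hc) :
    ∃ h : MvPolynomial (Fin n ⊕ Fin n) (Polynomial (RA F)), h.totalDegree ≤ 1 ∧
      mn (NW F) h ≤ n * (2 ^ (E + 3) * 4 ^ Hc) ∧
      ∀ (y : ℝ) (v : Fin n ⊕ Fin n → ℝ), h.eval₂ (evW F y) v =
        2 * D0 * FixLam.fY E c y (pt v) := by
  have hci : ∀ i e, IsIntegral ℤ ((((D0 : F) * c i e : F)) : ℂ) := by
    intro i e
    have : ((((D0 : F) * c i e : F)) : ℂ) = (D0 : ℂ) * (c i e : ℂ) := by push_cast; rfl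
    rw [this]
    exact hcI i e
  have hcb' : ∀ i e, ∀ φ : F →ₐ[ℚ] ℂ, ‖φ ((D0 : F) * c i e)‖ ≤ ((4 ^ Hc : ℕ) : ℝ) := by
    intro i e φ
    rw [map_mul, map_natCast, norm_mul, Complex.norm_natCast]
    have e1 : (D0 : ℝ) ≤ 2 ^ Hc := by exact_mod_cast hD0'
    have e2 := hcb i e φ
    calc (D0 : ℝ) * ‖φ (c i e)‖ ≤ 2 ^ Hc * 2 ^ Hc :=
          mul_le_mul e1 e2 (norm_nonneg _) (by positivity)
      _ = ((4 ^ Hc : ℕ) : ℝ) := by
          push_cast
          rw [← mul_pow]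
          norm_num
  obtain ⟨h, h1, h2, h3⟩ := linA_form (isNrm_NW (F := F)) n (2 * 4 ^ Hc * 2 ^ (E + 1))
    (fun i => linA_r E fun e => sysRe hconj ((D0 : F) * c i e) (hci i e))
    (fun i => linA_r E fun e => sysIm hconj hI ((D0 : F) * c i e) (hci i e))
    (fun i => linA_nw E _ _ fun e => NR_sysRe hconj _ (hci i e) _ (hcb' i e))
    (fun i => linA_nw E _ _ fun e => NR_sysIm hconj hI _ (hci i e) _ (hcb' i e))
  refine ⟨h, h1, h2.trans (le_of_eq ?_), fun y v => ?_⟩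
  · rw [show E + 3 = (E + 1) + 2 by ring, pow_add 2 (E + 1) 2]
    ring
  · rw [h3, FixLam.fY, Complex.re_sum, Finset.mul_sum]
    refine Finset.sum_congr rfl fun i _ => ?_
    rw [linA_ev, linA_ev, Finset.sum_mul, Finset.sum_mul, Finset.sum_mul, Complex.re_sum,
      Finset.mul_sum, ← Finset.sum_sub_distrib]
    refine Finset.sum_congr rfl fun e _ => ?_
    show 2 * (((D0 : F) * c i e : F) : ℂ).re * y ^ (E - e) * v (Sum.inl i) -
      2 * (((D0 : F) * c i e : F) : ℂ).im * y ^ (E - e) * v (Sum.inr i) = _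
    have e1 : ((((D0 : F) * c i e : F)) : ℂ) = (D0 : ℂ) * (c i e : ℂ) := by push_cast; rfl
    have hre : (((y : ℝ) : ℂ) ^ (E - e)).re = y ^ (E - e) := by
      rw [← Complex.ofReal_pow, Complex.ofReal_re]
    have him : (((y : ℝ) : ℂ) ^ (E - e)).im = 0 := by
      rw [← Complex.ofReal_pow, Complex.ofReal_im]
    have hDr : ((D0 : ℂ)).re = (D0 : ℝ) := Complex.natCast_re D0
    have hDi : ((D0 : ℂ)).im = 0 := Complex.natCast_im D0
    rw [e1, pt]
    simp only [Complex.mul_re, Complex.mul_im, Complex.add_re, Complex.add_im, Complex.I_re,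
      Complex.I_im, Complex.ofReal_re, Complex.ofReal_im, hre, him, hDr, hDi]
    ring

/-- The linear form at `1 / y`, homogenised, over `(RA F)[Y]`.

PROOF: as `exists_Lf` in `FixLam/SysY.lean` (there private; `sysRe`, `sysIm` and their bounds are public in
`FrNar/SysB.lean`), without `δ`, with the weighted size: `h = ∑ i, (C (r i) * X (inl i) -
C (s i) * X (inr i))`, `r i = ∑ e ∈ range (E + 1), monomial (E - e) (sysRe .. (D0 c i e))`, `s i` with
`sysIm`; `NW F (r i) ≤ ∑ e, 2 * 4 ^ Hc * 2 ^ (E - e) ≤ 2 ^ (E + 2) * 4 ^ Hc` (`NW_monomial`,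
`NR_sysRe`; the geometric sum `∑ e ∈ range (E + 1), 2 ^ (E - e) ≤ 2 ^ (E + 1)`), so `mn ≤ n * (2 *
(2 ^ (E + 2) * 4 ^ Hc))`. The coefficients with `e > E` are not used: first prove it with the
hypotheses for all `e` (replace `c i e` by `0` for `e > E`, see the end of `FixRec/SysX.lean`). -/
theorem exists_linA (F : IntermediateField ℚ ℂ) [FiniteDimensional ℚ F]
    (hconj : ∀ z ∈ F, (starRingEnd ℂ) z ∈ F) (hI : I ∈ F) (n E Hc D0 : ℕ)
    (hD0' : D0 ≤ 2 ^ Hc) (c : Fin n → ℕ → F)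
    (hcI : ∀ i, ∀ e ≤ E, IsIntegral ℤ ((D0 : ℂ) * (c i e : ℂ)))
    (hcb : ∀ i, ∀ e ≤ E, ∀ φ : F →ₐ[ℚ] ℂ, ‖φ (c i e)‖ ≤ 2 ^ Hc) :
    ∃ h : MvPolynomial (Fin n ⊕ Fin n) (Polynomial (RA F)), h.totalDegree ≤ 1 ∧
      mn (NW F) h ≤ n * (2 ^ (E + 3) * 4 ^ Hc) ∧
      ∀ (y : ℝ) (v : Fin n ⊕ Fin n → ℝ), h.eval₂ (evW F y) v =
        2 * D0 * FixLam.fY E c y (pt v) := by
  classical
  obtain ⟨c', hc'⟩ : ∃ c' : Fin n → ℕ → F, c' = fun i e => if e ≤ E then c i e else 0 := ⟨_, rfl⟩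
  have hc1 : ∀ i, ∀ e ≤ E, c' i e = c i e := fun i e he => by rw [hc']; exact if_pos he
  have hc2 : ∀ i e, ¬ e ≤ E → c' i e = 0 := fun i e he => by rw [hc']; exact if_neg he
  obtain ⟨h, h1, h2, h3⟩ := linA_aux F hconj hI n E Hc D0 hD0' c' (by
    intro i e
    by_cases he : e ≤ E
    · rw [hc1 i e he]
      exact hcI i e he
    · rw [hc2 i e he]
      simpa using (isIntegral_zero (R := ℤ) (B := ℂ))) (by
    intro i e φ
    by_cases he : e ≤ E
    · rw [hc1 i e he]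
      exact hcb i e he φ
    · rw [hc2 i e he, map_zero, norm_zero]
      positivity)
  refine ⟨h, h1, h2, fun y v => ?_⟩
  rw [h3 y v]
  have e1 : ∀ i, (∑ e ∈ Finset.range (E + 1), (c' i e : ℂ) * (y : ℂ) ^ (E - e)) =
      ∑ e ∈ Finset.range (E + 1), (c i e : ℂ) * (y : ℂ) ^ (E - e) := fun i =>
    Finset.sum_congr rfl fun e he => by rw [hc1 i e (by have := Finset.mem_range.1 he; omega)]
  simp only [FixLam.fY, e1]

end Pool.Agent.FrNar
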