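import Pool.Agent.FrNar.Nw

/-! Linear forms with polynomial coefficients as polynomials. -/

set_option autoImplicit false

namespace Pool.Agent.FrNar

open Pool.Agent.MX Pool.Agent.RElim Complex

open MvPolynomial in
private theorem exists_linB' (F : IntermediateField ℚ ℂ) [FiniteDimensional ℚ F]
    (hconj : ∀ z ∈ F, (starRingEnd ℂ) z ∈ F) (hI : I ∈ F) (n E Hc D0 : ℕ)
    (hD0' : D0 ≤ 2 ^ Hc) (c : Fin n → ℕ → F)
    (hcI : ∀ i e, IsIntegral ℤ ((D0 : ℂ) * (c i e : ℂ)))
    (hcb : ∀ i e, ∀ φ : F →ₐ[ℚ] ℂ, ‖φ (c i e)‖ ≤ 2 ^ Hc) :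
    ∃ h : MvPolynomial (Option (Fin n ⊕ Fin n)) (RA F), h.totalDegree ≤ E + 1 ∧
      mn (NR F) h ≤ n * ((E + 1) * (4 * 4 ^ Hc)) ∧
      ∀ v : Option (Fin n ⊕ Fin n) → ℝ, h.eval₂ (RA F).subtype v =
        2 * D0 * fX E c (v none) (pt fun s => v (some s)) := by
  classical
  have hN := (isNrm_NR (F := F)).mn (σ := Option (Fin n ⊕ Fin n))
  have hci : ∀ i e, IsIntegral ℤ ((((D0 : F) * c i e : F)) : ℂ) := by
    intro i e
    have : ((((D0 : F) * c i e : F)) : ℂ) = (D0 : ℂ) * (c i e : ℂ) := by push_cast; rfl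
    rw [this]
    exact hcI i e
  have hcb' : ∀ i e, ∀ φ : F →ₐ[ℚ] ℂ, ‖φ ((D0 : F) * c i e)‖ ≤ ((4 ^ Hc : ℕ) : ℝ) := by
    intro i e φ
    rw [map_mul, map_natCast, norm_mul, Complex.norm_natCast]
    have e1 : (D0 : ℝ) ≤ 2 ^ Hc := by exact_mod_cast hD0'
    have e2 := hcb i e φ
    calc (D0 : ℝ) * ‖φ (c i e)‖ ≤ 2 ^ Hc * 2 ^ Hc :=
          mul_le_mul e1 e2 (norm_nonneg _) (by positivity)
      _ = ((4 ^ Hc : ℕ) : ℝ) := by
          push_cast
          rw [← mul_pow]
          norm_num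
  have hXp : ∀ e : ℕ, mn (NR F) ((X none : MvPolynomial (Option (Fin n ⊕ Fin n))
      (RA F)) ^ e) ≤ 1 := by
    intro e
    induction e with
    | zero =>
      rw [pow_zero]
      exact hN.one
    | succ e ih =>
      rw [pow_succ]
      exact (hN.mul _ _).trans (Nat.mul_le_mul ih (mn_X isNrm_NR none))
  refine ⟨∑ i, ∑ e ∈ Finset.range (E + 1),
    (C (sysRe hconj ((D0 : F) * c i e) (hci i e)) * X (some (Sum.inl i)) -
      C (sysIm hconj hI ((D0 : F) * c i e) (hci i e)) * X (some (Sum.inr i))) *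
        X none ^ e, ?_, ?_, ?_⟩
  · refine totalDegree_finsetSum_le fun i _ => totalDegree_finsetSum_le fun e he => ?_
    refine (totalDegree_mul _ _).trans ?_
    have he' := Finset.mem_range.1 he
    have h1 : (C (sysRe hconj ((D0 : F) * c i e) (hci i e)) * X (some (Sum.inl i)) -
      C (sysIm hconj hI ((D0 : F) * c i e) (hci i e)) * X (some (Sum.inr i)) :
        MvPolynomial (Option (Fin n ⊕ Fin n)) (RA F)).totalDegree ≤ 1 := by
      refine (totalDegree_sub _ _).trans (max_le ?_ ?_)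
      · refine (totalDegree_mul _ _).trans ?_
        rw [totalDegree_C, totalDegree_X]
      · refine (totalDegree_mul _ _).trans ?_
        rw [totalDegree_C, totalDegree_X]
    have h2 : ((X none : MvPolynomial (Option (Fin n ⊕ Fin n)) (RA F)) ^ e).totalDegree ≤
        e := by
      rw [totalDegree_X_pow]
    omega
  · refine (mn_sum isNrm_NR _ _).trans ?_
    refine (Finset.sum_le_card_nsmul _ _ ((E + 1) * (4 * 4 ^ Hc)) fun i _ => ?_).trans ?_
    · refine (mn_sum isNrm_NR _ _).trans ?_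
      refine (Finset.sum_le_card_nsmul _ _ (4 * 4 ^ Hc) fun e _ => ?_).trans ?_
      · refine ((hN.mul _ _).trans (Nat.mul_le_mul (le_refl _) (hXp e))).trans ?_
        rw [mul_one, sub_eq_add_neg]
        refine (hN.add _ _).trans ?_
        have e1 := (hN.mul (C (sysRe hconj ((D0 : F) * c i e) (hci i e)))
          (X (some (Sum.inl i)))).trans
          (Nat.mul_le_mul ((mn_C isNrm_NR _).trans (NR_sysRe hconj _ (hci i e) _ (hcb' i e)))
            (mn_X isNrm_NR _))
        have e2 := ((hN.neg _).trans (hN.mul (C (sysIm hconj hI ((D0 : F) * c i e) (hci i e)))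
          (X (some (Sum.inr i))))).trans
          (Nat.mul_le_mul ((mn_C isNrm_NR _).trans (NR_sysIm hconj hI _ (hci i e) _ (hcb' i e)))
            (mn_X isNrm_NR _))
        omega
      · simp
    · simp
  · intro v
    rw [fX, eval₂_sum, Complex.re_sum, Finset.mul_sum]
    refine Finset.sum_congr rfl fun i _ => ?_
    rw [eval₂_sum, Finset.sum_mul, Complex.re_sum, Finset.mul_sum]
    refine Finset.sum_congr rfl fun e _ => ?_
    simp only [eval₂_sub, eval₂_mul, eval₂_C, eval₂_X, eval₂_pow]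
    show (2 * (((D0 : F) * c i e : F) : ℂ).re * v (some (Sum.inl i)) -
      2 * (((D0 : F) * c i e : F) : ℂ).im * v (some (Sum.inr i))) * v none ^ e = _
    have e1 : ((((D0 : F) * c i e : F)) : ℂ) = (D0 : ℂ) * (c i e : ℂ) := by push_cast; rfl
    have hre : ((((v none : ℝ) : ℂ)) ^ e).re = v none ^ e := by
      rw [← Complex.ofReal_pow, Complex.ofReal_re]
    have him : ((((v none : ℝ) : ℂ)) ^ e).im = 0 := by
      rw [← Complex.ofReal_pow, Complex.ofReal_im]
    have hDr : ((D0 : ℂ)).re = (D0 : ℝ) := Complex.natCast_re D0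
    have hDi : ((D0 : ℂ)).im = 0 := Complex.natCast_im D0
    have hpr : (pt (fun s => v (some s)) i).re = v (some (Sum.inl i)) := by
      simp [pt]
    have hpi : (pt (fun s => v (some s)) i).im = v (some (Sum.inr i)) := by
      simp [pt]
    rw [e1]
    simp only [Complex.mul_re, Complex.mul_im, hre, him, hDr, hDi, hpr, hpi]
    ring

/-- The linear form at `x = v none`.

PROOF: `Lf` in `exists_systemX'` (`FixRec/SysX.lean`, private; copy `hLd`, `hLm`, `hLe`), with the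
public `sysRe`, `sysIm` of `FrNar/SysB.lean`. The coefficients with `e > E` are not used (see the end of
`FixRec/SysX.lean`). -/
theorem exists_linB (F : IntermediateField ℚ ℂ) [FiniteDimensional ℚ F]
    (hconj : ∀ z ∈ F, (starRingEnd ℂ) z ∈ F) (hI : I ∈ F) (n E Hc D0 : ℕ)
    (hD0' : D0 ≤ 2 ^ Hc) (c : Fin n → ℕ → F)
    (hcI : ∀ i, ∀ e ≤ E, IsIntegral ℤ ((D0 : ℂ) * (c i e : ℂ)))
    (hcb : ∀ i, ∀ e ≤ E, ∀ φ : F →ₐ[ℚ] ℂ, ‖φ (c i e)‖ ≤ 2 ^ Hc) :
    ∃ h : MvPolynomial (Option (Fin n ⊕ Fin n)) (RA F), h.totalDegree ≤ E + 1 ∧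
      mn (NR F) h ≤ n * ((E + 1) * (4 * 4 ^ Hc)) ∧
      ∀ v : Option (Fin n ⊕ Fin n) → ℝ, h.eval₂ (RA F).subtype v =
        2 * D0 * fX E c (v none) (pt fun s => v (some s)) := by
  classical
  have hi : ∀ i e, IsIntegral ℤ ((D0 : ℂ) * ((if e ≤ E then c i e else 0 : F) : ℂ)) := by
    intro i e
    by_cases he : e ≤ E
    · rw [if_pos he]
      exact hcI i e he
    · rw [if_neg he]
      simpa using (isIntegral_zero (R := ℤ) (B := ℂ))
  have hb : ∀ i e, ∀ φ : F →ₐ[ℚ] ℂ, ‖φ (if e ≤ E then c i e else 0 : F)‖ ≤ 2 ^ Hc := by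
    intro i e φ
    by_cases he : e ≤ E
    · rw [if_pos he]
      exact hcb i e he φ
    · rw [if_neg he, map_zero, norm_zero]
      positivity
  obtain ⟨h, h1, h2, h3⟩ := exists_linB' F hconj hI n E Hc D0 hD0'
    (fun i e => if e ≤ E then c i e else 0) hi hb
  refine ⟨h, h1, h2, fun v => ?_⟩
  rw [h3 v, fX, fX]
  congr 2
  refine Finset.sum_congr rfl fun i _ => ?_
  congr 1
  refine Finset.sum_congr rfl fun e he => ?_
  have he' : e ≤ E := by
    have := Finset.mem_range.1 he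
    omega
  rw [if_pos he']

end Pool.Agent.FrNar
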