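import Pool.Agent.FrNar.ModelA
import Pool.Agent.FrNar.Fld2
import Pool.Agent.FrNar.Cst
import Pool.Agent.FrNar.SysB
import Pool.Agent.FrEight.Field
import Pool.Agent.MX.RelSmall

/-! The level function at a point as a linear form with polynomial coefficients on a torsion coset with
two more coordinates. -/

set_option autoImplicit false

namespace Pool.Agent.FrNar

open Finset Complex Polynomial
open Pool.Agent.DD7719 Pool.Agent.DD7719.M Pool.Agent.DD7719.M.GS Pool.Agent.MX Pool.Agent.FrUP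

/-- **The coset of the level and of two more roots.**

PROOF: the first half of the proof of `early` (`FrEight/EarlyA.lean`). `r0 : Fin p → Fin k`, `p ≤ s`, from
`exists_reps`; `P = p + 2`, `r = Fin.addCases r0 ![i1, i2]` (written with `Fin.append`, `Fin.addCases`),
`a = Fin.natAdd p 0`, `b = Fin.natAdd p 1`. `F` from `roots_field` for `fun a => l (r a)` (`hrt` as in
`early`), `Dg = (2 * L * L + 2) ^ (3 * (s + 2) + 1)`, `Hc = pcx L`, `D0` from `pc_integral`, `cc (castAdd b) e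
= pc .. (l (r0 b)) e ∈ F` (`pc_field`), `cc (natAdd _) e = 0`, `B = (2 + L) ^ C` with `C` of `rel_small (s + 2)`,
`S = {h | (∀ i, |h i| ≤ B) ∧ Tors (fun b => l (r b)) h}`, `ζ g = ∏ b, ((l (r b) / ‖l (r b)‖) ^ (j - k)) ^ g b`
computed in `F` (`nz z = z / ‖z‖` for `z ≠ 0`), torsion as in `early`.
`W z b = nz (l (r b)) ^ (j - k) * Wt A s' z (r b)`: norm one (`norm_nz`, `norm_Wt`), relations by
`coset_mem2`, the ratio from the definition (`mul_div_mul_comm`, `div_pow`), and `LevX = ρ ^ (j - k) * ∑ ..` by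
`sum_circle` with `T = Wt A s' z` (`Wt_eq_of_eq`) as `hlev` in `early` (`bpt l ρ q r0 b = nz (l (r0 b)) ^ q`,
`bpt_eq`; the coordinates `natAdd` contribute `0`, `Fin.sum_univ_add`).
Surjectivity: for `w` in the coset the relations hold for all `g` with `Tors` (`rel_small (s + 2)` and
`rel_of_closure`, as `hrely` in `early`), so `coset_im` gives `z`. Size: `num_model s C`. -/
theorem coset_model (s : ℕ) : ∃ E : ℕ, ∀ (k L : ℕ) (_ : k ≤ L) (num numu : ℕ → ℤ)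
    (den denu : ℕ → ℕ) (_ : ∀ t, t < k → 0 < den t) (_ : ∀ t, t < k → 0 < denu t)
    (_ : ∀ t, t < k → (num t).natAbs ≤ 2 ^ L) (_ : ∀ t, t < k → den t ≤ 2 ^ L)
    (_ : ∀ t, t < k → (numu t).natAbs ≤ 2 ^ L) (_ : ∀ t, t < k → denu t ≤ 2 ^ L)
    (a u : ℕ → ℝ) (_ : ∀ t, t < k → a t = (num t : ℝ) / (den t : ℝ))
    (_ : ∀ t, t < k → u t = (numu t : ℝ) / (denu t : ℝ))
    (l c : ℕ → ℂ) (ex : ℕ → ℕ) (_ : RootData k a u l c ex)
    (R M Nb : ℕ) (ε δ : ℝ) (v : ℕ → ℝ)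
    (_ : GoodD k (fun i => l i) (fun i => c i) (fun i => ex i) R M ε δ v)
    (n0 j : ℕ) (_ : 0 < n0) (_ : k ≤ j) (ρ : ℝ) (_ : 0 < ρ)
    (_ : ({z | z ∈ Set.range (fun i : Fin k => l i) ∧ ‖z‖ = ρ}).ncard ≤ s)
    (A H : Fin k → Fin k → ℤ) (D : ℤ) (s' : ℕ) (w : Fin k → Fin k → ℝ)
    (τ : Fin k → ℝ) (y : Fin k → ℝ) (d : ℕ) (_ : Rep (fun i : Fin k => l i) n0 A s' y)
    (_ : BaseF k (fun i => l i) (fun i => c i) (fun i => ex i) M Nb ε δ n0 j A H D s' w τ ρ d)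
    (i1 i2 : Fin k) (_ : l i1 ≠ 0) (_ : l i2 ≠ 0),
    ∃ (F : IntermediateField ℚ ℂ) (_ : FiniteDimensional ℚ F) (P B Dg Hc D0 : ℕ)
      (cc : Fin P → ℕ → F) (S : Set (Fin P → ℤ)) (ζ : (Fin P → ℤ) → F) (a b : Fin P)
      (W : (Fin k → ℂ) → Fin P → ℂ),
      (∀ z ∈ F, (starRingEnd ℂ) z ∈ F) ∧ I ∈ F ∧ P ≤ s + 2 ∧ Module.finrank ℚ F ≤ Dg ∧ 0 < D0 ∧
      D0 ≤ 2 ^ Hc ∧ 2 + B + k + Dg + Hc ≤ (2 + L) ^ E ∧
      (∀ i e, IsIntegral ℤ ((D0 : ℂ) * (cc i e : ℂ))) ∧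
      (∀ i e, ∀ φ : F →ₐ[ℚ] ℂ, ‖φ (cc i e)‖ ≤ 2 ^ Hc) ∧
      (∀ g ∈ S, ∀ i, |g i| ≤ B) ∧ (∀ g ∈ S, ∃ m : ℕ, 0 < m ∧ ζ g ^ m = 1) ∧
      (∀ z : Fin k → ℂ, (∀ t, ‖z t‖ = 1) → (∀ i, ‖W z i‖ = 1) ∧
        (∀ g ∈ S, ∏ i, W z i ^ g i = (ζ g : ℂ)) ∧
        (∀ x : ℝ, (LevX (fun i : Fin k => l i) (fun i => c i) (fun i => ex i) A s' j ρ x z).re =
          ρ ^ (j - k) * fX k cc x (W z)) ∧
        W z a / W z b = (nz (l i1) / nz (l i2)) ^ (j - k) * (Wt A s' z i1 / Wt A s' z i2)) ∧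
      (∀ w : Fin P → ℂ, (∀ i, ‖w i‖ = 1) → (∀ g ∈ S, ∏ i, w i ^ g i = (ζ g : ℂ)) →
        ∃ z : Fin k → ℂ, (∀ t, ‖z t‖ = 1) ∧ W z = w) := by
  obtain ⟨C, hC⟩ := rel_small (s + 2)
  obtain ⟨E, hE⟩ := num_model s C
  refine ⟨E, ?_⟩
  intro k L hkL num numu den denu hden0 hdenu0 hnum hden hnumu hdenu a u ha hu l c ex hrd R M Nb ε δ v
    hgd n0 j hn0 hkj ρ hρ hcard A H D s' w τ y d hrep hbase i1 i2 hi1 hi2
  set lF : Fin k → ℂ := fun i => l i with hlF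
  set cF : Fin k → ℂ := fun i => c i with hcF
  set eF : Fin k → ℕ := fun i => ex i with heF
  obtain ⟨p, r0, hps, hR⟩ := exists_reps lF ρ s hcard
  have hr : ∀ b, ‖lF (r0 b)‖ = ρ := hR.nrm
  have hρ0 : (ρ : ℂ) ≠ 0 := by exact_mod_cast hρ.ne'
  -- the indices
  obtain ⟨r, hrdef⟩ : ∃ r : Fin (p + 2) → Fin k, r = Fin.append r0 ![i1, i2] := ⟨_, rfl⟩
  have hrc : ∀ b : Fin p, r (Fin.castAdd 2 b) = r0 b := fun b => by
    rw [hrdef]
    exact Fin.append_left _ _ _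
  have hrn : ∀ b : Fin 2, r (Fin.natAdd p b) = (![i1, i2] : Fin 2 → Fin k) b := fun b => by
    rw [hrdef]
    exact Fin.append_right _ _ _
  have hl0 : ∀ b, lF (r b) ≠ 0 := by
    intro b
    refine Fin.addCases (fun b => ?_) (fun b => ?_) b
    · rw [hrc]
      intro h
      have := hr b
      rw [h, norm_zero] at this
      exact hρ.ne this
    · rw [hrn]
      fin_cases b
      · exact hi1
      · exact hi2
  -- the roots
  have hrt : ∀ i : Fin k, (l i) ^ k =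
      ∑ t ∈ Finset.range k, ((num t : ℂ) / (den t : ℂ)) * (l i) ^ (k - 1 - t) := by
    intro i
    have h0 := hrd.2.2.1 i i.2 0 (Nat.zero_le _)
    simp only [Nat.choose_zero_right, Nat.cast_one, one_mul, mul_one, Nat.sub_zero] at h0
    rw [h0]
    apply Finset.sum_congr rfl
    intro t ht
    rw [ha t (Finset.mem_range.mp ht)]
    push_cast
    rfl
  obtain ⟨F, hfd, hfr, hconj, hIF, hnF, hlmem⟩ := roots_field k (p + 2) num den hden0
    (fun b => lF (r b)) (fun b => hrt (r b))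
  obtain ⟨D1, hD1, hD1le, hD1i⟩ := pc_integral k L hkL num numu den denu hden0 hdenu0 hnum hden
    hnumu hdenu a u ha hu l c ex hrd
  have hlmem0 : ∀ b : Fin p, lF (r0 b) ∈ F := fun b => by
    have := hlmem (Fin.castAdd 2 b)
    rw [hrc] at this
    exact this
  have hpf : ∀ (b : Fin p) (e : ℕ), ∃ h : pc lF cF eF (lF (r0 b)) e ∈ F,
      ∀ φ : F →ₐ[ℚ] ℂ, ‖φ ⟨_, h⟩‖ ≤ 2 ^ pcx L := fun b e =>
    pc_field k L hkL num numu den denu hden0 hdenu0 hnum hden hnumu hdenu a u ha hu l c ex hrd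
      (r0 b) F (hlmem0 b) e
  choose hpm hpφ using hpf
  obtain ⟨cc, hccc, hccn⟩ : ∃ cc : Fin (p + 2) → ℕ → F,
      (∀ b e, cc (Fin.castAdd 2 b) e = ⟨pc lF cF eF (lF (r0 b)) e, hpm b e⟩) ∧
      (∀ b e, cc (Fin.natAdd p b) e = 0) :=
    ⟨fun i e => Fin.addCases (motive := fun _ => F)
      (fun b => (⟨pc lF cF eF (lF (r0 b)) e, hpm b e⟩ : F)) (fun _ => 0) i,
      fun b e => Fin.addCases_left _, fun b e => Fin.addCases_right _⟩
  set S : Set (Fin (p + 2) → ℤ) := {h : Fin (p + 2) → ℤ | (∀ i, |h i| ≤ ((2 + L) ^ C : ℕ)) ∧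
    Tors (fun b => lF (r b)) h} with hS
  let ζ : (Fin (p + 2) → ℤ) → F := fun g =>
    ∏ b, ((⟨lF (r b), hlmem b⟩ / ⟨((‖lF (r b)‖ : ℝ) : ℂ), hnF b⟩ : F) ^ (j - k)) ^ g b
  have hnzl : ∀ b, nz (lF (r b)) = lF (r b) / ((‖lF (r b)‖ : ℝ) : ℂ) := fun b => by
    unfold nz
    rw [if_neg (hl0 b)]
  have hζ : ∀ g, ((ζ g : F) : ℂ) = ∏ b, (nz (lF (r b)) ^ (j - k)) ^ g b := by
    intro g
    simp only [ζ, hnzl]
    push_cast
    rfl
  have hnzu : ∀ b, ‖nz (lF (r b)) ^ (j - k)‖ = 1 := fun b => by rw [norm_pow, norm_nz, one_pow]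
  have hnz0 : ∀ b, nz (lF (r b)) ^ (j - k) ≠ 0 := fun b h => by
    have := hnzu b
    rw [h, norm_zero] at this
    exact zero_ne_one this
  have hps2 : p + 2 ≤ s + 2 := by omega
  have hint0 : ∀ i e, IsIntegral ℤ ((D1 : ℂ) * (cc i e : ℂ)) := by
    intro i e
    refine Fin.addCases (fun b => ?_) (fun b => ?_) i
    · rw [hccc]
      exact hD1i (r0 b) e
    · rw [hccn]
      simp only [ZeroMemClass.coe_zero, mul_zero]
      exact isIntegral_zero
  have hbd0 : ∀ i e, ∀ φ : F →ₐ[ℚ] ℂ, ‖φ (cc i e)‖ ≤ 2 ^ pcx L := by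
    intro i e φ
    refine Fin.addCases (fun b => ?_) (fun b => ?_) i
    · rw [hccc]
      exact hpφ b e φ
    · rw [hccn, map_zero, norm_zero]
      positivity
  refine ⟨F, hfd, p + 2, (2 + L) ^ C, (2 * L * L + 2) ^ (3 * (s + 2) + 1), pcx L, D1, cc, S, ζ,
    Fin.natAdd p 0, Fin.natAdd p 1, fun z b => nz (lF (r b)) ^ (j - k) * Wt A s' z (r b), hconj, hIF,
    hps2, ?_, hD1, hD1le, hE L k hkL, hint0, hbd0, fun g hg => hg.1, ?_, ?_, ?_⟩
  · refine hfr.trans ?_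
    have h : k * k ≤ L * L := Nat.mul_le_mul hkL hkL
    calc (2 * k * k + 2) ^ (3 * (p + 2) + 1) ≤ (2 * L * L + 2) ^ (3 * (p + 2) + 1) := by
          refine Nat.pow_le_pow_left ?_ _
          nlinarith
      _ ≤ (2 * L * L + 2) ^ (3 * (s + 2) + 1) := Nat.pow_le_pow_right (by omega) (by omega)
  · intro g hg
    obtain ⟨n, hn, h⟩ := hg.2
    refine ⟨n, hn, ?_⟩
    apply Subtype.ext
    push_cast
    rw [hζ]
    have h1 : ∏ b, (nz (lF (r b)) ^ (j - k)) ^ g b = (∏ b, nz (lF (r b)) ^ g b) ^ (j - k) :=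
      prod_pow_zpow _ _ _
    rw [h1, ← pow_mul, mul_comm, pow_mul, h, one_pow]
  · intro z hz
    refine ⟨?_, ?_, ?_, ?_⟩
    · intro b
      rw [norm_mul, hnzu b, norm_Wt A s' z hz, one_mul]
    · intro g hg
      rw [hζ]
      exact coset_mem2 lF cF eF R M Nb ε δ v hgd n0 j A H D s' w τ ρ d hbase r z hz g hg.2 (j - k)
    · intro x
      have h1 : LevX lF cF eF A s' j ρ x z = (ρ : ℂ) ^ (j - k) * ∑ b : Fin p,
          (∑ e ∈ Finset.range (k + 1), pc lF cF eF (lF (r0 b)) e * (x : ℂ) ^ e) *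
            (bpt lF ρ (j - k) r0 b * Wt A s' z (r0 b)) :=
        sum_circle lF cF eF hgd.hex j hkj ρ hρ r0 hR x (Wt A s' z)
          (fun i i' h => Wt_eq_of_eq lF cF eF R M Nb ε δ v hgd n0 j A H D s' w τ ρ d hbase z hz i i' h)
      have h2 : (∑ i : Fin (p + 2), (∑ e ∈ Finset.range (k + 1), (cc i e : ℂ) * (x : ℂ) ^ e) *
          (nz (lF (r i)) ^ (j - k) * Wt A s' z (r i))) = ∑ b : Fin p,
          (∑ e ∈ Finset.range (k + 1), pc lF cF eF (lF (r0 b)) e * (x : ℂ) ^ e) *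
            (bpt lF ρ (j - k) r0 b * Wt A s' z (r0 b)) := by
        rw [Fin.sum_univ_add]
        have h3 : (∑ i : Fin 2, (∑ e ∈ Finset.range (k + 1), (cc (Fin.natAdd p i) e : ℂ) *
            (x : ℂ) ^ e) * (nz (lF (r (Fin.natAdd p i))) ^ (j - k) *
              Wt A s' z (r (Fin.natAdd p i)))) = 0 := by
          refine Finset.sum_eq_zero fun i _ => ?_
          have h4 : (∑ e ∈ Finset.range (k + 1), (cc (Fin.natAdd p i) e : ℂ) * (x : ℂ) ^ e) = 0 := by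
            refine Finset.sum_eq_zero fun e _ => ?_
            rw [hccn]
            simp
          rw [h4, zero_mul]
        rw [h3, add_zero]
        refine Finset.sum_congr rfl fun b _ => ?_
        rw [hrc, bpt_eq lF ρ hρ (j - k) r0 hr b]
        congr 1
        refine Finset.sum_congr rfl fun e _ => ?_
        rw [hccc]
      unfold fX
      rw [h1, ← h2, ← Complex.ofReal_pow, Complex.re_ofReal_mul]
    · have h1 : r (Fin.natAdd p 0) = i1 := hrn 0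
      have h2 : r (Fin.natAdd p 1) = i2 := hrn 1
      show nz (lF (r (Fin.natAdd p 0))) ^ (j - k) * Wt A s' z (r (Fin.natAdd p 0)) /
        (nz (lF (r (Fin.natAdd p 1))) ^ (j - k) * Wt A s' z (r (Fin.natAdd p 1))) = _
      rw [h1, h2, div_pow, mul_div_mul_comm]
  · intro w' hw' hwS
    have hrely : ∀ g : Fin (p + 2) → ℤ, Tors (fun b => lF (r b)) g →
        ∏ b, w' b ^ g b = ∏ b, (nz (lF (r b)) ^ (j - k)) ^ g b := by
      intro g hgt
      have hcl := hC k num den L hkL hden0 hnum hden (p + 2) hps2 (fun b => lF (r b))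
        (fun b => hrt (r b)) hl0 g hgt
      refine rel_of_closure w' _ (fun b h => ?_) hnz0 S ?_ g hcl
      · have := hw' b
        rw [h, norm_zero] at this
        exact zero_ne_one this
      · intro g' hg'
        rw [hwS g' hg', hζ]
    obtain ⟨z, hz, hzw⟩ := coset_im lF n0 hn0 A s' y hrep r (j - k) w' hw' hrely
    exact ⟨z, hz, funext fun b => (hzw b).symm⟩

end Pool.Agent.FrNar
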