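import Pool.Agent.FrEight.Defs

/-! Arithmetic of the exponents. -/

set_option autoImplicit false

namespace Pool.Agent.FrNar

open Pool.Agent.FrUP Pool.Agent.MX Pool.Agent.DD7719.M

/-- PROOF: see `EarlyA_exp` in `FrEight/EarlyA.lean`. -/
theorem num_model (s C : ℕ) : ∃ E : ℕ, ∀ L k : ℕ, k ≤ L →
    2 + (2 + L) ^ C + k + (2 * L * L + 2) ^ (3 * (s + 2) + 1) + pcx L ≤ (2 + L) ^ E := by
  refine ⟨(C + 3 * (3 * (s + 2) + 1) + 10) + 3, fun L k hk => ?_⟩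
  set N := 2 + L with hN
  have hN2 : 2 ≤ N := by omega
  have hpow : ∀ i j : ℕ, i ≤ j → N ^ i ≤ N ^ j := fun i j h => Nat.pow_le_pow_right (by omega) h
  set K := C + 3 * (3 * (s + 2) + 1) + 10 with hK
  have h0 : 2 ≤ N ^ K := by
    calc 2 ≤ N := hN2
      _ ≤ N ^ K := Nat.le_self_pow (by omega) N
  have h1 : k ≤ N ^ K := by
    calc k ≤ N := by omega
      _ ≤ N ^ K := Nat.le_self_pow (by omega) N
  have h2 : N ^ C ≤ N ^ K := hpow _ _ (by omega)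
  have h3 : (2 * L * L + 2) ^ (3 * (s + 2) + 1) ≤ N ^ K := by
    have h4 : 2 * L * L + 2 ≤ N ^ 3 := by
      have h5 : 2 * L * L + 2 ≤ 2 * N ^ 2 := by rw [hN]; nlinarith
      calc 2 * L * L + 2 ≤ 2 * N ^ 2 := h5
        _ ≤ N * N ^ 2 := Nat.mul_le_mul_right _ hN2
        _ = N ^ 3 := by ring
    calc (2 * L * L + 2) ^ (3 * (s + 2) + 1) ≤ (N ^ 3) ^ (3 * (s + 2) + 1) :=
          Nat.pow_le_pow_left h4 _
      _ = N ^ (3 * (3 * (s + 2) + 1)) := by rw [← pow_mul]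
      _ ≤ N ^ K := hpow _ _ (by omega)
  have h4 : pcx L ≤ N ^ K := by
    have h5 : (L + 1) ^ 4 ≤ N ^ 4 := Nat.pow_le_pow_left (by omega) _
    have h6 : 26 ≤ N ^ 5 := by
      calc 26 ≤ 2 ^ 5 := by norm_num
        _ ≤ N ^ 5 := Nat.pow_le_pow_left hN2 _
    calc pcx L = 26 * (L + 1) ^ 4 := by
          unfold pcx pcf
          ring
      _ ≤ N ^ 5 * N ^ 4 := Nat.mul_le_mul h6 h5
      _ = N ^ 9 := by rw [← pow_add]
      _ ≤ N ^ K := hpow _ _ (by omega)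
  have h8 : 8 ≤ N ^ 3 := by
    calc 8 = 2 ^ 3 := by norm_num
      _ ≤ N ^ 3 := Nat.pow_le_pow_left hN2 _
  have h6 : 8 * N ^ K ≤ N ^ 3 * N ^ K := Nat.mul_le_mul_right _ h8
  have h7 : N ^ (K + 3) = N ^ 3 * N ^ K := by rw [pow_add, mul_comm]
  rw [h7]
  omega

end Pool.Agent.FrNar
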