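import Pool.Agent.FrNar.URe
import Pool.Agent.FrNar.ReNine
import Pool.Agent.FrNar.MainE
import Pool.Agent.FrNar.CorA

/-! Positivity of frozen positive recurrences of order at most nine. -/

set_option autoImplicit false

namespace Pool.Agent.UltPos

open Pool.Agent.PT Pool.Agent.AllR Pool.Agent.DD7719.M Pool.Agent.DD7719 Finset Pool.Agent.FrUP

/-- closure under unions -/
theorem IsRE.union {L L' : Set (List ISym)} (h : IsRE L) (h' : IsRE L') : IsRE (L ∪ L') := by
  obtain ⟨R, hR, hL⟩ := h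
  obtain ⟨R', hR', hL'⟩ := h'
  have h1 : RE (fun x e (_ : ℕ → ℝ) => ∃ γ : ℕ → ℝ, R x e γ) :=
    RE.exb (R := fun x e _ γ => R x e γ) (RE.aff hR 2 1)
  have h2 : RE (fun x e (_ : ℕ → ℝ) => ∃ γ : ℕ → ℝ, R' x e γ) :=
    RE.exb (R := fun x e _ γ => R' x e γ) (RE.aff hR' 2 1)
  refine ⟨_, h1.and h2, fun x => ?_⟩
  rw [Set.mem_union, hL x, hL' x]
  constructor
  · rintro (h3 | h3) ⟨α, h4, h5⟩
    · exact h3 h4
    · exact h3 h5
  · intro h3
    by_contra hcon
    push Not at hcon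
    obtain ⟨⟨β, hβ⟩, γ, hγ⟩ := hcon
    exact h3 ⟨fun _ => 0, ⟨β, hβ⟩, ⟨γ, hγ⟩⟩

/-- an instance of order at most nine with nine roots on a circle is simple -/
theorem Inst.simple_of_nine {I : Inst} (hk : I.k ≤ 9) (h : ¬ I.AtMostPerCircle 8) : I.Simple := by
  classical
  unfold Inst.AtMostPerCircle at h
  push Not at h
  obtain ⟨r, hr⟩ := h
  have hne : I.charPoly.map (algebraMap ℚ ℂ) ≠ 0 := by
    rw [I.charPoly_map]
    exact (cp_monic _ _).ne_zero
  have hdeg : (I.charPoly.map (algebraMap ℚ ℂ)).natDegree = I.k := by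
    rw [I.charPoly_map, cp_natDegree]
  obtain ⟨R, hR⟩ : ∃ R : Multiset ℂ, R = (I.charPoly.map (algebraMap ℚ ℂ)).roots := ⟨_, rfl⟩
  have hsub : {z : ℂ | z ∈ I.rootSet ∧ ‖z‖ = r} ⊆ (R.toFinset : Set ℂ) := by
    rintro z ⟨hz, -⟩
    rw [Finset.mem_coe, Multiset.mem_toFinset, hR, Polynomial.mem_roots hne,
      Polynomial.IsRoot.def, Polynomial.eval_map_algebraMap]
    exact hz
  have h1 : (8 : ℕ∞) < (R.toFinset.card : ℕ∞) := by
    refine lt_of_lt_of_le hr ?_
    rw [← Set.encard_coe_eq_coe_finsetCard]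
    exact Set.encard_le_encard hsub
  have h2 : 8 < R.toFinset.card := by exact_mod_cast h1
  have h3 : R.toFinset.card ≤ Multiset.card R := Multiset.toFinset_card_le R
  have h4 : Multiset.card R ≤ I.k := by
    rw [hR, ← hdeg]
    exact Polynomial.card_roots' _
  have h5 : R.Nodup := Multiset.toFinset_card_eq_card_iff_nodup.mp (by omega)
  rw [hR] at h5
  exact h5

/-- **Positivity of frozen positive recurrences of order at most nine is in `∀ℝ`.** -/
theorem inForallR_frozen_nine :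
    InForallR {w : List ISym | ∃ I : Inst, w = I.enc ∧ I.Positive ∧ I.FrozenPositive ∧
      I.k ≤ 9} := by
  obtain ⟨kk, fR, hkk, hfR, hk, hf⟩ := exists_coefR
  obtain ⟨c, hc⟩ := exists_frozenFrom 8
  have h1 := isRE_fromE c (fun x => ManyRoots (8 + 1) (kk x) (fR x) ∨ 9 < kk x)
    ((re_many (8 + 1) kk fR hkk hfR).or (RE.up (UP.lt (UF.const 9) hkk)))
  have h2 := (h1.union isRE_nine).inForallR
  have hset : {w : List ISym | ∃ I : Inst, w = I.enc ∧ I.Positive ∧ I.FrozenPositive ∧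
      I.k ≤ 9} = {w : List ISym | ∃ I : Inst, w = I.enc ∧ I.Positive ∧
        I.FrozenFrom (2 ^ (w.length ^ c + c)) (2 ^ (w.length ^ c + c)) ∧
        ¬ (ManyRoots (8 + 1) (kk w) (fR w) ∨ 9 < kk w)} ∪
      {w : List ISym | ∃ I : Inst, w = I.enc ∧ I.Positive ∧ I.Simple ∧ I.k ≤ 9} := by
    ext w
    constructor
    · rintro ⟨I, rfl, hp, hfr, hk9⟩
      by_cases h8 : I.AtMostPerCircle 8
      · left
        refine ⟨I, rfl, hp, hc I hfr (hfr.frozenNarrow h8) h8, ?_⟩
        rintro (h | h)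
        · rw [hk] at h
          exact (I.perCircle_iff 8 _ (hf I)).mp h8 h
        · rw [hk] at h
          omega
      · right
        exact ⟨I, rfl, hp, Inst.simple_of_nine hk9 h8, hk9⟩
    · rintro (⟨I, rfl, hp, hfr, hn⟩ | ⟨I, rfl, hp, hS, hk9⟩)
      · refine ⟨I, rfl, hp, hfr.frozenPositive, ?_⟩
        by_contra h
        exact hn (Or.inr (by rw [hk]; omega))
      · exact ⟨I, rfl, hp,
          hS.frozenPositive_iff.mpr (fun v hv => ⟨0, fun n _ => hp v hv n⟩), hk9⟩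
  rw [hset]
  exact h2

end Pool.Agent.UltPos
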