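import Pool.Agent.FrNar.SysB

/-! The weighted size on the polynomial ring over `RA F`. -/

set_option autoImplicit false

namespace Pool.Agent.FrNar

open Pool.Agent.MX Pool.Agent.RElim Complex

variable {F : IntermediateField ℚ ℂ} [FiniteDimensional ℚ F]

/-- the weighted size: the sum of the `NR F (a_i * 2 ^ i)` -/
noncomputable def NW (F : IntermediateField ℚ ℂ) [FiniteDimensional ℚ F]
    (p : Polynomial (RA F)) : ℕ :=
  pn (NR F) (Polynomial.compRingHom (Polynomial.C 2 * Polynomial.X) p)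

/-- evaluation at `y` -/
noncomputable def evW (F : IntermediateField ℚ ℂ) (y : ℝ) : Polynomial (RA F) →+* ℝ :=
  Polynomial.eval₂RingHom (RA F).subtype y

/-- PROOF: `isNrm_NR.pn.comap _` (as `isNrm_NY` in `RElim/PUnb.lean`). -/
theorem isNrm_NW : IsNrm (NW F) := isNrm_NR.pn.comap _

/-- PROOF: as `NY_eq`. -/
theorem NW_eq (p : Polynomial (RA F)) (s : Finset ℕ) (hs : p.support ⊆ s) :
    NW F p = ∑ i ∈ s, NR F (p.coeff i * 2 ^ i) := by
  have h1 : (Polynomial.compRingHom (Polynomial.C 2 * Polynomial.X) p).support ⊆ s := by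
    intro i hi
    apply hs
    rw [Polynomial.mem_support_iff] at hi ⊢
    intro h0
    apply hi
    rw [Polynomial.coe_compRingHom_apply, Polynomial.comp_C_mul_X_coeff, h0, zero_mul]
  rw [NW, pn_eq isNrm_NR _ s h1]
  refine Finset.sum_congr rfl fun i _ => ?_
  rw [Polynomial.coe_compRingHom_apply, Polynomial.comp_C_mul_X_coeff]

/-- PROOF: `NW_eq` with `s = {j}`; `NR F (a * 2 ^ j) ≤ NR F a * 2 ^ j` by `isNrm_NR.mul` and
`isNrm_NR.natCast`. -/
theorem NW_monomial (j : ℕ) (a : RA F) : NW F (Polynomial.monomial j a) ≤ NR F a * 2 ^ j := by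
  have hN := isNrm_NR (F := F)
  rw [NW_eq _ {j} (Polynomial.support_monomial_subset j a), Finset.sum_singleton,
    Polynomial.coeff_monomial_same]
  refine (hN.mul _ _).trans (Nat.mul_le_mul_left _ ?_)
  have h := hN.natCast (2 ^ j)
  push_cast at h
  exact h

/-- PROOF: `NW_monomial` with `j = 0`. -/
theorem NW_C (a : RA F) : NW F (Polynomial.C a) ≤ NR F a := by
  have h := NW_monomial 0 a
  rwa [Polynomial.monomial_zero_left, pow_zero, mul_one] at h

/-- PROOF: `NW_eq` with the support; `|a y ^ i| ≤ |a 2 ^ i| ≤ NR F (a * 2 ^ i)` (`abs_le_NR`), as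
`abs_eval_le_NY`. -/
theorem abs_evW_le (y : ℝ) (hy : |y| ≤ 1) (p : Polynomial (RA F)) : |evW F y p| ≤ NW F p := by
  rw [NW_eq p p.support (Finset.Subset.refl _), evW, Polynomial.coe_eval₂RingHom,
    Polynomial.eval₂_def, Polynomial.sum_def]
  push_cast
  refine (Finset.abs_sum_le_sum_abs _ _).trans (Finset.sum_le_sum fun i _ => ?_)
  refine le_trans ?_ (abs_le_NR _)
  rw [map_mul, map_pow, abs_mul, abs_mul, abs_pow, abs_pow]
  refine mul_le_mul_of_nonneg_left ?_ (abs_nonneg _)
  refine pow_le_pow_left₀ (abs_nonneg y) ?_ i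
  have h2 : (RA F).subtype 2 = 2 := map_ofNat _ _
  rw [h2, abs_two]
  linarith

end Pool.Agent.FrNar
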