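import Pool.Agent.FrozenUP.Seven
import Pool.Agent.FrEight.Ex
import Pool.Agent.FrNar.FinE
import Pool.Agent.FrNar.CorA
import Pool.Agent.FrNar.CorC

/-! Draft of the new version of the hand-in `FrozenUP`. -/

set_option autoImplicit false

namespace Pool.Agent.FrNar.Res

open Pool.Agent.UltPos Pool.Agent.AllR

theorem result' :
    InForallR {w : List ISym | ∃ I : Inst, w = I.enc ∧ I.FrozenPositive} ∧
    (∀ s : ℕ, InForallR {w : List ISym | ∃ I : Inst, w = I.enc ∧ I.Positive ∧ I.FrozenPositive ∧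
      I.FrozenNarrow ∧ I.AtMostPerCircle s}) ∧
    (∀ c : ℕ, InForallR {w : List ISym | ∃ I : Inst, w = I.enc ∧ I.Positive ∧
      I.FrozenFrom (2 ^ (I.enc.length ^ c + c)) (2 ^ (I.enc.length ^ c + c))}) ∧
    InForallR {w : List ISym | ∃ I : Inst, w = I.enc ∧ I.UltimatelyPositive ∧ ¬ I.Critical} ∧
    (∀ I : Inst, I.FrozenPositive → I.UltimatelyPositive) ∧
    (∀ I : Inst, I.UltimatelyPositive → ¬ I.Critical → I.FrozenPositive) ∧
    (∃ I : Inst, I.k = 6 ∧ I.Positive ∧ I.FrozenPositive ∧ I.Critical) ∧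
    (∀ I : Inst, I.Simple → ¬ I.Critical ∧ (I.FrozenPositive ↔ I.UltimatelyPositive)) ∧
    (∀ I : Inst, I.FrozenPositive → I.EightPerCircle → I.FrozenNarrow) ∧
    (∀ I : Inst, I.Positive → I.Regular → I.FrozenPositive ∧ I.FrozenNarrow) ∧
    (∀ I : Inst, I.k ≤ 7 → I.EightPerCircle ∧
      (I.UltimatelyPositive → ¬ I.FrozenPositive → I.OneSidedGap)) :=
  ⟨inForallR_frozen, inForallR_frozen_narrow, inForallR_from, inForallR_noncritical,
    fun _ h => h.ultimatelyPositive,
    fun _ h hc => Inst.frozenPositive_of_not_critical h fun hM => hc (Inst.critical_ofM h hM),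
    ⟨exI, rfl, exI_positive, exI_frozen, exI_critical⟩,
    fun _ hI => ⟨hI.not_critical, hI.frozenPositive_iff⟩,
    fun _ h h8 => h.frozenNarrow h8, fun _ hP hR => (Inst.regular_frozen hP hR).2,
    fun _ hk => ⟨Inst.eight_of_order (by omega), fun h hf => Inst.gap_seven hk h hf⟩⟩

end Pool.Agent.FrNar.Res
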