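import Pool.Agent.FrNar.AltA

/-! Simple instances are frozen narrow if and only if they are narrow. -/

set_option autoImplicit false

namespace Pool.Agent.UltPos

open Pool.Agent.PT Pool.Agent.AllR Pool.Agent.DD7719.M Pool.Agent.DD7719 Finset Pool.Agent.FrUP
open Filter Topology

/-- narrowness does not depend on the first term -/
theorem isNarrow_congr {v w : ℕ → ℝ} {S : Set ℂ} (h : ∀ n, 1 ≤ n → v n = w n)
    (hv : IsNarrow v S) : IsNarrow w S := by
  obtain ⟨N, hN, h1⟩ := hv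
  refine ⟨N, hN, fun J hJ => ?_⟩
  obtain ⟨ρ, hρ, ⟨B, hB⟩, h2⟩ := h1 J hJ
  have hev : ∀ m : ℕ, 1 ≤ m → v (N * m + J) = w (N * m + J) := fun m hm => h _ (by
    have := Nat.mul_pos hN hm
    omega)
  have hE : (fun m : ℕ => v (N * m + J) / ρ ^ m) =ᶠ[atTop] fun m => w (N * m + J) / ρ ^ m := by
    filter_upwards [eventually_ge_atTop 1] with m hm
    rw [hev m hm]
  refine ⟨ρ, hρ, ⟨max B |w (N * 0 + J)|, fun m => ?_⟩, ?_⟩
  · rcases Nat.eq_zero_or_pos m with rfl | hm
    · rw [pow_zero, mul_one]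
      exact le_max_right _ _
    · rw [← hev m hm]
      exact (hB m).trans (mul_le_mul_of_nonneg_right (le_max_left _ _) (pow_pos hρ m).le)
  · rcases h2 with h2 | ⟨a, ha, b, hb, hab, hne, hfin⟩
    · left
      rwa [← Filter.liminf_congr hE]
    · right
      refine ⟨a, ha, b, hb, hab, hne, hfin.subset ?_⟩
      rintro ζ ⟨φ, hφ, h3, h4⟩
      exact ⟨φ, hφ, h3.congr' (hE.symm.comp_tendsto hφ.tendsto_atTop), h4⟩

/-- Simple instances are frozen narrow if and only if they are narrow. -/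
theorem Inst.Simple.frozenNarrow_iff {I : Inst} (hI : I.Simple) : I.FrozenNarrow ↔ I.Narrow := by
  classical
  obtain ⟨v, hv, huniq⟩ := I.exists_unique_seq
  have ha : ∀ t (h : t < I.k), ((fun t => ((I.aQ t : ℚ) : ℝ)) t) = (I.a ⟨t, h⟩ : ℝ) := by
    intro t h
    simp only [Inst.aQ, h, dif_pos]
  have hu : ∀ t (h : t < I.k), ((fun t => ((I.uQ t : ℚ) : ℝ)) t) = (I.u ⟨t, h⟩ : ℝ) := by
    intro t h
    simp only [Inst.uQ, h, dif_pos]
  obtain ⟨l, c, ex, hrd⟩ := I.exists_rootData' _ _ ha hu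
  have hex : ∀ i, i < I.k → ex i = 0 := by
    intro i hi
    by_contra hne
    have h1 := (I.simple_iff (fun t => ((I.aQ t : ℚ) : ℝ)) ha).mp hI
    exact h1 ⟨l i, fun e he => hrd.2.2.1 i hi e (by omega)⟩
  have hfs : ∀ (x : ℝ) (n : ℕ), 1 ≤ n → (fs (fun i : Fin I.k => l i) (fun i => c i)
      (fun i => ex i) x n).re = ((v n : ℚ) : ℝ) := by
    intro x n hn
    have h1 := I.all' _ _ ha hu v hv hrd n
    rw [fs]
    have h2 : ∑ i : Fin I.k, fc (fun i : Fin I.k => l i) (fun i => c i) (fun i => ex i) x i *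
        l i ^ n = ∑ i : Fin I.k, c i * (n.choose (ex i) : ℂ) * l i ^ (n - ex i) := by
      refine Finset.sum_congr rfl fun i _ => ?_
      rw [fc, hex i i.2]
      by_cases h0 : l i = 0
      · rw [if_pos h0, h0, Nat.sub_zero, zero_pow (by omega)]
        simp
      · rw [if_neg h0]
        simp [bc]
    rw [h2, h1, Complex.ofReal_re]
  have hrange : Set.range (fun i : Fin I.k => l i) = I.rootSet := by
    ext z
    constructor
    · rintro ⟨i, rfl⟩
      exact I.root_mem _ _ ha hrd i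
    · intro hz
      obtain ⟨i, hi⟩ := I.root_surj _ _ ha hrd z hz
      exact ⟨i, hi⟩
  rw [I.frozenNarrow_fs _ _ ha hu v hv hrd, hrange]
  constructor
  · rintro ⟨τ, hτ⟩
    exact ⟨v, hv, isNarrow_congr (fun n hn => hfs _ n hn) (hτ τ le_rfl)⟩
  · rintro ⟨w, hw, hn⟩
    have hwv : w = v := huniq w hw
    rw [hwv] at hn
    exact ⟨0, fun x _ => isNarrow_congr (fun n hn => (hfs _ n hn).symm) hn⟩

end Pool.Agent.UltPos
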