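import Pool.Agent.FrNar.LinA

/-! The polynomial systems for the separation of the zeros of linear forms on a coset. -/

set_option autoImplicit false

namespace Pool.Agent.FrNar

open Pool.Agent.MX Pool.Agent.RElim Complex

private theorem sysA_comp {F : IntermediateField ℚ ℂ} (y : ℝ) :
    (evW F y).comp Polynomial.C = (RA F).subtype := by
  ext a
  simp [evW]

private theorem sysA_lift {F : IntermediateField ℚ ℂ} [FiniteDimensional ℚ F] {n : ℕ}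
    (H : MvPolynomial (Fin n ⊕ Fin n) (RA F)) :
    ∃ A : MvPolynomial (Option (Fin n ⊕ Fin n)) (Polynomial (RA F)),
      A.totalDegree ≤ H.totalDegree ∧ mn (NW F) A ≤ mn (NR F) H ∧
      ∀ (y : ℝ) (v : Option (Fin n ⊕ Fin n) → ℝ), A.eval₂ (evW F y) v =
        H.eval₂ (RA F).subtype fun s => v (some s) := by
  refine ⟨MvPolynomial.rename some (MvPolynomial.map Polynomial.C H),
    (MvPolynomial.totalDegree_rename_le _ _).trans (totalDegree_map_le' _ H),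
    (mn_rename (isNrm_NW (F := F)) _ _).trans
      (mn_map isNrm_NR isNrm_NW Polynomial.C (fun a => NW_C a) H), fun y v => ?_⟩
  rw [MvPolynomial.eval₂_rename, MvPolynomial.eval₂_map, sysA_comp]
  rfl

private theorem sysA_sq {F : IntermediateField ℚ ℂ} [FiniteDimensional ℚ F] {n : ℕ}
    (L : MvPolynomial (Fin n ⊕ Fin n) (Polynomial (RA F))) (d m : ℕ) (hd : L.totalDegree ≤ d)
    (hm : mn (NW F) L ≤ m) :
    ∃ Q : MvPolynomial (Option (Fin n ⊕ Fin n)) (Polynomial (RA F)), Q.totalDegree ≤ 2 * d ∧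
      mn (NW F) Q ≤ m * m ∧ ∀ (y : ℝ) (v : Option (Fin n ⊕ Fin n) → ℝ),
        Q.eval₂ (evW F y) v = (L.eval₂ (evW F y) fun s => v (some s)) ^ 2 := by
  have hN := (isNrm_NW (F := F)).mn (σ := Option (Fin n ⊕ Fin n))
  have h1 := (MvPolynomial.totalDegree_rename_le some L).trans hd
  have h2 := (mn_rename (isNrm_NW (F := F)) some L).trans hm
  refine ⟨MvPolynomial.rename some L * MvPolynomial.rename some L,
    (MvPolynomial.totalDegree_mul _ _).trans (by omega),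
    (hN.mul _ _).trans (Nat.mul_le_mul h2 h2), fun y v => ?_⟩
  rw [MvPolynomial.eval₂_mul, MvPolynomial.eval₂_rename, sq]
  rfl

private theorem sysA_del {F : IntermediateField ℚ ℂ} [FiniteDimensional ℚ F] {n : ℕ}
    (Δ : MvPolynomial (Fin n ⊕ Fin n) (RA F)) (hΔ1 : Δ.totalDegree ≤ 4)
    (hΔ2 : mn (NR F) Δ ≤ 32) :
    ∃ Q : MvPolynomial (Option (Fin n ⊕ Fin n)) (Polynomial (RA F)), Q.totalDegree ≤ 10 ∧
      mn (NW F) Q ≤ 33 * 33 ∧ ∀ (y : ℝ) (v : Option (Fin n ⊕ Fin n) → ℝ),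
        Q.eval₂ (evW F y) v = (v none *
          (Δ.eval₂ (RA F).subtype fun s => v (some s)) - 1) ^ 2 := by
  have hN := (isNrm_NW (F := F)).mn (σ := Option (Fin n ⊕ Fin n))
  obtain ⟨A, hAd, hAm, hAe⟩ := sysA_lift Δ
  replace hAd := hAd.trans hΔ1
  replace hAm := hAm.trans hΔ2
  obtain ⟨Z, hZ⟩ : ∃ Z : MvPolynomial (Option (Fin n ⊕ Fin n)) (Polynomial (RA F)),
      Z = MvPolynomial.X none * A - 1 := ⟨_, rfl⟩
  have hZd : Z.totalDegree ≤ 5 := by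
    rw [hZ]
    refine (MvPolynomial.totalDegree_sub _ _).trans (max_le ?_ ?_)
    · refine (MvPolynomial.totalDegree_mul _ _).trans ?_
      rw [MvPolynomial.totalDegree_X]
      omega
    · rw [MvPolynomial.totalDegree_one]
      exact Nat.zero_le _
  have hZm : mn (NW F) Z ≤ 33 := by
    rw [hZ, sub_eq_add_neg]
    have e1 := hN.add (MvPolynomial.X none * A) (-1)
    have e2 := (hN.neg 1).trans hN.one
    have e3 := (hN.mul (MvPolynomial.X none) A).trans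
      (Nat.mul_le_mul (mn_X isNrm_NW none) hAm)
    omega
  refine ⟨Z * Z, (MvPolynomial.totalDegree_mul _ _).trans (by omega),
    (hN.mul _ _).trans (Nat.mul_le_mul hZm hZm), fun y v => ?_⟩
  rw [MvPolynomial.eval₂_mul, hZ, MvPolynomial.eval₂_sub, MvPolynomial.eval₂_mul,
    MvPolynomial.eval₂_X, hAe, MvPolynomial.eval₂_one, sq]

private theorem sysA_num (n B E Hc : ℕ) : n * 9 + 2 ^ (7 + 3 * (n * (B + 1))) +
    (n * (2 ^ (E + 3) * 4 ^ Hc)) * (n * (2 ^ (E + 3) * 4 ^ Hc)) +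
    (n * (2 ^ (E + 3) * 4 ^ Hc)) * (n * (2 ^ (E + 3) * 4 ^ Hc)) + 33 * 33 ≤
    2 ^ (20 * (n + 1) * (B + 1) + 4 * Hc + 2 * E) := by
  obtain ⟨E', hE⟩ : ∃ E' : ℕ, E' = (n + 1) * (B + 1) := ⟨_, rfl⟩
  have hEp : n + 1 ≤ E' := by
    rw [hE]
    exact Nat.le_mul_of_pos_right _ (Nat.succ_pos B)
  have hEpB : n * (B + 1) ≤ E' := by
    rw [hE]
    exact Nat.mul_le_mul_right _ (Nat.le_succ n)
  have h2p : ∀ n : ℕ, n + 1 ≤ 2 ^ n := by
    intro n
    induction n with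
    | zero => norm_num
    | succ n ih =>
      rw [pow_succ]
      omega
  have hgoal : 20 * (n + 1) * (B + 1) + 4 * Hc + 2 * E = 20 * E' + 4 * Hc + 2 * E := by
    rw [hE]
    ring
  rw [hgoal]
  have f0 : n + 1 ≤ 2 ^ E' := (h2p n).trans (Nat.pow_le_pow_right (by norm_num) (by omega))
  have f1 : n * 9 ≤ 2 ^ (17 * E' + 4 * Hc + 2 * E) := by
    have : n * 9 ≤ 2 ^ 4 * 2 ^ E' := by omega
    refine this.trans ?_
    rw [← pow_add]
    exact Nat.pow_le_pow_right (by norm_num) (by omega)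
  have f2 : 2 ^ (7 + 3 * (n * (B + 1))) ≤ 2 ^ (17 * E' + 4 * Hc + 2 * E) :=
    Nat.pow_le_pow_right (by norm_num) (by omega)
  have f3 : (n * (2 ^ (E + 3) * 4 ^ Hc)) * (n * (2 ^ (E + 3) * 4 ^ Hc)) ≤
      2 ^ (17 * E' + 4 * Hc + 2 * E) := by
    have h5 : n * (2 ^ (E + 3) * 4 ^ Hc) ≤ 2 ^ (E' + ((E + 3) + 2 * Hc)) := by
      have h7 : 4 ^ Hc = 2 ^ (2 * Hc) := by
        rw [pow_mul]
        norm_num
      have h8 : 2 ^ (E' + ((E + 3) + 2 * Hc)) = 2 ^ E' * (2 ^ (E + 3) * 4 ^ Hc) := by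
        rw [h7, ← pow_add, ← pow_add]
      rw [h8]
      exact Nat.mul_le_mul (by omega) le_rfl
    refine (Nat.mul_le_mul h5 h5).trans ?_
    rw [← pow_add]
    exact Nat.pow_le_pow_right (by norm_num) (by omega)
  have f4 : 33 * 33 ≤ 2 ^ (17 * E' + 4 * Hc + 2 * E) := by
    have h1 : 2 ^ 17 ≤ 2 ^ (17 * E' + 4 * Hc + 2 * E) :=
      Nat.pow_le_pow_right (by norm_num) (by omega)
    omega
  have f5 : 2 ^ (20 * E' + 4 * Hc + 2 * E) = 2 ^ (3 * E') * 2 ^ (17 * E' + 4 * Hc + 2 * E) := by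
    rw [← pow_add]
    congr 1
    ring
  have f6 : 8 ≤ 2 ^ (3 * E') := by
    have : 2 ^ 3 ≤ 2 ^ (3 * E') := Nat.pow_le_pow_right (by norm_num) (by omega)
    omega
  rw [f5]
  have f7 := Nat.mul_le_mul_right (2 ^ (17 * E' + 4 * Hc + 2 * E)) f6
  omega

/-- The system of the separation over `(RA F)[Y]`; `v none = 1 / value of Δ`.

PROOF: `h = rename some (map C H0) + rename some L1 ^ 2 + rename some L2 ^ 2 + (X none * rename some
(map C Δ) - 1) ^ 2`, `H0` of `exists_tor`, `L1, L2` of `exists_linA` (for `c1, c2`). Degrees: `4 (n B + 1)`,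
`2`, `2 (4 + 1)` (`MvPolynomial.totalDegree_rename_le`, `totalDegree_map_le'`), all at most
`4 (n B + 3)`; sizes by `mn_rename`, `mn_map` (with `NW_C`), `isNrm_NW.mn`:
`n * 9 + 2 ^ (7 + 3 n (B + 1)) + 2 (n 2 ^ (E + 3) 4 ^ Hc) ^ 2 + 33 ^ 2`, each of the four terms (count
`2 (..) ^ 2` as one) at most `2 ^ (18 (n + 1) (B + 1) + 4 Hc + 2 E)` (as at the end of
`exists_systemX'`). Evaluation: `eval₂_rename`, `eval₂_map`, `(evW F y).comp C = (RA F).subtype`; a sum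
of four nonnegative terms vanishes iff all vanish (`D0 ≠ 0`). -/
theorem exists_sysA (F : IntermediateField ℚ ℂ) [FiniteDimensional ℚ F]
    (hconj : ∀ z ∈ F, (starRingEnd ℂ) z ∈ F) (hI : I ∈ F) (n B E Hc D0 : ℕ) (hD0 : 0 < D0)
    (hD0' : D0 ≤ 2 ^ Hc) (c1 c2 : Fin n → ℕ → F)
    (hcI1 : ∀ i, ∀ e ≤ E, IsIntegral ℤ ((D0 : ℂ) * (c1 i e : ℂ)))
    (hcb1 : ∀ i, ∀ e ≤ E, ∀ φ : F →ₐ[ℚ] ℂ, ‖φ (c1 i e)‖ ≤ 2 ^ Hc)
    (hcI2 : ∀ i, ∀ e ≤ E, IsIntegral ℤ ((D0 : ℂ) * (c2 i e : ℂ)))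
    (hcb2 : ∀ i, ∀ e ≤ E, ∀ φ : F →ₐ[ℚ] ℂ, ‖φ (c2 i e)‖ ≤ 2 ^ Hc)
    (S : Finset (Fin n → ℤ)) (hS : ∀ g ∈ S, ∀ i, |g i| ≤ B) (ζ : (Fin n → ℤ) → F)
    (hζ : ∀ g ∈ S, ∃ m : ℕ, 0 < m ∧ ζ g ^ m = 1)
    (Δ : MvPolynomial (Fin n ⊕ Fin n) (RA F)) (hΔ1 : Δ.totalDegree ≤ 4) (hΔ2 : mn (NR F) Δ ≤ 32) :
    ∃ h : MvPolynomial (Option (Fin n ⊕ Fin n)) (Polynomial (RA F)),
      (∀ b ∈ h.support, b.degree ≤ 4 * (n * B + 3)) ∧
      mn (NW F) h ≤ 2 ^ (20 * (n + 1) * (B + 1) + 4 * Hc + 2 * E) ∧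
      (∀ (y : ℝ) (v : Option (Fin n ⊕ Fin n) → ℝ), 0 ≤ h.eval₂ (evW F y) v) ∧
      ∀ (y : ℝ) (v : Option (Fin n ⊕ Fin n) → ℝ), h.eval₂ (evW F y) v = 0 ↔
        (∀ i, ‖pt (fun s => v (some s)) i‖ = 1) ∧
        (∀ g ∈ S, ∏ i, pt (fun s => v (some s)) i ^ g i = (ζ g : ℂ)) ∧
        FixLam.fY E c1 y (pt fun s => v (some s)) = 0 ∧
        FixLam.fY E c2 y (pt fun s => v (some s)) = 0 ∧
        v none * Δ.eval₂ (RA F).subtype (fun s => v (some s)) = 1 := by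
  classical
  obtain ⟨H0, hH1, hH2, hH3, hH4⟩ := exists_tor F hconj hI n B S hS ζ hζ
  obtain ⟨L1, hL1d, hL1m, hL1e⟩ := exists_linA F hconj hI n E Hc D0 hD0' c1 hcI1 hcb1
  obtain ⟨L2, hL2d, hL2m, hL2e⟩ := exists_linA F hconj hI n E Hc D0 hD0' c2 hcI2 hcb2
  have hN := (isNrm_NW (F := F)).mn (σ := Option (Fin n ⊕ Fin n))
  obtain ⟨A, hA1, hA2, hA3⟩ := sysA_lift H0
  replace hA1 := hA1.trans hH1
  replace hA2 := hA2.trans hH2
  obtain ⟨B1, hB1, hB2, hB3⟩ := sysA_sq L1 _ _ hL1d hL1m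
  obtain ⟨C1, hC1, hC2, hC3⟩ := sysA_sq L2 _ _ hL2d hL2m
  obtain ⟨D1, hD1, hD2, hD3⟩ := sysA_del Δ hΔ1 hΔ2
  have hev : ∀ (y : ℝ) (v : Option (Fin n ⊕ Fin n) → ℝ),
      (A + B1 + C1 + D1).eval₂ (evW F y) v =
        (H0.eval₂ (RA F).subtype fun s => v (some s)) +
        (2 * D0 * FixLam.fY E c1 y (pt fun s => v (some s))) ^ 2 +
        (2 * D0 * FixLam.fY E c2 y (pt fun s => v (some s))) ^ 2 +
        (v none * (Δ.eval₂ (RA F).subtype fun s => v (some s)) - 1) ^ 2 := by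
    intro y v
    rw [MvPolynomial.eval₂_add, MvPolynomial.eval₂_add, MvPolynomial.eval₂_add, hA3, hB3, hC3,
      hD3, hL1e, hL2e]
  refine ⟨A + B1 + C1 + D1, ?_, ?_, fun y v => ?_, fun y v => ?_⟩
  · intro b hb
    have h1 : (A + B1 + C1 + D1).totalDegree ≤ 4 * (n * B + 3) := by
      refine (MvPolynomial.totalDegree_add _ _).trans (max_le
        ((MvPolynomial.totalDegree_add _ _).trans (max_le
          ((MvPolynomial.totalDegree_add _ _).trans (max_le ?_ ?_)) ?_)) ?_)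
      · omega
      · omega
      · omega
      · omega
    have h2 := (MvPolynomial.le_totalDegree hb).trans h1
    rwa [Finsupp.degree_apply]
  · refine le_trans ?_ (sysA_num n B E Hc)
    have e1 := hN.add (A + B1 + C1) D1
    have e2 := hN.add (A + B1) C1
    have e3 := hN.add A B1
    omega
  · rw [hev]
    have h1 := hH3 fun s => v (some s)
    positivity
  · rw [hev]
    have h1 := hH3 fun s => v (some s)
    have h2 : 0 ≤ (2 * D0 * FixLam.fY E c1 y (pt fun s => v (some s))) ^ 2 := sq_nonneg _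
    have h3 : 0 ≤ (2 * D0 * FixLam.fY E c2 y (pt fun s => v (some s))) ^ 2 := sq_nonneg _
    have h4 : 0 ≤ (v none * (Δ.eval₂ (RA F).subtype fun s => v (some s)) - 1) ^ 2 := sq_nonneg _
    have hD0R : (2 * D0 : ℝ) ≠ 0 := by
      have : (0 : ℝ) < D0 := by exact_mod_cast hD0
      positivity
    constructor
    · intro h
      have g1 : (H0.eval₂ (RA F).subtype fun s => v (some s)) = 0 := by linarith
      have g2 : (2 * D0 * FixLam.fY E c1 y (pt fun s => v (some s))) ^ 2 = 0 := by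
        linarith
      have g3 : (2 * D0 * FixLam.fY E c2 y (pt fun s => v (some s))) ^ 2 = 0 := by
        linarith
      have g4 : (v none * (Δ.eval₂ (RA F).subtype fun s => v (some s)) - 1) ^ 2 = 0 := by
        linarith
      obtain ⟨k1, k2⟩ := (hH4 _).1 g1
      refine ⟨k1, k2, ?_, ?_, ?_⟩
      · exact (mul_eq_zero.1 ((pow_eq_zero_iff two_ne_zero).1 g2)).resolve_left hD0R
      · exact (mul_eq_zero.1 ((pow_eq_zero_iff two_ne_zero).1 g3)).resolve_left hD0R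
      · exact sub_eq_zero.1 ((pow_eq_zero_iff two_ne_zero).1 g4)
    · rintro ⟨k1, k2, k3, k4, k5⟩
      rw [(hH4 _).2 ⟨k1, k2⟩, k3, k4, k5]
      norm_num

end Pool.Agent.FrNar
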