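import Pool.Agent.FrNar.LinB

/-! The polynomial systems for the separation of the zeros of linear forms on a coset. -/

set_option autoImplicit false

namespace Pool.Agent.FrNar

open Pool.Agent.MX Pool.Agent.RElim Complex

private theorem sysX_pow {F : IntermediateField ℚ ℂ} [FiniteDimensional ℚ F] {σ : Type} (s : σ)
    (k : ℕ) : mn (NR F) ((MvPolynomial.X s : MvPolynomial σ (RA F)) ^ k) ≤ 1 := by
  have hN := (isNrm_NR (F := F)).mn (σ := σ)
  induction k with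
  | zero =>
    rw [pow_zero]
    exact hN.one
  | succ k ih =>
    rw [pow_succ]
    exact (hN.mul _ _).trans (Nat.mul_le_mul ih (mn_X isNrm_NR s))

private theorem sysX_sq {F : IntermediateField ℚ ℂ} [FiniteDimensional ℚ F] {n : ℕ}
    (L : MvPolynomial (Option (Fin n ⊕ Fin n)) (RA F)) (d m : ℕ) (hd : L.totalDegree ≤ d)
    (hm : mn (NR F) L ≤ m) :
    ∃ Q : MvPolynomial (Option (Option (Fin n ⊕ Fin n))) (RA F), Q.totalDegree ≤ 2 * d ∧
      mn (NR F) Q ≤ m * m ∧ ∀ v : Option (Option (Fin n ⊕ Fin n)) → ℝ,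
        Q.eval₂ (RA F).subtype v = (L.eval₂ (RA F).subtype fun s => v (Option.map some s)) ^ 2 := by
  have hN := (isNrm_NR (F := F)).mn (σ := Option (Option (Fin n ⊕ Fin n)))
  have h1 := (MvPolynomial.totalDegree_rename_le (Option.map some) L).trans hd
  have h2 := (mn_rename (isNrm_NR (F := F)) (Option.map some) L).trans hm
  refine ⟨MvPolynomial.rename (Option.map some) L * MvPolynomial.rename (Option.map some) L,
    (MvPolynomial.totalDegree_mul _ _).trans (by omega),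
    (hN.mul _ _).trans (Nat.mul_le_mul h2 h2), fun v => ?_⟩
  rw [MvPolynomial.eval₂_mul, MvPolynomial.eval₂_rename, sq]
  rfl

private theorem sysX_del {F : IntermediateField ℚ ℂ} [FiniteDimensional ℚ F] {n : ℕ} (M : ℕ)
    (Δ : MvPolynomial (Fin n ⊕ Fin n) (RA F)) (hΔ1 : Δ.totalDegree ≤ 4)
    (hΔ2 : mn (NR F) Δ ≤ 32) :
    ∃ Q : MvPolynomial (Option (Option (Fin n ⊕ Fin n))) (RA F), Q.totalDegree ≤ 2 * (M + 6) ∧
      mn (NR F) Q ≤ 65 * 65 ∧ ∀ v : Option (Option (Fin n ⊕ Fin n)) → ℝ,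
        Q.eval₂ (RA F).subtype v = (v none ^ M *
          (Δ.eval₂ (RA F).subtype fun s => v (some (some s))) * (1 + v (some none) ^ 2) -
            1) ^ 2 := by
  have hN := (isNrm_NR (F := F)).mn (σ := Option (Option (Fin n ⊕ Fin n)))
  obtain ⟨A, hA⟩ : ∃ A : MvPolynomial (Option (Option (Fin n ⊕ Fin n))) (RA F),
      A = MvPolynomial.rename (fun s => some (some s)) Δ := ⟨_, rfl⟩
  have hAd : A.totalDegree ≤ 4 := by
    rw [hA]
    exact (MvPolynomial.totalDegree_rename_le _ Δ).trans hΔ1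
  have hAm : mn (NR F) A ≤ 32 := by
    rw [hA]
    exact (mn_rename (isNrm_NR (F := F)) _ Δ).trans hΔ2
  obtain ⟨Y, hY⟩ : ∃ Y : MvPolynomial (Option (Option (Fin n ⊕ Fin n))) (RA F),
      Y = 1 + MvPolynomial.X (some none) * MvPolynomial.X (some none) := ⟨_, rfl⟩
  have hYd : Y.totalDegree ≤ 2 := by
    rw [hY]
    refine (MvPolynomial.totalDegree_add _ _).trans (max_le ?_ ?_)
    · rw [MvPolynomial.totalDegree_one]
      exact Nat.zero_le _
    · refine (MvPolynomial.totalDegree_mul _ _).trans ?_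
      rw [MvPolynomial.totalDegree_X]
  have hYm : mn (NR F) Y ≤ 2 := by
    rw [hY]
    have e1 := (hN.mul (MvPolynomial.X (some none)) (MvPolynomial.X (some none))).trans
      (Nat.mul_le_mul (mn_X isNrm_NR _) (mn_X isNrm_NR _))
    have e2 := hN.add 1 (MvPolynomial.X (some none) * MvPolynomial.X (some none))
    have e3 := hN.one
    omega
  obtain ⟨Z, hZ⟩ : ∃ Z : MvPolynomial (Option (Option (Fin n ⊕ Fin n))) (RA F),
      Z = MvPolynomial.X none ^ M * A * Y - 1 := ⟨_, rfl⟩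
  have hZd : Z.totalDegree ≤ M + 6 := by
    rw [hZ]
    refine (MvPolynomial.totalDegree_sub _ _).trans (max_le ?_ ?_)
    · refine (MvPolynomial.totalDegree_mul _ _).trans ?_
      have e1 := MvPolynomial.totalDegree_mul
        ((MvPolynomial.X none : MvPolynomial (Option (Option (Fin n ⊕ Fin n))) (RA F)) ^ M) A
      have e2 := MvPolynomial.totalDegree_X_pow (R := RA F)
        (none : Option (Option (Fin n ⊕ Fin n))) M
      omega
    · rw [MvPolynomial.totalDegree_one]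
      exact Nat.zero_le _
  have hZm : mn (NR F) Z ≤ 65 := by
    rw [hZ, sub_eq_add_neg]
    have e1 := hN.add (MvPolynomial.X none ^ M * A * Y) (-1)
    have e2 := (hN.neg 1).trans hN.one
    have e3 := (hN.mul (MvPolynomial.X none ^ M) A).trans
      (Nat.mul_le_mul (sysX_pow (F := F) none M) hAm)
    have e4 := (hN.mul (MvPolynomial.X none ^ M * A) Y).trans (Nat.mul_le_mul e3 hYm)
    omega
  refine ⟨Z * Z, (MvPolynomial.totalDegree_mul _ _).trans (by omega),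
    (hN.mul _ _).trans (Nat.mul_le_mul hZm hZm), fun v => ?_⟩
  rw [MvPolynomial.eval₂_mul, hZ, MvPolynomial.eval₂_sub, MvPolynomial.eval₂_mul,
    MvPolynomial.eval₂_mul, MvPolynomial.eval₂_pow, MvPolynomial.eval₂_X, hA,
    MvPolynomial.eval₂_rename, hY, MvPolynomial.eval₂_add, MvPolynomial.eval₂_mul,
    MvPolynomial.eval₂_X, MvPolynomial.eval₂_one, sq, sq]
  rfl

private theorem sysX_num (n B E Hc : ℕ) : n * 9 + 2 ^ (7 + 3 * (n * (B + 1))) +
    (n * ((E + 1) * (4 * 4 ^ Hc))) * (n * ((E + 1) * (4 * 4 ^ Hc))) +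
    (n * ((E + 1) * (4 * 4 ^ Hc))) * (n * ((E + 1) * (4 * 4 ^ Hc))) + 65 * 65 ≤
    2 ^ (20 * (n + 1) * (B + 1) + 4 * Hc + 2 * E) := by
  obtain ⟨E', hE⟩ : ∃ E' : ℕ, E' = (n + 1) * (B + 1) := ⟨_, rfl⟩
  have hEp : n + 1 ≤ E' := by
    rw [hE]
    exact Nat.le_mul_of_pos_right _ (Nat.succ_pos B)
  have hEpB : n * (B + 1) ≤ E' := by
    rw [hE]
    exact Nat.mul_le_mul_right _ (Nat.le_succ n)
  have h2p : ∀ n : ℕ, n + 1 ≤ 2 ^ n := by
    intro n
    induction n with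
    | zero => norm_num
    | succ n ih =>
      rw [pow_succ]
      omega
  have hgoal : 20 * (n + 1) * (B + 1) + 4 * Hc + 2 * E = 20 * E' + 4 * Hc + 2 * E := by
    rw [hE]
    ring
  rw [hgoal]
  have f0 : n + 1 ≤ 2 ^ E' := (h2p n).trans (Nat.pow_le_pow_right (by norm_num) (by omega))
  have f1 : n * 9 ≤ 2 ^ (17 * E' + 4 * Hc + 2 * E) := by
    have : n * 9 ≤ 2 ^ 4 * 2 ^ E' := by omega
    refine this.trans ?_
    rw [← pow_add]
    exact Nat.pow_le_pow_right (by norm_num) (by omega)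
  have f2 : 2 ^ (7 + 3 * (n * (B + 1))) ≤ 2 ^ (17 * E' + 4 * Hc + 2 * E) :=
    Nat.pow_le_pow_right (by norm_num) (by omega)
  have f3 : (n * ((E + 1) * (4 * 4 ^ Hc))) * (n * ((E + 1) * (4 * 4 ^ Hc))) ≤
      2 ^ (17 * E' + 4 * Hc + 2 * E) := by
    have h5 : n * ((E + 1) * (4 * 4 ^ Hc)) ≤ 2 ^ (E' + (E + (2 + 2 * Hc))) := by
      have h7 : 4 * 4 ^ Hc = 2 ^ (2 + 2 * Hc) := by
        rw [pow_add, pow_mul]
        norm_num
      rw [pow_add, pow_add, h7]
      exact Nat.mul_le_mul (by omega) (Nat.mul_le_mul_right _ (h2p E))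
    refine (Nat.mul_le_mul h5 h5).trans ?_
    rw [← pow_add]
    exact Nat.pow_le_pow_right (by norm_num) (by omega)
  have f4 : 65 * 65 ≤ 2 ^ (17 * E' + 4 * Hc + 2 * E) := by
    have h1 : 2 ^ 17 ≤ 2 ^ (17 * E' + 4 * Hc + 2 * E) :=
      Nat.pow_le_pow_right (by norm_num) (by omega)
    omega
  have f5 : 2 ^ (20 * E' + 4 * Hc + 2 * E) = 2 ^ (3 * E') * 2 ^ (17 * E' + 4 * Hc + 2 * E) := by
    rw [← pow_add]
    congr 1
    ring
  have f6 : 8 ≤ 2 ^ (3 * E') := by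
    have : 2 ^ 3 ≤ 2 ^ (3 * E') := Nat.pow_le_pow_right (by norm_num) (by omega)
    omega
  rw [f5]
  have f7 := Nat.mul_le_mul_right (2 ^ (17 * E' + 4 * Hc + 2 * E)) f6
  omega

/-- The system of the separation beyond `x ^ (-M)`; `v none = x`.

PROOF: as `exists_sysA`, over `RA F`: `h = rename (some ∘ some) H0 + rename g L1 ^ 2 + rename g L2 ^ 2 +
(X none ^ M * rename (some ∘ some) Δ * (1 + X (some none) ^ 2) - 1) ^ 2` with `g : Option σ → Option
(Option σ)`, `g none = none`, `g (some s) = some (some s)`, `L1, L2` of `exists_linB`. Degrees: `4 (n B +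
1)`, `2 (E + 1)`, `2 (M + 4 + 2)`; sizes `n * 9 + 2 ^ (7 + 3 n (B + 1)) + 2 (n (E + 1) 4 ^ (Hc + 1)) ^ 2 +
65 ^ 2`. -/
theorem exists_sysB (F : IntermediateField ℚ ℂ) [FiniteDimensional ℚ F]
    (hconj : ∀ z ∈ F, (starRingEnd ℂ) z ∈ F) (hI : I ∈ F) (n B E M Hc D0 : ℕ) (hD0 : 0 < D0)
    (hD0' : D0 ≤ 2 ^ Hc) (c1 c2 : Fin n → ℕ → F)
    (hcI1 : ∀ i, ∀ e ≤ E, IsIntegral ℤ ((D0 : ℂ) * (c1 i e : ℂ)))
    (hcb1 : ∀ i, ∀ e ≤ E, ∀ φ : F →ₐ[ℚ] ℂ, ‖φ (c1 i e)‖ ≤ 2 ^ Hc)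
    (hcI2 : ∀ i, ∀ e ≤ E, IsIntegral ℤ ((D0 : ℂ) * (c2 i e : ℂ)))
    (hcb2 : ∀ i, ∀ e ≤ E, ∀ φ : F →ₐ[ℚ] ℂ, ‖φ (c2 i e)‖ ≤ 2 ^ Hc)
    (S : Finset (Fin n → ℤ)) (hS : ∀ g ∈ S, ∀ i, |g i| ≤ B) (ζ : (Fin n → ℤ) → F)
    (hζ : ∀ g ∈ S, ∃ m : ℕ, 0 < m ∧ ζ g ^ m = 1)
    (Δ : MvPolynomial (Fin n ⊕ Fin n) (RA F)) (hΔ1 : Δ.totalDegree ≤ 4) (hΔ2 : mn (NR F) Δ ≤ 32) :
    ∃ h : MvPolynomial (Option (Option (Fin n ⊕ Fin n))) (RA F),
      (∀ b ∈ h.support, b.degree ≤ 4 * (n * B + E + M + 3)) ∧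
      mn (NR F) h ≤ 2 ^ (20 * (n + 1) * (B + 1) + 4 * Hc + 2 * E) ∧
      (∀ v : Option (Option (Fin n ⊕ Fin n)) → ℝ, 0 ≤ h.eval₂ (RA F).subtype v) ∧
      ∀ v : Option (Option (Fin n ⊕ Fin n)) → ℝ, h.eval₂ (RA F).subtype v = 0 ↔
        (∀ i, ‖pt (fun s => v (some (some s))) i‖ = 1) ∧
        (∀ g ∈ S, ∏ i, pt (fun s => v (some (some s))) i ^ g i = (ζ g : ℂ)) ∧
        fX E c1 (v none) (pt fun s => v (some (some s))) = 0 ∧
        fX E c2 (v none) (pt fun s => v (some (some s))) = 0 ∧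
        v none ^ M * Δ.eval₂ (RA F).subtype (fun s => v (some (some s))) *
          (1 + v (some none) ^ 2) = 1 := by
  classical
  obtain ⟨H0, hH1, hH2, hH3, hH4⟩ := exists_tor F hconj hI n B S hS ζ hζ
  obtain ⟨L1, hL1d, hL1m, hL1e⟩ := exists_linB F hconj hI n E Hc D0 hD0' c1 hcI1 hcb1
  obtain ⟨L2, hL2d, hL2m, hL2e⟩ := exists_linB F hconj hI n E Hc D0 hD0' c2 hcI2 hcb2
  have hN := (isNrm_NR (F := F)).mn (σ := Option (Option (Fin n ⊕ Fin n)))
  obtain ⟨A, hA1, hA2, hA3⟩ : ∃ A : MvPolynomial (Option (Option (Fin n ⊕ Fin n))) (RA F),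
      A.totalDegree ≤ 4 * (n * B + 1) ∧
      mn (NR F) A ≤ n * 9 + 2 ^ (7 + 3 * (n * (B + 1))) ∧
      ∀ v : Option (Option (Fin n ⊕ Fin n)) → ℝ, A.eval₂ (RA F).subtype v =
        H0.eval₂ (RA F).subtype fun s => v (some (some s)) :=
    ⟨MvPolynomial.rename (fun s => some (some s)) H0,
      (MvPolynomial.totalDegree_rename_le _ H0).trans hH1,
      (mn_rename (isNrm_NR (F := F)) _ H0).trans hH2, fun v => by
        rw [MvPolynomial.eval₂_rename]
        rfl⟩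
  obtain ⟨B1, hB1, hB2, hB3⟩ := sysX_sq L1 _ _ hL1d hL1m
  obtain ⟨C1, hC1, hC2, hC3⟩ := sysX_sq L2 _ _ hL2d hL2m
  obtain ⟨D1, hD1, hD2, hD3⟩ := sysX_del M Δ hΔ1 hΔ2
  have hev : ∀ v : Option (Option (Fin n ⊕ Fin n)) → ℝ,
      (A + B1 + C1 + D1).eval₂ (RA F).subtype v =
        (H0.eval₂ (RA F).subtype fun s => v (some (some s))) +
        (2 * D0 * fX E c1 (v none) (pt fun s => v (some (some s)))) ^ 2 +
        (2 * D0 * fX E c2 (v none) (pt fun s => v (some (some s)))) ^ 2 +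
        (v none ^ M * (Δ.eval₂ (RA F).subtype fun s => v (some (some s))) *
          (1 + v (some none) ^ 2) - 1) ^ 2 := by
    intro v
    rw [MvPolynomial.eval₂_add, MvPolynomial.eval₂_add, MvPolynomial.eval₂_add, hA3, hB3, hC3,
      hD3, hL1e, hL2e]
    rfl
  refine ⟨A + B1 + C1 + D1, ?_, ?_, fun v => ?_, fun v => ?_⟩
  · intro b hb
    have h1 : (A + B1 + C1 + D1).totalDegree ≤ 4 * (n * B + E + M + 3) := by
      refine (MvPolynomial.totalDegree_add _ _).trans (max_le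
        ((MvPolynomial.totalDegree_add _ _).trans (max_le
          ((MvPolynomial.totalDegree_add _ _).trans (max_le ?_ ?_)) ?_)) ?_)
      · omega
      · omega
      · omega
      · omega
    have h2 := (MvPolynomial.le_totalDegree hb).trans h1
    rwa [Finsupp.degree_apply]
  · refine le_trans ?_ (sysX_num n B E Hc)
    have e1 := hN.add (A + B1 + C1) D1
    have e2 := hN.add (A + B1) C1
    have e3 := hN.add A B1
    omega
  · rw [hev]
    have h1 := hH3 fun s => v (some (some s))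
    positivity
  · rw [hev]
    have h1 := hH3 fun s => v (some (some s))
    have h2 : 0 ≤ (2 * D0 * fX E c1 (v none) (pt fun s => v (some (some s)))) ^ 2 := sq_nonneg _
    have h3 : 0 ≤ (2 * D0 * fX E c2 (v none) (pt fun s => v (some (some s)))) ^ 2 := sq_nonneg _
    have h4 : 0 ≤ (v none ^ M * (Δ.eval₂ (RA F).subtype fun s => v (some (some s))) *
          (1 + v (some none) ^ 2) - 1) ^ 2 := sq_nonneg _
    have hD0R : (2 * D0 : ℝ) ≠ 0 := by
      have : (0 : ℝ) < D0 := by exact_mod_cast hD0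
      positivity
    constructor
    · intro h
      have g1 : (H0.eval₂ (RA F).subtype fun s => v (some (some s))) = 0 := by linarith
      have g2 : (2 * D0 * fX E c1 (v none) (pt fun s => v (some (some s)))) ^ 2 = 0 := by
        linarith
      have g3 : (2 * D0 * fX E c2 (v none) (pt fun s => v (some (some s)))) ^ 2 = 0 := by
        linarith
      have g4 : (v none ^ M * (Δ.eval₂ (RA F).subtype fun s => v (some (some s))) *
          (1 + v (some none) ^ 2) - 1) ^ 2 = 0 := by linarith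
      obtain ⟨k1, k2⟩ := (hH4 _).1 g1
      refine ⟨k1, k2, ?_, ?_, ?_⟩
      · exact (mul_eq_zero.1 ((pow_eq_zero_iff two_ne_zero).1 g2)).resolve_left hD0R
      · exact (mul_eq_zero.1 ((pow_eq_zero_iff two_ne_zero).1 g3)).resolve_left hD0R
      · exact sub_eq_zero.1 ((pow_eq_zero_iff two_ne_zero).1 g4)
    · rintro ⟨k1, k2, k3, k4, k5⟩
      rw [(hH4 _).2 ⟨k1, k2⟩, k3, k4, k5]
      norm_num

end Pool.Agent.FrNar
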