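import Pool.Agent.FrNar.Model
import Pool.Agent.FrNar.DicZ

/-! Thresholds for the zeros of the level functions and for the separation of the ratios. -/

set_option autoImplicit false

namespace Pool.Agent.FrNar

open Finset Complex Polynomial
open Pool.Agent.DD7719 Pool.Agent.DD7719.M Pool.Agent.DD7719.M.GS Pool.Agent.MX Pool.Agent.FrUP

private theorem ThrZ_zero {k : ℕ} {l c : ℕ → ℂ} {ex : ℕ → ℕ} {A : Fin k → Fin k → ℤ} {s' j : ℕ}
    {ρ : ℝ} (hρ : 0 < ρ) (h : ∀ i : Fin k, l i = 0) (x : ℝ) (z : Fin k → ℂ) :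
    LevX (fun i : Fin k => l i) (fun i => c i) (fun i => ex i) A s' j ρ x z = 0 := by
  unfold LevX
  refine Finset.sum_eq_zero fun i _ => ?_
  rw [if_neg]
  show ¬ ‖l i‖ = ρ
  rw [h i, norm_zero]
  exact hρ.ne

/-- **Zeros.**

PROOF: `coset_model s` (with the pair `i, i` for an `i` with `l i ≠ 0`; if all `l i` vanish then `LevX = 0` (no
`i` has `‖l i‖ = ρ`) and the hypothesis fails) and `zero_coset (s + 2)` (`E = k`): the zeros of `LevX x` on the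
torus correspond to the zeros of `fX k cc x` on the coset by `W` (`ρ ^ (j - k) ≠ 0`). The threshold:
`(2 + B + k + Dg + Hc) ^ C ≤ ((2 + L) ^ E1) ^ C = (2 + L) ^ (E1 * C)`. -/
theorem zeroThr (s : ℕ) : ∃ E : ℕ, ∀ (k L : ℕ) (_ : k ≤ L) (num numu : ℕ → ℤ)
    (den denu : ℕ → ℕ) (_ : ∀ t, t < k → 0 < den t) (_ : ∀ t, t < k → 0 < denu t)
    (_ : ∀ t, t < k → (num t).natAbs ≤ 2 ^ L) (_ : ∀ t, t < k → den t ≤ 2 ^ L)
    (_ : ∀ t, t < k → (numu t).natAbs ≤ 2 ^ L) (_ : ∀ t, t < k → denu t ≤ 2 ^ L)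
    (a u : ℕ → ℝ) (_ : ∀ t, t < k → a t = (num t : ℝ) / (den t : ℝ))
    (_ : ∀ t, t < k → u t = (numu t : ℝ) / (denu t : ℝ))
    (l c : ℕ → ℂ) (ex : ℕ → ℕ) (_ : RootData k a u l c ex)
    (R M Nb : ℕ) (ε δ : ℝ) (v : ℕ → ℝ)
    (_ : GoodD k (fun i => l i) (fun i => c i) (fun i => ex i) R M ε δ v)
    (n0 j : ℕ) (_ : 0 < n0) (_ : k ≤ j) (ρ : ℝ) (_ : 0 < ρ)
    (_ : ({z | z ∈ Set.range (fun i : Fin k => l i) ∧ ‖z‖ = ρ}).ncard ≤ s)
    (A H : Fin k → Fin k → ℤ) (D : ℤ) (s' : ℕ) (w : Fin k → Fin k → ℝ)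
    (τ : Fin k → ℝ) (y : Fin k → ℝ) (d : ℕ) (_ : Rep (fun i : Fin k => l i) n0 A s' y)
    (_ : BaseF k (fun i => l i) (fun i => c i) (fun i => ex i) M Nb ε δ n0 j A H D s' w τ ρ d)
    (_ : ∀ X : ℝ, ∃ x : ℝ, X < x ∧ ∀ z : Fin k → ℂ, (∀ t, ‖z t‖ = 1) →
      (LevX (fun i : Fin k => l i) (fun i => c i) (fun i => ex i) A s' j ρ x z).re ≠ 0)
    (x : ℝ) (_ : 2 ^ ((2 + L) ^ E) < x) (z : Fin k → ℂ) (_ : ∀ t, ‖z t‖ = 1),
    (LevX (fun i : Fin k => l i) (fun i => c i) (fun i => ex i) A s' j ρ x z).re ≠ 0 := by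
  obtain ⟨E1, h1⟩ := coset_model s
  obtain ⟨C, h2⟩ := zero_coset (s + 2)
  refine ⟨E1 * C, ?_⟩
  intro k L hkL num numu den denu hden hdenu hnum hden' hnumu hdenu' a u ha hu l c ex hR R M Nb ε δ
    v hG n0 j hn0 hkj ρ hρ hs A H D s' w τ y d hrep hB hne x hx z hz
  by_cases hl : ∃ i : Fin k, l i ≠ 0
  · obtain ⟨i, hi⟩ := hl
    obtain ⟨F, hF, P, B, Dg, Hc, D0, cc, S, ζ, a', b', W, hc1, hI, hP, hDg, hD0, hD0', hsz, hint,
      hemb, hSB, hζ, hW, hsur⟩ := h1 k L hkL num numu den denu hden hdenu hnum hden' hnumu hdenu'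
      a u ha hu l c ex hR R M Nb ε δ v hG n0 j hn0 hkj ρ hρ hs A H D s' w τ y d hrep hB i i hi hi
    obtain ⟨hW1, hW2, hW3, -⟩ := hW z hz
    have hρ0 : ρ ^ (j - k) ≠ 0 := pow_ne_zero _ hρ.ne'
    rw [hW3 x]
    refine mul_ne_zero hρ0 ?_
    refine h2 F hc1 hI P B k Dg Hc D0 hP hDg hD0 hD0' cc (fun i e _ => hint i e)
      (fun i e _ φ => hemb i e φ) S hSB ζ hζ ?_ x ?_ (W z) hW1 hW2
    · intro X
      obtain ⟨x', hx', h3⟩ := hne X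
      refine ⟨x', hx', fun w' hw' hw'' => ?_⟩
      obtain ⟨z', hz', rfl⟩ := hsur w' hw' hw''
      have h4 := h3 z' hz'
      rw [(hW z' hz').2.2.1 x'] at h4
      exact right_ne_zero_of_mul h4
    · refine lt_of_le_of_lt ?_ hx
      refine pow_le_pow_right₀ (by norm_num) ?_
      rw [pow_mul]
      exact Nat.pow_le_pow_left hsz C
  · exfalso
    push Not at hl
    obtain ⟨x', -, h3⟩ := hne 0
    apply h3 (fun _ => 1) fun _ => norm_one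
    rw [ThrZ_zero hρ hl]
    rfl

end Pool.Agent.FrNar
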