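import Pool.Agent.FrNar.Torus
import Pool.Agent.FrEight.ClsB
import Pool.Agent.FrNar.Defs

/-! The modulus and the torus of an instance. -/

set_option autoImplicit false

namespace Pool.Agent.UltPos

open Pool.Agent.PT Pool.Agent.AllR Pool.Agent.DD7719.M Pool.Agent.DD7719 Finset Pool.Agent.FrUP

/-- a modulus and a torus for the roots `l`, for all coefficients, exponents, classes and levels -/
structure TorOK (k L : ℕ) (l : Fin k → ℂ) (n0 : ℕ) (A H : Fin k → Fin k → ℤ) (D : ℤ) (s : ℕ)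
    (w : Fin k → Fin k → ℝ) (τ y : Fin k → ℝ) : Prop where
  pos : 0 < n0
  le : n0 ≤ 2 ^ (1 + 2 * L * L + (pdl L + 3) * L)
  tor : ∀ i i' : Fin k, ‖l i‖ = ‖l i'‖ → l i ^ n0 ≠ l i' ^ n0 → ∀ n : ℕ, 0 < n → l i ^ n ≠ l i' ^ n
  rep : Rep l n0 A s y
  base : ∀ (c : Fin k → ℂ) (ex : Fin k → ℕ) (j : ℕ) (ρ : ℝ) (d : ℕ), k ≤ j → j < k + n0 → 0 ≤ ρ →
    d < k → (open scoped Classical in ∀ m < k, ∑ i, (if Above ρ d (l i) (ex i) then
      c i * ((j + n0 * m).choose (ex i) : ℂ) * l i ^ (j + n0 * m - ex i) else 0) = 0) →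
    BaseF k l c ex (2 ^ pmh L) (2 ^ (1 + 2 * L * L + (pdl L + 3) * L))
      (2 / ((2 ^ pq L : ℕ) : ℝ)) (1 / 2 ^ pdl L) n0 j A H D s w τ ρ d

section
variable (I : Inst) (L : ℕ) (hkL : I.k ≤ L)
    (hb : ∀ i, (I.aNum i).natAbs ≤ 2 ^ L ∧ I.aDen i ≤ 2 ^ L) (aR uR : ℕ → ℝ)
    (ha : ∀ t (h : t < I.k), aR t = (I.a ⟨t, h⟩ : ℝ)) (hu : ∀ t (h : t < I.k), uR t = (I.u ⟨t, h⟩ : ℝ))

include hkL hb ha hu in
/-- PROOF: as the first part of `Inst.exists_clsX` (`FrEight/Cls.lean`), with `class_data1`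
(`FrNar/Torus.lean`) instead of `class_data0`. For `base`: apply the last part of `class_data1` to
`(fun i => c i)`, `(fun i => ex i)` and the sequence `v` of the instance (`I.exists_unique_seq`, `I.all'`) and the class
`j`; both cases contain a `BaseF` for the same `n0, j, A, H, D, s, w, τ`, whose conditions up to the bound of
`w` do not depend on the coefficients, exponents and level; put them together with the given conditions. -/
theorem Inst.exists_torOK {l c : ℕ → ℂ} {ex : ℕ → ℕ} (hrd : RootData I.k aR uR l c ex) :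
    ∃ (n0 : ℕ) (A H : Fin I.k → Fin I.k → ℤ) (D : ℤ) (s : ℕ) (w : Fin I.k → Fin I.k → ℝ)
      (τ y : Fin I.k → ℝ), TorOK I.k L (fun i => l i) n0 A H D s w τ y := by
  classical
  obtain ⟨v, hv, -⟩ := I.exists_unique_seq
  obtain ⟨e, he0, hele, htor⟩ := torsion_of_roots I.k I.num I.den I.den_pos' (fun i => l i)
    (I.root_eq' aR uR ha hrd)
  obtain ⟨n0, A, H, D, s, w, τ, y, hn0, hn0Nb, hen0, hrep, hdata⟩ :=
    FrNar.class_data1 (k := I.k) (fun i => l i) (2 ^ pr L)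
      (2 ^ pq L) (2 ^ pmh L) (2 ^ (pdl L + 3)) e (2 ^ (1 + 2 * L * L + (pdl L + 3) * L)) I.kpos
      Nat.one_le_two_pow
      (le_trans (by
        have : 2 * I.k * 2 ^ pr L ≤ 8 * I.k * 2 ^ pr L := by
          gcongr
          norm_num
        exact this) (pQ_le hkL)) (pMH_le hkL) (1 / 2 ^ pdl L) (by positivity) (pd2 hkL) (pd4 hkL)
      (pd3 hkL) (by positivity) (pd5 L) he0 (pNb_le hkL hele) (I.relBound' L hkL hb aR uR ha hrd)
  refine ⟨n0, A, H, D, s, w, τ, y, hn0, hn0Nb, ?_, hrep, ?_⟩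
  · intro i i' hii hne n hn heq
    have hi' : l i' ≠ 0 := by
      intro h0
      rw [h0, norm_zero, norm_eq_zero] at hii
      apply hne
      rw [hii, h0]
    have hi : l i ≠ 0 := by
      intro h0
      rw [h0, norm_zero] at hii
      exact hi' (norm_eq_zero.mp hii.symm)
    have h1 := htor i i' hi hi' ⟨n, hn, by rw [div_pow, heq, div_self (pow_ne_zero _ hi')]⟩
    apply hne
    obtain ⟨r, hr⟩ := hen0
    rw [div_pow, div_eq_one_iff_eq (pow_ne_zero _ hi')] at h1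
    rw [hr, pow_mul, pow_mul, h1]
  · intro c' ex' j ρ d hj hj' hρ hd hvan
    have key : ∀ (ρ' : ℝ) (d' : ℕ), BaseF I.k (fun i => l i) (fun i => c i) (fun i => ex i)
        (2 ^ pmh L) (2 ^ (1 + 2 * L * L + (pdl L + 3) * L)) (2 / ((2 ^ pq L : ℕ) : ℝ))
        (1 / 2 ^ pdl L) n0 j A H D s w τ ρ' d' →
        BaseF I.k (fun i => l i) c' ex' (2 ^ pmh L) (2 ^ (1 + 2 * L * L + (pdl L + 3) * L))
        (2 / ((2 ^ pq L : ℕ) : ℝ)) (1 / 2 ^ pdl L) n0 j A H D s w τ ρ d := by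
      rintro ρ' d' ⟨h1, h2, h3, h4, h5, h6, h7, h8, h9, h10, h11, h12, h13, -, -, -⟩
      exact ⟨h1, h2, h3, h4, h5, h6, h7, h8, h9, h10, h11, h12, h13, hρ, hd, hvan⟩
    rcases hdata (fun i => c i) (fun i => ex i) (fun i => hrd.1 i i.2)
        (fun n => ((v n : ℚ) : ℝ)) (I.all' aR uR ha hu v hv hrd) j hj hj' with hb0 |
        ⟨i0, hbase, -, -, -⟩
    · exact key _ _ hb0
    · exact key _ _ hbase

end

end Pool.Agent.UltPos
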