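import Pool.Agent.DD7719.NComplete

/-! Class data with the modulus and the torus chosen first. -/

set_option autoImplicit false

namespace Pool.Agent.FrNar

open Complex Filter Topology
open Pool.Agent.DD7719 Pool.Agent.DD7719.M Pool.Agent.DD7719.M.GS

variable {k : ℕ}

open scoped Classical in
/-- **Class data, with the modulus and the torus chosen before the coefficients, the exponents, the
sequence and the class.** Same proof as `class_data0`. -/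
theorem class_data1 (l : Fin k → ℂ) (R Q MH Q' e Nb : ℕ) (hk : 0 < k)
    (hR : 1 ≤ R)
    (hQ : 2 * k * R ≤ Q) (hMH : k.factorial * (Q ^ k + 1) ^ k ≤ MH) (δ : ℝ)
    (hδ0 : 0 ≤ δ) (hδ1 : 2 * k * MH * δ ≤ 1)
    (hδ2 : (k : ℝ) ^ 4 * (Q ^ k + 1) * Q ^ (k + 1) * MH ^ 3 * δ ^ 2 ≤ 1)
    (hδ3 : 2 * (k : ℝ) * R * δ ≤ 1)
    (hQ' : 0 < Q') (hδQ' : 7 / (Q' : ℝ) ≤ δ) (he : 0 < e) (hNb : e * Q' ^ k ≤ Nb)
    (hrb : RelBound k l R) :
    ∃ (n0 : ℕ) (A H : Fin k → Fin k → ℤ) (D : ℤ) (s : ℕ) (w : Fin k → Fin k → ℝ)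
      (τ : Fin k → ℝ) (x : Fin k → ℝ), 0 < n0 ∧ n0 ≤ Nb ∧ e ∣ n0 ∧ Rep l n0 A s x ∧
      ∀ (c : Fin k → ℂ) (ex : Fin k → ℕ) (_ : ∀ i, ex i < k) (v : ℕ → ℝ)
        (_ : ∀ n, ∑ i, c i * (n.choose (ex i) : ℂ) * l i ^ (n - ex i) = (v n : ℂ)) (j : ℕ),
        k ≤ j → j < k + n0 →
        (BaseF k l c ex MH Nb (2 / Q) δ n0 j A H D s w τ 0 0 ∨
        ∃ i0 : Fin k, BaseF k l c ex MH Nb (2 / Q) δ n0 j A H D s w τ ‖l i0‖ (ex i0) ∧
          l i0 ≠ 0 ∧
          (∃ z' : Fin k → ℂ, (∀ t, ‖z' t‖ = 1) ∧ (LevF l c ex A s j (ex i0) ‖l i0‖ z').re ≠ 0) ∧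
          (∀ m, ∑ i, (if Above ‖l i0‖ (ex i0) (l i) (ex i) then
            c i * ((j + n0 * m).choose (ex i) : ℂ) * l i ^ (j + n0 * m - ex i) else 0) = 0)) := by
  classical
  obtain ⟨t, ht, htQ, htδ⟩ := exists_n0 (fun i => nz (l i)) (fun i => norm_nz _) e Q' hQ'
  set n0 := e * t with hn0def
  have hn0 : 0 < n0 := by positivity
  have hn0Nb : n0 ≤ Nb := (Nat.mul_le_mul_left e htQ).trans hNb
  set μ : Fin k → ℂ := fun i => nz (l i) ^ n0 with hμ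
  have hμn : ∀ i, ‖μ i‖ = 1 := fun i => by rw [hμ]; simp only [norm_pow, norm_nz, one_pow]
  have hμδ : ∀ i, ‖μ i - 1‖ ≤ δ := fun i => (htδ i).trans hδQ'
  set θ : Fin k → ℝ := fun i => (μ i).arg with hθ
  have hθδ : ∀ i, |θ i| ≤ 2 * δ := fun i =>
    (abs_arg_le (hμn i)).trans (by have := hμδ i; linarith)
  have hprodμ : ∀ g : Fin k → ℤ, ∏ i, μ i ^ g i = exp ((∑ i, (g i : ℝ) * θ i : ℝ) * I) :=
    prod_zpow_eq_exp hμn
  have hprodμ' : ∀ g : Fin k → ℤ, ∏ i, μ i ^ g i = (∏ i, nz (l i) ^ g i) ^ n0 :=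
    fun g => prod_pow_zpow (fun i => nz (l i)) g n0
  have hrel : ∀ a : Fin k → ℤ, (∀ g : Fin k → ℤ, (∀ i, |g i| ≤ R) →
      ∑ t, (g t : ℝ) * θ t = 0 → ∑ t, a t * g t = 0) →
      ∀ g : Fin k → ℤ, ∑ t, (g t : ℝ) * θ t = 0 → ∑ t, a t * g t = 0 := by
    intro a ha g hg
    have h1 := hrb a (by
      intro g hg hrel
      apply ha g hg
      have h2 : (∏ i, μ i ^ g i) ^ 2 = 1 := by
        rw [hprodμ', ← pow_mul, mul_comm, pow_mul, hrel, one_pow]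
      rw [hprodμ] at h2
      apply eq_zero_of_exp_sq h2
      calc |∑ i, (g i : ℝ) * θ i| ≤ ∑ i, |(g i : ℝ) * θ i| := Finset.abs_sum_le_sum_abs _ _
        _ ≤ ∑ _i : Fin k, (R : ℝ) * (2 * δ) := by
            apply Finset.sum_le_sum
            intro i _
            rw [abs_mul]
            have h3 : |(g i : ℝ)| ≤ R := by exact_mod_cast hg i
            exact mul_le_mul h3 (hθδ i) (abs_nonneg _) (by positivity)
        _ = 2 * (k : ℝ) * R * δ := by simp; ring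
        _ ≤ 1 := hδ3
        _ < Real.pi := by have := Real.pi_gt_three; linarith)
    have h2 : (∏ i, nz (l i) ^ g i) ^ n0 = 1 := by
      rw [← hprodμ', hprodμ, hg]
      simp
    have h3 := h1 (fun i => n0 * g i) (by
      have h4 : ∏ i, nz (l i) ^ ((n0 : ℤ) * g i) = (∏ i, nz (l i) ^ g i) ^ n0 := by
        rw [← Finset.prod_pow]
        apply Finset.prod_congr rfl
        intro i _
        rw [mul_comm, zpow_mul, zpow_natCast]
      rw [h4, h2, one_pow])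
    have h4 : (n0 : ℤ) * ∑ i, a i * g i = 0 := by
      rw [← h3, Finset.mul_sum]
      exact Finset.sum_congr rfl fun i _ => by ring
    rcases mul_eq_zero.mp h4 with h5 | h5
    · exact absurd h5 (by exact_mod_cast hn0.ne')
    · exact h5
  obtain ⟨s, A, H, D, w, τ, hs, hD, hDM, hHA, hA, hH, hw, hwε, _, x, hx0, hx⟩ :=
    exists_rel_cert R Q MH hR hQ hk θ hrel δ hδ0 hθδ hMH hδ1 hδ2
  have hAM : ∀ l' t, |A l' t| ≤ MH := by
    intro l' t
    refine (hA l' t).trans ?_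
    have h1 : Q ^ k + 1 ≤ MH := by
      refine le_trans ?_ hMH
      calc Q ^ k + 1 = 1 * (Q ^ k + 1) ^ 1 := by ring
        _ ≤ k.factorial * (Q ^ k + 1) ^ k :=
            Nat.mul_le_mul k.factorial_pos (Nat.pow_le_pow_right (by omega) hk)
    exact_mod_cast h1
  have hw' : ∀ i : Fin k, (i : ℕ) < s → ∀ l', i ≤ l' → ∑ t, (H l' t : ℝ) * w i t =
      (if l' = i then (D : ℝ) else 0) - τ i * (∏ t, (nz (l t) ^ n0) ^ H l' t).im := by
    intro i hi l' hl'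
    rw [hw i hi l' hl']
    have := hprodμ (H l')
    rw [show (∏ t, (nz (l t) ^ n0) ^ H l' t) = ∏ t, μ t ^ H l' t from rfl, this, im_exp]
  have hrep : Rep l n0 A s x := ⟨hx0, hx⟩
  refine ⟨n0, A, H, D, s, w, τ, x, hn0, hn0Nb, dvd_mul_right _ _, hrep, fun c ex hex v hv j hj hj' => ?_⟩
  have hexj : ∀ i, ex i ≤ j := fun i => ((hex i).le.trans hj)
  rcases level_cases l c ex n0 j hn0 hexj with hvan | ⟨i0, hi0, hG, hvan⟩
  · left
    refine ⟨hn0, hn0Nb, hj, hj', hs, hD,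
        hDM, hHA, hAM, hH, hμδ, hw', hwε, le_rfl, hk, ?_⟩
    intro m _
    refine Eq.trans (Finset.sum_congr rfl fun i _ => ?_) (hvan m)
    unfold Above
    by_cases h : l i = 0
    · simp [h]
    · have h1 : 0 < ‖l i‖ := norm_pos_iff.mpr h
      rw [if_pos (Or.inl h1), if_pos h]
  · right
    have hρ : 0 < ‖l i0‖ := norm_pos_iff.mpr hi0
    have hbase : BaseF k l c ex MH Nb (2 / Q) δ n0 j A H D s w τ ‖l i0‖ (ex i0) :=
      ⟨hn0, hn0Nb, hj, hj', hs, hD, hDM, hHA, hAM, hH, hμδ, hw', hwε, hρ.le, hex i0,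
        fun m _ => hvan m⟩
    have hval : ∀ m : ℕ, levelSum l c ex n0 j ‖l i0‖ (ex i0) m =
        LevF l c ex A s j (ex i0) ‖l i0‖ (orb x m) := fun m =>
      levelSum_eq l c ex n0 j (ex i0) ‖l i0‖ s A x hx0 hx m
    have hlev := level_asym l c ex n0 j hn0 hexj ‖l i0‖ (ex i0) hρ hvan
    have hasym : Tendsto (fun M : ℕ => ((v (j + n0 * M) : ℝ) : ℂ) /
        ((‖l i0‖ ^ (n0 * M) * (M : ℝ) ^ (ex i0) : ℝ) : ℂ) -
      ((((j + n0 * M).choose (ex i0) : ℝ) / (M : ℝ) ^ (ex i0) : ℝ) : ℂ) *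
        levelSum l c ex n0 j ‖l i0‖ (ex i0) M)
      atTop (𝓝 0) := by
      refine hlev.congr fun M => ?_
      rw [hv]
    obtain ⟨-, -, h3, -⟩ := level_data l c ex n0 j hn0 v ‖l i0‖ (ex i0) hρ hasym
    have hnt := levelSum_not_tendsto l c ex n0 j hn0 i0 hi0 hG 1 0 (fun i _ h => by simpa using h)
    have hM : ∃ M, (levelSum l c ex n0 j ‖l i0‖ (ex i0) M).re ≠ 0 := by
      by_contra hcon
      push Not at hcon
      apply hnt
      simpa using h3 hcon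
    obtain ⟨M, hM⟩ := hM
    rw [hval] at hM
    exact ⟨i0, hbase, hi0, ⟨orb x M, norm_orb x M, hM⟩, hvan⟩

end Pool.Agent.FrNar
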