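import Pool.Agent.FrNar.UDef
import Pool.Agent.FrEight.Frz
import Pool.Agent.FrozenUP.NonCrit
import Pool.Agent.DD7719.NNar

/-! Completeness, first part: values of the level functions on the orbit. -/

set_option autoImplicit false

namespace Pool.Agent.FrUP

open Complex Filter Topology
open Pool.Agent.DD7719.M Pool.Agent.DD7719.M.GS Pool.Agent.DD7719

variable {k : ℕ}

/-- the level function on the orbit -/
lemma levX_orb (l c : Fin k → ℂ) (ex : Fin k → ℕ) {n0 : ℕ} (j : ℕ) {A : Fin k → Fin k → ℤ} {s : ℕ}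
    {y : Fin k → ℝ} (hrep : Rep l n0 A s y) (ρ x : ℝ) (m : ℕ) :
    LevX l c ex A s j ρ x (orb y m) = SX l c ex n0 j ρ x m := by
  unfold LevX SX
  refine Finset.sum_congr rfl fun i _ => ?_
  rw [hrep.Wt_orb]

/-- Where the coefficient polynomial of a root of the circle `‖l i0‖` does not vanish, the level
function does not vanish on the orbit. -/
theorem exists_orb_ne (l c : Fin k → ℂ) (ex : Fin k → ℕ) (hk : 0 < k) (hex : ∀ i, ex i < k)
    (v : ℕ → ℝ)
    (hv : ∀ n, ∑ i, c i * (n.choose (ex i) : ℂ) * l i ^ (n - ex i) = (v n : ℂ))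
    (n0 j : ℕ) (hn0 : 0 < n0) (hj : k ≤ j) (A : Fin k → Fin k → ℤ) (s : ℕ) (y : Fin k → ℝ)
    (hrep : Rep l n0 A s y) (i0 : Fin k) (hi0 : l i0 ≠ 0)
    (hgP : ∀ i, ‖l i0‖ < ‖l i‖ → gP l c ex n0 j (l i ^ n0) = 0) (x : ℝ)
    (hev : (gP l c ex n0 j (l i0 ^ n0)).eval (x : ℂ) ≠ 0) :
    ∃ m : ℕ, (LevX l c ex A s j ‖l i0‖ x (orb y m)).re ≠ 0 := by
  classical
  by_contra hcon
  push Not at hcon
  apply hev
  have hρ : 0 < ‖l i0‖ := norm_pos_iff.mpr hi0
  have hexj : ∀ i, ex i ≤ j := fun i => (hex i).le.trans hj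
  have hfv : ∀ n, ∑ i, fc l c ex x i * (n.choose ((fun _ : Fin k => 0) i) : ℂ) *
      l i ^ (n - (fun _ : Fin k => 0) i) = (((fs l c ex x n).re : ℝ) : ℂ) := by
    intro n
    rw [← fs_real l c ex hk hex v hv x n, fs]
    refine Finset.sum_congr rfl fun i _ => ?_
    rw [Nat.choose_zero_right, Nat.sub_zero, Nat.cast_one, mul_one]
  have h1 := fun m => level_zero l (fc l c ex x) (fun _ => 0) n0 j hn0 (fun _ => Nat.zero_le _)
    (fun n => (fs l c ex x n).re) hfv ‖l i0‖ 0 hρ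
    (van_frz l c ex n0 j hn0 hexj ‖l i0‖ hρ.le hgP x) (fun m => by
      rw [levelSum_frz l c ex n0 j hexj ‖l i0‖ hρ x m, ← levX_orb l c ex j hrep]
      exact hcon m) m
  refine gP_eval_eq_zero l c ex n0 j (fun i => ‖l i‖ = ‖l i0‖) (by
    intro i i' h h'
    rwa [← norm_eq_of_pow_eq hn0 h]) (fun i h => norm_pos_iff.mp (by rw [h]; exact hρ)) (x : ℂ)
    (fun m => ?_) i0 rfl
  refine Eq.trans (Finset.sum_congr rfl fun i _ => ?_) (h1 m)
  by_cases h : ‖l i‖ = ‖l i0‖
  · have h3 : l i ≠ 0 := norm_pos_iff.mp (by rw [h]; exact hρ)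
    rw [if_pos h, if_pos ⟨h, rfl⟩, Nat.choose_zero_right, Nat.cast_one, mul_one, Nat.sub_zero,
      pow_add, ← mul_assoc, fc_mul_pow l c ex x j i (hexj i) h3, bcP_eval_real, pow_mul]
  · rw [if_neg h, if_neg (fun h' => h h'.1)]

open scoped Classical in
/-- If the frozen sums over a set of roots containing the circle of radius `ρ` vanish at `x`, so
does the level function on the orbit. -/
theorem orb_zero_of_van (l c : Fin k → ℂ) (ex : Fin k → ℕ) (n0 j : ℕ) (hn0 : 0 < n0)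
    (hexj : ∀ i, ex i ≤ j) (A : Fin k → Fin k → ℤ) (s : ℕ) (y : Fin k → ℝ)
    (hrep : Rep l n0 A s y) (ρ : ℝ) (hρ : 0 < ρ) (x : ℝ) (q : Fin k → Prop)
    [DecidablePred q] (hq : ∀ i i', l i ^ n0 = l i' ^ n0 → q i → q i') (hq0 : ∀ i, q i → l i ≠ 0)
    (hqρ : ∀ i, ‖l i‖ = ρ → q i)
    (h : ∀ m : ℕ, ∑ i, (if q i then fc l c ex x i * l i ^ (j + n0 * m) else 0) = 0) (m : ℕ) :
    LevX l c ex A s j ρ x (orb y m) = 0 := by
  have hg : ∀ i, q i → (gP l c ex n0 j (l i ^ n0)).eval (x : ℂ) = 0 := by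
    intro i hi
    refine gP_eval_eq_zero l c ex n0 j q hq hq0 (x : ℂ) (fun m => ?_) i hi
    refine Eq.trans (Finset.sum_congr rfl fun i _ => ?_) (h m)
    by_cases h' : q i
    · rw [if_pos h', if_pos h', pow_add, ← mul_assoc, fc_mul_pow l c ex x j i (hexj i) (hq0 i h'),
        bcP_eval_real, pow_mul]
    · rw [if_neg h', if_neg h']
  rw [levX_orb l c ex j hrep, SX]
  have h1 := sum_grp l c ex n0 j (fun i => ‖l i‖ = ρ) (by
    intro i i' h h'
    rwa [← norm_eq_of_pow_eq hn0 h]) (x : ℂ) (fun X => X ^ m / ((ρ : ℂ) ^ (n0 * m)))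
  have h2 : ∑ X ∈ (Finset.univ.filter (fun i => ‖l i‖ = ρ)).image (fun i => l i ^ n0),
      (gP l c ex n0 j X).eval (x : ℂ) * (X ^ m / ((ρ : ℂ) ^ (n0 * m))) = 0 := by
    apply Finset.sum_eq_zero
    intro X hX
    obtain ⟨i, hi, rfl⟩ := Finset.mem_image.mp hX
    rw [hg i (hqρ i (Finset.mem_filter.mp hi).2), zero_mul]
  rw [h2] at h1
  refine Eq.trans (Finset.sum_congr rfl fun i _ => ?_) h1
  by_cases h' : ‖l i‖ = ρ
  · have h3 : l i ≠ 0 := norm_pos_iff.mp (by rw [h']; exact hρ)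
    have h4 : (ρ : ℂ) ≠ 0 := by exact_mod_cast hρ.ne'
    rw [if_pos h', if_pos h', bcP_eval_real]
    congr 1
    rw [nz, if_neg h3, h', div_pow, div_pow, ← pow_mul, ← pow_mul]
  · rw [if_neg h', if_neg h']

/-- **Close points of the orbit.** For a ratio which is not a root of unity there are two points of
the orbit with distinct, arbitrarily close values of the corresponding character. -/
theorem exists_close_orb (l : Fin k → ℂ) (n0 : ℕ) (hn0 : 0 < n0) (A : Fin k → Fin k → ℤ) (s : ℕ)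
    (y : Fin k → ℝ) (hrep : Rep l n0 A s y) (i i' : Fin k) (hii : ‖l i‖ = ‖l i'‖)
    (hnt : ∀ n : ℕ, 0 < n → l i ^ n ≠ l i' ^ n) (δ : ℝ) (hδ : 0 < δ) :
    ∃ m1 m2 : ℕ, Wt A s (orb y m1) i / Wt A s (orb y m1) i' ≠
        Wt A s (orb y m2) i / Wt A s (orb y m2) i' ∧
      ‖Wt A s (orb y m1) i / Wt A s (orb y m1) i' -
        Wt A s (orb y m2) i / Wt A s (orb y m2) i'‖ ≤ δ := by
  have hi' : l i' ≠ 0 := by
    intro h0
    rw [h0, norm_zero, norm_eq_zero] at hii
    exact hnt 1 one_pos (by rw [hii, h0])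
  have hγ := unit_of_ratio _ _ hii hi'
  by_contra hcon
  push Not at hcon
  have hfin : (Set.range fun m : ℕ => (l i / l i') ^ (n0 * m)).Finite := by
    apply finite_of_sep _ _ δ hδ
    · rintro _ ⟨m1, rfl⟩ _ ⟨m2, rfl⟩ hne
      have h1 := hcon m1 m2
      rw [hrep.chi_orb m1 i i' hii hi', hrep.chi_orb m2 i i' hii hi'] at h1
      exact h1 hne
    · rintro _ ⟨m1, rfl⟩
      rw [mem_sphere_zero_iff_norm]
      dsimp only
      rw [norm_pow, hγ, one_pow]
  have hinj : Function.Injective fun m : ℕ => (l i / l i') ^ (n0 * m) := by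
    intro m1 m2 h
    simp only at h
    by_contra hne
    have hγ0 : l i / l i' ≠ 0 := by
      rw [← norm_ne_zero_iff, hγ]
      exact one_ne_zero
    have key : ∀ a b : ℕ, a < b → (l i / l i') ^ (n0 * a) = (l i / l i') ^ (n0 * b) → False := by
      intro a b hab h
      obtain ⟨r, rfl⟩ := Nat.exists_eq_add_of_lt hab
      have h1 : (l i / l i') ^ (n0 * (a + r + 1)) =
          (l i / l i') ^ (n0 * a) * (l i / l i') ^ (n0 * (r + 1)) := by
        rw [← pow_add]
        congr 1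
        ring
      rw [h1] at h
      have h2 : (l i / l i') ^ (n0 * (r + 1)) = 1 := by
        have h3 : (l i / l i') ^ (n0 * a) * 1 =
            (l i / l i') ^ (n0 * a) * (l i / l i') ^ (n0 * (r + 1)) := by rw [mul_one]; exact h
        exact (mul_left_cancel₀ (pow_ne_zero _ hγ0) h3).symm
      rw [div_pow, div_eq_one_iff_eq (pow_ne_zero _ hi')] at h2
      exact hnt _ (by positivity) h2
    rcases lt_or_gt_of_ne hne with h' | h'
    · exact key m1 m2 h' h
    · exact key m2 m1 h' h.symm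
  exact Set.infinite_range_of_injective hinj hfin

end Pool.Agent.FrUP
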