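import Pool.Agent.FrNar.UCmp1

/-! Completeness, second part: the class data in the absence of certificates. -/

set_option autoImplicit false

namespace Pool.Agent.FrUP

open Complex Filter Topology
open Pool.Agent.DD7719.M Pool.Agent.DD7719.M.GS Pool.Agent.DD7719

variable {k : ℕ}

open scoped Classical in
/-- **Class data without certificates.** -/
theorem class_dataU (l c : Fin k → ℂ) (ex : Fin k → ℕ) (R Q MH Q' e0 Nb : ℕ) (hk : 0 < k)
    (hex : ∀ i, ex i < k)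
    (hR : 1 ≤ R)
    (hQ : 2 * k * R ≤ Q) (hMH : k.factorial * (Q ^ k + 1) ^ k ≤ MH) (δ : ℝ)
    (hδ0 : 0 ≤ δ) (hδ1 : 2 * k * MH * δ ≤ 1)
    (hδ2 : (k : ℝ) ^ 4 * (Q ^ k + 1) * Q ^ (k + 1) * MH ^ 3 * δ ^ 2 ≤ 1)
    (hδ3 : 2 * (k : ℝ) * R * δ ≤ 1)
    (hQ' : 0 < Q') (hδQ' : 7 / (Q' : ℝ) ≤ δ) (he0 : 0 < e0) (hNb : e0 * Q' ^ k ≤ Nb)
    (hrb : RelBound k l R)
    (htor : ∀ i i', l i ≠ 0 → l i' ≠ 0 → (∃ n : ℕ, 0 < n ∧ (l i / l i') ^ n = 1) →
      (l i / l i') ^ e0 = 1)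
    (v : ℕ → ℝ)
    (hv : ∀ n, ∑ i, c i * (n.choose (ex i) : ℂ) * l i ^ (n - ex i) = (v n : ℂ)) (X : ℝ) (e : ℕ)
    (hno : ¬ CertFF k l c ex MH Nb (2 / Q) δ X e) :
    ∃ n0 : ℕ, 0 < n0 ∧ n0 ≤ Nb ∧ e0 ∣ n0 ∧
      (∀ i i', ‖l i‖ = ‖l i'‖ → l i ^ n0 ≠ l i' ^ n0 → ∀ n : ℕ, 0 < n → l i ^ n ≠ l i' ^ n) ∧
      ∀ j, k ≤ j → j < k + n0 → ClsU k l c ex MH Nb (2 / Q) δ X e n0 j := by
  obtain ⟨n0, hn0, hn0Nb, hen0, hdata⟩ := class_data0 l c ex R Q MH Q' e0 Nb hk hex hR hQ hMH δ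
    hδ0 hδ1 hδ2 hδ3 hQ' hδQ' he0 hNb hrb v hv
  have hnt : ∀ i i', ‖l i‖ = ‖l i'‖ → l i ^ n0 ≠ l i' ^ n0 →
      ∀ n : ℕ, 0 < n → l i ^ n ≠ l i' ^ n := by
    intro i i' hii hne n hn heq
    have hi' : l i' ≠ 0 := by
      intro h0
      rw [h0, norm_zero, norm_eq_zero] at hii
      apply hne
      rw [hii, h0]
    have hi : l i ≠ 0 := by
      intro h0
      rw [h0, norm_zero] at hii
      exact hi' (norm_eq_zero.mp hii.symm)
    have h1 := htor i i' hi hi' ⟨n, hn, by rw [div_pow, heq, div_self (pow_ne_zero _ hi')]⟩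
    apply hne
    obtain ⟨r, hr⟩ := hen0
    rw [div_pow, div_eq_one_iff_eq (pow_ne_zero _ hi')] at h1
    rw [hr, pow_mul, pow_mul, h1]
  refine ⟨n0, hn0, hn0Nb, hen0, hnt, fun j hj hj' => ?_⟩
  obtain ⟨A, H, D, s, w, τ, y, hrep, hcase⟩ := hdata j hj hj'
  have hexj : ∀ i, ex i ≤ j := fun i => ((hex i).le.trans hj)
  -- base data at all levels
  have hbase : ∀ ρ : ℝ, 0 ≤ ρ → (∀ i, ρ < ‖l i‖ → gP l c ex n0 j (l i ^ n0) = 0) →
      BaseF k l c ex MH Nb (2 / Q) δ n0 j A H D s w τ ρ (k - 1) := by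
    intro ρ hρ hg
    have hvan : ∀ m < k, ∑ i, (if Above ρ (k - 1) (l i) (ex i) then
        c i * ((j + n0 * m).choose (ex i) : ℂ) * l i ^ (j + n0 * m - ex i) else 0) = 0 := by
      intro m _
      have h1 := sum_eq_zero_of_gP l c ex n0 j hexj (fun i => ρ < ‖l i‖) (by
        intro i i' h h'
        rwa [← norm_eq_of_pow_eq hn0 h]) hg m
      refine Eq.trans (Finset.sum_congr rfl fun i _ => ?_) h1
      have h2 : Above ρ (k - 1) (l i) (ex i) ↔ ρ < ‖l i‖ := above_iff (by omega) (hex i)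
      simp only [h2]
    rcases hcase with hb | ⟨i0, hb, _⟩
    · exact BaseF_change hb ρ (k - 1) hρ (by omega) hvan
    · exact BaseF_change hb ρ (k - 1) hρ (by omega) hvan
  have hkk : k - 1 + 1 = k := by omega
  -- the level
  obtain ⟨i0, hi0, hgi0, hgP⟩ : ∃ i0 : Fin k, l i0 ≠ 0 ∧ gP l c ex n0 j (l i0 ^ n0) ≠ 0 ∧
      ∀ i, ‖l i0‖ < ‖l i‖ → gP l c ex n0 j (l i ^ n0) = 0 := by
    by_cases hT : ((Finset.univ : Finset (Fin k)).filter
        fun i => l i ≠ 0 ∧ gP l c ex n0 j (l i ^ n0) ≠ 0).Nonempty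
    · obtain ⟨i0, hi0, hmax⟩ := Finset.exists_max_image _ (fun i => ‖l i‖) hT
      have h1 := (Finset.mem_filter.mp hi0).2
      refine ⟨i0, h1.1, h1.2, fun i hi => ?_⟩
      by_contra hne
      have h2 := hmax i (Finset.mem_filter.mpr ⟨Finset.mem_univ _,
        norm_pos_iff.mp ((norm_nonneg _).trans_lt hi), hne⟩)
      exact absurd hi (not_lt.mpr h2)
    · exfalso
      rw [Finset.not_nonempty_iff_eq_empty, Finset.filter_eq_empty_iff] at hT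
      apply hno
      refine ⟨n0, j, A, H, D, s, w, τ, 0, k - 1, fun _ => 1, fun _ => 1, hbase 0 le_rfl ?_,
        fun _ => norm_one, fun _ => norm_one, hkk, Or.inl rfl⟩
      intro i hi
      by_contra hne
      exact hT (Finset.mem_univ i) ⟨norm_pos_iff.mp hi, hne⟩
  have hρ : 0 < ‖l i0‖ := norm_pos_iff.mpr hi0
  have hb0 := hbase ‖l i0‖ hρ.le hgP
  -- a point where the level function does not vanish
  obtain ⟨x', hx', m', hm'⟩ : ∃ x' : ℝ, X ≤ x' ∧ ∃ m : ℕ,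
      (LevX l c ex A s j ‖l i0‖ x' (orb y m)).re ≠ 0 := by
    have h1 : ∃ x' : ℝ, X ≤ x' ∧ (gP l c ex n0 j (l i0 ^ n0)).eval (x' : ℂ) ≠ 0 := by
      by_contra hcon
      push Not at hcon
      apply hgi0
      apply Polynomial.eq_zero_of_infinite_isRoot
      have h2 : ((fun x : ℝ => (x : ℂ)) '' Set.Ici X).Infinite :=
        (Set.Ici_infinite X).image (Complex.ofReal_injective.injOn)
      refine h2.mono ?_
      rintro _ ⟨x, hx, rfl⟩
      exact hcon x hx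
    obtain ⟨x', hx', hev⟩ := h1
    exact ⟨x', hx', exists_orb_ne l c ex hk hex v hv n0 j hn0 hj A s y hrep i0 hi0 hgP x' hev⟩
  -- nonnegativity
  have hnn : ∀ ρ : ℝ, 0 < ρ → (∀ i, ρ < ‖l i‖ → gP l c ex n0 j (l i ^ n0) = 0) → ∀ x : ℝ, X ≤ x →
      ∀ z : Fin k → ℂ, (∀ t, ‖z t‖ = 1) → 0 ≤ (LevX l c ex A s j ρ x z).re := by
    intro ρ hρ hg x hx z hz
    by_contra hcon
    push Not at hcon
    exact hno ⟨n0, j, A, H, D, s, w, τ, ρ, k - 1, z, z, hbase ρ hρ.le hg, hz, hz, hkk,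
      Or.inr ⟨x, x, hx, hx, hcon.ne, Or.inl hcon⟩⟩
  refine ⟨A, H, D, s, w, τ, y, i0, hrep, hb0, hi0, hgP, ?_, hnn, ?_⟩
  · -- no drop of the level
    intro x hx
    by_contra hcon
    push Not at hcon
    apply hno
    refine ⟨n0, j, A, H, D, s, w, τ, ‖l i0‖, k - 1, orb y 0, orb y m', hb0, norm_orb y 0,
      norm_orb y m', hkk, Or.inr ⟨x, x', hx, hx', hm', Or.inr ⟨(hcon 0).le, ?_⟩⟩⟩
    intro i i' hii hne
    have hp : 0 < |x| ^ e + 1 := by positivity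
    obtain ⟨m1, m2, h1, h2⟩ := exists_close_orb l n0 hn0 A s y hrep i i' hii (hnt i i' hii hne)
      (1 / (2 * (|x| ^ e + 1))) (by positivity)
    refine ⟨x, orb y m1, orb y m2, hx, norm_orb y m1, norm_orb y m2, (hcon m1).le, (hcon m2).le,
      h1, ?_⟩
    have h3 : x ^ e ≤ |x| ^ e := by
      rw [← abs_pow]
      exact le_abs_self _
    calc x ^ e * ‖Wt A s (orb y m1) i / Wt A s (orb y m1) i' -
          Wt A s (orb y m2) i / Wt A s (orb y m2) i'‖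
        ≤ (|x| ^ e + 1) * (1 / (2 * (|x| ^ e + 1))) := by
          refine mul_le_mul (h3.trans (by linarith)) h2 (norm_nonneg _) hp.le
      _ = 1 / 2 := by field_simp
      _ < 1 := by norm_num
  · -- the two cases
    by_cases hpos : ∀ x : ℝ, X ≤ x → ∀ z : Fin k → ℂ, (∀ t, ‖z t‖ = 1) →
        0 < (LevX l c ex A s j ‖l i0‖ x z).re
    · exact Or.inl hpos
    · right
      push Not at hpos
      obtain ⟨x, hx, z, hz, hz0⟩ := hpos
      by_contra hcon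
      push Not at hcon
      apply hno
      refine ⟨n0, j, A, H, D, s, w, τ, ‖l i0‖, k - 1, z, orb y m', hb0, hz, norm_orb y m', hkk,
        Or.inr ⟨x, x', hx, hx', hm', Or.inr ⟨hz0, ?_⟩⟩⟩
      intro i i' hii hne
      obtain ⟨x2, hx2, z1, z2, hz1, hz2, hF1, hF2, hχ, hlt⟩ := hcon i i' hii hne
      exact ⟨x2, z1, z2, hx2, hz1, hz2, hF1, hF2, hχ, hlt⟩

end Pool.Agent.FrUP
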