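import Pool.Agent.FrNar.Defs
import Pool.Agent.FrEight.QRE

/-! Theorem U: definitions. The certificates against `FrozenFrom`, and the class data without
certificates. -/

set_option autoImplicit false

namespace Pool.Agent.FrUP

open Finset Complex Filter Topology
open Pool.Agent.DD7719.M Pool.Agent.DD7719.M.GS

/-- The last clause of the certificates against `FrozenFrom X (2 ^ m)`, `ℕ`-indexed. The real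
parameters are `α 0 = x`, `α 1 = x'` and `α (Nat.pair i i' + 2)` for the pairs of indices. -/
def QFF (k : ℕ) (X : ℝ) (m : ℕ) (α : ℕ → ℝ) : QT := fun l c ex n0 j A s d ρ z z' Z1 Z2 =>
  d + 1 = k ∧ (ρ = 0 ∨ ((X ≤ α 0 ∧ X ≤ α 1) ∧ LX k s l c z' ex A j ρ (α 1) ≠ 0 ∧
    (LX k s l c z ex A j ρ (α 0) < 0 ∨ (LX k s l c z ex A j ρ (α 0) ≤ 0 ∧
      ∀ i, i < k → ∀ i', i' < k → (‖l i‖ ≠ ‖l i'‖ ∨ l i ^ n0 = l i' ^ n0 ∨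
        (X ≤ α (Nat.pair i i' + 2) ∧
        (∀ t, t < k → ‖Z1 (Nat.pair i i') t‖ = 1) ∧ (∀ t, t < k → ‖Z2 (Nat.pair i i') t‖ = 1) ∧
        LX k s l c (Z1 (Nat.pair i i')) ex A j ρ (α (Nat.pair i i' + 2)) ≤ 0 ∧
        LX k s l c (Z2 (Nat.pair i i')) ex A j ρ (α (Nat.pair i i' + 2)) ≤ 0 ∧
        WtN k s A (Z1 (Nat.pair i i')) i / WtN k s A (Z1 (Nat.pair i i')) i' ≠
          WtN k s A (Z2 (Nat.pair i i')) i / WtN k s A (Z2 (Nat.pair i i')) i' ∧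
        α (Nat.pair i i' + 2) ^ (2 ^ m) *
          ‖WtN k s A (Z1 (Nat.pair i i')) i / WtN k s A (Z1 (Nat.pair i i')) i' -
          WtN k s A (Z2 (Nat.pair i i')) i / WtN k s A (Z2 (Nat.pair i i')) i'‖ < 1))))))

variable {k : ℕ}

/-- The certificate against `FrozenFrom X e`, `Fin`-indexed. -/
def CertFF (k : ℕ) (l c : Fin k → ℂ) (ex : Fin k → ℕ) (M Nb : ℕ) (ε δ : ℝ) (X : ℝ) (e : ℕ) :
    Prop :=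
  ∃ (n0 j : ℕ) (A H : Fin k → Fin k → ℤ) (D : ℤ) (s : ℕ) (w : Fin k → Fin k → ℝ)
    (τ : Fin k → ℝ) (ρ : ℝ) (d : ℕ) (z z' : Fin k → ℂ),
    BaseF k l c ex M Nb ε δ n0 j A H D s w τ ρ d ∧ (∀ t, ‖z t‖ = 1) ∧ (∀ t, ‖z' t‖ = 1) ∧
    d + 1 = k ∧ (ρ = 0 ∨ ∃ x x' : ℝ, X ≤ x ∧ X ≤ x' ∧ (LevX l c ex A s j ρ x' z').re ≠ 0 ∧
      ((LevX l c ex A s j ρ x z).re < 0 ∨ ((LevX l c ex A s j ρ x z).re ≤ 0 ∧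
        ∀ i i' : Fin k, ‖l i‖ = ‖l i'‖ → l i ^ n0 ≠ l i' ^ n0 →
          ∃ (x2 : ℝ) (z1 z2 : Fin k → ℂ), X ≤ x2 ∧ (∀ t, ‖z1 t‖ = 1) ∧ (∀ t, ‖z2 t‖ = 1) ∧
            (LevX l c ex A s j ρ x2 z1).re ≤ 0 ∧ (LevX l c ex A s j ρ x2 z2).re ≤ 0 ∧
            Wt A s z1 i / Wt A s z1 i' ≠ Wt A s z2 i / Wt A s z2 i' ∧
            x2 ^ e * ‖Wt A s z1 i / Wt A s z1 i' - Wt A s z2 i / Wt A s z2 i'‖ < 1)))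

/-- the second part of `FrozenFrom`, for a function `w x n` and a set `S` of roots -/
def SepW (w : ℝ → ℕ → ℝ) (S : Set ℂ) (X : ℝ) (e : ℕ) : Prop :=
  ∃ N : ℕ, 0 < N ∧ ∀ J : ℕ, J < N → ∃ ρ : ℝ, 0 < ρ ∧
    (∀ x : ℝ, X ≤ x → ∃ B : ℝ, ∀ m : ℕ, |w x (N * m + J)| ≤ B * ρ ^ m) ∧
    ((∀ x : ℝ, X ≤ x → 0 < liminf (fun m : ℕ => w x (N * m + J) / ρ ^ m) atTop) ∨
      ∃ a ∈ S, ∃ b ∈ S, ‖a‖ = ‖b‖ ∧ (∀ n : ℕ, 0 < n → a ^ n ≠ b ^ n) ∧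
        ∀ x : ℝ, X ≤ x → ∀ ζ ∈ contact (w x) N J ρ (a / b),
          ∀ ζ' ∈ contact (w x) N J ρ (a / b), ζ ≠ ζ' → 1 ≤ x ^ e * ‖ζ - ζ'‖)

/-- The data of the class of `j` for all `x ≥ X` in the absence of certificates. -/
def ClsU (k : ℕ) (l c : Fin k → ℂ) (ex : Fin k → ℕ) (M Nb : ℕ) (ε δ : ℝ) (X : ℝ) (e n0 j : ℕ) :
    Prop :=
  ∃ (A H : Fin k → Fin k → ℤ) (D : ℤ) (s : ℕ) (w : Fin k → Fin k → ℝ)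
    (τ : Fin k → ℝ) (y : Fin k → ℝ) (i0 : Fin k), Rep l n0 A s y ∧
    BaseF k l c ex M Nb ε δ n0 j A H D s w τ ‖l i0‖ (k - 1) ∧ l i0 ≠ 0 ∧
    (∀ i, ‖l i0‖ < ‖l i‖ → gP l c ex n0 j (l i ^ n0) = 0) ∧
    (∀ x : ℝ, X ≤ x → ∃ m : ℕ, (LevX l c ex A s j ‖l i0‖ x (orb y m)).re ≠ 0) ∧
    (∀ ρ : ℝ, 0 < ρ → (∀ i, ρ < ‖l i‖ → gP l c ex n0 j (l i ^ n0) = 0) → ∀ x : ℝ, X ≤ x →
      ∀ z : Fin k → ℂ, (∀ t, ‖z t‖ = 1) → 0 ≤ (LevX l c ex A s j ρ x z).re) ∧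
    ((∀ x : ℝ, X ≤ x → ∀ z : Fin k → ℂ, (∀ t, ‖z t‖ = 1) →
        0 < (LevX l c ex A s j ‖l i0‖ x z).re) ∨
      ∃ i i' : Fin k, ‖l i‖ = ‖l i'‖ ∧ l i ^ n0 ≠ l i' ^ n0 ∧ ∀ x : ℝ, X ≤ x →
        ∀ z1 z2 : Fin k → ℂ, (∀ t, ‖z1 t‖ = 1) → (∀ t, ‖z2 t‖ = 1) →
          (LevX l c ex A s j ‖l i0‖ x z1).re ≤ 0 → (LevX l c ex A s j ‖l i0‖ x z2).re ≤ 0 →
          Wt A s z1 i / Wt A s z1 i' ≠ Wt A s z2 i / Wt A s z2 i' →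
          1 ≤ x ^ e * ‖Wt A s z1 i / Wt A s z1 i' - Wt A s z2 i / Wt A s z2 i'‖)

end Pool.Agent.FrUP

namespace Pool.Agent.UltPos

open Pool.Agent.PT Pool.Agent.AllR Pool.Agent.DD7719.M Pool.Agent.DD7719 Finset Pool.Agent.FrUP

/-- the certificates against `FrozenFrom X (2 ^ m)` -/
def Inst.CFF (I : Inst) (L : ℕ) (aR uR : ℕ → ℝ) (X : ℝ) (m : ℕ) (α : ℕ → ℝ) : Prop :=
  ∃ (l c : ℕ → ℂ) (ex : ℕ → ℕ), RootData I.k aR uR l c ex ∧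
    CertQN I.k l c ex (pbm L) (pbn L) (2 / ((2 ^ pq L : ℕ) : ℝ)) (1 / 2 ^ pdl L) (QFF I.k X m α)

/-- the level functions of all base data are nonnegative at `x` -/
def Inst.NNX (I : Inst) (L : ℕ) (aR uR : ℕ → ℝ) (x : ℝ) : Prop :=
  ∀ (l c : ℕ → ℂ) (ex : ℕ → ℕ), RootData I.k aR uR l c ex →
    ∀ (n0 j : ℕ) (A H : ℕ → ℕ → ℤ) (D : ℤ) (s : ℕ) (w : ℕ → ℕ → ℝ) (τ : ℕ → ℝ) (ρ : ℝ) (d : ℕ),
      d + 1 = I.k → 0 < ρ →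
      BaseN I.k l c ex (pbm L) (pbn L) (2 / ((2 ^ pq L : ℕ) : ℝ)) (1 / 2 ^ pdl L) n0 j A H D s w τ
        ρ d →
      ∀ z : Fin I.k → ℂ, (∀ t, ‖z t‖ = 1) →
        0 ≤ (LevX (fun i : Fin I.k => l i) (fun i => c i) (fun i => ex i) (fun i t => A i t) s j ρ
          x z).re

end Pool.Agent.UltPos
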