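import Pool.Agent.FrNar.UDef
import Pool.Agent.FrNar.ULim
import Pool.Agent.FrEight.Low
import Pool.Agent.FrEight.Arith
import Pool.Agent.FrEight.ClassPos

/-! The lower bounds for the level functions of the frozen sequences and positivity beyond a
threshold, from the nonnegativity of the level functions (`Inst.NNX`) and class data (`ClsX`); as in the
library `FrEight`. -/

set_option autoImplicit false
set_option linter.unusedSectionVars false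

namespace Pool.Agent.UltPos

open Pool.Agent.PT Pool.Agent.AllR Pool.Agent.DD7719.M Pool.Agent.DD7719 Finset Pool.Agent.FrUP

section
variable (I : Inst) (L : ℕ) (hkL : I.k ≤ L)
    (hb : ∀ i, (I.aNum i).natAbs ≤ 2 ^ L ∧ I.aDen i ≤ 2 ^ L)
    (hbu : ∀ i, (I.uNum i).natAbs ≤ 2 ^ L ∧ I.uDen i ≤ 2 ^ L) (aR uR : ℕ → ℝ)
    (ha : ∀ t (h : t < I.k), aR t = (I.a ⟨t, h⟩ : ℝ)) (hu : ∀ t (h : t < I.k), uR t = (I.u ⟨t, h⟩ : ℝ))
    (v : ℕ → ℚ) (hv : I.IsSeq v)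

include hkL hb hbu ha hu hv in
theorem Inst.rrx_dataU 
    {l c : ℕ → ℂ} {ex : ℕ → ℕ} (hrd : RootData I.k aR uR l c ex) (hsort : Sorted I.k l) (x : ℝ)
    (hnn : I.NNX L aR uR x) (i i' : Fin I.k) (n0 j : ℕ) (t y : ℝ)
    (h : I.RRX L aR uR (v7 t y (i : ℕ) (i' : ℕ) n0 j x)) :
    ∃ (g : Fin I.k → ℂ) (A H : Fin I.k → Fin I.k → ℤ) (D : ℤ) (s : ℕ)
      (w : Fin I.k → Fin I.k → ℝ) (τ : Fin I.k → ℝ) (ρ : ℝ) (z z' : Fin I.k → ℂ),
      GoodD I.k (fun i => l i) g (fun _ => 0) (2 ^ pr L) (2 ^ pbm L) (2 / ((2 ^ pq L : ℕ) : ℝ))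
        (1 / 2 ^ pdl L)
        (fun n => (fs (fun i : Fin I.k => l i) (fun i => c i) (fun i => ex i) x n).re) ∧ 0 < ρ ∧
      BaseF I.k (fun i => l i) g (fun _ => 0) (2 ^ pbm L) (2 ^ pbn L)
        (2 / ((2 ^ pq L : ℕ) : ℝ)) (1 / 2 ^ pdl L) n0 j A H D s w τ ρ 0 ∧
      (∀ t, ‖z t‖ = 1) ∧ (∀ t, ‖z' t‖ = 1) ∧
      (LevF (fun i : Fin I.k => l i) g (fun _ => 0) A s j 0 ρ z').re ≠ 0 ∧
      (∀ z : Fin I.k → ℂ, (∀ t, ‖z t‖ = 1) →
        0 ≤ (LevF (fun i : Fin I.k => l i) g (fun _ => 0) A s j 0 ρ z).re) ∧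
      t * (LevF (fun i : Fin I.k => l i) g (fun _ => 0) A s j 0 ρ z).re ≤ 1 ∧
      (i = i' ∨ (Wt A s z i / Wt A s z i').re = y) := by
  classical
  obtain ⟨l1, c1, ex1, hrd1, n1, j1, A1, H1, D1, s1, w1, τ1, z1, z1', Z1, Z2, ρ1, d1, hb1, hz1,
    hz1', hQ⟩ := h
  obtain ⟨g1, g2, g3, g4, ⟨g5, g6⟩, g7, a, haK, a', ha'K, ⟨g8, g9⟩, g10⟩ := hQ
  have e5 : n1 = n0 := by
    have : (n1 : ℝ) = (n0 : ℝ) := g5
    exact_mod_cast this
  have e6 : j1 = j := by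
    have : (j1 : ℝ) = (j : ℝ) := g6
    exact_mod_cast this
  have e8 : a = i := by
    have : (a : ℝ) = ((i : ℕ) : ℝ) := g8
    exact_mod_cast this
  have e9 : a' = i' := by
    have : (a' : ℝ) = ((i' : ℕ) : ℝ) := g9
    exact_mod_cast this
  subst e5 e6 e8 e9
  have hl1 : ∀ b, b < I.k → l1 b = l b := fun b hbk => sorted_unique hrd1 g4 hrd hsort b hbk
  have hlF : (fun i : Fin I.k => l1 i) = fun i : Fin I.k => l i := funext fun i => hl1 i i.2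
  have hex1 : ∀ i, i < I.k → ex1 i < I.k := hrd1.1
  have hgood := goodD_frz _ _ _ _ _ _ _ _ (I.goodD L hkL hb aR uR ha hu v hv hrd1) x
  have hb1F := hb1.toF
  have hn0 : 0 < n1 := hb1.1
  have hj : I.k ≤ j1 := hb1.2.2.1
  have hexj : ∀ i : Fin I.k, ex1 i ≤ j1 := fun i => ((hex1 i i.2).le.trans hj)
  obtain ⟨hbf, hgP⟩ := base_frz (fun i : Fin I.k => l1 i) (fun i => c1 i) (fun i => ex1 i)
    (fun i => hex1 i i.2) (fun i e he => hrd1.closed i e he) _ _ _ _ _ _ _ _ _ _ _ _ _ _ g2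
    hb1F x
  have hthr := hnn l1 c1 ex1 hrd1 n1 j1 _ _ _ _ _ _ ρ1 d1 g2 g1 hb1
  have hfs : (fun n => (fs (fun i : Fin I.k => l1 i) (fun i => c1 i) (fun i => ex1 i) x n).re) =
      fun n => (fs (fun i : Fin I.k => l i) (fun i => c i) (fun i => ex i) x n).re :=
    funext fun n => fs_indep v _ _ _ _ _ _ (fun i => hex1 i i.2) (fun i => hrd.1 i i.2)
      (I.all' aR uR ha hu v hv hrd1) (I.all' aR uR ha hu v hv hrd) x n
  have hlev : ∀ z : Fin I.k → ℂ, LevX (fun i : Fin I.k => l1 i) (fun i => c1 i) (fun i => ex1 i)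
      (fun i t => A1 i t) s1 j1 ρ1 x z = LevF (fun i : Fin I.k => l1 i)
      (fc (fun i : Fin I.k => l1 i) (fun i => c1 i) (fun i => ex1 i) x) (fun _ => 0)
      (fun i t => A1 i t) s1 j1 0 ρ1 z := fun z => (levF_frz _ _ _ _ _ _ hexj ρ1 g1 x z).symm
  rw [LX_eq l1 c1 ex1 hex1] at g3 g7
  have g3' : (LevX (fun i : Fin I.k => l1 i) (fun i => c1 i) (fun i => ex1 i)
      (fun i t => A1 i t) s1 j1 ρ1 x (fun t => z1' t)).re ≠ 0 := g3
  have g7' : t * (LevX (fun i : Fin I.k => l1 i) (fun i => c1 i) (fun i => ex1 i)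
      (fun i t => A1 i t) s1 j1 ρ1 x (fun t => z1 t)).re ≤ 1 := g7
  rw [hlev] at g3' g7'
  simp only [hlev] at hthr
  rw [hfs] at hgood
  obtain ⟨g, hg⟩ : ∃ g, g = fc (fun i : Fin I.k => l1 i) (fun i => c1 i) (fun i => ex1 i) x :=
    ⟨_, rfl⟩
  rw [← hg] at g3' g7' hgood hbf
  simp only [← hg] at hthr
  rw [hlF] at g3' g7' hgood hbf
  simp only [hlF] at hthr
  refine ⟨g, _, _, D1, s1, _, _, ρ1, fun t => z1 t, fun t => z1' t, hgood, g1, hbf,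
    fun t => hz1 t t.2, fun t => hz1' t t.2, g3', hthr, g7', ?_⟩
  rcases g10 with g10 | g10
  · exact Or.inl (Fin.ext g10)
  · right
    have g10' := g10
    rw [wtN_eq I.k s1 A1 z1 i, wtN_eq I.k s1 A1 z1 i'] at g10'
    exact g10'


include hkL hb hbu ha hu hv in
theorem Inst.level_lowerUU (C : ℕ) (hC : GapC C) (P : ℕ)
    {l c : ℕ → ℂ} {ex : ℕ → ℕ} (hrd : RootData I.k aR uR l c ex) (hsort : Sorted I.k l) (xr : ℝ)
    (hnn : I.NNX L aR uR xr)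
    (n0 j : ℕ) (hn0 : 0 < n0) (hj : I.k ≤ j)
    (A H : Fin I.k → Fin I.k → ℤ) (D : ℤ) (s : ℕ) (w : Fin I.k → Fin I.k → ℝ)
    (τ : Fin I.k → ℝ) (x : Fin I.k → ℝ) (i0 : Fin I.k)
    (hrep : Rep (fun i : Fin I.k => l i) n0 A s x)
    (hbase : BaseF I.k (fun i => l i) (fc (fun i : Fin I.k => l i) (fun i => c i)
      (fun i => ex i) xr) (fun _ => 0) (2 ^ pmh L) (2 ^ (1 + 2 * L * L + (pdl L + 3) * L))
      (2 / ((2 ^ pq L : ℕ) : ℝ)) (1 / 2 ^ pdl L) n0 j A H D s w τ ‖l i0‖ 0)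
    (hi0 : l i0 ≠ 0)
    (hgP : ∀ i : Fin I.k, ‖l i0‖ < ‖l i‖ →
      gP (fun i : Fin I.k => l i) (fun i => c i) (fun i => ex i) n0 j (l i ^ n0) = 0)
    (z' : Fin I.k → ℂ) (hz' : ∀ t, ‖z' t‖ = 1)
    (hne : (LevF (fun i : Fin I.k => l i) (fc (fun i : Fin I.k => l i) (fun i => c i)
      (fun i => ex i) xr) (fun _ => 0) A s j 0 ‖l i0‖ z').re ≠ 0)
    (hF : ∀ z : Fin I.k → ℂ, (∀ t, ‖z t‖ = 1) →
      0 ≤ (LevF (fun i : Fin I.k => l i) (fc (fun i : Fin I.k => l i) (fun i => c i)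
        (fun i => ex i) xr) (fun _ => 0) A s j 0 ‖l i0‖ z).re)
    (i i' : Fin I.k) (hii : ‖l i‖ = ‖l i'‖) (hpne : l i ^ n0 ≠ l i' ^ n0)
    (hnt : ∀ n : ℕ, 0 < n → l i ^ n ≠ l i' ^ n)
    (hfin : ((fun z : Fin I.k → ℂ => (l i / l i') ^ j * (Wt A s z i / Wt A s z i')) ''
        {z | (∀ t, ‖z t‖ = 1) ∧ (LevF (fun i : Fin I.k => l i) (fc (fun i : Fin I.k => l i)
          (fun i => c i) (fun i => ex i) xr) (fun _ => 0) A s j 0 ‖l i0‖ z).re = 0}).Finite)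
    (hP : ElimP P (fun t y => I.RRX L aR uR (v7 t y (i : ℕ) (i' : ℕ) n0 j xr))) (m : ℕ)
    (hm : (2 + pgd L + 2 ^ (P + 2) + 2 ^ (pg L + 1)) ^ C ≤ n0 * m) :
    Real.exp (-((n0 * m : ℕ) : ℝ) / ((2 ^ (pg L + 1) : ℕ) : ℝ)) / 2 ^ 2 ^ P / 2 ^ 2 ^ P ≤
      (LevF (fun i : Fin I.k => l i) (fc (fun i : Fin I.k => l i) (fun i => c i)
        (fun i => ex i) xr) (fun _ => 0) A s j 0 ‖l i0‖ (orb x m)).re := by
  classical
  have hρ : 0 < ‖l i0‖ := norm_pos_iff.mpr hi0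
  have hi' : l i' ≠ 0 := by
    intro h0
    rw [h0, norm_zero, norm_eq_zero] at hii
    apply hpne
    rw [hii, h0]
  have hine : i ≠ i' := by
    intro h0
    exact hpne (by rw [h0])
  have hγ : ‖l i / l i'‖ = 1 := unit_of_ratio _ _ hii hi'
  have hγnt : ∀ n : ℕ, 0 < n → (l i / l i') ^ n ≠ 1 := by
    intro n hn h1
    rw [div_pow, div_eq_one_iff_eq (pow_ne_zero _ hi')] at h1
    exact hnt n hn h1
  have hgd := I.goodD L hkL hb aR uR ha hu v hv hrd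
  have hfd := goodD_frz _ _ _ _ _ _ _ _ hgd xr
  have hexj : ∀ i : Fin I.k, ex i ≤ j := fun i => ((hrd.1 i i.2).le.trans hj)
  have hexj0 : ∀ i : Fin I.k, (fun _ : Fin I.k => 0) i ≤ j := fun _ => Nat.zero_le j
  have hvan := van_frz (fun i : Fin I.k => l i) (fun i => c i) (fun i => ex i) n0 j hn0 hexj
    ‖l i0‖ hρ.le hgP xr
  have hJ : j = j % n0 + n0 * (j / n0) := (Nat.mod_add_div j n0).symm
  -- finitely many contact values
  have hcf : (contact (fun n => (fs (fun i : Fin I.k => l i) (fun i => c i) (fun i => ex i)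
      xr n).re) n0 (j % n0) (‖l i0‖ ^ n0) (l i / l i')).Finite :=
    hfin.subset (contact_subset _ _ _ n0 j hn0 hexj0 _ hfd.hv ‖l i0‖ hρ hvan A s x hrep i i' hii
      hi' (j % n0) (j / n0) hJ)
  obtain ⟨B, hB⟩ := cls_bound _ _ _ n0 j hn0 hexj0 _ hfd.hv ‖l i0‖ hρ hvan (j % n0) (j / n0) hJ
  set Y : Set ℝ := (fun ζ : ℂ => (ζ / (l i / l i') ^ j).re) ''
    contact (fun n => (fs (fun i : Fin I.k => l i) (fun i => c i) (fun i => ex i) xr n).re) n0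
      (j % n0) (‖l i0‖ ^ n0) (l i / l i') with hY
  have hYf : Y.Finite := hcf.image _
  obtain ⟨q, hq0, hqd, hqc, hq⟩ := hP
  -- the specific certificate
  have hRR : ∀ (z : Fin I.k → ℂ), (∀ t, ‖z t‖ = 1) → ∀ t : ℝ,
      t * (LevF (fun i : Fin I.k => l i) (fc (fun i : Fin I.k => l i) (fun i => c i)
        (fun i => ex i) xr) (fun _ => 0) A s j 0 ‖l i0‖ z).re ≤ 1 →
      I.RRX L aR uR (v7 t (Wt A s z i / Wt A s z i').re (i : ℕ) (i' : ℕ) n0 j xr) := by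
    intro z hz t ht
    exact I.rrx_of_cls L hkL hb hbu aR uR ha hu v hv hrd hsort xr n0 j hj A H D s w τ i0 hi0
      hbase hgP z' hz' hne z hz i i' t _ ht (Or.inr rfl)
  -- boundedness along the good fibres
  have hbdd : ∀ y : ℝ, y ∉ Y → ∃ X : ℝ, ∀ t, I.RRX L aR uR (v7 t y (i : ℕ) (i' : ℕ) n0 j xr) →
      t ≤ X := by
    intro y hy
    obtain ⟨X, hX⟩ := ybound (k := I.k) (fun n => (fs (fun i : Fin I.k => l i) (fun i => c i)
      (fun i => ex i) xr n).re) (2 ^ pr L) (2 ^ pbm L)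
      (2 ^ pbn L) (2 / ((2 ^ pq L : ℕ) : ℝ)) (1 / 2 ^ pdl L) n0 hn0 (‖l i0‖ ^ n0) (by positivity)
      B n0 j hB (l i / l i') hγnt hcf y (fun ζ hζ he => hy ⟨ζ, hζ, he⟩)
    refine ⟨X, fun t ht => ?_⟩
    obtain ⟨g, A1, H1, D1, s1, w1, τ1, ρ1, z1, z1', hg1, hρ1, hb1, hz1, hz1', hne1, hF1, ht1,
      hy1⟩ := I.rrx_dataU L hkL hb hbu aR uR ha hu v hv hrd hsort xr hnn i i' n0 j t y
        ht
    exact hX t (fun i : Fin I.k => l i) g (fun _ => 0) hg1 A1 H1 D1 s1 w1 τ1 ρ1 0 z1 z1' hb1 hρ1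
      hz1 hz1' hne1 hF1 i i' rfl hii hi' (hy1.resolve_left hine) ht1
  -- the inequality on the good fibres
  have hineq : ∀ z : Fin I.k → ℂ, (∀ t, ‖z t‖ = 1) → (Wt A s z i / Wt A s z i').re ∉ Y →
      |Polynomial.aeval (Wt A s z i / Wt A s z i').re q| ≤
        2 ^ 2 ^ P * (LevF (fun i : Fin I.k => l i) (fc (fun i : Fin I.k => l i) (fun i => c i)
        (fun i => ex i) xr) (fun _ => 0) A s j 0 ‖l i0‖ z).re := by
    intro z hz hy
    have hbd := hbdd _ hy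
    have hyle : |(Wt A s z i / Wt A s z i').re| ≤ 2 := by
      refine (Complex.abs_re_le_norm _).trans ?_
      rw [norm_div, norm_Wt A s z hz, norm_Wt A s z hz]
      norm_num
    have hpos : 0 < (LevF (fun i : Fin I.k => l i) (fc (fun i : Fin I.k => l i) (fun i => c i)
        (fun i => ex i) xr) (fun _ => 0) A s j 0 ‖l i0‖ z).re := by
      refine lt_of_le_of_ne (hF z hz) (fun h0 => ?_)
      obtain ⟨X, hX⟩ := hbd
      have := hX (X + 1) (hRR z hz (X + 1) (by rw [← h0]; simp))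
      linarith
    have h1 := hq _ hyle hbd (1 / (LevF (fun i : Fin I.k => l i) (fc (fun i : Fin I.k => l i)
        (fun i => c i) (fun i => ex i) xr) (fun _ => 0) A s j 0 ‖l i0‖ z).re)
      (hRR z hz _ (by rw [one_div, inv_mul_cancel₀ hpos.ne']))
    rw [mul_one_div, div_le_iff₀ hpos] at h1
    exact h1
  have hall := fibre_dense (fun i : Fin I.k => l i) (fc (fun i : Fin I.k => l i) (fun i => c i)
    (fun i => ex i) xr) (fun _ => 0) n0 j 0 ‖l i0‖ A s x hrep i i' hii hpne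
    (fun y => |Polynomial.aeval y q|) (by fun_prop) (2 ^ 2 ^ P) Y hYf hineq (orb x m)
    (norm_orb x m)
  rw [hrep.chi_orb m i i' hii hi'] at hall
  obtain ⟨g, hg0, hg, hgd, hgc⟩ := exists_ratio_poly I.k I.num I.den L hkL I.den_pos'
    (I.num_le' L hb) (I.den_le' L hb) (l i) (l i') (I.root_eq' aR uR ha hrd i)
    (I.root_eq' aR uR ha hrd i') hi'
  have hlow := trig_lower C hC P (pgd L) (2 ^ (pg L + 1)) (n0 * m) q hq0 hqd hqc (l i / l i') hγ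
    hγnt g hg0 hg hgd hgc (by positivity) hm
  rw [div_le_iff₀ (by positivity)]
  exact hlow.trans (hall.trans_eq (mul_comm _ _))


include hkL hb hbu ha hu hv in
theorem Inst.level_posU (P : ℕ)
    {l c : ℕ → ℂ} {ex : ℕ → ℕ} (hrd : RootData I.k aR uR l c ex) (hsort : Sorted I.k l) (xr : ℝ)
    (hnn : I.NNX L aR uR xr)
    (n0 j : ℕ) (hn0 : 0 < n0) (hj : I.k ≤ j)
    (A H : Fin I.k → Fin I.k → ℤ) (D : ℤ) (s : ℕ) (w : Fin I.k → Fin I.k → ℝ)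
    (τ : Fin I.k → ℝ) (x : Fin I.k → ℝ) (i0 : Fin I.k)
    (hrep : Rep (fun i : Fin I.k => l i) n0 A s x)
    (hbase : BaseF I.k (fun i => l i) (fc (fun i : Fin I.k => l i) (fun i => c i)
      (fun i => ex i) xr) (fun _ => 0) (2 ^ pmh L) (2 ^ (1 + 2 * L * L + (pdl L + 3) * L))
      (2 / ((2 ^ pq L : ℕ) : ℝ)) (1 / 2 ^ pdl L) n0 j A H D s w τ ‖l i0‖ 0)
    (hi0 : l i0 ≠ 0)
    (hgP : ∀ i : Fin I.k, ‖l i0‖ < ‖l i‖ →
      gP (fun i : Fin I.k => l i) (fun i => c i) (fun i => ex i) n0 j (l i ^ n0) = 0)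
    (hpos : ∀ z : Fin I.k → ℂ, (∀ t, ‖z t‖ = 1) →
      0 < (LevF (fun i : Fin I.k => l i) (fc (fun i : Fin I.k => l i) (fun i => c i)
        (fun i => ex i) xr) (fun _ => 0) A s j 0 ‖l i0‖ z).re)
    (hP : ElimP P (fun t y => I.RRX L aR uR (v7 t y (0 : ℕ) (0 : ℕ) n0 j xr)))
    (z : Fin I.k → ℂ) (hz : ∀ t, ‖z t‖ = 1) :
    1 / 2 ^ 2 ^ (2 * P + 2) ≤
      (LevF (fun i : Fin I.k => l i) (fc (fun i : Fin I.k => l i) (fun i => c i)
        (fun i => ex i) xr) (fun _ => 0) A s j 0 ‖l i0‖ z).re := by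
  classical
  obtain ⟨lF, hlF⟩ : ∃ lF : Fin I.k → ℂ, lF = fun i : Fin I.k => l i := ⟨_, rfl⟩
  obtain ⟨cF, hcF⟩ : ∃ cF : Fin I.k → ℂ, cF = fun i : Fin I.k => c i := ⟨_, rfl⟩
  obtain ⟨eF, heF⟩ : ∃ eF : Fin I.k → ℕ, eF = fun i : Fin I.k => ex i := ⟨_, rfl⟩
  have hρ : 0 < ‖l i0‖ := norm_pos_iff.mpr hi0
  have hJ : j = j % n0 + n0 * (j / n0) := (Nat.mod_add_div j n0).symm
  -- the frozen sequence
  obtain ⟨u, hu'⟩ : ∃ u : ℕ → ℝ, u = fun n => (fs (fun i : Fin I.k => l i) (fun i => c i)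
    (fun i => ex i) xr n).re := ⟨_, rfl⟩
  have hgood : GoodD I.k (fun i => l i) (fc (fun i : Fin I.k => l i) (fun i => c i)
      (fun i => ex i) xr) (fun _ => 0) (2 ^ pr L) (2 ^ pbm L) (2 / ((2 ^ pq L : ℕ) : ℝ))
        (1 / 2 ^ pdl L) u := by
    rw [hu']
    exact goodD_frz _ _ _ _ _ _ _ _ (I.goodD L hkL hb aR uR ha hu v hv hrd) xr
  have hexj : ∀ i : Fin I.k, ex i ≤ j := fun i => ((hrd.1 i i.2).le.trans hj)
  have hvan := van_frz (fun i : Fin I.k => l i) (fun i => c i) (fun i => ex i) n0 j hn0 hexj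
    ‖l i0‖ hρ.le hgP xr
  obtain ⟨B, hB⟩ := cls_bound (fun i : Fin I.k => l i) (fc (fun i : Fin I.k => l i) (fun i => c i)
      (fun i => ex i) xr) (fun _ => 0) n0 j hn0 (fun _ => Nat.zero_le _) u hgood.hv ‖l i0‖ hρ
      hvan (j % n0) (j / n0) hJ
  obtain ⟨b, hb0, hb1⟩ := cls_low (fun i : Fin I.k => l i) (fc (fun i : Fin I.k => l i)
      (fun i => c i) (fun i => ex i) xr) (fun _ => 0) n0 j hn0 (fun _ => Nat.zero_le _) u
      hgood.hv ‖l i0‖ hρ hvan A s x hrep hpos (j % n0) (j / n0) hJ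
  have hρn : 0 < ‖l i0‖ ^ n0 := by positivity
  have hρj : 0 < (‖l i0‖ ^ n0) ^ (j / n0) := by positivity
  obtain ⟨a, ha'⟩ : ∃ a : Fin I.k, (a : ℕ) = 0 := ⟨⟨0, I.kpos⟩, rfl⟩
  obtain ⟨q, hq0, hqd, -, hq⟩ := hP
  obtain ⟨y, hy1, hy2⟩ := exists_point P q hq0 hqd
  -- boundedness
  have hbdd : ∃ X : ℝ, ∀ t, I.RRX L aR uR (v7 t y (0 : ℕ) (0 : ℕ) n0 j xr) → t ≤ X := by
    refine ⟨1 / (b * (‖l i0‖ ^ n0) ^ (j / n0)), fun t ht => ?_⟩
    rcases le_or_gt t 0 with ht0 | ht0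
    · exact ht0.trans (by positivity)
    have ht' : I.RRX L aR uR (v7 t y (a : ℕ) (a : ℕ) n0 j xr) := by rw [ha']; exact ht
    obtain ⟨g, A1, H1, D1, s1, w1, τ1, ρ1, z1, z1', g1, g2, g3, g4, g5, g6, g7, g8, -⟩ :=
      I.rrx_dataU L hkL hb hbu aR uR ha hu v hv hrd hsort xr hnn a a n0 j t y ht'
    rw [← hu'] at g1
    have hnot : ¬ Filter.Tendsto (fun n : ℕ => u (n0 * (j / n0 + n0 * n) + j % n0) /
        (‖l i0‖ ^ n0) ^ (j / n0 + n0 * n)) Filter.atTop (nhds 0) := by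
      intro h0
      have h1 : Filter.Tendsto (fun n : ℕ => j / n0 + n0 * n) Filter.atTop Filter.atTop :=
        Filter.tendsto_atTop_mono (fun n => (Nat.le_mul_of_pos_left n hn0).trans
          (Nat.le_add_left _ _)) Filter.tendsto_id
      have h2 : b ≤ 0 := ge_of_tendsto h0 (h1.eventually hb1)
      linarith
    obtain ⟨-, hap⟩ := nar_cls (fun i : Fin I.k => l i) g (fun _ => 0) (2 ^ pr L) (2 ^ pbm L)
      (2 ^ pbn L) (2 / ((2 ^ pq L : ℕ) : ℝ)) (1 / 2 ^ pdl L) u g1 n0 j A1 H1 D1 s1 w1 τ1 ρ1 0 g3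
      g2 z1' g5 g6 n0 hn0 (‖l i0‖ ^ n0) B hρn hB hnot
    have hV : b ≤ (LevF (fun i : Fin I.k => l i) g (fun _ => 0) A1 s1 j 0 ρ1 z1).re /
        (‖l i0‖ ^ n0) ^ (j / n0) := by
      refine le_of_forall_pos_sub_le fun κ hκ => ?_
      obtain ⟨N1, hN1⟩ := Filter.eventually_atTop.1 hb1
      obtain ⟨m, hm, hm1, -⟩ := hap z1 g4 κ hκ N1
      have h3 := hN1 m hm
      have h4 := (abs_le.1 hm1).2
      linarith
    rw [le_div_iff₀ hρj] at hV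
    rw [le_div_iff₀ (by positivity)]
    exact (mul_le_mul_of_nonneg_left hV ht0.le).trans g8
  -- the value at the point
  obtain ⟨V, hVd⟩ : ∃ V : ℝ, V = (LevF (fun i : Fin I.k => l i) (fc (fun i : Fin I.k => l i)
    (fun i => c i) (fun i => ex i) xr) (fun _ => 0) A s j 0 ‖l i0‖ z).re := ⟨_, rfl⟩
  have hV0 : 0 < V := by rw [hVd]; exact hpos z hz
  have hR := I.rrx_of_cls L hkL hb hbu aR uR ha hu v hv hrd hsort xr n0 j hj A H D s w τ i0 hi0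
    hbase hgP z hz (by rw [← hVd]; exact hV0.ne') z hz a a (1 / V) y
    (by rw [← hVd, one_div, inv_mul_cancel₀ hV0.ne']) (Or.inl rfl)
  rw [ha'] at hR
  have h1 := hq y (hy1.trans (by norm_num)) hbdd (1 / V) hR
  rw [mul_one_div, div_le_iff₀ hV0] at h1
  rw [← hVd]
  have h2 : (1 : ℝ) ≤ 2 ^ (2 ^ P * (P + 1)) * (2 ^ 2 ^ P * V) :=
    hy2.trans (mul_le_mul_of_nonneg_left h1 (by positivity))
  have h3 : (2 : ℝ) ^ (2 ^ P * (P + 1)) * (2 ^ 2 ^ P * V) = 2 ^ (2 ^ P * (P + 1) + 2 ^ P) * V := by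
    rw [pow_add]
    ring
  have h4 : 2 ^ P * (P + 1) + 2 ^ P ≤ 2 ^ (2 * P + 2) := by
    have h5 : P + 2 ≤ 2 ^ (P + 2) := Nat.lt_two_pow_self.le
    calc 2 ^ P * (P + 1) + 2 ^ P = 2 ^ P * (P + 2) := by ring
      _ ≤ 2 ^ P * 2 ^ (P + 2) := Nat.mul_le_mul_left _ h5
      _ = 2 ^ (2 * P + 2) := by
        rw [← pow_add]
        congr 1
        ring
  have h6 : (2 : ℝ) ^ (2 ^ P * (P + 1) + 2 ^ P) ≤ 2 ^ 2 ^ (2 * P + 2) :=
    pow_le_pow_right₀ (by norm_num) h4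
  rw [div_le_iff₀ (by positivity)]
  rw [h3] at h2
  have h7 := mul_le_mul_of_nonneg_right h6 hV0.le
  linarith


end

end Pool.Agent.UltPos
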