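import Pool.Agent.FrNar.UDef

/-! The certificate `QFF` as an existential real condition. -/

set_option autoImplicit false

namespace Pool.Agent.FrUP

open Finset
open Pool.Agent.DD7719.M Pool.Agent.DD7719.M.GS Pool.Agent.PT Pool.Agent.AllR

theorem qFF_congr (k : ℕ) (X : ℝ) (m : ℕ) (α : ℕ → ℝ) : QCongr k (QFF k X m α) := by
  intro l c ex ex' n0 j A A' s d ρ z z' Z1 Z2 hex hA h
  unfold QFF LX at h ⊢
  simp only [lev_congr hex hA]
  obtain ⟨h0, h | ⟨hX, h1, h2 | ⟨h2, h3⟩⟩⟩ := h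
  · exact ⟨h0, Or.inl h⟩
  · exact ⟨h0, Or.inr ⟨hX, h1, Or.inl h2⟩⟩
  · refine ⟨h0, Or.inr ⟨hX, h1, Or.inr ⟨h2, fun i hi i' hi' => ?_⟩⟩⟩
    rw [wtN_congr hi hA, wtN_congr hi' hA, wtN_congr hi hA, wtN_congr hi' hA]
    exact h3 i hi i' hi'

section
variable {Γ : Type} (kk bm bn mm : List Γ → ℕ) (XX : List Γ → ℝ)
  (hk : UF (fun x _ => kk x)) (hbm : UF (fun x _ => bm x)) (hbn : UF (fun x _ => bn x))
  (hmm : UF (fun x _ => mm x)) (hXX : RF (fun x _ _ => XX x))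

include hk hbm hbn in
/-- the level sum in the environment `d', i', i, d, s` -/
theorem cf_lev4 {zr : (ℕ → ℝ) → ℕ → ℕ → ℂ}
    (hz : ∀ {f g : List Γ → (ℕ → ℕ) → ℕ}, UF f → UF g → CF (fun x e α => zr α (f x e) (g x e))) :
    CF (fun x e α => Lev (kk x) (e 4) (e 0) (rl α) (rc α) (zr α (Nat.pair (e 2) (e 1)))
      (rex (kk x) α) (rA (bm x) α) (rj (bn x + kk x) α) (rρ α)) := by
  classical
  unfold Lev
  refine CF.sum hk ?_
  refine CF.msub (m := fun x e α => rex (kk x) α (e 0))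
    (f := fun x e α q => if ‖rl α (e 0)‖ = rρ α ∧ q = e 1 then
      rc α (e 0) * rl α (e 0) ^ (rj (bn x + kk x) α - e 1) *
      ∏ t ∈ Finset.range (kk x), (if t < e 5 then
        zr α (Nat.pair (e 3) (e 2)) t ^ rA (bm x) α t (e 0) else 1) else 0)
    (ns_rex hk (UF.var 0)) ?_
  refine CF.rite ?_ ?_ ?_ CF.zero
  · exact RE.and (RE.eq (cf_rl (UF.var 1)).norm rf_rρ) (RE.up (UP.eq (UF.var 0) (UF.var 2)))
  · refine (RE.or (RE.ne (cf_rl (UF.var 1)).norm rf_rρ)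
      (RE.up (UP.ne (UF.var 0) (UF.var 2)))).congr fun x e α => ?_
    exact not_and_or.symm
  · refine ((cf_rc (UF.var 1)).mul (CF.npow (cf_rl (UF.var 1))
      (NF.tsub (nf_rj (hbn.add hk)) (NF.uf (UF.var 2))))).mul (CF.prod hk ?_)
    exact CF.ite (UP.lt (UF.var 0) (UF.var 7)) (CF.zpow (hz (uf_pair (UF.var 5) (UF.var 4))
      (UF.var 0)) (zf_rA hbm (UF.var 0) (UF.var 2))) CF.one

/-- the binomial coefficient at the point of the pair `i, i'`, in the environment `d', i', i` -/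
theorem rf_bc_pair : RF (Γ := Γ) (fun _ e α => bc (e 0) (α (2 * (Nat.pair (e 2) (e 1) + 2)))) := by
  unfold bc
  refine RF.div (RF.prod (b := fun _ e => e 0)
    (f := fun _ e α i => α (2 * (Nat.pair (e 2) (e 1) + 2)) - (i : ℝ)) (UF.var 0) ?_)
    (RF.prod (b := fun _ e => e 0) (f := fun _ _ _ i => (i : ℝ) + 1) (UF.var 0) ?_)
  · exact (RF.var ((UF.const 2).mul ((uf_pair (UF.var 3) (UF.var 2)).add (UF.const 2)))).sub
      (RF.nat (UF.var 0))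
  · exact (RF.nat (UF.var 0)).add RF.one

include hk hbm hbn hmm hXX in
theorem re_QFF : RE (fun x e α => QFF (kk x) (XX x) (mm x) (fun v => α (2 * v))
      (rl (fun v => α (2 * v + 1)))
      (rc (fun v => α (2 * v + 1))) (rex (kk x) (fun v => α (2 * v + 1)))
      (rn0 (bn x) (fun v => α (2 * v + 1))) (rj (bn x + kk x) (fun v => α (2 * v + 1)))
      (rA (bm x) (fun v => α (2 * v + 1))) (e 1) (e 0) (rρ (fun v => α (2 * v + 1)))
      (rz (fun v => α (2 * v + 1))) (rz' (fun v => α (2 * v + 1)))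
      (rz1 (fun v => α (2 * v + 1))) (rz2 (fun v => α (2 * v + 1)))) := by
  unfold QFF LX
  have hL := cf_lev3 kk bm bn hk hbm hbn (zr := rz) cf_rz
  have hL' := cf_lev3 kk bm bn hk hbm hbn (zr := rz') cf_rz'
  have hL1 := cf_lev4 kk bm bn hk hbm hbn (zr := rz1) cf_rz1
  have hL2 := cf_lev4 kk bm bn hk hbm hbn (zr := rz2) cf_rz2
  have hn0 : NF (Γ := Γ) (fun x e α => rn0 (bn x) α) := nf_rn0 hbn
  have hW1 := cf_wt2 kk bm hk hbm (zr := rz1) cf_rz1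
  have hW2 := cf_wt2 kk bm hk hbm (zr := rz2) cf_rz2
  have hX : ∀ {f : List Γ → (ℕ → ℕ) → ℕ}, UF f → RE (fun x e α => XX x ≤ α (f x e)) :=
    fun hf => RE.le hXX (RF.var hf)
  have hp : ∀ {f g : List Γ → (ℕ → ℕ) → ℕ}, UF f → UF g →
      UF (fun x e => 2 * (Nat.pair (f x e) (g x e) + 2)) :=
    fun hf hg => (UF.const 2).mul ((uf_pair hf hg).add (UF.const 2))
  refine RE.and (RE.up (UP.eq ((UF.var 0).add (UF.const 1)) hk))
    (RE.or (RE.aff (RE.eq rf_rρ RF.zero) 2 1) (RE.and (RE.and ?_ ?_) (RE.and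
    (RE.ne (RF.sum hk ?_) RF.zero) (RE.or (RE.lt (RF.sum hk ?_) RF.zero)
    (RE.and (RE.le (RF.sum hk ?_) RF.zero) (RE.ball hk (RE.ball hk ?_)))))))
  · exact hX (UF.const 0)
  · exact hX (UF.const 2)
  · exact (rf_bc_var 2).mul (RF.aff hL'.re 2 1)
  · exact (rf_bc_var 0).mul (RF.aff hL.re 2 1)
  · exact (rf_bc_var 0).mul (RF.aff hL.re 2 1)
  refine RE.or (RE.aff (RE.ne (cf_rl (UF.var 1)).norm (cf_rl (UF.var 0)).norm) 2 1)
    (RE.or (RE.aff (RE.ceq (CF.npow (cf_rl (UF.var 1)) hn0) (CF.npow (cf_rl (UF.var 0)) hn0)) 2 1)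
    (RE.and ?_ (RE.and ?_ (RE.and ?_ (RE.and ?_ (RE.and ?_ (RE.and ?_ ?_)))))))
  · exact hX (hp (UF.var 1) (UF.var 0))
  · refine RE.aff (R := fun x e α => ∀ t, t < kk x → ‖rz1 α (Nat.pair (e 1) (e 0)) t‖ = 1) ?_ 2 1
    exact RE.ball hk (RE.eq (cf_rz1 (uf_pair (UF.var 2) (UF.var 1)) (UF.var 0)).norm RF.one)
  · refine RE.aff (R := fun x e α => ∀ t, t < kk x → ‖rz2 α (Nat.pair (e 1) (e 0)) t‖ = 1) ?_ 2 1
    exact RE.ball hk (RE.eq (cf_rz2 (uf_pair (UF.var 2) (UF.var 1)) (UF.var 0)).norm RF.one)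
  · exact RE.le (RF.sum hk (rf_bc_pair.mul (RF.aff hL1.re 2 1))) RF.zero
  · exact RE.le (RF.sum hk (rf_bc_pair.mul (RF.aff hL2.re 2 1))) RF.zero
  · exact RE.aff (RE.cne ((hW1 1).div (hW1 0)) ((hW2 1).div (hW2 0))) 2 1
  · exact RE.lt ((RF.pow_two_pow (RF.var (hp (UF.var 1) (UF.var 0))) hmm).mul
      (RF.aff ((((hW1 1).div (hW1 0)).sub ((hW2 1).div (hW2 0))).norm) 2 1)) RF.one

end

end Pool.Agent.FrUP
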