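import Pool.Agent.FrNar.UDef

/-! Soundness, first part: the growth of a certified class and the approximation property. -/

set_option autoImplicit false

namespace Pool.Agent.FrUP

open Complex Filter Topology
open Pool.Agent.DD7719.M Pool.Agent.DD7719.M.GS Pool.Agent.DD7719

variable {k : ℕ}

/-- The growth rate of a certified class: part of the proof of `nar_cls`. -/
theorem nar_rho (l c : Fin k → ℂ) (ex : Fin k → ℕ) (R M Nb : ℕ) (ε δ : ℝ) (v : ℕ → ℝ)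
    (hg : GoodD k l c ex R M ε δ v)
    (n0 j : ℕ) (A H : Fin k → Fin k → ℤ) (D : ℤ) (s : ℕ) (w : Fin k → Fin k → ℝ)
    (τ : Fin k → ℝ) (ρ : ℝ) (d : ℕ)
    (hbase : BaseF k l c ex M Nb ε δ n0 j A H D s w τ ρ d) (hρpos : 0 < ρ) (z' : Fin k → ℂ)
    (hz' : ∀ t, ‖z' t‖ = 1) (hne : (LevF l c ex A s j d ρ z').re ≠ 0)
    (N : ℕ) (hN : 0 < N) (ρJ B : ℝ) (hρJ : 0 < ρJ) (hB : ∀ m, |v (N * m + j % N)| ≤ B * ρJ ^ m)
    (hnot : ¬ Tendsto (fun n : ℕ => v (N * (j / N + n0 * n) + j % N) / ρJ ^ (j / N + n0 * n))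
      atTop (𝓝 0)) : ρJ = ρ ^ N := by
  obtain ⟨u, hu, ⟨U, hU⟩, happ⟩ := nar_core l c ex R M Nb ε δ hg.hk hg.hex hg.hdc hg.hR hg.hM hg.hrb
    hg.hε hg.hδ v hg.hv n0 j A H D s w τ ρ d hbase hρpos N hN
  have hn0 : 0 < n0 := hbase.1
  have hkj : k ≤ j := hbase.2.2.1
  have hdk : d < k := by
    obtain ⟨_, _, _, _, _, _, _, _, _, _, _, _, _, _, hd, _⟩ := hbase
    exact hd
  set a : ℝ := |(LevF l c ex A s j d ρ z').re| / 2 with ha
  have ha0 : 0 < a := half_pos (abs_pos.mpr hne)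
  have hbig : ∀ N1, ∃ n, N1 ≤ n ∧ a ≤ |u n| := by
    intro N1
    obtain ⟨n, hn, h1, -⟩ := happ z' hz' a ha0 N1
    refine ⟨n, hn, ?_⟩
    have h2 := abs_sub_abs_le_abs_sub (LevF l c ex A s j d ρ z').re (u n)
    rw [abs_sub_comm] at h2
    linarith
  rcases nar_dich v u n0 j d N ρ ρJ B U a hn0 hN (by omega) hρpos hρJ ha0 hu hU hbig hB with h | h
  · exact absurd h hnot
  · exact h.1

/-- The approximation property of a class at level `(ρ, 0)`: part of the proof of `nar_cls`. -/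
theorem nar_app (l c : Fin k → ℂ) (ex : Fin k → ℕ) (R M Nb : ℕ) (ε δ : ℝ) (v : ℕ → ℝ)
    (hg : GoodD k l c ex R M ε δ v)
    (n0 j : ℕ) (A H : Fin k → Fin k → ℤ) (D : ℤ) (s : ℕ) (w : Fin k → Fin k → ℝ)
    (τ : Fin k → ℝ) (ρ : ℝ)
    (hbase : BaseF k l c ex M Nb ε δ n0 j A H D s w τ ρ 0) (hρpos : 0 < ρ)
    (N : ℕ) (hN : 0 < N) (ρJ : ℝ) (hρJ : ρJ = ρ ^ N) (z : Fin k → ℂ) (hz : ∀ t, ‖z t‖ = 1)
    (κ : ℝ) (hκ : 0 < κ) (N1 : ℕ) : ∃ m, N1 ≤ m ∧
      |v (N * m + j % N) / ρJ ^ m - (LevF l c ex A s j 0 ρ z).re / ρJ ^ (j / N)| ≤ κ ∧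
      ∀ i i', ‖l i‖ = ‖l i'‖ → l i' ≠ 0 → ‖(l i / l i') ^ (N * m + j % N) -
        (l i / l i') ^ j * (Wt A s z i / Wt A s z i')‖ ≤ κ := by
  obtain ⟨u, hu, ⟨U, hU⟩, happ⟩ := nar_core l c ex R M Nb ε δ hg.hk hg.hex hg.hdc hg.hR hg.hM hg.hrb
    hg.hε hg.hδ v hg.hv n0 j A H D s w τ ρ 0 hbase hρpos N hN
  have hn0 : 0 < n0 := hbase.1
  have hidx : ∀ n, j + n0 * (N * n) = N * (j / N + n0 * n) + j % N := by
    intro n
    have := Nat.div_add_mod j N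
    calc j + n0 * (N * n) = (N * (j / N) + j % N) + n0 * (N * n) := by rw [this]
      _ = _ := by ring
  have hρJ0 : 0 < ρJ := by
    rw [hρJ]
    positivity
  have hp : 0 < ρJ ^ (j / N) := by positivity
  obtain ⟨n, hn, h1, h2⟩ := happ z hz (min (κ / 2) (κ * ρJ ^ (j / N))) (lt_min (by positivity)
    (by positivity)) N1
  refine ⟨j / N + n0 * n, ?_, ?_, ?_⟩
  · have : n ≤ n0 * n := Nat.le_mul_of_pos_left _ hn0
    exact hn.trans (this.trans (Nat.le_add_left _ _))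
  · have e1 : v (N * (j / N + n0 * n) + j % N) / ρJ ^ (j / N + n0 * n) = u n / ρJ ^ (j / N) := by
      rw [← hidx, hu, Nat.choose_zero_right, pow_add, hρJ]
      have e2 : (ρ ^ N) ^ (n0 * n) = ρ ^ (n0 * (N * n)) := by
        rw [← pow_mul]
        congr 1
        ring
      rw [e2]
      have : 0 < ρ ^ (n0 * (N * n)) := by positivity
      field_simp
      push_cast
      ring
    rw [e1, ← sub_div, abs_div, abs_of_pos hp, div_le_iff₀ hp]
    exact h1.trans (min_le_right _ _)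
  · intro i i' hii hi'
    have e1 : (l i / l i') ^ (N * (j / N + n0 * n) + j % N) = (l i / l i') ^ j *
        (nz (l i) ^ (n0 * (N * n)) / nz (l i') ^ (n0 * (N * n))) := by
      rw [← hidx, pow_add, ← nz_div _ _ hii hi', div_pow _ _ (n0 * (N * n))]
    have hγ : ‖l i / l i'‖ = 1 := by
      rw [norm_div, hii, div_self]
      exact norm_ne_zero_iff.mpr hi'
    rw [e1, ← mul_sub, norm_mul, norm_pow, hγ, one_pow, one_mul]
    refine (norm_div_sub_div _ _ _ _ (by rw [norm_pow, norm_nz, one_pow]) (norm_Wt A s z hz i)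
      (norm_Wt A s z hz i')).trans ?_
    have h3 := (h2 i).trans (min_le_left _ _)
    have h4 := (h2 i').trans (min_le_left _ _)
    linarith

/-- the contact values of a unimodular number are unimodular -/
theorem contact_norm (v : ℕ → ℝ) (N J : ℕ) (ρ : ℝ) (γ : ℂ) (hγ : ‖γ‖ = 1) (ζ : ℂ)
    (hζ : ζ ∈ contact v N J ρ γ) : ‖ζ‖ = 1 := by
  obtain ⟨φ, -, -, h⟩ := hζ
  have h1 := h.norm
  have h2 : (fun m => ‖γ ^ (N * φ m + J)‖) = fun _ => (1 : ℝ) := by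
    funext m
    rw [norm_pow, hγ, one_pow]
  rw [h2] at h1
  exact tendsto_nhds_unique h1 tendsto_const_nhds

/-- separated contact values are finite in number -/
theorem contact_finite_of_sep (v : ℕ → ℝ) (N J : ℕ) (ρ : ℝ) (γ : ℂ) (hγ : ‖γ‖ = 1) (t : ℝ)
    (ht : 0 < t) (h : ∀ ζ ∈ contact v N J ρ γ, ∀ ζ' ∈ contact v N J ρ γ, ζ ≠ ζ' →
      1 ≤ t * ‖ζ - ζ'‖) : (contact v N J ρ γ).Finite := by
  apply finite_of_sep _ _ (1 / (2 * t)) (by positivity)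
  · intro x hx y hy hxy
    have h1 := h x hx y hy hxy
    rw [div_lt_iff₀ (by positivity)]
    nlinarith
  · intro ζ hζ
    rw [mem_sphere_zero_iff_norm]
    exact contact_norm v N J ρ γ hγ ζ hζ

/-- a class as in `SepW` does not tend to zero along a progression -/
theorem not_tendsto_of_sep (v : ℕ → ℝ) (N J : ℕ) (hN : 0 < N) (ρ : ℝ) (hρ : 0 < ρ) (B : ℝ)
    (hB : ∀ m : ℕ, |v (N * m + J)| ≤ B * ρ ^ m) (t : ℝ) (ht : 0 < t)
    (h : 0 < liminf (fun m : ℕ => v (N * m + J) / ρ ^ m) atTop ∨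
      ∃ a b : ℂ, ‖a‖ = ‖b‖ ∧ (∀ n : ℕ, 0 < n → a ^ n ≠ b ^ n) ∧
        ∀ ζ ∈ contact v N J ρ (a / b), ∀ ζ' ∈ contact v N J ρ (a / b), ζ ≠ ζ' →
          1 ≤ t * ‖ζ - ζ'‖) (a0 b0 : ℕ) (hb0 : 0 < b0) :
    ¬ Tendsto (fun n : ℕ => v (N * (a0 + b0 * n) + J) / ρ ^ (a0 + b0 * n)) atTop (𝓝 0) := by
  intro hten
  rcases h with hl1 | ⟨a, b, hab, hnt, hsep⟩
  · have hge : ∀ m : ℕ, -B ≤ v (N * m + J) / ρ ^ m := by
      intro m
      rw [le_div_iff₀ (by positivity)]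
      have := (abs_le.mp (hB m)).1
      linarith
    have hbelow : IsBoundedUnder (· ≥ ·) atTop (fun m : ℕ => v (N * m + J) / ρ ^ m) :=
      ⟨-B, eventually_map.mpr (Eventually.of_forall hge)⟩
    have hev := eventually_lt_of_lt_liminf (half_lt_self hl1) hbelow
    have hsub : Tendsto (fun n : ℕ => a0 + b0 * n) atTop atTop :=
      tendsto_atTop_mono (fun n => (Nat.le_mul_of_pos_left n hb0).trans (Nat.le_add_left _ _))
        tendsto_id
    have h1 := hsub.eventually hev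
    have h2 := hten.eventually_lt_const (half_pos hl1)
    obtain ⟨n, h3, h4⟩ := (h1.and h2).exists
    exact lt_asymm h3 h4
  · have hb0' : b ≠ 0 := by
      rintro rfl
      rw [norm_zero, norm_eq_zero] at hab
      exact hnt 1 one_pos (by rw [hab])
    have hγ := unit_of_ratio _ _ hab hb0'
    refine contact_infinite v N J hN ρ (a / b) hγ ?_ a0 b0 hb0 hten
      (contact_finite_of_sep v N J ρ (a / b) hγ t ht hsep)
    intro n hn h1
    rw [div_pow, div_eq_one_iff_eq (pow_ne_zero _ hb0')] at h1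
    exact hnt n hn h1

/-- Without certificates, the sequences frozen at rational `x ≥ X` being ultimately positive: the
level functions are nonnegative at all real `x ≥ X`. -/
theorem levX_nonneg_of_up (l c : Fin k → ℂ) (ex : Fin k → ℕ) (R M Nb : ℕ) (ε δ : ℝ) (v : ℕ → ℝ)
    (hg : GoodD k l c ex R M ε δ v) (X : ℝ)
    (hup : ∀ x : ℚ, X ≤ (x : ℝ) → ∃ N : ℕ, ∀ n, N ≤ n → 0 < (fs l c ex (x : ℝ) n).re)
    (n0 j : ℕ) (A H : Fin k → Fin k → ℤ) (D : ℤ) (s : ℕ)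
    (w : Fin k → Fin k → ℝ) (τ : Fin k → ℝ) (ρ : ℝ) (d : ℕ)
    (hbase : BaseF k l c ex M Nb ε δ n0 j A H D s w τ ρ d) (hd : d + 1 = k) (z : Fin k → ℂ)
    (hz : ∀ t, ‖z t‖ = 1) (x : ℝ) (hx : X ≤ x) : 0 ≤ (LevX l c ex A s j ρ x z).re := by
  by_contra hcon
  push Not at hcon
  have h2 := ((continuous_LevX l c ex A s j ρ z).tendsto x).eventually (gt_mem_nhds hcon)
  rw [Metric.eventually_nhds_iff] at h2
  obtain ⟨η, hη, h3⟩ := h2
  obtain ⟨q, hq1, hq2⟩ := exists_rat_btwn (show x < x + η by linarith)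
  obtain ⟨N, hN⟩ := hup q (by linarith)
  obtain ⟨n, hn, hle⟩ := certX_sound_at l c ex R M Nb ε δ hg.hk hg.hex hg.hdc hg.hR hg.hM hg.hrb
    hg.hε hg.hδ n0 j A H D s w τ ρ d z hbase hz hd (q : ℝ) (Or.inr (h3 (by
      rw [Real.dist_eq, abs_lt]
      constructor <;> linarith))) N
  exact absurd (hN n hn) (not_lt.mpr hle)

end Pool.Agent.FrUP
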