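import Pool.Agent.FrNar.USnd1
import Pool.Agent.FrEight.Frz

/-! Soundness of the certificates. -/

set_option autoImplicit false

namespace Pool.Agent.FrUP

open Complex Filter Topology
open Pool.Agent.DD7719.M Pool.Agent.DD7719.M.GS Pool.Agent.DD7719

variable {k : ℕ}

/-- **Soundness of the certificates.** -/
theorem certFF_sound (l c : Fin k → ℂ) (ex : Fin k → ℕ) (R M Nb : ℕ) (ε δ : ℝ) (v : ℕ → ℝ)
    (hg : GoodD k l c ex R M ε δ v) (X : ℝ) (hX : 0 < X) (e : ℕ)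
    (hup : ∀ x : ℚ, X ≤ (x : ℝ) → ∃ N : ℕ, ∀ n, N ≤ n → 0 < (fs l c ex (x : ℝ) n).re)
    (hsep : SepW (fun x n => (fs l c ex x n).re) (Set.range l) X e) :
    ¬ CertFF k l c ex M Nb ε δ X e := by
  rintro ⟨n0, j, A, H, D, s, w, τ, ρ, d, z, z', hbase, hz, hz', hd, hQ⟩
  have hn0 : 0 < n0 := hbase.1
  have hkj : k ≤ j := hbase.2.2.1
  have hexj : ∀ i, ex i ≤ j := fun i => (hg.hex i).le.trans hkj
  have hρ0 : 0 ≤ ρ := by
    obtain ⟨_, _, _, _, _, _, _, _, _, _, _, _, _, hρ, _⟩ := hbase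
    exact hρ
  -- the level is positive
  have hρ : 0 < ρ := by
    refine lt_of_le_of_ne hρ0 fun h0 => ?_
    obtain ⟨q, hq1, -⟩ := exists_rat_btwn (show X < X + 1 by linarith)
    obtain ⟨N, hN⟩ := hup q hq1.le
    obtain ⟨n, hn, hle⟩ := certX_sound_at l c ex R M Nb ε δ hg.hk hg.hex hg.hdc hg.hR hg.hM hg.hrb
      hg.hε hg.hδ n0 j A H D s w τ ρ d z hbase hz hd (q : ℝ) (Or.inl h0.symm) N
    exact absurd (hN n hn) (not_lt.mpr hle)
  obtain ⟨x, x', hx, hx', hne, hlast⟩ := hQ.resolve_left hρ.ne'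
  have hnn : ∀ y : ℝ, X ≤ y → ∀ z : Fin k → ℂ, (∀ t, ‖z t‖ = 1) →
      0 ≤ (LevX l c ex A s j ρ y z).re := fun y hy z hz =>
    levX_nonneg_of_up l c ex R M Nb ε δ v hg X hup n0 j A H D s w τ ρ d hbase hd z hz y hy
  -- the frozen data
  have hgf : ∀ y : ℝ, GoodD k l (fc l c ex y) (fun _ => 0) R M ε δ
      (fun n => (fs l c ex y n).re) := fun y => goodD_frz l c ex R M ε δ v hg y
  have hbf : ∀ y : ℝ, BaseF k l (fc l c ex y) (fun _ => 0) M Nb ε δ n0 j A H D s w τ ρ 0 :=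
    fun y => (base_frz l c ex hg.hex hg.hdc M Nb ε δ n0 j A H D s w τ ρ d hd hbase y).1
  have hlf : ∀ (y : ℝ) (z : Fin k → ℂ),
      LevF l (fc l c ex y) (fun _ => 0) A s j 0 ρ z = LevX l c ex A s j ρ y z := fun y z =>
    levF_frz l c ex A s j hexj ρ hρ y z
  obtain ⟨N, hN, hT⟩ := hsep
  obtain ⟨ρJ, hρJ, hB, hcase⟩ := hT (j % N) (Nat.mod_lt _ hN)
  -- the growth rate
  have hrho : ρJ = ρ ^ N := by
    obtain ⟨B, hB'⟩ := hB x' hx'
    refine nar_rho l (fc l c ex x') (fun _ => 0) R M Nb ε δ _ (hgf x') n0 j A H D s w τ ρ 0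
      (hbf x') hρ z' hz' (by rw [hlf]; exact hne) N hN ρJ B hρJ hB'
      (not_tendsto_of_sep (fun n => (fs l c ex x' n).re) N (j % N) hN ρJ hρJ B hB' (x' ^ e) (pow_pos (hX.trans_le hx') _) ?_
        (j / N) n0 hn0)
    rcases hcase with hl | ⟨a, -, b, -, hab, hnt, hs⟩
    · exact Or.inl (hl x' hx')
    · exact Or.inr ⟨a, b, hab, hnt, hs x' hx'⟩
  have happ : ∀ (y : ℝ) (z : Fin k → ℂ), (∀ t, ‖z t‖ = 1) → ∀ κ : ℝ, 0 < κ → ∀ N1, ∃ m, N1 ≤ m ∧
      |(fun n => (fs l c ex y n).re) (N * m + j % N) / ρJ ^ m -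
        (LevF l (fc l c ex y) (fun _ => 0) A s j 0 ρ z).re / ρJ ^ (j / N)| ≤ κ ∧
      ∀ i i', ‖l i‖ = ‖l i'‖ → l i' ≠ 0 → ‖(l i / l i') ^ (N * m + j % N) -
        (l i / l i') ^ j * (Wt A s z i / Wt A s z i')‖ ≤ κ := fun y z hz κ hκ N1 =>
    nar_app l (fc l c ex y) (fun _ => 0) R M Nb ε δ _ (hgf y) n0 j A H D s w τ ρ (hbf y) hρ N hN
      ρJ hrho z hz κ hκ N1
  rcases hlast with hlt | ⟨hle, hpairs⟩
  · exact absurd (hnn x hx z hz) (not_le.mpr hlt)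
  have h0 : (LevX l c ex A s j ρ x z).re = 0 := le_antisymm hle (hnn x hx z hz)
  rcases hcase with hl | ⟨a, ⟨i, rfl⟩, b, ⟨i', rfl⟩, hab, hnt, hs⟩
  · -- positive liminf
    have hl1 := hl x hx
    obtain ⟨B, hB'⟩ := hB x hx
    have hge : ∀ m : ℕ, -B ≤ (fs l c ex x (N * m + j % N)).re / ρJ ^ m := by
      intro m
      rw [le_div_iff₀ (by positivity)]
      have := (abs_le.mp (hB' m)).1
      linarith
    have hbelow : IsBoundedUnder (· ≥ ·) atTop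
        (fun m : ℕ => (fs l c ex x (N * m + j % N)).re / ρJ ^ m) :=
      ⟨-B, eventually_map.mpr (Eventually.of_forall hge)⟩
    have hev := eventually_lt_of_lt_liminf (half_lt_self hl1) hbelow
    rw [eventually_atTop] at hev
    obtain ⟨N1, hN1⟩ := hev
    obtain ⟨m, hm, h1, -⟩ := happ x z hz _ (half_pos hl1) N1
    rw [hlf, h0, zero_div, sub_zero] at h1
    have h2 := hN1 m hm
    have h3 := (le_abs_self _).trans h1
    exact absurd h3 (not_le.mpr h2)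
  · have hb0' : l i' ≠ 0 := by
      intro h0
      rw [h0, norm_zero, norm_eq_zero] at hab
      exact hnt 1 one_pos (by rw [hab, h0])
    obtain ⟨x2, z1, z2, hx2, hz1, hz2, hF1, hF2, hχ, ht⟩ := hpairs i i' hab (hnt n0 hn0)
    have hm1 := contact_of_zero l (fc l c ex x2) (fun _ => 0) (fun n => (fs l c ex x2 n).re) N j ρJ
      A s 0 ρ i i' hab hb0' (happ x2) z1 hz1 (by
        rw [hlf]
        exact le_antisymm hF1 (hnn x2 hx2 z1 hz1))
    have hm2 := contact_of_zero l (fc l c ex x2) (fun _ => 0) (fun n => (fs l c ex x2 n).re) N j ρJ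
      A s 0 ρ i i' hab hb0' (happ x2) z2 hz2 (by
        rw [hlf]
        exact le_antisymm hF2 (hnn x2 hx2 z2 hz2))
    have hγ := unit_of_ratio _ _ hab hb0'
    have hnorm : ‖(l i / l i') ^ j * (Wt A s z1 i / Wt A s z1 i') -
        (l i / l i') ^ j * (Wt A s z2 i / Wt A s z2 i')‖ =
        ‖Wt A s z1 i / Wt A s z1 i' - Wt A s z2 i / Wt A s z2 i'‖ := by
      rw [← mul_sub, norm_mul, norm_pow, hγ, one_pow, one_mul]
    have hγj : (l i / l i') ^ j ≠ 0 := by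
      rw [← norm_ne_zero_iff, norm_pow, hγ, one_pow]
      exact one_ne_zero
    have h1 := hs x2 hx2 _ hm1 _ hm2 (fun h => hχ (mul_left_cancel₀ hγj h))
    rw [hnorm] at h1
    exact absurd ht (not_lt.mpr h1)

end Pool.Agent.FrUP
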